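import Mathlib

/-!
Fox derivatives, the two filtrations (powers of the augmentation ideal, degree) of a free algebra
of finite rank, and the comparison of two homomorphisms which agree to high order.
-/

namespace Rfa

open Matrix

variable {k : Type*} [Field k] {X : Type*} [Fintype X] [DecidableEq X]

/-- the free algebra -/
abbrev F (k : Type*) [Field k] (X : Type*) := FreeAlgebra k X

/-- the derivative as the corner of a representation by `2 × 2` matrices -/
noncomputable def Th (ε : F k X →ₐ[k] k) (x : X) : F k X →ₐ[k] Matrix (Fin 2) (Fin 2) (F k X) :=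
  FreeAlgebra.lift k (fun y => !![FreeAlgebra.ι k y, if y = x then 1 else 0; 0,
    algebraMap k (F k X) (ε (FreeAlgebra.ι k y))])

/-- the right Fox derivative of the variable `x` with respect to the augmentation `ε` -/
noncomputable def D (ε : F k X →ₐ[k] k) (x : X) (f : F k X) : F k X := Th ε x f 0 1

omit [Fintype X] in
lemma Th_spec (ε : F k X →ₐ[k] k) (x : X) (f : F k X) :
    Th ε x f 0 0 = f ∧ Th ε x f 1 0 = 0 ∧ Th ε x f 1 1 = algebraMap k (F k X) (ε f) := by
  induction f using FreeAlgebra.induction with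
  | grade0 r => simp [Matrix.algebraMap_matrix_apply]
  | grade1 y => simp [Th]
  | mul a b ha hb =>
    obtain ⟨a1, a2, a3⟩ := ha
    obtain ⟨b1, b2, b3⟩ := hb
    simp [Matrix.mul_apply, Fin.sum_univ_two, a1, a2, a3, b1, b2, b3]
  | add a b ha hb =>
    obtain ⟨a1, a2, a3⟩ := ha
    obtain ⟨b1, b2, b3⟩ := hb
    simp [a1, a2, a3, b1, b2, b3]

omit [Fintype X] in
lemma D_mul (ε : F k X →ₐ[k] k) (x : X) (f g : F k X) :
    D ε x (f * g) = f * D ε x g + D ε x f * algebraMap k (F k X) (ε g) := by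
  obtain ⟨a1, a2, a3⟩ := Th_spec ε x f
  obtain ⟨b1, b2, b3⟩ := Th_spec ε x g
  simp [D, Matrix.mul_apply, Fin.sum_univ_two, a1, b3]

omit [Fintype X] in
lemma D_add (ε : F k X →ₐ[k] k) (x : X) (f g : F k X) :
    D ε x (f + g) = D ε x f + D ε x g := by simp [D]

omit [Fintype X] in
lemma D_sub (ε : F k X →ₐ[k] k) (x : X) (f g : F k X) :
    D ε x (f - g) = D ε x f - D ε x g := by simp [D]

omit [Fintype X] in
lemma D_neg (ε : F k X →ₐ[k] k) (x : X) (f : F k X) :
    D ε x (-f) = - D ε x f := by simp [D]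

omit [Fintype X] in
lemma D_zero (ε : F k X →ₐ[k] k) (x : X) : D ε x (0 : F k X) = 0 := by simp [D]

omit [Fintype X] in
lemma D_algebraMap (ε : F k X →ₐ[k] k) (x : X) (c : k) :
    D ε x (algebraMap k (F k X) c) = 0 := by
  simp [D, Matrix.algebraMap_matrix_apply]

omit [Fintype X] in
lemma D_smul (ε : F k X →ₐ[k] k) (x : X) (c : k) (f : F k X) :
    D ε x (c • f) = c • D ε x f := by simp [D]

omit [Fintype X] in
lemma D_ι (ε : F k X →ₐ[k] k) (x y : X) :
    D ε x (FreeAlgebra.ι k y) = if y = x then 1 else 0 := by simp [D, Th]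

/-- the centred variable -/
noncomputable def cx (ε : F k X →ₐ[k] k) (x : X) : F k X :=
  FreeAlgebra.ι k x - algebraMap k (F k X) (ε (FreeAlgebra.ι k x))

omit [Fintype X] [DecidableEq X] in
lemma ε_cx (ε : F k X →ₐ[k] k) (x : X) : ε (cx ε x) = 0 := by simp [cx]

omit [Fintype X] in
/-- a polynomial is its value plus the sum of its derivatives times the centred variables -/
lemma recon' (ε : F k X →ₐ[k] k) (f : F k X) : ∃ s : Finset X, ∀ t, s ⊆ t →
    (∀ x ∉ t, D ε x f = 0) ∧ f = algebraMap k (F k X) (ε f) + ∑ x ∈ t, D ε x f * cx ε x := by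
  induction f using FreeAlgebra.induction with
  | grade0 r => exact ⟨∅, fun t _ => ⟨fun x _ => D_algebraMap ε x r, by simp [D_algebraMap]⟩⟩
  | grade1 y =>
    refine ⟨{y}, fun t ht => ⟨fun x hx => ?_, ?_⟩⟩
    · rw [D_ι, if_neg]
      rintro rfl
      exact hx (ht (Finset.mem_singleton_self _))
    · have hy : y ∈ t := ht (Finset.mem_singleton_self _)
      rw [Finset.sum_eq_single y]
      · rw [D_ι, if_pos rfl, one_mul, cx]; abel
      · intro b _ hb
        rw [D_ι, if_neg (Ne.symm hb), zero_mul]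
      · exact fun h => absurd hy h
  | mul a b ha hb =>
    obtain ⟨sa, hsa⟩ := ha
    obtain ⟨sb, hsb⟩ := hb
    refine ⟨sa ∪ sb, fun t ht => ?_⟩
    obtain ⟨ha1, ha⟩ := hsa t (Finset.union_subset_left ht)
    obtain ⟨hb1, hb⟩ := hsb t (Finset.union_subset_right ht)
    refine ⟨fun x hx => by rw [D_mul, ha1 x hx, hb1 x hx]; simp, ?_⟩
    have h1 : ∑ x ∈ t, D ε x (a * b) * cx ε x = a * (∑ x ∈ t, D ε x b * cx ε x)
        + (∑ x ∈ t, D ε x a * cx ε x) * algebraMap k (F k X) (ε b) := by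
      rw [Finset.mul_sum, Finset.sum_mul, ← Finset.sum_add_distrib]
      refine Finset.sum_congr rfl fun x _ => ?_
      rw [D_mul, add_mul, mul_assoc, mul_assoc, mul_assoc, (Algebra.commutes (ε b) (cx ε x)).symm]
    rw [h1, map_mul, map_mul]
    have h2 : ∑ x ∈ t, D ε x b * cx ε x = b - algebraMap k (F k X) (ε b) := by
      rw [eq_sub_iff_add_eq, add_comm]; exact hb.symm
    have h3 : ∑ x ∈ t, D ε x a * cx ε x = a - algebraMap k (F k X) (ε a) := by
      rw [eq_sub_iff_add_eq, add_comm]; exact ha.symm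
    rw [h2, h3]
    noncomm_ring
  | add a b ha hb =>
    obtain ⟨sa, hsa⟩ := ha
    obtain ⟨sb, hsb⟩ := hb
    refine ⟨sa ∪ sb, fun t ht => ?_⟩
    obtain ⟨ha1, ha⟩ := hsa t (Finset.union_subset_left ht)
    obtain ⟨hb1, hb⟩ := hsb t (Finset.union_subset_right ht)
    refine ⟨fun x hx => by rw [D_add, ha1 x hx, hb1 x hx, add_zero], ?_⟩
    simp only [D_add, add_mul, Finset.sum_add_distrib, map_add]
    nth_rw 1 [ha, hb]
    abel

/-- a polynomial is its value plus the sum of its derivatives times the centred variables -/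
lemma recon (ε : F k X →ₐ[k] k) (f : F k X) :
    f = algebraMap k (F k X) (ε f) + ∑ x, D ε x f * cx ε x := by
  obtain ⟨s, hs⟩ := recon' ε f
  exact (hs Finset.univ (Finset.subset_univ _)).2

/-- the powers of the augmentation ideal -/
def I (ε : F k X →ₐ[k] k) : ℕ → Submodule k (F k X)
  | 0 => ⊤
  | m + 1 =>
    { carrier := {f | ε f = 0 ∧ ∀ x, D ε x f ∈ I ε m}
      add_mem' := fun {a b} ha hb => ⟨by simp [ha.1, hb.1], fun x => by
        rw [D_add]; exact add_mem (ha.2 x) (hb.2 x)⟩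
      zero_mem' := ⟨map_zero _, fun x => by rw [D_zero]; exact zero_mem _⟩
      smul_mem' := fun c f hf => ⟨by simp [hf.1], fun x => by
        rw [D_smul]; exact Submodule.smul_mem _ _ (hf.2 x)⟩ }

/-- the filtration by degree -/
def Dg (ε : F k X →ₐ[k] k) : ℕ → Submodule k (F k X)
  | 0 => Subalgebra.toSubmodule (⊥ : Subalgebra k (F k X))
  | m + 1 =>
    { carrier := {f | ∀ x, D ε x f ∈ Dg ε m}
      add_mem' := fun {a b} ha hb => fun x => by
        rw [D_add]; exact add_mem (ha x) (hb x)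
      zero_mem' := fun x => by rw [D_zero]; exact zero_mem _
      smul_mem' := fun c f hf => fun x => by
        rw [D_smul]; exact Submodule.smul_mem _ _ (hf x) }

omit [Fintype X] in
lemma mem_I_zero (ε : F k X →ₐ[k] k) (f : F k X) : f ∈ I ε 0 := Submodule.mem_top

omit [Fintype X] in
lemma mem_I_succ (ε : F k X →ₐ[k] k) (m : ℕ) (f : F k X) :
    f ∈ I ε (m + 1) ↔ ε f = 0 ∧ ∀ x, D ε x f ∈ I ε m := Iff.rfl

omit [Fintype X] in
lemma mem_Dg_succ (ε : F k X →ₐ[k] k) (m : ℕ) (f : F k X) :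
    f ∈ Dg ε (m + 1) ↔ ∀ x, D ε x f ∈ Dg ε m := Iff.rfl

omit [Fintype X] in
lemma mem_Dg_zero (ε : F k X →ₐ[k] k) (f : F k X) :
    f ∈ Dg ε 0 ↔ ∃ c : k, algebraMap k (F k X) c = f := by
  show f ∈ (⊥ : Subalgebra k (F k X)) ↔ _
  rw [Algebra.mem_bot]
  exact Iff.rfl

omit [Fintype X] in
lemma I_one (ε : F k X →ₐ[k] k) (f : F k X) : f ∈ I ε 1 ↔ ε f = 0 :=
  ⟨fun h => h.1, fun h => ⟨h, fun _ => mem_I_zero _ _⟩⟩

omit [Fintype X] in
lemma I_anti (ε : F k X →ₐ[k] k) (m : ℕ) : I ε (m + 1) ≤ I ε m := by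
  induction m with
  | zero => exact fun f _ => mem_I_zero _ _
  | succ m ih => exact fun f hf => ⟨hf.1, fun x => ih (hf.2 x)⟩

omit [Fintype X] in
lemma I_anti' (ε : F k X →ₐ[k] k) {m n : ℕ} (h : m ≤ n) : I ε n ≤ I ε m := by
  induction h with
  | refl => exact le_rfl
  | step _ ih => exact (I_anti ε _).trans ih

omit [Fintype X] in
lemma smul_mem_I (ε : F k X →ₐ[k] k) {m : ℕ} {f : F k X} (h : f ∈ I ε m) (c : k) :
    f * algebraMap k (F k X) c ∈ I ε m := by
  rw [← Algebra.commutes, ← Algebra.smul_def]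
  exact Submodule.smul_mem _ _ h

omit [Fintype X] in
lemma I_mul_right (ε : F k X →ₐ[k] k) (m : ℕ) : ∀ f ∈ I ε m, ∀ g, f * g ∈ I ε m := by
  induction m with
  | zero => exact fun f _ g => mem_I_zero _ _
  | succ m ih =>
    intro f hf g
    refine ⟨by simp [hf.1], fun x => ?_⟩
    rw [D_mul]
    exact add_mem (ih f (I_anti ε m hf) _) (smul_mem_I ε (hf.2 x) _)

omit [Fintype X] in
lemma I_mul (ε : F k X →ₐ[k] k) (m n : ℕ) : ∀ f ∈ I ε m, ∀ g ∈ I ε n, f * g ∈ I ε (m + n) := by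
  induction n with
  | zero => exact fun f hf g _ => I_mul_right ε m f hf g
  | succ n ih =>
    intro f hf g hg
    refine ⟨by simp [hg.1], fun x => ?_⟩
    rw [D_mul, hg.1, map_zero, mul_zero, add_zero]
    exact ih f hf _ (hg.2 x)

omit [Fintype X] in
lemma I_mul_left (ε : F k X →ₐ[k] k) (m : ℕ) (f : F k X) {g : F k X} (hg : g ∈ I ε m) :
    f * g ∈ I ε m := by
  have := I_mul ε 0 m f (mem_I_zero _ _) g hg
  rwa [Nat.zero_add] at this

omit [Fintype X] in
lemma Dg_mono (ε : F k X →ₐ[k] k) (m : ℕ) : Dg ε m ≤ Dg ε (m + 1) := by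
  induction m with
  | zero =>
    intro f hf x
    obtain ⟨c, rfl⟩ := (mem_Dg_zero ε f).1 hf
    rw [D_algebraMap]
    exact zero_mem _
  | succ m ih => exact fun f hf x => ih (hf x)

omit [Fintype X] in
lemma Dg_mono' (ε : F k X →ₐ[k] k) {m n : ℕ} (h : m ≤ n) : Dg ε m ≤ Dg ε n := by
  induction h with
  | refl => exact le_rfl
  | step _ ih => exact ih.trans (Dg_mono ε _)

omit [Fintype X] in
lemma smul_mem_Dg (ε : F k X →ₐ[k] k) {m : ℕ} {f : F k X} (h : f ∈ Dg ε m) (c : k) :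
    f * algebraMap k (F k X) c ∈ Dg ε m := by
  rw [← Algebra.commutes, ← Algebra.smul_def]
  exact Submodule.smul_mem _ _ h

omit [Fintype X] in
lemma D_mem_Dg (ε : F k X →ₐ[k] k) {m : ℕ} {f : F k X} (h : f ∈ Dg ε m) (x : X) :
    D ε x f ∈ Dg ε m := Dg_mono ε m h x

omit [Fintype X] in
lemma Dg_mul (ε : F k X →ₐ[k] k) (m n : ℕ) :
    ∀ f ∈ Dg ε m, ∀ g ∈ Dg ε n, f * g ∈ Dg ε (m + n) := by
  induction n with
  | zero =>
    intro f hf g hg
    obtain ⟨c, rfl⟩ := (mem_Dg_zero ε g).1 hg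
    exact smul_mem_Dg ε hf c
  | succ n ih =>
    intro f hf g hg x
    rw [D_mul]
    exact add_mem (ih f hf _ (hg x))
      (smul_mem_Dg ε (Dg_mono' ε (Nat.le_add_right m n) (D_mem_Dg ε hf x)) _)

omit [Fintype X] in
lemma exists_Dg (ε : F k X →ₐ[k] k) (f : F k X) : ∃ m, f ∈ Dg ε m := by
  induction f using FreeAlgebra.induction with
  | grade0 r => exact ⟨0, (mem_Dg_zero ε _).2 ⟨r, rfl⟩⟩
  | grade1 y =>
    refine ⟨1, fun x => ?_⟩
    rw [D_ι]
    split_ifs
    · exact (mem_Dg_zero ε _).2 ⟨1, map_one _⟩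
    · exact zero_mem _
  | mul a b ha hb =>
    obtain ⟨m, hm⟩ := ha
    obtain ⟨n, hn⟩ := hb
    exact ⟨m + n, Dg_mul ε m n a hm b hn⟩
  | add a b ha hb =>
    obtain ⟨m, hm⟩ := ha
    obtain ⟨n, hn⟩ := hb
    exact ⟨max m n, add_mem (Dg_mono' ε (le_max_left _ _) hm) (Dg_mono' ε (le_max_right _ _) hn)⟩

omit [Fintype X] in
lemma eq_const (ε : F k X →ₐ[k] k) {f : F k X} (h : ∀ x, D ε x f = 0) :
    f = algebraMap k (F k X) (ε f) := by
  obtain ⟨s, hs⟩ := recon' ε f
  have h1 := (hs s (Finset.Subset.refl _)).2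
  rw [Finset.sum_eq_zero (fun x _ => by rw [h x, zero_mul]), add_zero] at h1
  exact h1

omit [Fintype X] in
lemma eq_zero_of_D (ε : F k X →ₐ[k] k) {f : F k X} (h : ∀ x, D ε x f = 0) (h0 : ε f = 0) :
    f = 0 := by
  rw [eq_const ε h, h0, map_zero]

omit [Fintype X] in
lemma eq_zero_of_I_Dg (ε : F k X →ₐ[k] k) (m : ℕ) :
    ∀ f ∈ Dg ε m, f ∈ I ε (m + 1) → f = 0 := by
  induction m with
  | zero =>
    intro f hf hI
    obtain ⟨c, rfl⟩ := (mem_Dg_zero ε f).1 hf
    have := hI.1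
    rw [AlgHom.commutes] at this
    have h2 : c = 0 := by simpa using this
    rw [h2, map_zero]
  | succ m ih =>
    intro f hf hI
    exact eq_zero_of_D ε (fun x => ih _ (hf x) (hI.2 x)) hI.1

omit [Fintype X] in
/-- the intersection of the powers of the augmentation ideal is zero -/
lemma eq_zero_of_I (ε : F k X →ₐ[k] k) {f : F k X} (h : ∀ m, f ∈ I ε m) : f = 0 := by
  obtain ⟨m, hm⟩ := exists_Dg ε f
  exact eq_zero_of_I_Dg ε m f hm (h _)

omit [Fintype X] in
lemma cx_mem (ε : F k X →ₐ[k] k) (x : X) : cx ε x ∈ I ε 1 := (I_one ε _).2 (ε_cx ε x)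

omit [Fintype X] in
/-- homomorphisms compatible with the augmentations preserve the filtration -/
lemma map_I {Y : Type*} [DecidableEq Y] (ε : F k X →ₐ[k] k) (ε' : F k Y →ₐ[k] k)
    (φ : F k X →ₐ[k] F k Y) (hφ : ∀ f, ε' (φ f) = ε f) (m : ℕ) :
    ∀ f ∈ I ε m, φ f ∈ I ε' m := by
  induction m with
  | zero => exact fun f _ => mem_I_zero _ _
  | succ m ih =>
    intro f hf
    obtain ⟨t, ht⟩ := recon' ε f
    have h1 := (ht t (Finset.Subset.refl _)).2
    rw [hf.1, map_zero, zero_add] at h1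
    have h2 := congrArg φ h1
    rw [map_sum] at h2
    rw [h2]
    refine sum_mem fun x _ => ?_
    rw [map_mul]
    exact I_mul ε' m 1 _ (ih _ (hf.2 x)) _ ((I_one ε' _).2 (by rw [hφ, ε_cx]))

omit [Fintype X] in
/-- two homomorphisms which agree on the variables up to order `s + 1` agree on the `m`-th power of
the augmentation ideal up to order `m + s` -/
lemma sub_mem_I {Y : Type*} [DecidableEq Y] (ε : F k X →ₐ[k] k) (ε' : F k Y →ₐ[k] k)
    (φ ψ : F k X →ₐ[k] F k Y) (hφ : ∀ f, ε' (φ f) = ε f) (hψ : ∀ f, ε' (ψ f) = ε f) (s : ℕ)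
    (h : ∀ x, φ (FreeAlgebra.ι k x) - ψ (FreeAlgebra.ι k x) ∈ I ε' (s + 1)) (m : ℕ) :
    ∀ f ∈ I ε m, φ f - ψ f ∈ I ε' (m + s) := by
  induction m with
  | zero =>
    intro f _
    rw [Nat.zero_add]
    induction f using FreeAlgebra.induction with
    | grade0 r => simp
    | grade1 y => exact I_anti ε' s (h y)
    | mul a b ha hb =>
      have h1 : φ (a * b) - ψ (a * b) = φ a * (φ b - ψ b) + (φ a - ψ a) * ψ b := by
        rw [map_mul, map_mul]; noncomm_ring
      rw [h1]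
      exact add_mem (I_mul_left ε' s _ (hb (mem_I_zero _ _)))
        (I_mul_right ε' s _ (ha (mem_I_zero _ _)) _)
    | add a b ha hb =>
      have h1 : φ (a + b) - ψ (a + b) = (φ a - ψ a) + (φ b - ψ b) := by
        rw [map_add, map_add]; abel
      rw [h1]
      exact add_mem (ha (mem_I_zero _ _)) (hb (mem_I_zero _ _))
  | succ m ih =>
    intro f hf
    obtain ⟨t, ht⟩ := recon' ε f
    have hfe := (ht t (Finset.Subset.refl _)).2
    rw [hf.1, map_zero, zero_add] at hfe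
    have h1 : φ f - ψ f = ∑ x ∈ t, (φ (D ε x f) * (φ (cx ε x) - ψ (cx ε x))
        + (φ (D ε x f) - ψ (D ε x f)) * ψ (cx ε x)) := by
      have e1 : φ f = ∑ x ∈ t, φ (D ε x f) * φ (cx ε x) := by
        have := congrArg φ hfe
        rw [this, map_sum]
        exact Finset.sum_congr rfl fun x _ => map_mul _ _ _
      have e2 : ψ f = ∑ x ∈ t, ψ (D ε x f) * ψ (cx ε x) := by
        have := congrArg ψ hfe
        rw [this, map_sum]
        exact Finset.sum_congr rfl fun x _ => map_mul _ _ _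
      rw [e1, e2, ← Finset.sum_sub_distrib]
      refine Finset.sum_congr rfl fun x _ => ?_
      noncomm_ring
    rw [h1]
    refine sum_mem fun x _ => add_mem ?_ ?_
    · have h2 : φ (cx ε x) - ψ (cx ε x) ∈ I ε' (s + 1) := by
        have : φ (cx ε x) - ψ (cx ε x) = φ (FreeAlgebra.ι k x) - ψ (FreeAlgebra.ι k x) := by
          simp [cx]
        rw [this]; exact h x
      have h3 := I_mul ε' m (s + 1) _ (map_I ε ε' φ hφ m _ (hf.2 x)) _ h2
      rwa [show m + (s + 1) = m + 1 + s by ring] at h3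
    · have h3 := I_mul ε' (m + s) 1 _ (ih _ (hf.2 x)) _
        ((I_one ε' (ψ (cx ε x))).2 (by rw [hψ, ε_cx]))
      rwa [show m + s + 1 = m + 1 + s by ring] at h3

end Rfa
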