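import Pool.Agent.Lib.Rfa.Hom

/-!
The linear, quadratic and cubic parts of a retraction of degree at most three.
-/

namespace Rfa

variable {k : Type*} [Field k] {X : Type*} [DecidableEq X] [Fintype X]

lemma exists_basis (ε : F k X →ₐ[k] k) :
    ∃ b : Module.Basis X k (H ε 1), ∀ x, ((b x : H ε 1) : F k X) = cx ε x := by
  have hli : LinearIndependent k (fun x => (⟨cx ε x, cx_mem_H ε x⟩ : H ε 1)) := by
    rw [Fintype.linearIndependent_iff]
    intro g hg x
    have h1 : ∑ y, g y • cx ε y = 0 := by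
      have := congrArg (fun v : H ε 1 => (v : F k X)) hg
      simpa using this
    have h2 := congrArg (fun f => ε (D ε x f)) h1
    simp only [D_sum, D_smul, map_sum, map_smul, D_zero, map_zero] at h2
    have h3 : ∀ y, ε (D ε x (cx ε y)) = if y = x then 1 else 0 := fun y => lam_cx ε x y
    simp only [h3] at h2
    simpa using h2
  have hsp : ⊤ ≤ Submodule.span k (Set.range (fun x => (⟨cx ε x, cx_mem_H ε x⟩ : H ε 1))) := by
    rintro v -
    have h1 := recon ε (v : F k X)
    rw [ε_H ε v.2, map_zero, zero_add] at h1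
    choose c hc using fun x => H_zero ε (D_mem_H ε v.2 x)
    have h2 : v = ∑ x, c x • (⟨cx ε x, cx_mem_H ε x⟩ : H ε 1) := by
      apply Subtype.ext
      rw [h1]
      simp only [Submodule.coe_sum, Submodule.coe_smul]
      refine Finset.sum_congr rfl fun x _ => ?_
      rw [← hc x, Algebra.smul_def]
    rw [h2]
    exact sum_mem fun x _ => Submodule.smul_mem _ _ (Submodule.subset_span ⟨x, rfl⟩)
  exact ⟨Module.Basis.mk hli hsp, fun x => by rw [Module.Basis.mk_apply]⟩

/-- the algebra endomorphism which extends a linear map of the centred linear forms -/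
noncomputable def ext (ε : F k X →ₐ[k] k) (T : H ε 1 →ₗ[k] F k X) : F k X →ₐ[k] F k X :=
  FreeAlgebra.lift k (fun x => algebraMap k _ (ε (FreeAlgebra.ι k x)) + T ⟨cx ε x, cx_mem_H ε x⟩)

lemma ext_cx (ε : F k X →ₐ[k] k) (T : H ε 1 →ₗ[k] F k X) (x : X) :
    ext ε T (cx ε x) = T ⟨cx ε x, cx_mem_H ε x⟩ := by
  have h1 : ext ε T (cx ε x) = ext ε T (FreeAlgebra.ι k x)
    - ext ε T (algebraMap k _ (ε (FreeAlgebra.ι k x))) := map_sub _ _ _
  have h2 : ext ε T (FreeAlgebra.ι k x) = algebraMap k _ (ε (FreeAlgebra.ι k x))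
    + T ⟨cx ε x, cx_mem_H ε x⟩ := FreeAlgebra.lift_ι_apply _ _
  rw [h1, h2, AlgHom.commutes]
  abel

lemma ext_v (ε : F k X →ₐ[k] k) (T : H ε 1 →ₗ[k] F k X) (v : H ε 1) :
    ext ε T (v : F k X) = T v := by
  obtain ⟨b, hb⟩ := exists_basis ε
  have h : (ext ε T).toLinearMap.comp (H ε 1).subtype = T := by
    refine b.ext fun x => ?_
    show ext ε T ((b x : H ε 1) : F k X) = T (b x)
    have h1 : b x = ⟨cx ε x, cx_mem_H ε x⟩ := Subtype.ext (hb x)
    rw [h1]
    exact ext_cx ε T x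
  exact LinearMap.congr_fun h v

/-- the three parts of a retraction of degree at most three -/
lemma exists_parts (π : F k X →ₐ[k] F k X) (ε : F k X →ₐ[k] k) (hε : ∀ f, ε (π f) = ε f)
    (hdeg : ∀ v : H ε 1, π (v : F k X) ∈ Dg ε 3) :
    ∃ (L : H ε 1 →ₗ[k] H ε 1) (q : H ε 1 →ₗ[k] H ε 2) (c : H ε 1 →ₗ[k] H ε 3),
      ∀ v : H ε 1, π (v : F k X) = (L v : F k X) + (q v : F k X) + (c v : F k X) := by
  obtain ⟨b, hb⟩ := exists_basis ε
  have hex : ∀ x, ∃ (l : H ε 1) (q : H ε 2) (c : H ε 3),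
      π ((b x : H ε 1) : F k X) = (l : F k X) + (q : F k X) + (c : F k X) := fun x => by
    obtain ⟨f1, h1, f2, h2, f3, h3, h⟩ := decomp3 ε _ (hdeg (b x)) (by
      rw [hε]; exact ε_H ε (b x).2)
    exact ⟨⟨f1, h1⟩, ⟨f2, h2⟩, ⟨f3, h3⟩, h⟩
  choose l q c hlqc using hex
  refine ⟨b.constr k l, b.constr k q, b.constr k c, ?_⟩
  have h : π.toLinearMap.comp (H ε 1).subtype = (H ε 1).subtype.comp (b.constr k l)
      + (H ε 2).subtype.comp (b.constr k q) + (H ε 3).subtype.comp (b.constr k c) := by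
    refine b.ext fun x => ?_
    simp only [LinearMap.add_apply, LinearMap.comp_apply, Module.Basis.constr_basis]
    exact hlqc x
  exact fun v => LinearMap.congr_fun h v

section Parts

variable (π : F k X →ₐ[k] F k X) (hπ : ∀ f, π (π f) = π f) (ε : F k X →ₐ[k] k)
  (hε : ∀ f, ε (π f) = ε f) (L : H ε 1 →ₗ[k] H ε 1) (q : H ε 1 →ₗ[k] H ε 2)
  (c : H ε 1 →ₗ[k] H ε 3)
  (hw : ∀ v : H ε 1, π (v : F k X) = (L v : F k X) + (q v : F k X) + (c v : F k X))

/-- the extension of the linear part -/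
noncomputable abbrev eL : F k X →ₐ[k] F k X := ext ε ((H ε 1).subtype.comp L)

/-- the extension of the cubic part -/
noncomputable abbrev eC : F k X →ₐ[k] F k X := ext ε ((H ε 3).subtype.comp c)

lemma eL_v (v : H ε 1) : eL ε L (v : F k X) = (L v : F k X) := ext_v ε _ v

lemma eC_v (v : H ε 1) : eC ε c (v : F k X) = (c v : F k X) := ext_v ε _ v

lemma eL_H (j : ℕ) : ∀ f ∈ H ε j, eL ε L f ∈ H ε j := by
  induction j with
  | zero =>
    intro f hf
    obtain ⟨a, rfl⟩ := H_zero ε hf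
    rw [AlgHom.commutes]
    exact const_mem_H ε a
  | succ j ih =>
    intro f hf
    have h1 := recon ε f
    rw [ε_H ε hf, map_zero, zero_add] at h1
    rw [h1, map_sum]
    refine sum_mem fun x _ => ?_
    rw [map_mul]
    have h2 : eL ε L (cx ε x) ∈ H ε 1 := by
      rw [ext_cx]
      exact (L _).2
    exact H_mul ε (ih _ (D_mem_H ε hf x)) h2

lemma eC_H (j : ℕ) : ∀ f ∈ H ε j, eC ε c f ∈ H ε (3 * j) := by
  induction j with
  | zero =>
    intro f hf
    obtain ⟨a, rfl⟩ := H_zero ε hf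
    rw [AlgHom.commutes]
    exact const_mem_H ε a
  | succ j ih =>
    intro f hf
    have h1 := recon ε f
    rw [ε_H ε hf, map_zero, zero_add] at h1
    rw [h1, map_sum]
    refine sum_mem fun x _ => ?_
    rw [map_mul]
    have h2 : eC ε c (cx ε x) ∈ H ε 3 := by
      rw [ext_cx]
      exact (c _).2
    exact H_mul' ε (ih _ (D_mem_H ε hf x)) h2 (by ring)

include hw in
lemma w_Dg (v : H ε 1) : π (v : F k X) ∈ Dg ε 3 := by
  rw [hw]
  exact add_mem (add_mem (H_le_Dg ε (by norm_num) (L v).2) (H_le_Dg ε (by norm_num) (q v).2))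
    (H_le_Dg ε le_rfl (c v).2)

include hw in
/-- the top part -/
lemma top (j : ℕ) : ∀ f ∈ H ε (j + 1), π f - eC ε c f ∈ Dg ε (3 * j + 2) := by
  induction j with
  | zero =>
    intro f hf
    have h1 := hw ⟨f, hf⟩
    have h2 : eC ε c f = (c ⟨f, hf⟩ : F k X) := eC_v ε c ⟨f, hf⟩
    have h3 : π f - eC ε c f = (L ⟨f, hf⟩ : F k X) + (q ⟨f, hf⟩ : F k X) := by
      rw [h2]
      have h1' : π f = (L ⟨f, hf⟩ : F k X) + (q ⟨f, hf⟩ : F k X) + (c ⟨f, hf⟩ : F k X) := h1
      rw [h1']
      abel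
    rw [h3]
    exact add_mem (H_le_Dg ε (by norm_num) (L _).2) (H_le_Dg ε (by norm_num) (q _).2)
  | succ j ih =>
    intro f hf
    have h1 := recon ε f
    rw [ε_H ε hf, map_zero, zero_add] at h1
    have h2 : π f - eC ε c f = ∑ x, ((π (D ε x f) - eC ε c (D ε x f)) * π (cx ε x)
        + eC ε c (D ε x f) * (π (cx ε x) - eC ε c (cx ε x))) := by
      have e1 : π f = ∑ x, π (D ε x f) * π (cx ε x) := by
        have := congrArg π h1
        rw [this, map_sum]
        exact Finset.sum_congr rfl fun x _ => map_mul _ _ _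
      have e2 : eC ε c f = ∑ x, eC ε c (D ε x f) * eC ε c (cx ε x) := by
        have := congrArg (eC ε c) h1
        rw [this, map_sum]
        exact Finset.sum_congr rfl fun x _ => map_mul _ _ _
      rw [e1, e2, ← Finset.sum_sub_distrib]
      refine Finset.sum_congr rfl fun x _ => ?_
      noncomm_ring
    rw [h2]
    refine sum_mem fun x _ => add_mem ?_ ?_
    · have h3 := Dg_mul ε _ _ _ (ih _ (D_mem_H ε hf x)) _
        (w_Dg π ε L q c hw ⟨cx ε x, cx_mem_H ε x⟩)
      exact Dg_mono' ε (by omega) h3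
    · have h4 : π (cx ε x) - eC ε c (cx ε x) ∈ Dg ε 2 := by
        have h5 := hw ⟨cx ε x, cx_mem_H ε x⟩
        have h6 : eC ε c (cx ε x) = (c ⟨cx ε x, cx_mem_H ε x⟩ : F k X) := ext_cx ε _ x
        have h5' : π (cx ε x) = (L ⟨cx ε x, cx_mem_H ε x⟩ : F k X)
          + (q ⟨cx ε x, cx_mem_H ε x⟩ : F k X) + (c ⟨cx ε x, cx_mem_H ε x⟩ : F k X) := h5
        rw [h5', h6, add_sub_cancel_right]
        exact add_mem (H_le_Dg ε (by norm_num) (L _).2) (H_le_Dg ε (by norm_num) (q _).2)
      have h3 := Dg_mul ε _ _ _ (eC_H ε c _ _ (D_mem_H ε hf x)).2 _ h4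
      exact Dg_mono' ε (by omega) h3

include hπ hε hw in
/-- the relations in degrees one and two -/
lemma rel12 (v : H ε 1) : L (L v) = L v ∧
    ((q (L v) : H ε 2) : F k X) + eL ε L (q v : F k X) = (q v : F k X) := by
  have h1 : π (L v : F k X) + π (q v : F k X) + π (c v : F k X)
      = (L v : F k X) + (q v : F k X) + (c v : F k X) := by
    have := hπ (v : F k X)
    rw [hw v, map_add, map_add] at this
    exact this
  have hεL : ∀ f, ε (eL ε L f) = ε f := fun f => hom_eq (φ := ε.comp (eL ε L)) (ψ := ε)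
    (fun x => by
      have h2 : eL ε L (FreeAlgebra.ι k x) = algebraMap k _ (ε (FreeAlgebra.ι k x))
        + (L ⟨cx ε x, cx_mem_H ε x⟩ : F k X) := FreeAlgebra.lift_ι_apply _ _
      rw [AlgHom.comp_apply, h2, map_add, ε_H ε (L _).2, add_zero, AlgHom.commutes]
      rfl) f
  have hsub := sub_mem_I ε ε π (eL ε L) hε hεL 1 (fun x => by
    have h2 : eL ε L (FreeAlgebra.ι k x) = algebraMap k _ (ε (FreeAlgebra.ι k x))
        + (L ⟨cx ε x, cx_mem_H ε x⟩ : F k X) := FreeAlgebra.lift_ι_apply _ _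
    have h3 : π (FreeAlgebra.ι k x) = π (cx ε x) + algebraMap k _ (ε (FreeAlgebra.ι k x)) := by
      rw [cx, map_sub, AlgHom.commutes, sub_add_cancel]
    have h4 : π (cx ε x) = (L ⟨cx ε x, cx_mem_H ε x⟩ : F k X)
      + (q ⟨cx ε x, cx_mem_H ε x⟩ : F k X) + (c ⟨cx ε x, cx_mem_H ε x⟩ : F k X) :=
      hw ⟨cx ε x, cx_mem_H ε x⟩
    have h5 : π (FreeAlgebra.ι k x) - eL ε L (FreeAlgebra.ι k x)
        = (q ⟨cx ε x, cx_mem_H ε x⟩ : F k X) + (c ⟨cx ε x, cx_mem_H ε x⟩ : F k X) := by
      rw [h3, h4, h2]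
      abel
    rw [h5]
    exact add_mem (H_le_I ε (by norm_num) (q _).2) (H_le_I ε (by norm_num) (c _).2)) 2
    (q v : F k X) (q v).2.1
  have h3 : π (c v : F k X) ∈ I ε 3 := map_I ε ε π hε 3 _ (c v).2.1
  rw [hw (L v)] at h1
  have e1 : ((L (L v) : H ε 1) : F k X) - (L v : F k X) = 0 := by
    refine low ε (a := 1) (r := (q (L v) : F k X) + (c (L v) : F k X) + π (q v : F k X)
      + π (c v : F k X) - (q v : F k X) - (c v : F k X)) (sub_mem (L (L v)).2 (L v).2) ?_ ?_
    · have hq : π (q v : F k X) ∈ I ε 2 := map_I ε ε π hε 2 _ (q v).2.1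
      exact sub_mem (sub_mem (add_mem (add_mem (add_mem (q _).2.1
        (H_le_I ε (by norm_num) (c _).2)) hq) (I_anti' ε (by norm_num) h3)) (q v).2.1)
        (H_le_I ε (by norm_num) (c _).2)
    · rw [← sub_eq_zero] at h1
      rw [← h1]
      abel
  have e1' : L (L v) = L v := Subtype.ext (sub_eq_zero.1 e1)
  refine ⟨e1', ?_⟩
  have e2 : ((q (L v) : H ε 2) : F k X) + eL ε L (q v : F k X) - (q v : F k X) = 0 := by
    refine low ε (a := 2) (r := (c (L v) : F k X) + (π (q v : F k X) - eL ε L (q v : F k X))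
      + π (c v : F k X) - (c v : F k X))
      (sub_mem (add_mem (q _).2 (eL_H ε L 2 _ (q v).2)) (q v).2) ?_ ?_
    · exact sub_mem (add_mem (add_mem (c _).2.1 hsub) h3) (c v).2.1
    · rw [← sub_eq_zero] at h1
      rw [← sub_eq_zero.1 e1] at h1
      rw [← h1]
      abel
  exact sub_eq_zero.1 e2

include hπ hw in
/-- the value on the quadratic part of a form with vanishing cubic part -/
lemma pi_q (hLL : ∀ v, L (L v) = L v) (u : H ε 1) (hu : c u = 0) : π (q u : F k X)
    = (q u : F k X) - (q (L u) : F k X) - (c (L u) : F k X) := by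
  have h0 := hπ (u : F k X)
  rw [hw u, hu, map_add, map_add] at h0
  have hz : ((0 : H ε 3) : F k X) = 0 := rfl
  rw [hz, map_zero, add_zero, add_zero, hw (L u), hLL] at h0
  have : π (q u : F k X) = ((L u : F k X) + (q (L u) : F k X) + (c (L u) : F k X)
    + π (q u : F k X)) - (L u : F k X) - (q (L u) : F k X) - (c (L u) : F k X) := by abel
  rw [this, h0]
  abel

include hπ hw in
/-- the cubic part kills the quadratic part of a form with vanishing cubic part -/
lemma eC_q (hLL : ∀ v, L (L v) = L v) (u : H ε 1) (hu : c u = 0) :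
    eC ε c (q u : F k X) = 0 := by
  have h1 := pi_q π hπ ε L q c hw hLL u hu
  have h2 := top π ε L q c hw 1 _ (q u).2
  have h3 := eC_H ε c 2 _ (q u).2
  refine zero_of ε (n := 5) h3.1 ?_
  have h4 : eC ε c (q u : F k X) = (q u : F k X) - (q (L u) : F k X) - (c (L u) : F k X)
      - (π (q u : F k X) - eC ε c (q u : F k X)) := by
    rw [← h1]; abel
  rw [h4]
  exact sub_mem (sub_mem (sub_mem (H_le_Dg ε (by norm_num) (q u).2)
    (H_le_Dg ε (by norm_num) (q _).2)) (H_le_Dg ε (by norm_num) (c _).2)) h2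

include hπ hw in
/-- the cubic part kills itself -/
lemma eC_c (v : H ε 1) : eC ε c (c v : F k X) = 0 := by
  have h1 : π (L v : F k X) + π (q v : F k X) + π (c v : F k X)
      = (L v : F k X) + (q v : F k X) + (c v : F k X) := by
    have := hπ (v : F k X)
    rw [hw v, map_add, map_add] at this
    exact this
  have h2 := top π ε L q c hw 2 _ (c v).2
  have h3 := eC_H ε c 3 _ (c v).2
  have h4 := top π ε L q c hw 1 _ (q v).2
  have h5 := eC_H ε c 2 _ (q v).2
  have h6 : π (q v : F k X) ∈ Dg ε 8 := by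
    have : π (q v : F k X) = (π (q v : F k X) - eC ε c (q v : F k X))
      + eC ε c (q v : F k X) := by abel
    rw [this]
    exact add_mem (Dg_mono' ε (by norm_num) h4) (Dg_mono' ε (by norm_num) h5.2)
  refine zero_of ε (n := 8) h3.1 ?_
  have h7 : eC ε c (c v : F k X) = (L v : F k X) + (q v : F k X) + (c v : F k X)
      - π (L v : F k X) - π (q v : F k X) - (π (c v : F k X) - eC ε c (c v : F k X)) := by
    rw [← h1]; abel
  rw [h7]
  refine sub_mem (sub_mem (sub_mem (add_mem (add_mem (H_le_Dg ε (by norm_num) (L v).2)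
    (H_le_Dg ε (by norm_num) (q v).2)) (H_le_Dg ε (by norm_num) (c v).2))
    (Dg_mono' ε (by norm_num) (w_Dg π ε L q c hw (L v)))) h6) h2

end Parts

/-- left representation in a basis of the linear forms -/
lemma leftrep (ε : F k X →ₐ[k] k) {T : Type*} [Fintype T] (b : Module.Basis T k (H ε 1)) (j : ℕ) :
    ∀ f ∈ H ε (j + 1), ∃ g : T → F k X, (∀ i, g i ∈ H ε j) ∧
      f = ∑ i, ((b i : H ε 1) : F k X) * g i := by
  induction j with
  | zero =>
    intro f hf
    refine ⟨fun i => algebraMap k _ (b.repr ⟨f, hf⟩ i), fun i => const_mem_H ε _, ?_⟩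
    have h1 := b.sum_repr ⟨f, hf⟩
    have h2 := congrArg (fun v : H ε 1 => (v : F k X)) h1
    simp only [Submodule.coe_sum, Submodule.coe_smul] at h2
    refine h2.symm.trans (Finset.sum_congr rfl fun i _ => ?_)
    rw [← Algebra.commutes, Algebra.smul_def]
  | succ j ih =>
    intro f hf
    have h1 := recon ε f
    rw [ε_H ε hf, map_zero, zero_add] at h1
    choose g hg1 hg2 using fun x => ih _ (D_mem_H ε hf x)
    refine ⟨fun i => ∑ x, g x i * cx ε x, fun i => sum_mem fun x _ =>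
      H_mul ε (hg1 x i) (cx_mem_H ε x), ?_⟩
    rw [h1]
    simp only [Finset.mul_sum]
    rw [Finset.sum_comm]
    refine Finset.sum_congr rfl fun x _ => ?_
    conv_lhs => rw [hg2 x]
    rw [Finset.sum_mul]
    exact Finset.sum_congr rfl fun i _ => mul_assoc _ _ _

end Rfa
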