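import Pool.Agent.Lib.Rfa.CubicA

/-!
The case analysis for retractions of degree three.
-/

namespace Rfa

variable {k : Type*} [Field k] {X : Type*} [DecidableEq X] [Fintype X]

section CaseA

variable (ε : F k X →ₐ[k] k) (q : H ε 1 →ₗ[k] H ε 2) (c : H ε 1 →ₗ[k] H ε 3)
  (u s1 s2 b : H ε 1) (hu0 : (u : F k X) ≠ 0) (hu : c u = 0)
  (hK : ∀ v, c v = 0 → ∃ t : k, v = t • u) (hq0 : (q u : F k X) ≠ 0)
  (hQ : (q u : F k X) = (u : F k X) * s1 + s2 * u)
  (hc2 : (c s2 : F k X) = -((q u : F k X) * b)) (hb : (b : F k X) ≠ 0)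
  (heC : eC ε c (q u : F k X) = 0)

include hu0 hu hK hq0 hQ hc2 hb heC in
/-- the quadratic part is not a square -/
lemma not_square (m : H ε 1) (t : k) : (q u : F k X) ≠ t • ((m : F k X) * m) := by
  intro h
  have ht : t ≠ 0 := fun h0 => hq0 (by rw [h, h0, zero_smul])
  rw [h, map_smul, map_mul, eC_v] at heC
  have h1 : (c m : F k X) = 0 := by
    rcases smul_eq_zero.1 heC with h2 | h2
    · exact absurd h2 ht
    · exact mul_self_eq_zero.1 h2
  obtain ⟨l, hl⟩ := hK m (Subtype.ext h1)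
  have hmF : (m : F k X) = l • (u : F k X) := by rw [hl]; rfl
  have h2 : (s2 : F k X) * u = (u : F k X) * ((t * l * l) • (u : F k X) - s1) := by
    have h3 : (s2 : F k X) * u = (q u : F k X) - (u : F k X) * s1 := by rw [hQ]; abel
    rw [h3, h, hmF, mul_sub, smul_mul_assoc, mul_smul_comm, mul_smul_comm, smul_smul, smul_smul]
  obtain ⟨r, hr, hr'⟩ := divh ε 0 1 (u : F k X) _ u.2
    (sub_mem (Submodule.smul_mem _ _ u.2) s1.2) hu0 _ _ h2
  obtain ⟨r0, rfl⟩ := H_zero ε hr
  have h3 : s2 = r0 • u := Subtype.ext (by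
    rw [hr', ← Algebra.commutes, ← Algebra.smul_def]; rfl)
  rw [h3, map_smul, hu, smul_zero] at hc2
  have h4 : (q u : F k X) * b = 0 := by
    have : ((0 : H ε 3) : F k X) = 0 := rfl
    rw [this] at hc2
    exact neg_eq_zero.1 hc2.symm
  exact (mul_ne_zero hq0 hb) h4

include hu0 hu hK hq0 hQ hc2 hb heC in
/-- no linear form can be moved across the quadratic part -/
lemma no_move (m1 m2 : H ε 1) (h : (m1 : F k X) * (q u : F k X) = (q u : F k X) * m2) :
    (m1 : F k X) = 0 ∧ (m2 : F k X) = 0 := by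
  by_cases h2 : (m2 : F k X) = 0
  · rw [h2, mul_zero] at h
    exact ⟨(mul_eq_zero.1 h).resolve_right hq0, h2⟩
  · exfalso
    obtain ⟨r, hr, hr'⟩ := divh ε 1 1 (m2 : F k X) (q u : F k X) m2.2 (q u).2 h2
      (q u : F k X) (m1 : F k X) h.symm
    have hm1 : (m1 : F k X) ≠ 0 := fun h0 => hq0 (by rw [hr', h0, zero_mul])
    have h3 : r * (m2 : F k X) = (m1 : F k X) * r := by
      rw [hr', mul_assoc] at h
      exact (mul_left_cancel₀ hm1 h).symm
    obtain ⟨r', hr1, hr2⟩ := divh ε 0 1 (m2 : F k X) r m2.2 hr h2 r (m1 : F k X) h3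
    obtain ⟨t, rfl⟩ := H_zero ε hr1
    refine not_square ε q c u s1 s2 b hu0 hu hK hq0 hQ hc2 hb heC m1 t ?_
    rw [hr', hr2, ← Algebra.commutes, ← Algebra.smul_def, mul_smul_comm]

end CaseA

section CaseA2

variable (π : F k X →ₐ[k] F k X) (hπ : ∀ f, π (π f) = π f) (ε : F k X →ₐ[k] k)
  (hε : ∀ f, ε (π f) = ε f) (L : H ε 1 →ₗ[k] H ε 1) (q : H ε 1 →ₗ[k] H ε 2)
  (c : H ε 1 →ₗ[k] H ε 3)
  (hw : ∀ v : H ε 1, π (v : F k X) = (L v : F k X) + (q v : F k X) + (c v : F k X))
  (u s1 s2 b : H ε 1) (hu0 : (u : F k X) ≠ 0) (hu : c u = 0)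
  (hK : ∀ v, c v = 0 → ∃ t : k, v = t • u) (hq0 : (q u : F k X) ≠ 0)

include hπ hε hw hu0 hu hK hq0 in
theorem caseA2 (hcard : Fintype.card X = 3)
    (hQ : (q u : F k X) = (u : F k X) * s1 + s2 * u)
    (hc1 : (c s1 : F k X) = (b : F k X) * (q u : F k X))
    (hc2 : (c s2 : F k X) = -((q u : F k X) * b)) (hb : (b : F k X) ≠ 0)
    (hq1 : (q s1 : F k X) = (b : F k X) * (L u : F k X))
    (hq2 : (q s2 : F k X) = -((L u : F k X) * b))
    (hcp : (c (L u) : F k X) = -((q u : F k X) * (L s1 : F k X) + (L s2 : F k X) * (q u : F k X))) :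
    ∃ (φ : H ε 1 → k) (p : H ε 1), ∀ v, L v = φ v • p := by
  have hLL : ∀ v, L (L v) = L v := fun v => (rel12 π hπ ε hε L q c hw v).1
  have heC := eC_q π hπ ε L q c hw hLL u hu
  have hnm := no_move ε q c u s1 s2 b hu0 hu hK hq0 hQ hc2 hb heC
  have hcoe : ∀ (t : k) (v : H ε 1), ((t • v : H ε 1) : F k X) = t • (v : F k X) :=
    fun _ _ => rfl
  -- independence
  have hli : LinearIndependent k ![u, s1, s2] := by
    rw [Fintype.linearIndependent_iff]
    intro g hg
    rw [Fin.sum_univ_three] at hg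
    have hg' : g 0 • u + g 1 • s1 + g 2 • s2 = 0 := hg
    have h1 := congrArg (fun v => ((c v : H ε 3) : F k X)) hg'
    simp only [map_add, map_smul, hu, smul_zero, zero_add, map_zero, Submodule.coe_add,
      Submodule.coe_smul, ZeroMemClass.coe_zero, hc1, hc2] at h1
    have h2 := hnm (g 1 • b) (g 2 • b) (by
      rw [hcoe, hcoe, smul_mul_assoc, mul_smul_comm]
      rw [smul_neg] at h1
      exact add_neg_eq_zero.1 h1)
    have h3 : g 1 = 0 := by
      have := h2.1
      rw [hcoe] at this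
      exact (smul_eq_zero.1 this).resolve_right hb
    have h4 : g 2 = 0 := by
      have := h2.2
      rw [hcoe] at this
      exact (smul_eq_zero.1 this).resolve_right hb
    rw [h3, h4, zero_smul, zero_smul, add_zero, add_zero] at hg'
    have h5 : g 0 = 0 := by
      rcases smul_eq_zero.1 hg' with h | h
      · exact h
      · exact absurd (by rw [h]; rfl) hu0
    intro i
    fin_cases i
    · exact h5
    · exact h3
    · exact h4
  obtain ⟨b0, _⟩ := exists_basis ε
  have hfr : Module.finrank k (H ε 1) = 3 := by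
    rw [Module.finrank_eq_card_basis b0, hcard]
  have hcoord : ∀ v : H ε 1, ∃ x : Fin 3 → k, v = x 0 • u + x 1 • s1 + x 2 • s2 := by
    intro v
    have hB := basisOfLinearIndependentOfCardEqFinrank hli (by rw [hfr]; rfl)
    set B := basisOfLinearIndependentOfCardEqFinrank hli (by rw [hfr]; rfl) with hBdef
    have h1 := B.sum_repr v
    rw [Fin.sum_univ_three] at h1
    refine ⟨fun i => B.repr v i, ?_⟩
    have e : ∀ i, B i = ![u, s1, s2] i := fun i => by
      rw [hBdef, coe_basisOfLinearIndependentOfCardEqFinrank]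
    rw [e, e, e] at h1
    exact h1.symm
  choose x hx using hcoord
  -- the linear parts of `s1` and `s2`
  set p := L u with hp
  have hLp : L p = p := hLL u
  set β := x (u - p) with hβ
  have h1 : (c (u - p) : F k X) = (q u : F k X) * (L s1 : F k X)
      + (L s2 : F k X) * (q u : F k X) := by
    rw [map_sub, hu, zero_sub]
    show -(c p : F k X) = _
    rw [hcp, neg_neg]
  have h2 : (c (u - p) : F k X) = β 1 • ((b : F k X) * (q u : F k X))
      - β 2 • ((q u : F k X) * (b : F k X)) := by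
    rw [hx (u - p), map_add, map_add, map_smul, map_smul, map_smul, hu, smul_zero, zero_add]
    show β 1 • (c s1 : F k X) + β 2 • (c s2 : F k X) = _
    rw [hc1, hc2, smul_neg, sub_eq_add_neg]
  have h3 := hnm (β 1 • b - L s2) (L s1 + β 2 • b) (by
    show (β 1 • (b : F k X) - (L s2 : F k X)) * (q u : F k X)
      = (q u : F k X) * ((L s1 : F k X) + β 2 • (b : F k X))
    rw [sub_mul, mul_add, smul_mul_assoc, mul_smul_comm]
    have h4 := h1.symm.trans h2
    rw [sub_eq_iff_eq_add]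
    have h5 : β 1 • ((b : F k X) * (q u : F k X)) = ((q u : F k X) * (L s1 : F k X)
      + (L s2 : F k X) * (q u : F k X)) + β 2 • ((q u : F k X) * (b : F k X)) := by
      rw [h4]; abel
    rw [h5]
    abel)
  have hl2 : L s2 = β 1 • b := by
    have : β 1 • b - L s2 = 0 := Subtype.ext h3.1
    exact (sub_eq_zero.1 this).symm
  have hl1 : L s1 = -(β 2 • b) := by
    have : L s1 + β 2 • b = 0 := Subtype.ext h3.2
    exact eq_neg_of_add_eq_zero_left this
  have hLv : ∀ v, L v = x v 0 • p - (x v 1 * β 2) • b + (x v 2 * β 1) • b := by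
    intro v
    conv_lhs => rw [hx v]
    rw [map_add, map_add, map_smul, map_smul, map_smul, hl1, hl2, smul_neg, smul_smul, smul_smul,
      ← hp, sub_eq_add_neg]
  by_cases hdep : ∃ t : k, p = t • b
  · obtain ⟨t, ht⟩ := hdep
    refine ⟨fun v => x v 0 * t - x v 1 * β 2 + x v 2 * β 1, b, fun v => ?_⟩
    rw [hLv v, ht, smul_smul, ← sub_smul, ← add_smul]
  by_cases hβ0 : β 1 = 0 ∧ β 2 = 0
  · refine ⟨fun v => x v 0, p, fun v => ?_⟩
    rw [hLv v, hβ0.1, hβ0.2, mul_zero, mul_zero, zero_smul, sub_zero, add_zero]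
  exfalso
  have hLb : L b = b := by
    by_cases hb1 : β 1 = 0
    · have hb2 : β 2 ≠ 0 := fun h => hβ0 ⟨hb1, h⟩
      have e : b = (-(β 2)⁻¹) • L s1 := by
        rw [hl1, smul_neg, neg_smul, neg_neg, smul_smul, inv_mul_cancel₀ hb2, one_smul]
      rw [e, map_smul, hLL]
    · have e : b = (β 1)⁻¹ • L s2 := by
        rw [hl2, smul_smul, inv_mul_cancel₀ hb1, one_smul]
      rw [e, map_smul, hLL]
  have hp0 : (p : F k X) ≠ 0 := fun h => hdep ⟨0, by rw [zero_smul]; exact Subtype.ext h⟩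
  have hbp : LinearIndependent k ![(b : F k X), (p : F k X)] := by
    rw [LinearIndependent.pair_iff]
    intro s t hst
    by_cases ht : t = 0
    · rw [ht, zero_smul, add_zero] at hst
      exact ⟨(smul_eq_zero.1 hst).resolve_right hb, ht⟩
    · exfalso
      refine hdep ⟨-(t⁻¹ * s), Subtype.ext ?_⟩
      show (p : F k X) = (-(t⁻¹ * s)) • (b : F k X)
      have : t • (p : F k X) = -(s • (b : F k X)) := eq_neg_of_add_eq_zero_right hst
      rw [neg_smul, ← smul_smul, ← smul_neg, ← this, smul_smul, inv_mul_cancel₀ ht, one_smul]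
  have hfix : ∀ v : H ε 1, L v = v → ∀ σ1 σ2 : k, v = σ1 • s1 + σ2 • s2 → v = 0 := by
    intro v hv σ1 σ2 hvs
    have hr := (rel12 π hπ ε hε L q c hw v).2
    rw [hv] at hr
    have hr0 : eL ε L (q v : F k X) = 0 := by
      rw [add_eq_left] at hr
      exact hr
    have hqv : (q v : F k X) = σ1 • ((b : F k X) * (p : F k X))
        - σ2 • ((p : F k X) * (b : F k X)) := by
      rw [hvs, map_add, map_smul, map_smul]
      show σ1 • (q s1 : F k X) + σ2 • (q s2 : F k X) = _
      rw [hq1, hq2, smul_neg, sub_eq_add_neg]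
    rw [hqv, map_sub, map_smul, map_smul, map_mul, map_mul, eL_v, eL_v, hLb, hLp] at hr0
    have h6 := rind ε ![(b : F k X), (p : F k X)] hbp 1
      ![σ1 • (p : F k X), -(σ2 • (b : F k X))] (by
        intro i
        fin_cases i
        · exact Submodule.smul_mem _ _ p.2
        · exact neg_mem (Submodule.smul_mem _ _ b.2)) (by
        rw [Fin.sum_univ_two]
        show (b : F k X) * (σ1 • (p : F k X)) + (p : F k X) * (-(σ2 • (b : F k X))) = 0
        rw [mul_neg, mul_smul_comm, mul_smul_comm, ← sub_eq_add_neg]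
        exact hr0)
    have h7 : σ1 • (p : F k X) = 0 := h6 0
    have h8 : -(σ2 • (b : F k X)) = 0 := h6 1
    have e1 : σ1 = 0 := (smul_eq_zero.1 h7).resolve_right hp0
    have e2 : σ2 = 0 := (smul_eq_zero.1 (neg_eq_zero.1 h8)).resolve_right hb
    rw [hvs, e1, e2, zero_smul, zero_smul, add_zero]
  -- a vector of the image with vanishing first coordinate
  have hv0 : x b 0 • p - x p 0 • b = 0 := by
    refine hfix _ ?_ (x b 0 * x p 1 - x p 0 * x b 1) (x b 0 * x p 2 - x p 0 * x b 2) ?_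
    · rw [map_sub, map_smul, map_smul, hLp, hLb]
    · have e1 := hx p
      have e2 := hx b
      calc x b 0 • p - x p 0 • b = x b 0 • (x p 0 • u + x p 1 • s1 + x p 2 • s2)
            - x p 0 • (x b 0 • u + x b 1 • s1 + x b 2 • s2) := by rw [← e1, ← e2]
        _ = _ := by module
  have hγ : x b 0 = 0 := by
    by_contra hne
    refine hdep ⟨(x b 0)⁻¹ * x p 0, ?_⟩
    have : x b 0 • p = x p 0 • b := sub_eq_zero.1 hv0
    rw [← smul_smul, ← this, smul_smul, inv_mul_cancel₀ hne, one_smul]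
  have hδ : x p 0 = 0 := by
    rw [hγ, zero_smul, zero_sub, neg_eq_zero] at hv0
    rcases smul_eq_zero.1 hv0 with h | h
    · exact h
    · exact absurd (by rw [h]; rfl) hb
  have hpz : p = 0 := hfix p hLp (x p 1) (x p 2) (by
    have e1 := hx p
    rw [hδ, zero_smul, zero_add] at e1
    exact e1)
  exact hp0 (by rw [hpz]; rfl)

include hπ hε hw hu0 hu hK hq0 in
theorem caseA (hcard : Fintype.card X = 3)
    (hQ : (q u : F k X) = (u : F k X) * s1 + s2 * u) :
    ∃ (φ : H ε 1 → k) (p : H ε 1), ∀ v, L v = φ v • p := by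
  have hLL : ∀ v, L (L v) = L v := fun v => (rel12 π hπ ε hε L q c hw v).1
  have hE := pi_q π hπ ε L q c hw hLL u hu
  have hE' : π (q u : F k X) = π (u : F k X) * π (s1 : F k X) + π (s2 : F k X) * π (u : F k X) := by
    rw [hQ, map_add, map_mul, map_mul]
  rw [hw u, hw s1, hw s2, hu] at hE'
  have hz3 : ((0 : H ε 3) : F k X) = 0 := rfl
  rw [hz3, add_zero] at hE'
  obtain ⟨-, f3, f4, f5⟩ := split4 ε
    (f2 := (L u : F k X) * (L s1 : F k X) + (L s2 : F k X) * (L u : F k X) - (q u : F k X)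
      + (q (L u) : F k X))
    (f3 := (L u : F k X) * (q s1 : F k X) + (q u : F k X) * (L s1 : F k X)
      + (L s2 : F k X) * (q u : F k X) + (q s2 : F k X) * (L u : F k X) + (c (L u) : F k X))
    (f4 := (L u : F k X) * (c s1 : F k X) + (q u : F k X) * (q s1 : F k X)
      + (q s2 : F k X) * (q u : F k X) + (c s2 : F k X) * (L u : F k X))
    (f5 := (q u : F k X) * (c s1 : F k X) + (c s2 : F k X) * (q u : F k X))
    (add_mem (sub_mem (add_mem (H_mul' ε (L u).2 (L s1).2 rfl) (H_mul' ε (L s2).2 (L u).2 rfl))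
      (q u).2) (q _).2)
    (add_mem (add_mem (add_mem (add_mem (H_mul' ε (L u).2 (q s1).2 rfl)
      (H_mul' ε (q u).2 (L s1).2 rfl)) (H_mul' ε (L s2).2 (q u).2 rfl))
      (H_mul' ε (q s2).2 (L u).2 rfl)) (c _).2)
    (add_mem (add_mem (add_mem (H_mul' ε (L u).2 (c s1).2 rfl)
      (H_mul' ε (q u).2 (q s1).2 rfl)) (H_mul' ε (q s2).2 (q u).2 rfl))
      (H_mul' ε (c s2).2 (L u).2 rfl))
    (add_mem (H_mul' ε (q u).2 (c s1).2 rfl) (H_mul' ε (c s2).2 (q u).2 rfl))
    (by
      rw [hE'] at hE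
      rw [← sub_eq_zero] at hE
      rw [← hE]
      noncomm_ring)
  have hcoe : ∀ (t : k) (v : H ε 1), ((t • v : H ε 1) : F k X) = t • (v : F k X) :=
    fun _ _ => rfl
  by_cases hc2 : (c s2 : F k X) = 0
  · exfalso
    rw [hc2, zero_mul, add_zero] at f5
    have hc1 : (c s1 : F k X) = 0 := (mul_eq_zero.1 f5).resolve_left hq0
    obtain ⟨t1, h1⟩ := hK s1 (Subtype.ext hc1)
    obtain ⟨t2, h2⟩ := hK s2 (Subtype.ext hc2)
    rw [hc1, hc2, mul_zero, zero_mul, zero_add, add_zero, h1, h2, map_smul, map_smul] at f4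
    have f4' : (q u : F k X) * (t1 • (q u : F k X)) + (t2 • (q u : F k X)) * (q u : F k X) = 0 := f4
    rw [mul_smul_comm, smul_mul_assoc, ← add_smul] at f4'
    have h3 : t1 + t2 = 0 := (smul_eq_zero.1 f4').resolve_right (mul_ne_zero hq0 hq0)
    rw [h1, h2, hcoe, hcoe, mul_smul_comm, smul_mul_assoc, ← add_smul, h3, zero_smul] at hQ
    exact hq0 hQ
  -- the cubic parts
  obtain ⟨r, hr, hr'⟩ := divh ε 1 2 (q u : F k X) (-(c s1 : F k X)) (q u).2 (neg_mem (c s1).2)
    hq0 (c s2 : F k X) (q u : F k X) (by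
      rw [mul_neg]
      exact eq_neg_of_add_eq_zero_right f5)
  set b : H ε 1 := -⟨r, hr⟩ with hb
  have hbF : (b : F k X) = -r := rfl
  have hc2' : (c s2 : F k X) = -((q u : F k X) * b) := by rw [hr', hbF, mul_neg, neg_neg]
  have hb0 : (b : F k X) ≠ 0 := fun h => hc2 (by rw [hc2', h, mul_zero, neg_zero])
  have hc1' : (c s1 : F k X) = (b : F k X) * (q u : F k X) := by
    rw [hc2', neg_mul, mul_assoc, ← sub_eq_add_neg, ← mul_sub] at f5
    exact sub_eq_zero.1 ((mul_eq_zero.1 f5).resolve_left hq0)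
  -- the quadratic parts
  obtain ⟨r0, hr0, hr0'⟩ := divh ε 0 2 (q u : F k X)
    (-((q s1 : F k X) - (b : F k X) * (L u : F k X))) (q u).2
    (neg_mem (sub_mem (q s1).2 (H_mul' ε b.2 (L u).2 rfl))) hq0
    ((q s2 : F k X) + (L u : F k X) * (b : F k X)) (q u : F k X) (by
      have e : (q u : F k X) * ((q s1 : F k X) - (b : F k X) * (L u : F k X))
        + ((q s2 : F k X) + (L u : F k X) * (b : F k X)) * (q u : F k X) = 0 := by
        rw [← f4, hc1', hc2']
        noncomm_ring
      rw [mul_neg]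
      exact eq_neg_of_add_eq_zero_right e)
  obtain ⟨μ0, rfl⟩ := H_zero ε hr0
  rw [← Algebra.commutes, ← Algebra.smul_def] at hr0'
  have hq1' : (q s1 : F k X) - (b : F k X) * (L u : F k X) = -(μ0 • (q u : F k X)) := by
    have e : (q u : F k X) * ((q s1 : F k X) - (b : F k X) * (L u : F k X)
        + μ0 • (q u : F k X)) = 0 := by
      have e2 : (q u : F k X) * ((q s1 : F k X) - (b : F k X) * (L u : F k X)
        + μ0 • (q u : F k X)) = (q u : F k X) * ((q s1 : F k X) - (b : F k X) * (L u : F k X))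
          + (μ0 • (q u : F k X)) * (q u : F k X) := by
        rw [mul_add, mul_smul_comm, smul_mul_assoc]
      rw [e2, ← hr0', ← f4, hc1', hc2']
      noncomm_ring
    exact eq_neg_of_add_eq_zero_left ((mul_eq_zero.1 e).resolve_left hq0)
  -- normalisation
  refine caseA2 π hπ ε hε L q c hw u (s1 + μ0 • u) (s2 - μ0 • u) b hu0 hu hK hq0 hcard ?_ ?_ ?_
    hb0 ?_ ?_ ?_
  · show (q u : F k X) = (u : F k X) * ((s1 : F k X) + μ0 • (u : F k X))
      + ((s2 : F k X) - μ0 • (u : F k X)) * (u : F k X)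
    rw [mul_add, sub_mul, mul_smul_comm, smul_mul_assoc, hQ]
    abel
  · rw [map_add, map_smul, hu, smul_zero, add_zero]
    exact hc1'
  · rw [map_sub, map_smul, hu, smul_zero, sub_zero]
    exact hc2'
  · rw [map_add, map_smul]
    show (q s1 : F k X) + μ0 • (q u : F k X) = _
    rw [sub_eq_iff_eq_add.1 hq1']
    abel
  · rw [map_sub, map_smul]
    show (q s2 : F k X) - μ0 • (q u : F k X) = _
    rw [← hr0']
    abel
  · rw [map_add, map_sub, map_smul]
    show (c (L u) : F k X) = -((q u : F k X) * ((L s1 : F k X) + μ0 • (L u : F k X))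
      + ((L s2 : F k X) - μ0 • (L u : F k X)) * (q u : F k X))
    have e1 : (q s1 : F k X) = (b : F k X) * (L u : F k X) - μ0 • (q u : F k X) := by
      rw [sub_eq_iff_eq_add.1 hq1']
      abel
    have e2 : (q s2 : F k X) = μ0 • (q u : F k X) - (L u : F k X) * (b : F k X) := by
      rw [← hr0']
      abel
    rw [e1, e2] at f3
    rw [mul_add, sub_mul, mul_smul_comm, smul_mul_assoc]
    have e3 : (c (L u) : F k X) = -((L u : F k X) * ((b : F k X) * (L u : F k X)
        - μ0 • (q u : F k X)) + (q u : F k X) * (L s1 : F k X)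
      + (L s2 : F k X) * (q u : F k X) + (μ0 • (q u : F k X)
        - (L u : F k X) * (b : F k X)) * (L u : F k X)) := eq_neg_of_add_eq_zero_right f3
    rw [e3, mul_sub, sub_mul, mul_smul_comm, smul_mul_assoc, mul_assoc]
    abel

end CaseA2

end Rfa
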