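import Pool.Agent.Lib.Rfa.CubicB

/-!
The remaining cases for retractions of degree three.
-/

namespace Rfa

variable {k : Type*} [Field k] {X : Type*} [DecidableEq X] [Fintype X]

section CaseB

variable (π : F k X →ₐ[k] F k X) (hπ : ∀ f, π (π f) = π f) (ε : F k X →ₐ[k] k)
  (hε : ∀ f, ε (π f) = ε f) (L : H ε 1 →ₗ[k] H ε 1) (q : H ε 1 →ₗ[k] H ε 2)
  (c : H ε 1 →ₗ[k] H ε 3)
  (hw : ∀ v : H ε 1, π (v : F k X) = (L v : F k X) + (q v : F k X) + (c v : F k X))

include hπ hε hw in
theorem caseB (b : Module.Basis (Fin 3) k (H ε 1)) (h0 : c (b 0) = 0) (h1 : c (b 1) = 0)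
    (hC : (c (b 2) : F k X) ≠ 0)
    (hA : ∀ v, c v = 0 → v ≠ 0 → (q v : F k X) ≠ 0) : False := by
  have hLL : ∀ v, L (L v) = L v := fun v => (rel12 π hπ ε hε L q c hw v).1
  have hcoe : ∀ (t : k) (v : H ε 1), ((t • v : H ε 1) : F k X) = t • (v : F k X) :=
    fun _ _ => rfl
  have hz3 : ((0 : H ε 3) : F k X) = 0 := rfl
  have hwK : ∀ v, c v = 0 → π (v : F k X) = (L v : F k X) + (q v : F k X) := fun v hv => by
    rw [hw v, hv, hz3, add_zero]
  have hwK2 : ∀ v, c v = 0 → π (v : F k X) ∈ Dg ε 2 := fun v hv => by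
    rw [hwK v hv]
    exact add_mem (H_le_Dg ε (by norm_num) (L v).2) (H_le_Dg ε le_rfl (q v).2)
  have hwD : ∀ v : H ε 1, π (v : F k X) ∈ Dg ε 3 := w_Dg π ε L q c hw
  -- the key property
  have B1 : ∀ v κ0 κ1 a g : H ε 1, c v = 0 → v ≠ 0 → c κ0 = 0 → c κ1 = 0 → c a = 0 → c g = 0 →
      (q v : F k X) = (b 0 : F k X) * κ0 + (b 1 : F k X) * κ1 + a * (b 2 : F k X)
        + (b 2 : F k X) * g →
      a ≠ 0 ∧ ∃ r ∈ H ε 1, (c (b 2) : F k X) = (q a : F k X) * r := by
    intro v κ0 κ1 a g hv hv0 hκ0 hκ1 ha hg hrep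
    have hE := pi_q π hπ ε L q c hw hLL v hv
    have hE3 : π (q v : F k X) ∈ Dg ε 3 := by
      rw [hE]
      exact sub_mem (sub_mem (H_le_Dg ε (by norm_num) (q v).2) (H_le_Dg ε (by norm_num) (q _).2))
        (H_le_Dg ε le_rfl (c _).2)
    have hE' : π (q v : F k X) = π (b 0 : F k X) * π (κ0 : F k X)
        + π (b 1 : F k X) * π (κ1 : F k X) + π (a : F k X) * π (b 2 : F k X)
        + π (b 2 : F k X) * π (g : F k X) := by
      rw [hrep]; simp only [map_add, map_mul]
    have hd01 : π (b 0 : F k X) * π (κ0 : F k X) + π (b 1 : F k X) * π (κ1 : F k X)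
        ∈ Dg ε 4 := add_mem (Dg_mul ε 2 2 _ (hwK2 _ h0) _ (hwK2 _ hκ0))
          (Dg_mul ε 2 2 _ (hwK2 _ h1) _ (hwK2 _ hκ1))
    have hT5 : (q a : F k X) * (c (b 2) : F k X) + (c (b 2) : F k X) * (q g : F k X) = 0 := by
      refine zero_of ε (n := 4) (add_mem (H_mul' ε (q a).2 (c _).2 rfl).1
        (H_mul' ε (c _).2 (q g).2 rfl).1) ?_
      have e : (q a : F k X) * (c (b 2) : F k X) + (c (b 2) : F k X) * (q g : F k X)
          = π (q v : F k X) - (π (b 0 : F k X) * π (κ0 : F k X)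
            + π (b 1 : F k X) * π (κ1 : F k X))
            - (L a : F k X) * π (b 2 : F k X)
            - (q a : F k X) * ((L (b 2) : F k X) + (q (b 2) : F k X))
            - ((L (b 2) : F k X) + (q (b 2) : F k X)) * π (g : F k X)
            - (c (b 2) : F k X) * (L g : F k X) := by
        rw [hE', hwK a ha, hwK g hg, hw (b 2)]
        noncomm_ring
      rw [e]
      have hlq : (L (b 2) : F k X) + (q (b 2) : F k X) ∈ Dg ε 2 :=
        add_mem (H_le_Dg ε (by norm_num) (L _).2) (H_le_Dg ε le_rfl (q _).2)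
      refine sub_mem (sub_mem (sub_mem (sub_mem (sub_mem (Dg_mono' ε (by norm_num) hE3) hd01)
        ?_) ?_) ?_) ?_
      · exact Dg_mul ε 1 3 _ (L a).2.2 _ (hwD _)
      · exact Dg_mul ε 2 2 _ (q a).2.2 _ hlq
      · exact Dg_mul ε 2 2 _ hlq _ (hwK2 g hg)
      · exact Dg_mul ε 3 1 _ (c _).2.2 _ (L g).2.2
    have ha0 : a ≠ 0 := by
      intro ha0
      have hzero1 : ((0 : H ε 1) : F k X) = 0 := rfl
      have hg0 : g = 0 := by
        by_contra hgne
        rw [ha0, map_zero] at hT5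
        have hz2 : ((0 : H ε 2) : F k X) = 0 := rfl
        rw [hz2, zero_mul, zero_add] at hT5
        exact (mul_ne_zero hC (hA g hg hgne)) hT5
      rw [ha0, hg0, hzero1, map_zero π, zero_mul, mul_zero, add_zero, add_zero] at hE'
      have hT4 : (q (b 0) : F k X) * (q κ0 : F k X) + (q (b 1) : F k X) * (q κ1 : F k X) = 0 := by
        refine zero_of ε (n := 3) (add_mem (H_mul' ε (q _).2 (q _).2 rfl).1
          (H_mul' ε (q _).2 (q _).2 rfl).1) ?_
        have e : (q (b 0) : F k X) * (q κ0 : F k X) + (q (b 1) : F k X) * (q κ1 : F k X)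
            = π (q v : F k X) - (L (b 0) : F k X) * π (κ0 : F k X)
              - (q (b 0) : F k X) * (L κ0 : F k X) - (L (b 1) : F k X) * π (κ1 : F k X)
              - (q (b 1) : F k X) * (L κ1 : F k X) := by
          rw [hE', hwK _ h0, hwK _ h1, hwK _ hκ0, hwK _ hκ1]
          noncomm_ring
        rw [e]
        refine sub_mem (sub_mem (sub_mem (sub_mem hE3 ?_) ?_) ?_) ?_
        · exact Dg_mul ε 1 2 _ (L _).2.2 _ (hwK2 _ hκ0)
        · exact Dg_mul ε 2 1 _ (q _).2.2 _ (L _).2.2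
        · exact Dg_mul ε 1 2 _ (L _).2.2 _ (hwK2 _ hκ1)
        · exact Dg_mul ε 2 1 _ (q _).2.2 _ (L _).2.2
      have hli : LinearIndependent k ![(q (b 0) : F k X), (q (b 1) : F k X)] := by
        rw [LinearIndependent.pair_iff]
        intro s t hst
        have hbz : s • b 0 + t • b 1 = 0 := by
          by_contra hne
          refine hA (s • b 0 + t • b 1) (by rw [map_add, map_smul, map_smul, h0, h1]; simp) hne ?_
          rw [map_add, map_smul, map_smul]
          exact hst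
        have h2 := Fintype.linearIndependent_iff.1 b.linearIndependent ![s, t, 0] (by
          rw [Fin.sum_univ_three]
          simpa using hbz)
        exact ⟨h2 0, h2 1⟩
      have h3 := rind ε _ hli 2 ![(q κ0 : F k X), (q κ1 : F k X)] (by
        intro i
        fin_cases i
        · exact (q κ0).2
        · exact (q κ1).2) (by
        rw [Fin.sum_univ_two]
        exact hT4)
      have hk0 : κ0 = 0 := by
        by_contra hne
        exact hA κ0 hκ0 hne (h3 0)
      have hk1 : κ1 = 0 := by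
        by_contra hne
        exact hA κ1 hκ1 hne (h3 1)
      refine hA v hv hv0 ?_
      rw [hrep, hk0, hk1, ha0, hg0, hzero1, mul_zero, mul_zero, zero_mul, mul_zero]
      simp
    refine ⟨ha0, ?_⟩
    have hqa : (q a : F k X) ≠ 0 := hA a ha ha0
    have hne : (c (b 2) : F k X) * (q g : F k X) ≠ 0 := by
      intro h
      rw [h, add_zero] at hT5
      exact mul_ne_zero hqa hC hT5
    have hqg : -(q g : F k X) ≠ 0 := neg_ne_zero.2 (right_ne_zero_of_mul hne)
    exact divh ε 1 2 (-(q g : F k X)) (c (b 2) : F k X) (neg_mem (q g).2) (c (b 2)).2 hqg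
      (c (b 2) : F k X) (q a : F k X) (by
        rw [mul_neg]
        exact (eq_neg_of_add_eq_zero_left hT5).symm)
  -- the representation
  have hrep : ∀ v : H ε 1, c v = 0 → ∃ κ0 κ1 a g : H ε 1, c κ0 = 0 ∧ c κ1 = 0 ∧ c a = 0 ∧
      c g = 0 ∧ (q v : F k X) = (b 0 : F k X) * κ0 + (b 1 : F k X) * κ1 + a * (b 2 : F k X)
        + (b 2 : F k X) * g := by
    intro v hv
    obtain ⟨g, hg1, hg2⟩ := leftrep ε b 1 _ (q v).2
    have heC := eC_q π hπ ε L q c hw hLL v hv
    rw [hg2, map_sum, Fin.sum_univ_three, map_mul, map_mul, map_mul, eC_v, eC_v, eC_v, h0, h1,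
      hz3, zero_mul, zero_mul, zero_add, zero_add] at heC
    have hcg : c ⟨g 2, hg1 2⟩ = 0 := by
      apply Subtype.ext
      rw [← eC_v ε c ⟨g 2, hg1 2⟩]
      exact (mul_eq_zero.1 heC).resolve_left hC
    have hsplit : ∀ i, ∃ (z : k) (κ : H ε 1), c κ = 0 ∧ g i = (κ : F k X) + z • (b 2 : F k X) := by
      intro i
      have h3 := b.sum_repr ⟨g i, hg1 i⟩
      rw [Fin.sum_univ_three] at h3
      refine ⟨b.repr ⟨g i, hg1 i⟩ 2, b.repr ⟨g i, hg1 i⟩ 0 • b 0 + b.repr ⟨g i, hg1 i⟩ 1 • b 1,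
        by rw [map_add, map_smul, map_smul, h0, h1]; simp, ?_⟩
      exact (congrArg (fun w : H ε 1 => (w : F k X)) h3).symm
    obtain ⟨z0, κ0, hκ0, e0⟩ := hsplit 0
    obtain ⟨z1, κ1, hκ1, e1⟩ := hsplit 1
    refine ⟨κ0, κ1, z0 • b 0 + z1 • b 1, ⟨g 2, hg1 2⟩, hκ0, hκ1,
      by rw [map_add, map_smul, map_smul, h0, h1]; simp, hcg, ?_⟩
    rw [hg2, Fin.sum_univ_three, e0, e1]
    show (b 0 : F k X) * ((κ0 : F k X) + z0 • (b 2 : F k X))
      + (b 1 : F k X) * ((κ1 : F k X) + z1 • (b 2 : F k X)) + (b 2 : F k X) * g 2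
      = (b 0 : F k X) * κ0 + (b 1 : F k X) * κ1
        + (z0 • (b 0 : F k X) + z1 • (b 1 : F k X)) * (b 2 : F k X) + (b 2 : F k X) * g 2
    rw [mul_add, mul_add, add_mul, mul_smul_comm, mul_smul_comm, smul_mul_assoc, smul_mul_assoc]
    abel
  obtain ⟨κ0, κ1, a, g, e1, e2, e3, e4, e5⟩ := hrep (b 0) h0
  obtain ⟨κ0', κ1', a', g', e1', e2', e3', e4', e5'⟩ := hrep (b 1) h1
  by_cases hdep : ∃ x y : k, (x ≠ 0 ∨ y ≠ 0) ∧ x • a + y • a' = 0
  · obtain ⟨x, y, hxy, hz⟩ := hdep
    refine (B1 (x • b 0 + y • b 1) (x • κ0 + y • κ0') (x • κ1 + y • κ1') (x • a + y • a')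
      (x • g + y • g') ?_ ?_ ?_ ?_ ?_ ?_ ?_).1 hz
    · rw [map_add, map_smul, map_smul, h0, h1]; simp
    · intro h
      have h2 := Fintype.linearIndependent_iff.1 b.linearIndependent ![x, y, 0] (by
        rw [Fin.sum_univ_three]
        simpa using h)
      rcases hxy with hx | hy
      · exact hx (h2 0)
      · exact hy (h2 1)
    · rw [map_add, map_smul, map_smul, e1, e1']; simp
    · rw [map_add, map_smul, map_smul, e2, e2']; simp
    · rw [map_add, map_smul, map_smul, e3, e3']; simp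
    · rw [map_add, map_smul, map_smul, e4, e4']; simp
    · rw [map_add, map_smul, map_smul]
      show x • (q (b 0) : F k X) + y • (q (b 1) : F k X)
        = (b 0 : F k X) * (x • (κ0 : F k X) + y • (κ0' : F k X))
          + (b 1 : F k X) * (x • (κ1 : F k X) + y • (κ1' : F k X))
          + (x • (a : F k X) + y • (a' : F k X)) * (b 2 : F k X)
          + (b 2 : F k X) * (x • (g : F k X) + y • (g' : F k X))
      rw [e5, e5']
      simp only [mul_add, add_mul, mul_smul_comm, smul_mul_assoc, smul_add]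
      abel
  · have hb0 : b 0 ≠ 0 := b.ne_zero 0
    have hb1 : b 1 ≠ 0 := b.ne_zero 1
    obtain ⟨ha, r, hr, hr'⟩ := B1 (b 0) κ0 κ1 a g h0 hb0 e1 e2 e3 e4 e5
    obtain ⟨ha', r', hr1, hr1'⟩ := B1 (b 1) κ0' κ1' a' g' h1 hb1 e1' e2' e3' e4' e5'
    have hli : LinearIndependent k ![(q a : F k X), (q a' : F k X)] := by
      rw [LinearIndependent.pair_iff]
      intro s t hst
      by_contra hne
      have hst0 : s ≠ 0 ∨ t ≠ 0 := by
        by_contra h
        push Not at h
        exact hne h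
      have hsum : s • a + t • a' ≠ 0 := fun h => hdep ⟨s, t, hst0, h⟩
      refine hA (s • a + t • a') (by rw [map_add, map_smul, map_smul, e3, e3']; simp) hsum ?_
      rw [map_add, map_smul, map_smul]
      exact hst
    have h3 := rind ε _ hli 1 ![r, -r'] (by
      intro i
      fin_cases i
      · exact hr
      · exact neg_mem hr1) (by
      rw [Fin.sum_univ_two]
      show (q a : F k X) * r + (q a' : F k X) * (-r') = 0
      rw [mul_neg, ← hr', ← hr1', ← sub_eq_add_neg, sub_self])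
    have h4 : r = 0 := h3 0
    rw [h4, mul_zero] at hr'
    exact hC hr'

include hπ hw in
/-- the cubic part of a retraction is not injective -/
theorem not_inj [Nonempty X] (hinj : Function.Injective c) : False := by
  obtain ⟨b, hb⟩ := exists_basis ε
  have hci : LinearIndependent k (fun x => (c (b x) : F k X)) := by
    have h1 : LinearIndependent k (fun x => ((H ε 3).subtype.comp c) (b x)) :=
      b.linearIndependent.map' _ (LinearMap.ker_eq_bot.2
        (Subtype.val_injective.comp hinj))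
    exact h1
  have key : ∀ j : ℕ, ∀ f ∈ H ε j, eC ε c f = 0 → f = 0 := by
    intro j
    induction j with
    | zero =>
      intro f hf h
      obtain ⟨a, rfl⟩ := H_zero ε hf
      rwa [AlgHom.commutes] at h
    | succ j ih =>
      intro f hf h
      obtain ⟨g, hg1, hg2⟩ := leftrep ε b j f hf
      rw [hg2, map_sum] at h
      have h2 : ∑ i, (c (b i) : F k X) * eC ε c (g i) = 0 := by
        rw [← h]
        exact Finset.sum_congr rfl fun i _ => by rw [map_mul, eC_v]
      have h3 := rind ε _ hci (3 * j) (fun i => eC ε c (g i)) (fun i => eC_H ε c j _ (hg1 i)) h2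
      rw [hg2]
      exact Finset.sum_eq_zero fun i _ => by rw [ih (g i) (hg1 i) (h3 i), mul_zero]
  obtain ⟨x⟩ := ‹Nonempty X›
  have h1 := key 3 _ (c (b x)).2 (eC_c π hπ ε L q c hw (b x))
  have h2 : c (b x) = c 0 := by rw [map_zero]; exact Subtype.ext h1
  exact b.ne_zero x (hinj h2)

end CaseB

end Rfa
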