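import Pool.Agent.Lib.Rfa.Main
import Pool.Agent.Lib.Prt.Fin

/-!
Retractions of the free algebra of rank three which preserve a free factor.
-/

namespace Rfa

open Polynomial

variable {k : Type*} [Field k]

/-- idempotent polynomials for the composition are the identity and the constants -/
lemma comp_idem (p : k[X]) (hp : p.comp p = p) : p = X ∨ ∃ c, p = C c := by
  have h1 : p.natDegree * p.natDegree = p.natDegree := by
    have := congrArg natDegree hp
    rwa [natDegree_comp] at this
  have h2 : p.natDegree = 0 ∨ p.natDegree = 1 := by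
    rcases Nat.eq_zero_or_pos p.natDegree with h | h
    · exact Or.inl h
    · exact Or.inr (Nat.eq_of_mul_eq_mul_left h (by rw [h1, mul_one]))
  rcases h2 with h2 | h2
  · right
    obtain ⟨c, hc⟩ := natDegree_eq_zero.1 h2
    exact ⟨c, hc.symm⟩
  · left
    obtain ⟨a, ha, b, hb⟩ := natDegree_eq_one.1 h2
    rw [← hb] at hp
    have h3 : (C a * X + C b).comp (C a * X + C b) = C (a * a) * X + C (a * b + b) := by
      simp only [add_comp, mul_comp, C_comp, X_comp, map_mul, map_add]
      ring
    rw [h3] at hp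
    have hca : a * a = a := by
      have := congrArg (fun q => q.coeff 1) hp
      simpa only [coeff_add, coeff_C_mul, coeff_X_one, mul_one, coeff_C_succ, add_zero] using this
    have hcb : a * b + b = b := by
      have := congrArg (fun q => q.coeff 0) hp
      simpa only [coeff_add, coeff_C_mul, coeff_X_zero, mul_zero, coeff_C_zero, zero_add] using this
    have ha1 : a = 1 := mul_left_cancel₀ ha (by rw [hca, mul_one])
    have hb0 : b = 0 := by
      have : a * b = 0 := by linear_combination hcb
      exact (mul_eq_zero.1 this).resolve_left ha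
    rw [← hb, ha1, hb0]
    simp

/-- a constant value on a primitive element: the image is a retract of the algebra of rank two -/
theorem const_case (π : F k (Fin 3) →ₐ[k] F k (Fin 3)) (hπ : ∀ f, π (π f) = π f) (c : k)
    (h : π (FreeAlgebra.ι k 0) = algebraMap k _ c) : FreeImg π 2 := by
  set incl : F k (Fin 2) →ₐ[k] F k (Fin 3) := vmap k Fin.succ with hincl
  set κ : F k (Fin 3) →ₐ[k] F k (Fin 2) :=
    FreeAlgebra.lift k ![algebraMap k _ c, FreeAlgebra.ι k 0, FreeAlgebra.ι k 1] with hκ
  have hκincl : ∀ f, κ (incl f) = f := fun f =>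
    hom_eq (φ := κ.comp incl) (ψ := AlgHom.id k _) (fun i => by
      fin_cases i <;> simp [hκ, hincl]) f
  have hπκ : ∀ f, π (incl (κ f)) = π f := fun f =>
    hom_eq (φ := (π.comp incl).comp κ) (ψ := π) (fun i => by
      fin_cases i
      · simp [hκ, h]
      · simp [hκ, hincl]
      · simp [hκ, hincl]) f
  set π₁ : F k (Fin 2) →ₐ[k] F k (Fin 2) := (κ.comp π).comp incl with hπ₁
  have hπ₁κ : ∀ f, π₁ (κ f) = κ (π f) := fun f => by
    show κ (π (incl (κ f))) = κ (π f)
    rw [hπκ]
  have hidem : ∀ f, π₁ (π₁ f) = π₁ f := fun f => by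
    show π₁ (κ (π (incl f))) = κ (π (incl f))
    rw [hπ₁κ, hπ]
  obtain ⟨m, hm, φ, h1, h2⟩ := two π₁ hidem
  -- the section
  set s : F k (Fin m) →ₐ[k] F k (Fin 3) := (π.comp incl).comp φ with hs
  have hκs : ∀ g, κ (s g) = φ g := fun g => by
    have h3 : φ g ∈ π₁.range := by rw [← h2]; exact ⟨g, rfl⟩
    obtain ⟨a, ha⟩ := h3
    have ha' : π₁ a = φ g := ha
    show π₁ (φ g) = φ g
    rw [← ha', hidem]
  refine ⟨m, hm, s, ?_, ?_⟩
  · intro a b hab
    apply h1
    rw [← hκs, ← hκs, hab]
  · apply le_antisymm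
    · rintro _ ⟨g, rfl⟩
      exact ⟨incl (φ g), rfl⟩
    · rintro _ ⟨f, rfl⟩
      have h3 : π₁ (κ f) ∈ φ.range := by rw [h2]; exact ⟨_, rfl⟩
      obtain ⟨g, hg⟩ := h3
      have hg' : φ g = π₁ (κ f) := hg
      refine ⟨g, ?_⟩
      show π (incl (φ g)) = π f
      rw [hg', hπ₁κ, hπκ, hπ]

/-- a retraction of the free algebra of rank three which fixes or sends to a constant the first
variable, or maps the subalgebra of the first two variables to itself, has a free image -/
theorem three (π : F k (Fin 3) →ₐ[k] F k (Fin 3)) (hπ : ∀ f, π (π f) = π f)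
    (h : π (FreeAlgebra.ι k 0) ∈ Algebra.adjoin k {(FreeAlgebra.ι k 0 : F k (Fin 3))} ∨
      (π (FreeAlgebra.ι k 0) ∈
          Algebra.adjoin k {(FreeAlgebra.ι k 0 : F k (Fin 3)), FreeAlgebra.ι k 1} ∧
        π (FreeAlgebra.ι k 1) ∈
          Algebra.adjoin k {(FreeAlgebra.ι k 0 : F k (Fin 3)), FreeAlgebra.ι k 1})) :
    ∃ m ≤ 3, Nonempty (π.range ≃ₐ[k] FreeAlgebra k (Fin m)) := by
  have hfin : ∀ N ≤ 3, FreeImg π N → ∃ m ≤ 3, Nonempty (π.range ≃ₐ[k] FreeAlgebra k (Fin m)) := by
    rintro N hN ⟨m, hm, φ, h1, h2⟩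
    refine ⟨m, hm.trans hN, ?_⟩
    rw [← h2]
    exact ⟨(AlgEquiv.ofInjective φ h1).symm⟩
  rcases h with h | ⟨h0, h1⟩
  · rw [Algebra.adjoin_singleton_eq_range_aeval] at h
    obtain ⟨p, hp⟩ := h
    have hp' : aeval (FreeAlgebra.ι k 0 : F k (Fin 3)) p = π (FreeAlgebra.ι k 0) := hp
    -- the polynomial is idempotent
    have hinj : Function.Injective (aeval (R := k) (FreeAlgebra.ι k 0 : F k (Fin 3))) := by
      set q : F k (Fin 3) →ₐ[k] k[X] := FreeAlgebra.lift k (fun _ => X) with hq
      have : ∀ f : k[X], q (aeval (FreeAlgebra.ι k 0) f) = f := fun f => by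
        rw [← Polynomial.aeval_algHom_apply]
        simp [hq]
      intro a b hab
      rw [← this a, ← this b, hab]
    have hpp : p.comp p = p := hinj (by
      rw [Polynomial.aeval_comp, hp', Polynomial.aeval_algHom_apply, hp', hπ])
    rcases comp_idem p hpp with hX | ⟨c, hc⟩
    · -- the variable is in the retract
      rw [hX, aeval_X] at hp'
      obtain ⟨-, h2⟩ := Prt.fin_main (m := 2) π.range π (fun f => ⟨f, rfl⟩)
        (by rintro _ ⟨f, rfl⟩; exact hπ f) (Prt.toW k 0) (FreeAlgebra.ι k 0) (Prt.toW_ι k 0) X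
        (by simp) (by rw [aeval_X]; exact ⟨_, hp'.symm⟩) (Or.inl le_rfl)
      rcases h2 with h2 | h2 | ⟨y, _, h2, h3⟩
      · exact ⟨3, le_rfl, by rw [h2]; exact ⟨Subalgebra.topEquiv⟩⟩
      · refine hfin 1 (by norm_num) ⟨1, le_rfl, FreeAlgebra.lift k (fun _ => FreeAlgebra.ι k 0),
          ?_, ?_⟩
        · have hq : ∀ g : F k (Fin 1), FreeAlgebra.lift k (fun _ : Fin 3 => (FreeAlgebra.ι k 0 :
              F k (Fin 1))) (FreeAlgebra.lift k (fun _ : Fin 1 =>
                (FreeAlgebra.ι k 0 : F k (Fin 3))) g) = g := fun g =>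
            hom_eq (φ := (FreeAlgebra.lift k (fun _ : Fin 3 => (FreeAlgebra.ι k 0 :
              F k (Fin 1)))).comp (FreeAlgebra.lift k (fun _ : Fin 1 =>
                (FreeAlgebra.ι k 0 : F k (Fin 3))))) (ψ := AlgHom.id k _)
              (fun i => by
                obtain rfl : i = 0 := Subsingleton.elim _ _
                simp) g
          intro a b hab
          rw [← hq a, ← hq b, hab]
        · rw [h2, ← Algebra.adjoin_range_eq_range_freeAlgebra_lift]
          congr 1
          simp
      · refine hfin 2 (by norm_num) ⟨2, le_rfl, FreeAlgebra.lift k ![FreeAlgebra.ι k 0, y], h3, ?_⟩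
        rw [h2, ← Algebra.adjoin_range_eq_range_freeAlgebra_lift]
        congr 1
        ext a
        simp only [Set.mem_range, Fin.exists_fin_two, Matrix.cons_val_zero, Matrix.cons_val_one,
          Set.mem_insert_iff, Set.mem_singleton_iff]
        constructor
        · rintro (h | h)
          · exact Or.inl h.symm
          · exact Or.inr h.symm
        · rintro (h | h)
          · exact Or.inl h.symm
          · exact Or.inr h.symm
    · rw [hc, aeval_C] at hp'
      exact hfin 2 (by norm_num) (const_case π hπ c hp'.symm)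
  · refine hfin 3 le_rfl (flag 3 π hπ (fun i => ?_))
    have hle : Algebra.adjoin k {(FreeAlgebra.ι k 0 : F k (Fin 3)), FreeAlgebra.ι k 1}
        ≤ T k 3 i := by
      refine Algebra.adjoin_mono ?_
      rintro f (rfl | rfl)
      · exact ⟨0, by simp, rfl⟩
      · exact ⟨1, by simp, rfl⟩
    fin_cases i
    · exact hle h0
    · exact hle h1
    · have : T k 3 (2 : ℕ) = ⊤ := by
        rw [T, ← FreeAlgebra.adjoin_range_ι]
        congr 1
        ext f
        constructor
        · rintro ⟨j, _, rfl⟩
          exact ⟨j, rfl⟩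
        · rintro ⟨j, rfl⟩
          exact ⟨j, by have := j.isLt; omega, rfl⟩
      show _ ∈ T k 3 (2 : ℕ)
      rw [this]
      exact Algebra.mem_top

end Rfa
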