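import Pool.Agent.Lib.Rfa.Window

/-!
Words of given lengths and the filtrations.
-/

namespace Rfa

variable {k : Type*} [Field k]

/-- the span of the words in the elements `g x` whose length lies in `S` -/
def Wd (k : Type*) [Field k] {F' X : Type*} [Ring F'] [Algebra k F'] (g : X → F') (S : Set ℕ) :
    Submodule k F' :=
  Submodule.span k {f | ∃ l : List X, l.length ∈ S ∧ (l.map g).prod = f}

lemma Wd_mono {F' X : Type*} [Ring F'] [Algebra k F'] (g : X → F') {S T : Set ℕ} (h : S ⊆ T) :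
    Wd k g S ≤ Wd k g T :=
  Submodule.span_mono (by
    rintro f ⟨l, hl, rfl⟩
    exact ⟨l, h hl, rfl⟩)

lemma Wd_union {F' X : Type*} [Ring F'] [Algebra k F'] (g : X → F') (S T : Set ℕ) :
    Wd k g (S ∪ T) ≤ Wd k g S ⊔ Wd k g T := by
  refine Submodule.span_le.2 ?_
  rintro f ⟨l, (hl | hl), rfl⟩
  · exact Submodule.mem_sup_left (Submodule.subset_span ⟨l, hl, rfl⟩)
  · exact Submodule.mem_sup_right (Submodule.subset_span ⟨l, hl, rfl⟩)

lemma Wd_map {F' F'' X : Type*} [Ring F'] [Algebra k F'] [Ring F''] [Algebra k F'']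
    (σ : F' →ₐ[k] F'') (g : X → F') (S : Set ℕ) {f : F'} (hf : f ∈ Wd k g S) :
    σ f ∈ Wd k (fun x => σ (g x)) S := by
  have : Wd k g S ≤ (Wd k (fun x => σ (g x)) S).comap σ.toLinearMap := by
    refine Submodule.span_le.2 ?_
    rintro f ⟨l, hl, rfl⟩
    refine Submodule.subset_span ⟨l, hl, ?_⟩
    show _ = σ _
    rw [map_list_prod, List.map_map]
    rfl
  exact this hf

variable {X : Type*} [DecidableEq X]

lemma Wd_le_Dg (ε : F k X →ₐ[k] k) (n : ℕ) :
    Wd k (FreeAlgebra.ι k : X → F k X) {j | j ≤ n} ≤ Dg ε n := by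
  refine Submodule.span_le.2 ?_
  rintro f ⟨l, hl, rfl⟩
  have key : ∀ l : List X, (l.map (FreeAlgebra.ι k : X → F k X)).prod ∈ Dg ε l.length := by
    intro l
    induction l with
    | nil =>
      rw [List.map_nil, List.prod_nil, ← map_one (algebraMap k (F k X))]
      exact const_mem_Dg ε 1 _
    | cons x l ih =>
      rw [List.map_cons, List.prod_cons, List.length_cons, add_comm]
      exact Dg_mul ε 1 l.length _ (ι_mem_Dg ε x) _ ih
  exact Dg_mono' ε hl (key l)

/-- the evaluation at the origin -/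
noncomputable def ε₀ (k : Type*) [Field k] (X : Type*) : F k X →ₐ[k] k :=
  FreeAlgebra.lift k (fun _ => 0)

omit [DecidableEq X] in
lemma ε₀_ι (x : X) : ε₀ k X (FreeAlgebra.ι k x) = 0 := by simp [ε₀]

omit [DecidableEq X] in
lemma cx_ε₀ (x : X) : cx (ε₀ k X) x = FreeAlgebra.ι k x := by simp [cx, ε₀_ι]

lemma Wd_le_I (n : ℕ) :
    Wd k (FreeAlgebra.ι k : X → F k X) {j | n ≤ j} ≤ I (ε₀ k X) n := by
  refine Submodule.span_le.2 ?_
  rintro f ⟨l, hl, rfl⟩
  have key : ∀ l : List X,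
      (l.map (FreeAlgebra.ι k : X → F k X)).prod ∈ I (ε₀ k X) l.length := by
    intro l
    induction l with
    | nil => exact mem_I_zero _ _
    | cons x l ih =>
      rw [List.map_cons, List.prod_cons, List.length_cons, add_comm]
      exact I_mul _ 1 l.length _ ((I_one _ _).2 (ε₀_ι x)) _ ih
  exact I_anti' _ hl (key l)

omit [DecidableEq X] in
lemma Wd_mul_ι (S T : Set ℕ) (hST : ∀ j ∈ S, j + 1 ∈ T) {f : F k X}
    (hf : f ∈ Wd k (FreeAlgebra.ι k : X → F k X) S) (x : X) :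
    f * FreeAlgebra.ι k x ∈ Wd k (FreeAlgebra.ι k : X → F k X) T := by
  have : Wd k (FreeAlgebra.ι k : X → F k X) S ≤
      (Wd k (FreeAlgebra.ι k : X → F k X) T).comap
        (LinearMap.mulRight k (FreeAlgebra.ι k x : F k X)) := by
    refine Submodule.span_le.2 ?_
    rintro f ⟨l, hl, rfl⟩
    refine Submodule.subset_span ⟨l ++ [x], ?_, ?_⟩
    · rw [List.length_append]
      exact hST _ hl
    · simp
  exact this hf

omit [DecidableEq X] in
lemma Wd_univ (f : F k X) : f ∈ Wd k (FreeAlgebra.ι k : X → F k X) {j | 0 ≤ j} := by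
  induction f using FreeAlgebra.induction with
  | grade0 r =>
    rw [Algebra.algebraMap_eq_smul_one]
    exact Submodule.smul_mem _ _ (Submodule.subset_span ⟨[], Nat.zero_le _, by simp⟩)
  | grade1 y => exact Submodule.subset_span ⟨[y], Nat.zero_le _, by simp⟩
  | mul a b ha hb =>
    have hmul : ∀ b ∈ Wd k (FreeAlgebra.ι k : X → F k X) {j | 0 ≤ j},
        a * b ∈ Wd k (FreeAlgebra.ι k : X → F k X) {j | 0 ≤ j} := by
      intro b hb
      have : Wd k (FreeAlgebra.ι k : X → F k X) {j | 0 ≤ j} ≤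
          (Wd k (FreeAlgebra.ι k : X → F k X) {j | 0 ≤ j}).comap (LinearMap.mulLeft k a) := by
        refine Submodule.span_le.2 ?_
        rintro f ⟨l, -, rfl⟩
        show a * _ ∈ Wd k (FreeAlgebra.ι k : X → F k X) {j | 0 ≤ j}
        induction l using List.reverseRecOn with
        | nil => simpa using ha
        | append_singleton l x ih =>
          rw [List.map_append, List.prod_append, ← mul_assoc, List.map_singleton,
            List.prod_singleton]
          exact Wd_mul_ι _ _ (fun j _ => Nat.zero_le _) ih x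
      exact this hb
    exact hmul b hb
  | add a b ha hb => exact add_mem ha hb

lemma I_le_Wd (n : ℕ) : I (ε₀ k X) n ≤ Wd k (FreeAlgebra.ι k : X → F k X) {j | n ≤ j} := by
  induction n with
  | zero => exact fun f _ => Wd_univ f
  | succ n ih =>
    intro f hf
    obtain ⟨t, ht⟩ := recon' (ε₀ k X) f
    have h1 := (ht t (Finset.Subset.refl _)).2
    rw [hf.1, map_zero, zero_add] at h1
    rw [h1]
    refine sum_mem fun x _ => ?_
    rw [cx_ε₀]
    exact Wd_mul_ι {j | n ≤ j} {j | n + 1 ≤ j} (fun j hj => Nat.succ_le_succ hj) (ih (hf.2 x)) x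

lemma V_le_Wd : V (ε₀ k X) ≤ Wd k (FreeAlgebra.ι k : X → F k X) {1} := by
  refine (V_le_span _).trans (Submodule.span_mono ?_)
  rintro _ ⟨x, rfl⟩
  exact ⟨[x], rfl, by simp [cx_ε₀]⟩

lemma Wd_le_V : Wd k (FreeAlgebra.ι k : X → F k X) {1} ≤ V (ε₀ k X) := by
  refine Submodule.span_le.2 ?_
  rintro f ⟨l, hl, rfl⟩
  obtain ⟨x, rfl⟩ := List.length_eq_one_iff.1 hl
  rw [List.map_singleton, List.prod_singleton, ← cx_ε₀]
  exact cx_mem_V _ x

/-- the theorem on short ranges of degrees in terms of words -/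
theorem windowW (π : F k X →ₐ[k] F k X) (hπ : ∀ f, π (π f) = π f)
    (h : (∀ x, π (FreeAlgebra.ι k x) ∈ Wd k (FreeAlgebra.ι k : X → F k X) {j | j ≤ 2}) ∨
      ∃ m, 2 ≤ m ∧
        (∀ x, π (FreeAlgebra.ι k x) ∈ Wd k (FreeAlgebra.ι k : X → F k X) {j | j = 1 ∨ m ≤ j}) ∧
        ∀ y ∈ Wd k (FreeAlgebra.ι k : X → F k X) {1},
          π y ∈ Wd k (FreeAlgebra.ι k : X → F k X) {j | 2 ≤ j} →
          y ∈ Submodule.span k {z | ∃ a,
            π z ∈ Wd k (FreeAlgebra.ι k : X → F k X) (Set.Icc a (a + m - 2))}) :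
    ∃ (B : Set (F k X)) (φ : F k B →ₐ[k] F k X), Function.Injective φ ∧ φ.range = π.range := by
  rcases h with h | ⟨m, hm, h1, h2⟩
  · obtain ⟨ε, hε⟩ := exists_aug π hπ
    have hcx2 : ∀ x, π (cx ε x) ∈ Dg ε 2 := fun x => by
      rw [cx, map_sub, AlgHom.commutes]
      exact sub_mem (Wd_le_Dg ε 2 (h x)) (const_mem_Dg ε _ 2)
    have hex : ∀ x, ∃ l ∈ V ε, π (cx ε x) - l ∈ I ε 2 := by
      intro x
      obtain ⟨s, hs⟩ := lin_mem' ε (π (cx ε x))
      obtain ⟨-, h4⟩ := hs s (Finset.Subset.refl _)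
      rw [hε, ε_cx, map_zero, zero_add] at h4
      refine ⟨_, sum_mem fun y _ => ?_, h4⟩
      rw [← Algebra.smul_def]
      exact Submodule.smul_mem _ _ (cx_mem_V ε y)
    choose ℓ hℓ1 hℓ2 using hex
    refine window π hπ ε hε 2 le_rfl ℓ hℓ1 hℓ2 (fun y hy hy2 => Submodule.subset_span ⟨2, hy2, ?_⟩)
    have : V ε ≤ (Dg ε 2).comap π.toLinearMap := by
      refine (V_le_span ε).trans (Submodule.span_le.2 ?_)
      rintro _ ⟨x, rfl⟩
      exact hcx2 x
    exact this hy
  · have hε : ∀ f, (ε₀ k X) (π f) = (ε₀ k X) f := fun f =>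
      hom_eq (φ := (ε₀ k X).comp π) (ψ := ε₀ k X) (fun x => by
        rw [AlgHom.comp_apply, ε₀_ι]
        refine (I_one _ _).1 (Wd_le_I 1 (Wd_mono _ ?_ (h1 x)))
        intro j hj
        have hj' : j = 1 ∨ m ≤ j := hj
        show 1 ≤ j
        omega) f
    have hex : ∀ x, ∃ l ∈ V (ε₀ k X), π (cx (ε₀ k X) x) - l ∈ I (ε₀ k X) m := by
      intro x
      rw [cx_ε₀]
      obtain ⟨l, hl, r, hr, hlr⟩ := Submodule.mem_sup.1 (Wd_union _ {1} {j | m ≤ j} (h1 x))
      refine ⟨l, Wd_le_V hl, ?_⟩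
      rw [← hlr, add_sub_cancel_left]
      exact Wd_le_I m hr
    choose ℓ hℓ1 hℓ2 using hex
    refine window π hπ (ε₀ k X) hε m hm ℓ hℓ1 hℓ2 (fun y hy hy2 => ?_)
    refine Submodule.span_mono ?_ (h2 y (V_le_Wd hy) (I_le_Wd 2 hy2))
    rintro z ⟨a, ha⟩
    exact ⟨a, Wd_le_I a (Wd_mono _ (fun j hj => hj.1) ha),
      Wd_le_Dg _ _ (Wd_mono _ (fun j hj => hj.2) ha)⟩

end Rfa
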