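import Pool.Agent.Lib.Rfa.CubicC
import Pool.Agent.Lib.Rfa.Three
import Pool.Agent.Lib.Rfa.Words

/-!
Retractions of degree at most three of the free algebra of rank three.
-/

namespace Rfa

variable {k : Type*} [Field k]

/-- a retraction which preserves the subalgebra generated by a member of a free generating family -/
theorem threeG {F' : Type*} [Ring F'] [Algebra k F'] (g : Fin 3 → F')
    (hg : Function.Bijective (FreeAlgebra.lift k g)) (π : F' →ₐ[k] F') (hπ : ∀ f, π (π f) = π f)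
    (h : π (g 0) ∈ Algebra.adjoin k {g 0}) :
    ∃ m ≤ 3, Nonempty (π.range ≃ₐ[k] FreeAlgebra k (Fin m)) := by
  set σ : FreeAlgebra k (Fin 3) ≃ₐ[k] F' := AlgEquiv.ofBijective _ hg with hσ
  have hσι : ∀ z, σ (FreeAlgebra.ι k z) = g z := fun z => by
    show FreeAlgebra.lift k g (FreeAlgebra.ι k z) = g z
    simp
  set π' : FreeAlgebra k (Fin 3) →ₐ[k] FreeAlgebra k (Fin 3) :=
    (σ.symm.toAlgHom.comp π).comp σ.toAlgHom with hπ'
  have hσπ : ∀ f, σ (π' f) = π (σ f) := fun f => σ.apply_symm_apply _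
  have hidem : ∀ f, π' (π' f) = π' f := fun f => σ.injective (by rw [hσπ, hσπ, hπ])
  have hmem : π' (FreeAlgebra.ι k 0) ∈
      Algebra.adjoin k {(FreeAlgebra.ι k 0 : FreeAlgebra k (Fin 3))} := by
    have h1 : (Algebra.adjoin k {(FreeAlgebra.ι k 0 : FreeAlgebra k (Fin 3))}).map σ.toAlgHom
        = Algebra.adjoin k {g 0} := by
      rw [AlgHom.map_adjoin, Set.image_singleton]
      congr 1
      exact congrArg _ (hσι 0)
    rw [← h1, ← hσι, ← hσπ] at h
    obtain ⟨a, ha, ha'⟩ := h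
    have : a = π' (FreeAlgebra.ι k 0) := σ.injective ha'
    rw [← this]
    exact ha
  obtain ⟨m, hm, ⟨e⟩⟩ := three π' hidem (Or.inl hmem)
  refine ⟨m, hm, ⟨AlgEquiv.trans ?_ e⟩⟩
  have h1 : π'.range.map σ.toAlgHom = π.range := by
    ext f
    constructor
    · rintro ⟨_, ⟨a, rfl⟩, rfl⟩
      exact ⟨σ a, (hσπ a).symm⟩
    · rintro ⟨a, rfl⟩
      refine ⟨_, ⟨σ.symm a, rfl⟩, ?_⟩
      refine (hσπ _).trans ?_
      rw [AlgEquiv.apply_symm_apply]
      rfl
  rw [← h1]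
  exact (Subalgebra.equivMapOfInjective _ σ.toAlgHom σ.injective).symm

/-- a basis of the centred linear forms is a free generating family -/
lemma gen_of_basis (ε : F k (Fin 3) →ₐ[k] k) (b : Module.Basis (Fin 3) k (H ε 1)) :
    Function.Bijective (FreeAlgebra.lift k (fun i => ((b i : H ε 1) : F k (Fin 3)))) := by
  set Ψ : H ε 1 →ₗ[k] F k (Fin 3) := b.constr k (fun i => FreeAlgebra.ι k i) with hΨ
  have hΨb : ∀ i, Ψ (b i) = FreeAlgebra.ι k i := fun i => by rw [hΨ, Module.Basis.constr_basis]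
  set g : Fin 3 → F k (Fin 3) := fun i => ((b i : H ε 1) : F k (Fin 3)) with hg
  have h1 : ∀ f, ext ε Ψ (FreeAlgebra.lift k g f) = f := fun f =>
    hom_eq (φ := (ext ε Ψ).comp (FreeAlgebra.lift k g)) (ψ := AlgHom.id k _) (fun i => by
      rw [AlgHom.comp_apply, FreeAlgebra.lift_ι_apply, hg]
      show ext ε Ψ ((b i : H ε 1) : F k (Fin 3)) = _
      rw [ext_v, hΨb]
      rfl) f
  have h3 : ∀ v : H ε 1, FreeAlgebra.lift k g (Ψ v) = v := by
    have : (FreeAlgebra.lift k g).toLinearMap.comp Ψ = (H ε 1).subtype := b.ext fun i => by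
      show FreeAlgebra.lift k g (Ψ (b i)) = ((b i : H ε 1) : F k (Fin 3))
      rw [hΨb, FreeAlgebra.lift_ι_apply]
    exact fun v => LinearMap.congr_fun this v
  have h2 : ∀ f, FreeAlgebra.lift k g (ext ε Ψ f) = f := fun f =>
    hom_eq (φ := (FreeAlgebra.lift k g).comp (ext ε Ψ)) (ψ := AlgHom.id k _) (fun x => by
      have e : ext ε Ψ (FreeAlgebra.ι k x) = algebraMap k _ (ε (FreeAlgebra.ι k x))
        + Ψ ⟨cx ε x, cx_mem_H ε x⟩ := FreeAlgebra.lift_ι_apply _ _
      rw [AlgHom.comp_apply, e, map_add, AlgHom.commutes, h3]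
      show _ + cx ε x = FreeAlgebra.ι k x
      rw [cx]
      abel) f
  exact ⟨fun x y hxy => by rw [← h1 x, ← h1 y, hxy], fun y => ⟨_, h2 y⟩⟩

/-- extension of a nonzero form to a basis -/
lemma exists_basis_one (ε : F k (Fin 3) →ₐ[k] k) (u : H ε 1) (hu : u ≠ 0) :
    ∃ b : Module.Basis (Fin 3) k (H ε 1), b 0 = u := by
  obtain ⟨b0, _⟩ := exists_basis ε
  have hfr : Module.finrank k (H ε 1) = 3 := by
    rw [Module.finrank_eq_card_basis b0, Fintype.card_fin]
  have h1 : LinearIndependent k (![u] : Fin 1 → H ε 1) := by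
    rw [linearIndependent_unique_iff]
    exact hu
  obtain ⟨y, hy⟩ := exists_linearIndependent_snoc_of_lt_finrank h1 (by rw [hfr]; norm_num)
  obtain ⟨z, hz⟩ := exists_linearIndependent_snoc_of_lt_finrank hy (by rw [hfr]; norm_num)
  refine ⟨basisOfLinearIndependentOfCardEqFinrank hz (by rw [hfr]; rfl), ?_⟩
  rw [coe_basisOfLinearIndependentOfCardEqFinrank]
  rfl

/-- extension of two independent forms to a basis -/
lemma exists_basis_two (ε : F k (Fin 3) →ₐ[k] k) (u u' : H ε 1) (hu : u ≠ 0)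
    (hu' : ∀ t : k, u' ≠ t • u) :
    ∃ b : Module.Basis (Fin 3) k (H ε 1), b 0 = u ∧ b 1 = u' := by
  obtain ⟨b0, _⟩ := exists_basis ε
  have hfr : Module.finrank k (H ε 1) = 3 := by
    rw [Module.finrank_eq_card_basis b0, Fintype.card_fin]
  have h1 : LinearIndependent k ![u, u'] := by
    rw [LinearIndependent.pair_iff]
    intro s t hst
    have ht : t = 0 := by
      by_contra ht
      refine hu' (-(t⁻¹ * s)) ?_
      have h2 : t • u' = -(s • u) := eq_neg_of_add_eq_zero_right hst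
      calc u' = t⁻¹ • (t • u') := by rw [smul_smul, inv_mul_cancel₀ ht, one_smul]
        _ = (-(t⁻¹ * s)) • u := by rw [h2]; module
    rw [ht, zero_smul, add_zero] at hst
    exact ⟨(smul_eq_zero.1 hst).resolve_right hu, ht⟩
  obtain ⟨z, hz⟩ := exists_linearIndependent_snoc_of_lt_finrank h1 (by rw [hfr]; norm_num)
  refine ⟨basisOfLinearIndependentOfCardEqFinrank hz (by rw [hfr]; rfl), ?_, ?_⟩
  · rw [coe_basisOfLinearIndependentOfCardEqFinrank]
    rfl
  · rw [coe_basisOfLinearIndependentOfCardEqFinrank]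
    rfl

/-- retractions of degree at most three in rank three -/
theorem cubic3 (π : F k (Fin 3) →ₐ[k] F k (Fin 3)) (hπ : ∀ f, π (π f) = π f)
    (hdeg : ∀ (ε : F k (Fin 3) →ₐ[k] k) x, π (FreeAlgebra.ι k x) ∈ Dg ε 3) :
    (∃ m ≤ 3, Nonempty (π.range ≃ₐ[k] FreeAlgebra k (Fin m))) ∨
      ∃ (B : Set (F k (Fin 3))) (φ : F k B →ₐ[k] F k (Fin 3)),
        Function.Injective φ ∧ φ.range = π.range := by
  obtain ⟨ε, hε⟩ := exists_aug π hπ
  have hdegv : ∀ v : H ε 1, π (v : F k (Fin 3)) ∈ Dg ε 3 := by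
    have : V ε ≤ (Dg ε 3).comap π.toLinearMap := by
      refine (V_le_span ε).trans (Submodule.span_le.2 ?_)
      rintro _ ⟨x, rfl⟩
      show π (cx ε x) ∈ Dg ε 3
      rw [cx, map_sub, AlgHom.commutes]
      exact sub_mem (hdeg ε x) (const_mem_Dg ε _ 3)
    exact fun v => this ⟨v.2.2, ε_H ε v.2⟩
  obtain ⟨L, q, c, hw⟩ := exists_parts π ε hε hdegv
  have hLL : ∀ v, L (L v) = L v := fun v => (rel12 π hπ ε hε L q c hw v).1
  have hz3 : ((0 : H ε 3) : F k (Fin 3)) = 0 := rfl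
  -- a primitive element which is fixed or killed
  have hprim : ∀ v : H ε 1, v ≠ 0 → π (v : F k (Fin 3)) ∈ Algebra.adjoin k {(v : F k (Fin 3))} →
      ∃ m ≤ 3, Nonempty (π.range ≃ₐ[k] FreeAlgebra k (Fin m)) := by
    intro v hv hmem
    obtain ⟨b, hb⟩ := exists_basis_one ε v hv
    refine threeG (fun i => ((b i : H ε 1) : F k (Fin 3))) (gen_of_basis ε b) π hπ ?_
    show π ((b 0 : H ε 1) : F k (Fin 3)) ∈ Algebra.adjoin k {((b 0 : H ε 1) : F k (Fin 3))}
    rw [hb]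
    exact hmem
  by_cases hA : ∀ v : H ε 1, v ≠ 0 → (q v : F k (Fin 3)) ≠ 0 ∨ (c v : F k (Fin 3)) ≠ 0
  swap
  · -- a form with vanishing nonlinear parts
    left
    obtain ⟨v, hv0, hqv, hcv⟩ : ∃ v : H ε 1, v ≠ 0 ∧ (q v : F k (Fin 3)) = 0 ∧
        (c v : F k (Fin 3)) = 0 := by
      by_contra hcon
      apply hA
      intro v hv
      by_contra h
      push Not at h
      exact hcon ⟨v, hv, h.1, h.2⟩
    have hπv : π (v : F k (Fin 3)) = (L v : F k (Fin 3)) := by
      rw [hw, hqv, hcv, add_zero, add_zero]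
    by_cases hLv : L v = 0
    · refine hprim v hv0 ?_
      rw [hπv, hLv]
      exact Subalgebra.zero_mem _
    · refine hprim (L v) hLv ?_
      rw [← hπv, hπ, hπv]
      exact Algebra.subset_adjoin rfl
  by_cases hc : ∀ v, c v = 0
  · -- degree two
    right
    have hw2 : ∀ v : H ε 1, π (v : F k (Fin 3)) = (L v : F k (Fin 3)) + (q v : F k (Fin 3)) :=
      fun v => by rw [hw, hc, hz3, add_zero]
    refine window π hπ ε hε 2 le_rfl
      (fun x => (L ⟨cx ε x, cx_mem_H ε x⟩ : F k (Fin 3)))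
      (fun x => ⟨(L _).2.2, ε_H ε (L _).2⟩) (fun x => ?_) (fun y hy hy2 => ?_)
    · have h1 : π (cx ε x) = (L ⟨cx ε x, cx_mem_H ε x⟩ : F k (Fin 3))
        + (q ⟨cx ε x, cx_mem_H ε x⟩ : F k (Fin 3)) := hw2 ⟨cx ε x, cx_mem_H ε x⟩
      rw [h1, add_sub_cancel_left]
      exact (q _).2.1
    · refine Submodule.subset_span ⟨2, hy2, ?_⟩
      have hyH : y ∈ H ε 1 := ⟨(I_one ε y).2 hy.2, hy.1⟩
      have h1 : π y = (L ⟨y, hyH⟩ : F k (Fin 3)) + (q ⟨y, hyH⟩ : F k (Fin 3)) := hw2 ⟨y, hyH⟩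
      rw [h1]
      exact add_mem (H_le_Dg ε (by norm_num) (L _).2) (H_le_Dg ε (by norm_num) (q _).2)
  -- the cubic part is neither zero nor injective
  left
  obtain ⟨u, hu0, hu⟩ : ∃ u : H ε 1, u ≠ 0 ∧ c u = 0 := by
    by_contra hcon
    refine not_inj π hπ ε L q c hw ?_
    rw [injective_iff_map_eq_zero]
    intro v hv
    by_contra hne
    exact hcon ⟨v, hne, hv⟩
  have hAq : ∀ v, c v = 0 → v ≠ 0 → (q v : F k (Fin 3)) ≠ 0 := fun v hv hv0 => by
    rcases hA v hv0 with h | h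
    · exact h
    · exact absurd (by rw [hv]; rfl) h
  have hu0F : (u : F k (Fin 3)) ≠ 0 := fun h => hu0 (Subtype.ext h)
  by_cases hK : ∀ v, c v = 0 → ∃ t : k, v = t • u
  · obtain ⟨b, hb⟩ := exists_basis_one ε u hu0
    obtain ⟨g, hg1, hg2⟩ := leftrep ε b 1 _ (q u).2
    have heC := eC_q π hπ ε L q c hw hLL u hu
    have hcb0 : c (b 0) = 0 := by rw [hb]; exact hu
    have e0 : ∀ i, eC ε c (g i) = (c ⟨g i, hg1 i⟩ : F k (Fin 3)) := fun i =>
      eC_v ε c ⟨g i, hg1 i⟩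
    rw [hg2, map_sum, Fin.sum_univ_three, map_mul, map_mul, map_mul, eC_v, eC_v, eC_v, hcb0,
      hz3, zero_mul, zero_add, e0, e0] at heC
    have hli : LinearIndependent k ![(c (b 1) : F k (Fin 3)), (c (b 2) : F k (Fin 3))] := by
      rw [LinearIndependent.pair_iff]
      intro s t hst
      obtain ⟨r, hr⟩ := hK (s • b 1 + t • b 2) (Subtype.ext (by
        rw [map_add, map_smul, map_smul]; exact hst))
      have h2 := Fintype.linearIndependent_iff.1 b.linearIndependent ![-r, s, t] (by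
        rw [Fin.sum_univ_three]
        show (-r) • b 0 + s • b 1 + t • b 2 = 0
        rw [add_assoc, hr, ← hb]
        module)
      exact ⟨h2 1, h2 2⟩
    have h3 := rind ε _ hli 3 ![(c ⟨g 1, hg1 1⟩ : F k (Fin 3)), (c ⟨g 2, hg1 2⟩ : F k (Fin 3))]
      (by
        intro i
        fin_cases i
        · exact (c _).2
        · exact (c _).2) (by
        rw [Fin.sum_univ_two]
        exact heC)
    obtain ⟨t1, ht1⟩ := hK ⟨g 1, hg1 1⟩ (Subtype.ext (h3 0))
    obtain ⟨t2, ht2⟩ := hK ⟨g 2, hg1 2⟩ (Subtype.ext (h3 1))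
    have ht1' : g 1 = t1 • (u : F k (Fin 3)) := congrArg (fun w : H ε 1 => (w : F k (Fin 3))) ht1
    have ht2' : g 2 = t2 • (u : F k (Fin 3)) := congrArg (fun w : H ε 1 => (w : F k (Fin 3))) ht2
    obtain ⟨ϕ, p, hp⟩ := caseA π hπ ε hε L q c hw u ⟨g 0, hg1 0⟩ (t1 • b 1 + t2 • b 2) hu0F hu hK
      (hAq u hu hu0) (Fintype.card_fin 3) (by
        rw [hg2, Fin.sum_univ_three, ht1', ht2', hb]
        show (u : F k (Fin 3)) * g 0 + (b 1 : F k (Fin 3)) * (t1 • (u : F k (Fin 3)))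
          + (b 2 : F k (Fin 3)) * (t2 • (u : F k (Fin 3)))
          = (u : F k (Fin 3)) * g 0
            + (t1 • (b 1 : F k (Fin 3)) + t2 • (b 2 : F k (Fin 3))) * (u : F k (Fin 3))
        rw [add_mul, mul_smul_comm, mul_smul_comm, smul_mul_assoc, smul_mul_assoc]
        abel)
    obtain ⟨m, hm, φ, h4, h5⟩ := rankOne π hπ ε hε
      (fun j => ϕ ⟨cx ε j, cx_mem_H ε j⟩) (fun x => lam ε x (p : F k (Fin 3))) (fun j x => by
        have e1 : π (FreeAlgebra.ι k j) = π (cx ε j) + algebraMap k _ (ε (FreeAlgebra.ι k j)) := by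
          rw [cx, map_sub, AlgHom.commutes, sub_add_cancel]
        have e2 : π (cx ε j) = (L ⟨cx ε j, cx_mem_H ε j⟩ : F k (Fin 3))
          + (q ⟨cx ε j, cx_mem_H ε j⟩ : F k (Fin 3)) + (c ⟨cx ε j, cx_mem_H ε j⟩ : F k (Fin 3)) :=
          hw ⟨cx ε j, cx_mem_H ε j⟩
        have e3 : lam ε x (q ⟨cx ε j, cx_mem_H ε j⟩ : F k (Fin 3)) = 0 :=
          ε_H ε (D_mem_H ε (q _).2 x)
        have e4 : lam ε x (c ⟨cx ε j, cx_mem_H ε j⟩ : F k (Fin 3)) = 0 :=
          ε_H ε (D_mem_H ε (c _).2 x)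
        rw [e1, e2, (isDer_lam ε x).add, (isDer_lam ε x).add, (isDer_lam ε x).add,
          (isDer_lam ε x).alg, e3, e4, add_zero, add_zero, add_zero, hp]
        show ε (D ε x (ϕ ⟨cx ε j, cx_mem_H ε j⟩ • (p : F k (Fin 3)))) = _
        rw [D_smul, map_smul]
        rfl) 1 le_rfl
    refine ⟨m, by omega, ?_⟩
    rw [← h5]
    exact ⟨(AlgEquiv.ofInjective φ h4).symm⟩
  · exfalso
    obtain ⟨u', hu', hne⟩ : ∃ u', c u' = 0 ∧ ∀ t : k, u' ≠ t • u := by
      by_contra hcon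
      apply hK
      intro v hv
      by_contra h
      exact hcon ⟨v, hv, fun t ht => h ⟨t, ht⟩⟩
    obtain ⟨b, hb0, hb1⟩ := exists_basis_two ε u u' hu0 hne
    refine caseB π hπ ε hε L q c hw b (by rw [hb0]; exact hu) (by rw [hb1]; exact hu') ?_ hAq
    intro h2
    apply hc
    have : c = 0 := b.ext fun i => by
      fin_cases i
      · show c (b 0) = 0
        rw [hb0]; exact hu
      · show c (b 1) = 0
        rw [hb1]; exact hu'
      · exact Subtype.ext h2
    intro v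
    rw [this]
    rfl

end Rfa
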