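import Pool.Agent.Lib.Rfa.CubicC

/-!
Every retraction of degree at most three of a free algebra of finite rank kills or fixes a nonzero
centred linear form.
-/

namespace Rfa

variable {k : Type*} [Field k] {X : Type*} [DecidableEq X] [Fintype X]

/-- contraction with a linear functional on the quadratic forms -/
noncomputable def Ph (ε : F k X →ₐ[k] k) (φ : F k X →ₗ[k] k) (f : F k X) : F k X :=
  ∑ x, ∑ y, φ (cx ε y * cx ε x) • D ε y (D ε x f)

lemma Ph_add (ε : F k X →ₐ[k] k) (φ : F k X →ₗ[k] k) (f g : F k X) :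
    Ph ε φ (f + g) = Ph ε φ f + Ph ε φ g := by
  simp only [Ph, D_add, smul_add, Finset.sum_add_distrib]

lemma Ph_zero (ε : F k X →ₐ[k] k) (φ : F k X →ₗ[k] k) : Ph ε φ 0 = 0 := by
  simp only [Ph, D_zero, smul_zero, Finset.sum_const_zero]

lemma Ph_sum (ε : F k X →ₐ[k] k) (φ : F k X →ₗ[k] k) {T : Type*} (s : Finset T) (f : T → F k X) :
    Ph ε φ (∑ i ∈ s, f i) = ∑ i ∈ s, Ph ε φ (f i) := by
  classical
  induction s using Finset.induction_on with
  | empty => simp [Ph_zero]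
  | insert a s ha ih => rw [Finset.sum_insert ha, Finset.sum_insert ha, Ph_add, ih]

lemma Ph_mul (ε : F k X →ₐ[k] k) (φ : F k X →ₗ[k] k) (b g : F k X) (hg : g ∈ I ε 2) :
    Ph ε φ (b * g) = b * Ph ε φ g := by
  simp only [Ph, Finset.mul_sum]
  refine Finset.sum_congr rfl fun x _ => Finset.sum_congr rfl fun y _ => ?_
  have h0 : ε g = 0 := hg.1
  have h1 : ε (D ε x g) = 0 := (hg.2 x).1
  rw [D_mul, h0, map_zero, mul_zero, add_zero, D_mul, h1, map_zero, mul_zero, add_zero,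
    mul_smul_comm]

lemma Ph_H (ε : F k X →ₐ[k] k) (φ : F k X →ₗ[k] k) {d : ℕ} {g : F k X} (hg : g ∈ H ε (d + 2)) :
    Ph ε φ g ∈ H ε d :=
  sum_mem fun x _ => sum_mem fun y _ => Submodule.smul_mem _ _ (D_mem_H ε (D_mem_H ε hg x) y)

lemma Ph_two (ε : F k X →ₐ[k] k) (φ : F k X →ₗ[k] k) {f : F k X} (hf : f ∈ H ε 2) :
    Ph ε φ f = algebraMap k _ (φ f) := by
  choose c hc using fun x y => H_zero ε (D_mem_H ε (D_mem_H ε hf x) y)
  have h1 : f = ∑ x, ∑ y, c x y • (cx ε y * cx ε x) := by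
    have e1 := recon ε f
    rw [ε_H ε hf, map_zero, zero_add] at e1
    rw [e1]
    refine Finset.sum_congr rfl fun x _ => ?_
    have e2 := recon ε (D ε x f)
    rw [ε_H ε (D_mem_H ε hf x), map_zero, zero_add] at e2
    conv_lhs => rw [e2]
    rw [Finset.sum_mul]
    refine Finset.sum_congr rfl fun y _ => ?_
    rw [← hc x y, Algebra.smul_def, mul_assoc]
  have h2 : φ f = ∑ x, ∑ y, c x y * φ (cx ε y * cx ε x) := by
    conv_lhs => rw [h1]
    simp only [map_sum, map_smul, smul_eq_mul]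
  rw [h2]
  simp only [Ph, map_sum]
  refine Finset.sum_congr rfl fun x _ => Finset.sum_congr rfl fun y _ => ?_
  rw [← hc x y, Algebra.smul_def, ← map_mul, mul_comm]

/-- contractions dual to a linearly independent family of quadratic forms -/
lemma exists_dual (ε : F k X →ₐ[k] k) {T : Type*} [Fintype T] [DecidableEq T] (Q : T → F k X)
    (hQ : ∀ i, Q i ∈ H ε 2) (hli : LinearIndependent k Q) :
    ∃ φ : T → (F k X →ₗ[k] k), ∀ (i j : T) (a : F k X),
      Ph ε (φ j) (a * Q i) = if i = j then a else 0 := by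
  obtain ⟨G, hG⟩ : ∃ G : F k X →ₗ[k] (T →₀ k), ∀ i, G (Q i) = Finsupp.single i 1 := by
    obtain ⟨G, hG⟩ := (Finsupp.linearCombination k Q).exists_leftInverse_of_injective
      (LinearMap.ker_eq_bot.2 hli)
    refine ⟨G, fun i => ?_⟩
    have h1 := LinearMap.congr_fun hG (Finsupp.single i 1)
    simpa using h1
  refine ⟨fun j => (Finsupp.lapply j).comp G, fun i j a => ?_⟩
  rw [Ph_mul ε _ _ _ (hQ i).1, Ph_two ε _ (hQ i), LinearMap.comp_apply, hG, Finsupp.lapply_apply,
    Finsupp.single_apply]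
  by_cases h : i = j
  · rw [if_pos h, if_pos h, map_one, mul_one]
  · rw [if_neg h, if_neg h, map_zero, mul_zero]

/-- the top part -/
lemma top_part (ε : F k X →ₐ[k] k) {n : ℕ} {f : F k X} (hf : f ∈ Dg ε (n + 1)) :
    ∃ h ∈ H ε (n + 1), f - h ∈ Dg ε n := by
  obtain ⟨h, h1, h2⟩ := decomp ε (n + 1) f hf
  refine ⟨h (n + 1), h1 _, ?_⟩
  rw [h2, Finset.sum_range_succ, add_sub_cancel_right]
  exact sum_mem fun j hj => H_le_Dg ε (by have := Finset.mem_range.1 hj; omega) (h1 j)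

section Div

variable (ε : F k X →ₐ[k] k) {T : Type*} [Fintype T] (P Q : T → F k X)
  (hQ : ∀ i, Q i ∈ H ε 2) (hPQ : ∀ i, P i - Q i ∈ Dg ε 1) (hli : LinearIndependent k Q)

include hQ hPQ in
lemma P_Dg (i : T) : P i ∈ Dg ε 2 := by
  have : P i = (P i - Q i) + Q i := by abel
  rw [this]
  exact add_mem (Dg_mono' ε (by norm_num) (hPQ i)) (hQ i).2

include hQ hPQ hli in
/-- left coefficients are determined by the degree -/
lemma left_deg (n : ℕ) (f : T → F k X) (hf : ∀ i, f i ∈ Dg ε (n + 1))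
    (h : ∑ i, f i * P i ∈ Dg ε (n + 2)) : ∀ i, f i ∈ Dg ε n := by
  classical
  choose φ hφ1 hφ2 using fun i => top_part ε (hf i)
  have h1 : ∑ i, φ i * Q i = 0 := by
    refine zero_of ε (n := n + 2) (sum_mem fun i _ => (H_mul ε (hφ1 i) (hQ i)).1) ?_
    have e : ∑ i, φ i * Q i = ∑ i, f i * P i - ∑ i, ((f i - φ i) * P i + φ i * (P i - Q i)) := by
      rw [← Finset.sum_sub_distrib]
      refine Finset.sum_congr rfl fun i _ => ?_
      noncomm_ring
    rw [e]
    refine sub_mem h (sum_mem fun i _ => add_mem ?_ ?_)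
    · exact Dg_mul ε _ _ _ (hφ2 i) _ (P_Dg ε P Q hQ hPQ i)
    · exact Dg_mono' ε (by omega) (Dg_mul ε _ _ _ (hφ1 i).2 _ (hPQ i))
  obtain ⟨d, hd⟩ := exists_dual ε Q hQ hli
  intro j
  have h2 := congrArg (Ph ε (d j)) h1
  rw [Ph_sum, Ph_zero] at h2
  simp only [hd, Finset.sum_ite_eq', Finset.mem_univ, if_true] at h2
  have h3 := hφ2 j
  rwa [h2, sub_zero] at h3

include hQ hPQ hli in
/-- the division step -/
lemma div_step (d : ℕ) (A B : T → F k X) (hA : ∀ i, A i ∈ Dg ε (d + 2))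
    (hB : ∀ i, B i ∈ Dg ε (d + 2)) (h : ∑ i, P i * A i + ∑ i, B i * P i ∈ Dg ε (d + 3)) :
    ∃ s : T → T → F k X, (∀ i j, s i j ∈ H ε d) ∧
      (∀ i, A i - ∑ j, s i j * P j ∈ Dg ε (d + 1)) ∧
      (∀ j, B j + ∑ i, P i * s i j ∈ Dg ε (d + 1)) := by
  classical
  choose α hα1 hα2 using fun i => top_part ε (n := d + 1) (hA i)
  choose β hβ1 hβ2 using fun i => top_part ε (n := d + 1) (hB i)
  have hPD := P_Dg ε P Q hQ hPQ
  have h1 : ∑ i, Q i * α i + ∑ i, β i * Q i = 0 := by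
    refine zero_of ε (n := d + 3) (add_mem (sum_mem fun i _ => (H_mul' ε (hQ i) (hα1 i)
      (by ring)).1) (sum_mem fun i _ => (H_mul' ε (hβ1 i) (hQ i) (by ring)).1)) ?_
    have e : ∑ i, Q i * α i + ∑ i, β i * Q i = (∑ i, P i * A i + ∑ i, B i * P i)
        - ∑ i, (P i * (A i - α i) + (P i - Q i) * α i + (B i - β i) * P i
          + β i * (P i - Q i)) := by
      rw [← Finset.sum_add_distrib, ← Finset.sum_add_distrib, ← Finset.sum_sub_distrib]
      refine Finset.sum_congr rfl fun i _ => ?_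
      noncomm_ring
    rw [e]
    refine sub_mem h (sum_mem fun i _ => add_mem (add_mem (add_mem ?_ ?_) ?_) ?_)
    · exact Dg_mono' ε (by omega) (Dg_mul ε _ _ _ (hPD i) _ (hα2 i))
    · exact Dg_mono' ε (by omega) (Dg_mul ε _ _ _ (hPQ i) _ (hα1 i).2)
    · exact Dg_mono' ε (by omega) (Dg_mul ε _ _ _ (hβ2 i) _ (hPD i))
    · exact Dg_mono' ε (by omega) (Dg_mul ε _ _ _ (hβ1 i).2 _ (hPQ i))
  obtain ⟨δ, hδ⟩ := exists_dual ε Q hQ hli
  have hα2' : ∀ i, α i ∈ I ε 2 := fun i => H_le_I ε (by omega) (hα1 i)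
  set s : T → T → F k X := fun i j => Ph ε (δ j) (α i) with hs
  have hsH : ∀ i j, s i j ∈ H ε d := fun i j => Ph_H ε _ (hα1 i)
  have hβ : ∀ j, β j = - ∑ i, Q i * s i j := by
    intro j
    have h2 := congrArg (Ph ε (δ j)) h1
    rw [Ph_add, Ph_sum, Ph_sum, Ph_zero] at h2
    simp only [hδ, Finset.sum_ite_eq', Finset.mem_univ, if_true] at h2
    have h3 : ∑ i, Ph ε (δ j) (Q i * α i) = ∑ i, Q i * s i j :=
      Finset.sum_congr rfl fun i _ => Ph_mul ε _ _ _ (hα2' i)
    rw [h3] at h2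
    exact eq_neg_of_add_eq_zero_right h2
  have hα : ∀ i, α i - ∑ j, s i j * Q j = 0 := by
    refine rind ε Q hli (d + 2) (fun i => α i - ∑ j, s i j * Q j) (fun i =>
      sub_mem (hα1 i) (sum_mem fun j _ => H_mul ε (hsH i j) (hQ j))) ?_
    have e : ∑ i, Q i * (α i - ∑ j, s i j * Q j)
        = ∑ i, Q i * α i + ∑ j, β j * Q j := by
      have e2 : ∑ j, β j * Q j = - ∑ i, Q i * ∑ j, s i j * Q j := by
        simp only [hβ, neg_mul, Finset.sum_mul, Finset.mul_sum, Finset.sum_neg_distrib, mul_assoc]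
        rw [Finset.sum_comm]
      rw [e2]
      simp only [mul_sub, Finset.sum_sub_distrib]
      rw [sub_eq_add_neg]
    rw [e, h1]
  refine ⟨s, hsH, fun i => ?_, fun j => ?_⟩
  · have e : A i - ∑ j, s i j * P j = (A i - α i) + (α i - ∑ j, s i j * Q j)
        - ∑ j, s i j * (P j - Q j) := by
      simp only [mul_sub, Finset.sum_sub_distrib]
      abel
    rw [e, hα, add_zero]
    exact sub_mem (hα2 i) (sum_mem fun j _ => Dg_mul ε _ _ _ (hsH i j).2 _ (hPQ j))
  · have e : B j + ∑ i, P i * s i j = (B j - β j) + ∑ i, (P i - Q i) * s i j := by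
      rw [hβ j]
      simp only [sub_mul, Finset.sum_sub_distrib]
      abel
    rw [e]
    exact add_mem (hβ2 j) (sum_mem fun i _ => Dg_mono' ε (by omega)
      (Dg_mul ε _ _ _ (hPQ i) _ (hsH i j).2))

end Div

/-- a basis adapted to a linear map -/
lemma lin_split {V W : Type*} [AddCommGroup V] [Module k V] [AddCommGroup W] [Module k W]
    [Module.Finite k V] (c : V →ₗ[k] W) : ∃ (r s : ℕ) (b : Module.Basis (Fin r ⊕ Fin s) k V),
      (∀ i, c (b (Sum.inl i)) = 0) ∧ LinearIndependent k (fun j => c (b (Sum.inr j))) ∧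
      ∀ u, c u = 0 → ∃ t : Fin r → k, u = ∑ i, t i • b (Sum.inl i) := by
  obtain ⟨C, hC⟩ := Submodule.exists_isCompl (LinearMap.ker c)
  have bK := Module.finBasis k (LinearMap.ker c)
  have bC := Module.finBasis k C
  have hbl : ∀ i, ((bK.prod bC).map (Submodule.prodEquivOfIsCompl _ C hC)) (Sum.inl i)
      = (bK i : V) := fun i => by
    rw [Module.Basis.map_apply, Module.Basis.prod_apply]
    simp
  have hbr : ∀ i, ((bK.prod bC).map (Submodule.prodEquivOfIsCompl _ C hC)) (Sum.inr i)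
      = (bC i : V) := fun i => by
    rw [Module.Basis.map_apply, Module.Basis.prod_apply]
    simp
  refine ⟨_, _, (bK.prod bC).map (Submodule.prodEquivOfIsCompl _ C hC), fun i => ?_, ?_,
    fun u hu => ?_⟩
  · rw [hbl]
    exact (bK i).2
  · have h1 : LinearIndependent k (fun i => (c.comp C.subtype) (bC i)) := by
      refine bC.linearIndependent.map' _ ?_
      rw [LinearMap.ker_eq_bot']
      intro m hm
      have h3 : (m : V) ∈ LinearMap.ker c ⊓ C := ⟨hm, m.2⟩
      rw [hC.inf_eq_bot] at h3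
      exact Subtype.ext ((Submodule.mem_bot k).1 h3)
    have h2 : (fun i => (c.comp C.subtype) (bC i)) = fun j =>
        c (((bK.prod bC).map (Submodule.prodEquivOfIsCompl _ C hC)) (Sum.inr j)) := by
      funext j
      rw [hbr]
      rfl
    rw [← h2]
    exact h1
  · refine ⟨fun i => bK.repr ⟨u, hu⟩ i, ?_⟩
    have h6 := congrArg (fun v : LinearMap.ker c => (v : V)) (bK.sum_repr ⟨u, hu⟩)
    simp only [Submodule.coe_sum, Submodule.coe_smul] at h6
    rw [Finset.sum_congr rfl fun i _ => by rw [hbl]]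
    exact h6.symm

end Rfa
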