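import Pool.Agent.Lib.Rfa.CubicE

/-!
Every retraction of degree at most three of a free algebra of finite rank kills or fixes a nonzero
centred linear form.
-/

namespace Rfa

variable {k : Type*} [Field k] {X : Type*} [DecidableEq X] [Fintype X]

section Key

variable (π : F k X →ₐ[k] F k X) (hπ : ∀ f, π (π f) = π f) (ε : F k X →ₐ[k] k)
  (hε : ∀ f, ε (π f) = ε f) (L : H ε 1 →ₗ[k] H ε 1) (q : H ε 1 →ₗ[k] H ε 2)
  (c : H ε 1 →ₗ[k] H ε 3)
  (hw : ∀ v : H ε 1, π (v : F k X) = (L v : F k X) + (q v : F k X) + (c v : F k X))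

set_option maxHeartbeats 600000 in
/-- the quadratic part of a form killed by the cubic part -/
lemma rep_q (heC : ∀ u, c u = 0 → eC ε c (q u : F k X) = 0) :
    ∃ (r : ℕ) (b : Fin r → H ε 1), LinearIndependent k b ∧ (∀ i, c (b i) = 0) ∧
      ∀ u, c u = 0 → ∃ g a : Fin r → H ε 1,
        (q u : F k X) = ∑ i, (b i : F k X) * g i + ∑ i, (a i : F k X) * b i := by
  obtain ⟨b0, _⟩ := exists_basis ε
  haveI : Module.Finite k (H ε 1) := Module.Finite.of_basis b0
  obtain ⟨r, s, b, hbK, hbC, hspan⟩ := lin_split c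
  have hcC : LinearIndependent k (fun i => (c (b (Sum.inr i)) : F k X)) :=
    hbC.map' (H ε 3).subtype (Submodule.ker_subtype _)
  refine ⟨r, fun i => b (Sum.inl i), b.linearIndependent.comp _ Sum.inl_injective, hbK,
    fun u hu => ?_⟩
  obtain ⟨g, hg1, hg2⟩ := leftrep ε b 1 _ (q u).2
  have h1 := heC u hu
  rw [hg2, map_sum, Fintype.sum_sum_type] at h1
  have h2 : ∀ i, eC ε c (((b (Sum.inl i) : H ε 1) : F k X) * g (Sum.inl i)) = 0 := fun i => by
    rw [map_mul, eC_v, hbK]
    exact zero_mul _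
  rw [Finset.sum_eq_zero (fun i _ => h2 i), zero_add] at h1
  have h3 : ∀ j, (c ⟨g (Sum.inr j), hg1 _⟩ : F k X) = 0 := by
    refine rind ε _ hcC 3 (fun j => (c ⟨g (Sum.inr j), hg1 _⟩ : F k X)) (fun j => (c _).2) ?_
    rw [← h1]
    refine Finset.sum_congr rfl fun j _ => ?_
    rw [map_mul, eC_v]
    exact congrArg _ (eC_v ε c ⟨g (Sum.inr j), hg1 _⟩).symm
  choose t ht using fun j => hspan ⟨g (Sum.inr j), hg1 _⟩ (Subtype.ext (h3 j))
  have h5 : ∀ j, g (Sum.inr j) = ∑ i, t j i • ((b (Sum.inl i) : H ε 1) : F k X) := by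
    intro j
    have h7 := congrArg (fun v : H ε 1 => (v : F k X)) (ht j)
    simp only [Submodule.coe_sum, Submodule.coe_smul] at h7
    exact h7
  refine ⟨fun i => ⟨g (Sum.inl i), hg1 _⟩, fun i => ∑ j, t j i • b (Sum.inr j), ?_⟩
  rw [hg2, Fintype.sum_sum_type]
  congr 1
  have h8 : ∀ j, ((b (Sum.inr j) : H ε 1) : F k X) * g (Sum.inr j)
      = ∑ i, (t j i • ((b (Sum.inr j) : H ε 1) : F k X)) * ((b (Sum.inl i) : H ε 1) : F k X) := by
    intro j
    conv_lhs => rw [h5 j]
    rw [Finset.mul_sum]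
    exact Finset.sum_congr rfl fun i _ => by rw [mul_smul_comm, smul_mul_assoc]
  rw [Finset.sum_congr rfl fun j _ => h8 j, Finset.sum_comm]
  refine Finset.sum_congr rfl fun i _ => ?_
  simp only [Submodule.coe_sum, Submodule.coe_smul, Finset.sum_mul]

set_option maxHeartbeats 1000000 in
include hπ hε hw in
/-- some nonzero form has vanishing quadratic and cubic part -/
theorem key [Nonempty X] : ∃ v : H ε 1, v ≠ 0 ∧ (q v : F k X) = 0 ∧ (c v : F k X) = 0 := by
  by_contra hcon
  have hA : ∀ v : H ε 1, (q v : F k X) = 0 → (c v : F k X) = 0 → v = 0 := by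
    intro v h1 h2
    by_contra h
    exact hcon ⟨v, h, h1, h2⟩
  have hLL : ∀ v, L (L v) = L v := fun v => (rel12 π hπ ε hε L q c hw v).1
  have hz3 : ((0 : H ε 3) : F k X) = 0 := rfl
  obtain ⟨u, hu0, hu⟩ : ∃ u : H ε 1, u ≠ 0 ∧ c u = 0 := by
    by_contra h
    refine not_inj π hπ ε L q c hw ?_
    rw [injective_iff_map_eq_zero]
    intro v hv
    by_contra hne
    exact h ⟨v, hne, hv⟩
  obtain ⟨r, b, hb, hcb, hrep⟩ := rep_q ε q c (fun u hu => eC_q π hπ ε L q c hw hLL u hu)
  obtain ⟨g, a, hga⟩ := hrep u hu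
  set P : Fin r → F k X := fun i => π (b i : F k X) with hP
  set Q : Fin r → F k X := fun i => (q (b i) : F k X) with hQdef
  have hQ : ∀ i, Q i ∈ H ε 2 := fun i => (q (b i)).2
  have hPQ : ∀ i, P i - Q i ∈ Dg ε 1 := fun i => by
    have : P i - Q i = (L (b i) : F k X) := by
      rw [hP, hQdef]
      show π (b i : F k X) - (q (b i) : F k X) = _
      rw [hw, hcb, hz3, add_zero, add_sub_cancel_right]
    rw [this]
    exact (L (b i)).2.2
  have hli : LinearIndependent k Q := by
    rw [Fintype.linearIndependent_iff]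
    intro t ht
    have h1 : ∑ i, t i • b i = 0 := by
      refine hA _ ?_ ?_
      · rw [map_sum, ← ht]
        simp only [map_smul, Submodule.coe_sum, Submodule.coe_smul, hQdef]
      · rw [map_sum]
        simp only [map_smul, hcb, smul_zero, Finset.sum_const_zero]
        exact hz3
    exact Fintype.linearIndependent_iff.1 hb t h1
  have hwD : ∀ v : H ε 1, π (v : F k X) ∈ Dg ε 3 := w_Dg π ε L q c hw
  have hE : ∑ i, P i * π (g i : F k X) + ∑ i, π (a i : F k X) * P i ∈ Dg ε 3 := by
    have h1 := pi_q π hπ ε L q c hw hLL u hu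
    have h2 : ∑ i, P i * π (g i : F k X) + ∑ i, π (a i : F k X) * P i = π (q u : F k X) := by
      rw [hga, map_add, map_sum, map_sum]
      simp only [map_mul, hP]
    rw [h2, h1]
    exact sub_mem (sub_mem (H_le_Dg ε (by norm_num) (q u).2) (H_le_Dg ε (by norm_num) (q _).2))
      (H_le_Dg ε le_rfl (c _).2)
  obtain ⟨s, hs, hA1, hB1⟩ := div_step ε P Q hQ hPQ hli 1 (fun i => π (g i : F k X))
    (fun i => π (a i : F k X)) (fun i => hwD _) (fun i => hwD _) (Dg_mono' ε (by norm_num) hE)
  have hE2 : ∑ i, P i * (π (g i : F k X) - ∑ j, s i j * P j)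
      + ∑ j, (π (a j : F k X) + ∑ i, P i * s i j) * P j ∈ Dg ε 3 := by
    have e : ∑ i, P i * (π (g i : F k X) - ∑ j, s i j * P j)
      + ∑ j, (π (a j : F k X) + ∑ i, P i * s i j) * P j
      = ∑ i, P i * π (g i : F k X) + ∑ i, π (a i : F k X) * P i := by
      have e1 : ∑ j, (∑ i, P i * s i j) * P j = ∑ i, P i * ∑ j, s i j * P j := by
        simp only [Finset.sum_mul, Finset.mul_sum, mul_assoc]
        rw [Finset.sum_comm]
      simp only [mul_sub, add_mul, Finset.sum_sub_distrib, Finset.sum_add_distrib]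
      rw [e1]
      abel
    rw [e]
    exact hE
  obtain ⟨m, hm, hA2, hB2⟩ := div_step ε P Q hQ hPQ hli 0 _ _ hA1 hB1 hE2
  choose μ hμ using fun i j => H_zero ε (hm i j)
  -- the linear coefficients vanish
  have hs0 : ∀ i j, s i j = 0 := by
    intro i
    set ℓ := π (g i : F k X) - ∑ j, s i j * P j - ∑ j, m i j * P j with hℓ
    have hℓ1 : ℓ ∈ Dg ε 1 := hA2 i
    have hℓε : ε ℓ = 0 := by
      have e1 : ∀ j, ε (P j) = 0 := fun j => by
        show ε (π (b j : F k X)) = 0
        rw [hε, ε_H ε (b j).2]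
      rw [hℓ, map_sub, map_sub, map_sum, map_sum, hε, ε_H ε (g i).2]
      simp only [map_mul, e1, mul_zero, Finset.sum_const_zero, sub_zero]
    have hℓH : ℓ ∈ H ε 1 := ⟨(I_one ε ℓ).2 hℓε, hℓ1⟩
    have h1 : ∑ j, (π (s i j) - s i j) * P j = ℓ - π ℓ := by
      have e2 : π ℓ = π (g i : F k X) - ∑ j, π (s i j) * P j - ∑ j, m i j * P j := by
        rw [hℓ, map_sub, map_sub, map_sum, map_sum, hπ]
        congr 1
        · congr 1
          refine Finset.sum_congr rfl fun j _ => ?_
          rw [map_mul]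
          show _ * π (π (b j : F k X)) = _
          rw [hπ]
        · refine Finset.sum_congr rfl fun j _ => ?_
          rw [map_mul, ← hμ i j, AlgHom.commutes]
          show _ * π (π (b j : F k X)) = _
          rw [hπ]
      rw [e2]
      simp only [sub_mul, Finset.sum_sub_distrib]
      rw [hℓ]
      abel
    have h2 : ∑ j, (π (s i j) - s i j) * P j ∈ Dg ε 3 := by
      rw [h1]
      exact sub_mem (Dg_mono' ε (by norm_num) hℓ1) (hwD ⟨ℓ, hℓH⟩)
    have h3 : ∀ j, π (s i j) - s i j ∈ Dg ε 3 := fun j =>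
      sub_mem (hwD ⟨_, hs i j⟩) (H_le_Dg ε (by norm_num) (hs i j))
    have h4 := left_deg ε P Q hQ hPQ hli 2 _ h3 (Dg_mono' ε (by norm_num) h2)
    have h5 := left_deg ε P Q hQ hPQ hli 1 _ h4 h2
    intro j
    set σ : H ε 1 := ⟨s i j, hs i j⟩ with hσ
    have h6 : π (σ : F k X) - σ ∈ Dg ε 1 := h5 j
    rw [hw σ] at h6
    have h7 : (q σ : F k X) + (c σ : F k X) = 0 := by
      refine zero_of ε (n := 1) (add_mem (q σ).2.1 (H_le_I ε (by norm_num) (c σ).2)) ?_
      have e : (q σ : F k X) + (c σ : F k X)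
          = ((L σ : F k X) + (q σ : F k X) + (c σ : F k X) - (σ : F k X)) - (L σ : F k X)
            + (σ : F k X) := by abel
      rw [e]
      exact add_mem (sub_mem h6 (L σ).2.2) σ.2.2
    have h8 : (q σ : F k X) = 0 := low ε (q σ).2 (c σ).2.1 h7
    have h9 : (c σ : F k X) = 0 := by rwa [h8, zero_add] at h7
    have h10 := hA σ h8 h9
    exact congrArg (fun v : H ε 1 => (v : F k X)) h10
  -- the constant coefficients
  have hgi : ∀ i, g i = ∑ j, μ i j • b j := by
    intro i
    have h1 : π ((g i - ∑ j, μ i j • b j : H ε 1) : F k X) ∈ Dg ε 1 := by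
      have h2 := hA2 i
      have e : π ((g i - ∑ j, μ i j • b j : H ε 1) : F k X)
          = π (g i : F k X) - ∑ j, s i j * P j - ∑ j, m i j * P j := by
        simp only [hs0, zero_mul, Finset.sum_const_zero, sub_zero, Submodule.coe_sub,
          Submodule.coe_sum, Submodule.coe_smul, map_sub, map_sum, map_smul]
        congr 1
        refine Finset.sum_congr rfl fun j _ => ?_
        rw [← hμ i j, Algebra.smul_def]
      rw [e]
      exact h2
    set σ : H ε 1 := g i - ∑ j, μ i j • b j with hσ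
    rw [hw σ] at h1
    have h7 : (q σ : F k X) + (c σ : F k X) = 0 := by
      refine zero_of ε (n := 1) (add_mem (q σ).2.1 (H_le_I ε (by norm_num) (c σ).2)) ?_
      have e : (q σ : F k X) + (c σ : F k X)
          = ((L σ : F k X) + (q σ : F k X) + (c σ : F k X)) - (L σ : F k X) := by abel
      rw [e]
      exact sub_mem h1 (L σ).2.2
    have h8 : (q σ : F k X) = 0 := low ε (q σ).2 (c σ).2.1 h7
    have h9 : (c σ : F k X) = 0 := by rwa [h8, zero_add] at h7
    exact sub_eq_zero.1 (hA σ h8 h9)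
  have haj : ∀ j, a j = - ∑ i, μ i j • b i := by
    intro j
    have h1 : π ((a j + ∑ i, μ i j • b i : H ε 1) : F k X) ∈ Dg ε 1 := by
      have h2 := hB2 j
      have e : π ((a j + ∑ i, μ i j • b i : H ε 1) : F k X)
          = π (a j : F k X) + ∑ i, P i * s i j + ∑ i, P i * m i j := by
        simp only [hs0, mul_zero, Finset.sum_const_zero, add_zero, Submodule.coe_add,
          Submodule.coe_sum, Submodule.coe_smul, map_add, map_sum, map_smul]
        congr 1
        refine Finset.sum_congr rfl fun i _ => ?_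
        rw [← hμ i j, ← Algebra.commutes, Algebra.smul_def]
      rw [e]
      exact h2
    set σ : H ε 1 := a j + ∑ i, μ i j • b i with hσ
    rw [hw σ] at h1
    have h7 : (q σ : F k X) + (c σ : F k X) = 0 := by
      refine zero_of ε (n := 1) (add_mem (q σ).2.1 (H_le_I ε (by norm_num) (c σ).2)) ?_
      have e : (q σ : F k X) + (c σ : F k X)
          = ((L σ : F k X) + (q σ : F k X) + (c σ : F k X)) - (L σ : F k X) := by abel
      rw [e]
      exact sub_mem h1 (L σ).2.2
    have h8 : (q σ : F k X) = 0 := low ε (q σ).2 (c σ).2.1 h7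
    have h9 : (c σ : F k X) = 0 := by rwa [h8, zero_add] at h7
    exact eq_neg_of_add_eq_zero_left (hA σ h8 h9)
  refine hu0 (hA u ?_ (by rw [hu]; rfl))
  rw [hga]
  have e1 : ∀ i, (g i : F k X) = ∑ j, μ i j • (b j : F k X) := fun i => by
    rw [hgi i]
    simp only [Submodule.coe_sum, Submodule.coe_smul]
  have e2 : ∀ j, (a j : F k X) = - ∑ i, μ i j • (b i : F k X) := fun j => by
    rw [haj j]
    simp only [Submodule.coe_neg, Submodule.coe_sum, Submodule.coe_smul]
  simp only [e1, e2, neg_mul, Finset.mul_sum, Finset.sum_mul, Finset.sum_neg_distrib,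
    mul_smul_comm, smul_mul_assoc]
  rw [Finset.sum_comm]
  exact add_neg_cancel _

end Key

end Rfa
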