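import Pool.Agent.Lib.Rfa.CubicG
import Pool.Agent.Lib.Rfa.CubicD
import Pool.Agent.Lib.Prt.Fin

/-!
Retractions of rank at most two which kill or fix a variable.
-/

namespace Rfa

variable {k : Type*} [Field k]

/-- the retract has rank at most two -/
def Rk2 {X : Type*} [DecidableEq X] (π : F k X →ₐ[k] F k X) (ε : F k X →ₐ[k] k) : Prop :=
  ∃ a b : F k X, ∀ f, ∃ s t : k,
    π f - algebraMap k (F k X) (ε f) - s • a - t • b ∈ I ε 2

/-- killing the first variable -/
noncomputable def kp (k : Type*) [Field k] (n : ℕ) : F k (Fin (n + 1)) →ₐ[k] F k (Fin n) :=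
  FreeAlgebra.lift k (Fin.cases 0 (fun i => FreeAlgebra.ι k i))

/-- the inclusion which omits the first variable -/
noncomputable def ic (k : Type*) [Field k] (n : ℕ) : F k (Fin n) →ₐ[k] F k (Fin (n + 1)) :=
  FreeAlgebra.lift k (fun i => FreeAlgebra.ι k i.succ)

lemma kp_zero (n : ℕ) : kp k n (FreeAlgebra.ι k 0) = 0 := by simp [kp]

lemma kp_succ (n : ℕ) (i : Fin n) : kp k n (FreeAlgebra.ι k i.succ) = FreeAlgebra.ι k i := by
  simp [kp]

lemma ic_ι (n : ℕ) (i : Fin n) : ic k n (FreeAlgebra.ι k i) = FreeAlgebra.ι k i.succ := by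
  simp [ic]

lemma kp_ic (n : ℕ) (f : F k (Fin n)) : kp k n (ic k n f) = f :=
  hom_eq (φ := (kp k n).comp (ic k n)) (ψ := AlgHom.id k _) (fun i => by
    rw [AlgHom.comp_apply, ic_ι, kp_succ]; rfl) f

lemma hom_succ {A : Type*} [Semiring A] [Algebra k A] {n : ℕ} {φ ψ : F k (Fin (n + 1)) →ₐ[k] A}
    (h0 : φ (FreeAlgebra.ι k 0) = ψ (FreeAlgebra.ι k 0))
    (h : ∀ i : Fin n, φ (FreeAlgebra.ι k i.succ) = ψ (FreeAlgebra.ι k i.succ)) (f) : φ f = ψ f :=
  hom_eq (fun x => by
    refine Fin.cases h0 h x) f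

lemma ic_kp_mem (n : ℕ) (f : F k (Fin (n + 1))) :
    f - ic k n (kp k n f) ∈ TwoSidedIdeal.span {(FreeAlgebra.ι k 0 : F k (Fin (n + 1)))} := by
  induction f using FreeAlgebra.induction with
  | grade0 r =>
    rw [AlgHom.commutes, AlgHom.commutes, sub_self]
    exact zero_mem _
  | grade1 x =>
    refine Fin.cases ?_ (fun i => ?_) x
    · rw [kp_zero, map_zero, sub_zero]
      exact TwoSidedIdeal.subset_span rfl
    · rw [kp_succ, ic_ι, sub_self]
      exact zero_mem _
  | mul a b ha hb =>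
    have e : a * b - ic k n (kp k n (a * b))
        = (a - ic k n (kp k n a)) * b + ic k n (kp k n a) * (b - ic k n (kp k n b)) := by
      rw [map_mul, map_mul]
      noncomm_ring
    rw [e]
    exact add_mem (TwoSidedIdeal.mul_mem_right _ _ _ ha) (TwoSidedIdeal.mul_mem_left _ _ _ hb)
  | add a b ha hb =>
    have e : a + b - ic k n (kp k n (a + b))
        = (a - ic k n (kp k n a)) + (b - ic k n (kp k n b)) := by
      rw [map_add, map_add]
      abel
    rw [e]
    exact add_mem ha hb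

section

variable {n : ℕ} (π : F k (Fin (n + 1)) →ₐ[k] F k (Fin (n + 1))) (hπ : ∀ f, π (π f) = π f)
  (ε : F k (Fin (n + 1)) →ₐ[k] k) (hε : ∀ f, ε (π f) = ε f)
  (hι : ∀ i, ε (FreeAlgebra.ι k i) = 0)

include hι in
lemma ε_ic_kp (f : F k (Fin (n + 1))) : ε (ic k n (kp k n f)) = ε f :=
  hom_succ (φ := (ε.comp (ic k n)).comp (kp k n)) (ψ := ε) (by
    rw [AlgHom.comp_apply, kp_zero, map_zero, hι]) (fun i => by
    rw [AlgHom.comp_apply, kp_succ, AlgHom.comp_apply, ic_ι]) f

include hπ hε hι in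
/-- a killed variable is omitted -/
theorem killed (h0 : π (FreeAlgebra.ι k 0) = 0)
    (hdeg : ∀ i, π (FreeAlgebra.ι k i) ∈ Dg ε 3) (hR : Rk2 π ε)
    (ih : ∀ (π' : F k (Fin n) →ₐ[k] F k (Fin n)), (∀ f, π' (π' f) = π' f) →
      ∀ (ε' : F k (Fin n) →ₐ[k] k), (∀ f, ε' (π' f) = ε' f) →
      (∀ i, π' (FreeAlgebra.ι k i) ∈ Dg ε' 3) → Rk2 π' ε' →
      ∃ m : ℕ, Nonempty (π'.range ≃ₐ[k] FreeAlgebra k (Fin m))) :
    ∃ m : ℕ, Nonempty (π.range ≃ₐ[k] FreeAlgebra k (Fin m)) := by
  have hik : ∀ f, π (ic k n (kp k n f)) = π f := fun f =>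
    hom_succ (φ := (π.comp (ic k n)).comp (kp k n)) (ψ := π) (by
      rw [AlgHom.comp_apply, kp_zero, map_zero, h0]) (fun i => by
      rw [AlgHom.comp_apply, kp_succ, AlgHom.comp_apply, ic_ι]) f
  have hεk : ∀ f, (ε.comp (ic k n)) (kp k n f) = ε f := ε_ic_kp ε hι
  set π' : F k (Fin n) →ₐ[k] F k (Fin n) := ((kp k n).comp π).comp (ic k n) with hπ'
  have hπ'a : ∀ f, π' f = kp k n (π (ic k n f)) := fun f => rfl
  obtain ⟨m, ⟨e⟩⟩ := ih π' (fun f => by rw [hπ'a, hπ'a, hik, hπ]) (ε.comp (ic k n))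
    (fun f => by
      rw [hπ'a, hεk, hε]
      rfl)
    (fun i => by
      rw [hπ'a, ic_ι]
      refine map_Dg ε (ε.comp (ic k n)) (kp k n) (fun x => ?_) 3 _ (hdeg _)
      refine Fin.cases ?_ (fun i => ?_) x
      · rw [kp_zero]
        exact zero_mem _
      · rw [kp_succ]
        exact ι_mem_Dg _ _)
    (by
      obtain ⟨a, b, hab⟩ := hR
      refine ⟨kp k n a, kp k n b, fun f => ?_⟩
      obtain ⟨s, t, hst⟩ := hab (ic k n f)
      refine ⟨s, t, ?_⟩
      have h1 := map_I ε (ε.comp (ic k n)) (kp k n) hεk 2 _ hst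
      rw [map_sub, map_sub, map_sub, map_smul, map_smul, AlgHom.commutes] at h1
      exact h1)
  refine ⟨m, ⟨AlgEquiv.trans ?_ e⟩⟩
  set θ : π.range →ₐ[k] π'.range := ((kp k n).comp π.range.val).codRestrict π'.range (by
    rintro ⟨_, f, rfl⟩
    exact ⟨kp k n f, by
      show π' (kp k n f) = kp k n (π f)
      rw [hπ'a, hik]⟩) with hθ
  have hθa : ∀ f, ((θ f : π'.range) : F k (Fin n)) = kp k n (f : F k (Fin (n + 1))) :=
    fun f => rfl
  have hfix : ∀ f : π.range, π (ic k n (kp k n (f : F k (Fin (n + 1))))) = f := by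
    rintro ⟨_, f, rfl⟩
    rw [hik]
    exact hπ f
  refine AlgEquiv.ofBijective θ ⟨fun f g hfg => ?_, ?_⟩
  · apply Subtype.ext
    rw [← hfix f, ← hfix g, ← hθa, ← hθa, hfg]
  · rintro ⟨_, f, rfl⟩
    exact ⟨⟨π (ic k n f), _, rfl⟩, Subtype.ext (by rw [hθa]; rfl)⟩

include hπ hε hι in
/-- a fixed variable: the retract is free -/
theorem fixed (h0 : π (FreeAlgebra.ι k 0) = FreeAlgebra.ι k 0) (hR : Rk2 π ε) :
    ∃ m : ℕ, Nonempty (π.range ≃ₐ[k] FreeAlgebra k (Fin m)) := by
  set ε' : F k (Fin n) →ₐ[k] k := ε.comp (ic k n) with hε'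
  have hεk : ∀ f, ε' (kp k n f) = ε f := ε_ic_kp ε hι
  set π' : F k (Fin n) →ₐ[k] F k (Fin n) := ((kp k n).comp π).comp (ic k n) with hπ'
  have hπ'a : ∀ f, π' f = kp k n (π (ic k n f)) := fun f => rfl
  have hk : ∀ f, π' (kp k n f) = kp k n (π f) := fun f =>
    hom_succ (φ := π'.comp (kp k n)) (ψ := (kp k n).comp π) (by
      rw [AlgHom.comp_apply, kp_zero, map_zero, AlgHom.comp_apply, h0, kp_zero]) (fun i => by
      rw [AlgHom.comp_apply, kp_succ, hπ'a, ic_ι]; rfl) f
  have hπ'i : ∀ f, π' (π' f) = π' f := fun f => by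
    conv_lhs => rw [hπ'a f]
    rw [hk, hπ, hπ'a]
  have hε'π : ∀ f, ε' (π' f) = ε' f := fun f => by
    rw [hπ'a, hεk, hε]
    rfl
  -- the induced retraction has rank at most one
  obtain ⟨ϕ, v, hL⟩ : ∃ (ϕ v : Fin n → k), ∀ j x, lam ε' x (π' (FreeAlgebra.ι k j)) = ϕ j * v x := by
    obtain ⟨a, b, hab⟩ := hR
    have hlam : ∀ (x : Fin n) (g : F k (Fin (n + 1))), g ∈ I ε 2 → lam ε' x (kp k n g) = 0 := by
      intro x g hg
      have h1 := map_I ε ε' (kp k n) hεk 2 _ hg
      exact (h1.2 x).1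
    have hl : ∀ (x : Fin n) (f : F k (Fin (n + 1))) (s t : k),
        π f - algebraMap k _ (ε f) - s • a - t • b ∈ I ε 2 →
        lam ε' x (kp k n (π f)) = s * lam ε' x (kp k n a) + t * lam ε' x (kp k n b) := by
      intro x f s t h
      have h1 := hlam x _ h
      have hd := isDer_lam ε' x
      have hsm : ∀ (r : k) (g : F k (Fin n)), lam ε' x (r • g) = r * lam ε' x g := by
        intro r g
        rw [Algebra.smul_def, hd.mul, hd.alg, zero_mul, add_zero, AlgHom.commutes]
        rfl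
      rw [map_sub, map_sub, map_sub, AlgHom.commutes, map_smul, map_smul, lam_sub, lam_sub,
        lam_sub, hd.alg, hsm, hsm, sub_zero] at h1
      rw [sub_sub, sub_eq_zero] at h1
      exact h1
    obtain ⟨s0, t0, h00⟩ := hab (FreeAlgebra.ι k 0)
    have hne : s0 ≠ 0 ∨ t0 ≠ 0 := by
      by_contra hcon
      push Not at hcon
      rw [hcon.1, hcon.2, zero_smul, zero_smul, sub_zero, sub_zero, h0, hι, map_zero,
        sub_zero] at h00
      have h1 := (h00.2 0).1
      rw [D_ι, if_pos rfl, map_one] at h1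
      exact one_ne_zero h1
    have hrel : ∀ x, s0 * lam ε' x (kp k n a) + t0 * lam ε' x (kp k n b) = 0 := fun x => by
      rw [← hl x _ s0 t0 h00, h0, kp_zero]
      simp [lam, D_zero]
    choose s t hst using fun j : Fin n => hab (FreeAlgebra.ι k j.succ)
    by_cases hs0 : s0 = 0
    · have ht0 : t0 ≠ 0 := hne.resolve_left (fun h => h hs0)
      refine ⟨s, fun x => lam ε' x (kp k n a), fun j x => ?_⟩
      rw [hπ'a, ic_ι, hl x _ _ _ (hst j)]
      have h1 := hrel x
      rw [hs0, zero_mul, zero_add] at h1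
      rw [(mul_eq_zero.1 h1).resolve_left ht0, mul_zero, add_zero]
    · refine ⟨fun j => t j - s j * t0 / s0, fun x => lam ε' x (kp k n b), fun j x => ?_⟩
      rw [hπ'a, ic_ι, hl x _ _ _ (hst j)]
      have h1 := hrel x
      have h2 : lam ε' x (kp k n a) = -(t0 / s0) * lam ε' x (kp k n b) := by
        field_simp
        linear_combination h1
      rw [h2]
      field_simp
      ring
  obtain ⟨m, hm, φ, -, hφ⟩ := rankOne π' hπ'i ε' hε'π ϕ v hL 1 le_rfl
  have hcomm : ∀ f g, π' f * π' g = π' g * π' f := by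
    intro f g
    have h1 : ∀ f, ∃ f', φ f' = π' f := fun f => by
      have : π' f ∈ φ.range := by rw [hφ]; exact ⟨f, rfl⟩
      exact this
    obtain ⟨f', hf'⟩ := h1 f
    obtain ⟨g', hg'⟩ := h1 g
    haveI : Subsingleton (Fin m) := by
      interval_cases m
      · infer_instance
      · infer_instance
    -- the free algebra on at most one generator is commutative
    have h2 : ∀ (j : Fin m) (f : F k (Fin m)), f * FreeAlgebra.ι k j = FreeAlgebra.ι k j * f := by
      intro j f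
      induction f using FreeAlgebra.induction with
      | grade0 r => exact Algebra.commutes r _
      | grade1 x => rw [Subsingleton.elim x j]
      | mul a b ha hb => rw [mul_assoc, hb, ← mul_assoc, ha, mul_assoc]
      | add a b ha hb => rw [add_mul, mul_add, ha, hb]
    have h3 : ∀ f g : F k (Fin m), f * g = g * f := by
      intro f g
      induction f using FreeAlgebra.induction with
      | grade0 r => exact Algebra.commutes r _
      | grade1 x => exact (h2 x g).symm
      | mul a b ha hb => rw [mul_assoc, hb, ← mul_assoc, ha, mul_assoc]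
      | add a b ha hb => rw [add_mul, mul_add, ha, hb]
    rw [← hf', ← hg', ← map_mul, ← map_mul, h3]
  have hR' : ∀ f, π f ∈ π.range := fun f => ⟨f, rfl⟩
  obtain ⟨-, hc⟩ := Prt.fin_main π.range π hR' (by
      rintro _ ⟨f, rfl⟩
      exact hπ f) (Prt.toW k 0) (FreeAlgebra.ι k 0) (Prt.toW_ι k 0) (Polynomial.X : Polynomial k)
    (by rw [Polynomial.natDegree_X]; exact one_pos) (by
      rw [Polynomial.aeval_X]
      exact ⟨_, h0⟩) (Or.inr (by
      rintro _ ⟨f, rfl⟩ _ ⟨g, rfl⟩
      have h1 : kp k n (π f * π g - π g * π f) = 0 := by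
        rw [map_sub, map_mul, map_mul, ← hk, ← hk, hcomm, sub_self]
      have h2 := ic_kp_mem n (π f * π g - π g * π f)
      rw [h1, map_zero, sub_zero] at h2
      exact h2))
  rcases hc with hc | hc | ⟨y, _, hc, hinj⟩
  · exact ⟨n + 1, ⟨by rw [hc]; exact Subalgebra.topEquiv⟩⟩
  · refine ⟨1, ?_⟩
    have h4 : (FreeAlgebra.lift k ![(FreeAlgebra.ι k 0 : F k (Fin (n + 1)))])
        = (Prt.toW k 0).symm.toAlgHom.comp (FreeAlgebra.lift k ![(Prt.z : Prt.W k (Fin n))]) := by
      apply FreeAlgebra.hom_ext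
      funext j
      fin_cases j
      simp only [Function.comp_apply, FreeAlgebra.lift_ι_apply, AlgHom.comp_apply]
      exact ((AlgEquiv.symm_apply_eq _).2 (Prt.toW_ι k 0).symm).symm
    have h5 : Function.Injective (FreeAlgebra.lift k ![(FreeAlgebra.ι k 0 : F k (Fin (n + 1)))]) := by
      rw [h4]
      exact (Prt.toW k 0).symm.injective.comp Prt.free_one
    have h6 : π.range = (FreeAlgebra.lift k ![(FreeAlgebra.ι k 0 : F k (Fin (n + 1)))]).range := by
      rw [hc, ← Algebra.adjoin_range_eq_range_freeAlgebra_lift]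
      simp
    rw [h6]
    exact ⟨(AlgEquiv.ofInjective _ h5).symm⟩
  · refine ⟨2, ?_⟩
    have h6 : π.range = (FreeAlgebra.lift k ![(FreeAlgebra.ι k 0 : F k (Fin (n + 1))), y]).range := by
      rw [hc, ← Algebra.adjoin_range_eq_range_freeAlgebra_lift]
      congr 1
      ext a
      simp only [Set.mem_range, Fin.exists_fin_two, Matrix.cons_val_zero, Matrix.cons_val_one,
        Set.mem_insert_iff, Set.mem_singleton_iff]
      constructor
      · rintro (h | h)
        · exact Or.inl h.symm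
        · exact Or.inr h.symm
      · rintro (h | h)
        · exact Or.inl h.symm
        · exact Or.inr h.symm
    rw [h6]
    exact ⟨(AlgEquiv.ofInjective _ hinj).symm⟩

end

end Rfa
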