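import Pool.Agent.Lib.Rfa.CubicH

/-!
Retracts of rank at most two given by retractions of degree at most three.
-/

namespace Rfa

variable {k : Type*} [Field k]

/-- extension of a nonzero vector to a basis -/
lemma basis_cons {V : Type*} [AddCommGroup V] [Module k V] [Module.Finite k V] {n : ℕ}
    (h : Module.finrank k V = n + 1) (u : V) (hu : u ≠ 0) :
    ∃ b : Module.Basis (Fin (n + 1)) k V, b 0 = u := by
  obtain ⟨C, hC⟩ := Submodule.exists_isCompl (Submodule.span k {u})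
  have h1 : Module.finrank k C = n := by
    have h2 := Submodule.finrank_add_eq_of_isCompl hC
    rw [finrank_span_singleton hu, h] at h2
    omega
  have bC := Module.finBasisOfFinrankEq k C h1
  refine ⟨Module.Basis.mkFinCons u bC (fun c x hx hcx => ?_) (fun z => ?_), ?_⟩
  · by_contra hc
    have h3 : u ∈ C := by
      have : u = -(c⁻¹ • x) := by
        have h4 : c • u = -x := eq_neg_of_add_eq_zero_left hcx
        rw [← smul_neg, ← h4, smul_smul, inv_mul_cancel₀ hc, one_smul]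
      rw [this]
      exact neg_mem (C.smul_mem _ hx)
    have h5 : u ∈ Submodule.span k {u} ⊓ C := ⟨Submodule.mem_span_singleton_self u, h3⟩
    rw [hC.inf_eq_bot] at h5
    exact hu ((Submodule.mem_bot k).1 h5)
  · have h6 : z ∈ Submodule.span k {u} ⊔ C := by rw [hC.sup_eq_top]; trivial
    obtain ⟨y, hy, w, hw, hyw⟩ := Submodule.mem_sup.1 h6
    obtain ⟨t, rfl⟩ := Submodule.mem_span_singleton.1 hy
    refine ⟨-t, ?_⟩
    rw [← hyw]
    have : t • u + w + -t • u = w := by module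
    rw [this]
    exact hw
  · rw [Module.Basis.coe_mkFinCons]
    rfl

/-- a basis of the centred linear forms is a free generating family -/
lemma gen_of_basis' {n : ℕ} (ε : F k (Fin n) →ₐ[k] k) (b : Module.Basis (Fin n) k (H ε 1)) :
    Function.Bijective (FreeAlgebra.lift k (fun i => ((b i : H ε 1) : F k (Fin n)))) := by
  set Ψ : H ε 1 →ₗ[k] F k (Fin n) := b.constr k (fun i => FreeAlgebra.ι k i) with hΨ
  have hΨb : ∀ i, Ψ (b i) = FreeAlgebra.ι k i := fun i => by rw [hΨ, Module.Basis.constr_basis]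
  set g : Fin n → F k (Fin n) := fun i => ((b i : H ε 1) : F k (Fin n)) with hg
  have h1 : ∀ f, ext ε Ψ (FreeAlgebra.lift k g f) = f := fun f =>
    hom_eq (φ := (ext ε Ψ).comp (FreeAlgebra.lift k g)) (ψ := AlgHom.id k _) (fun i => by
      rw [AlgHom.comp_apply, FreeAlgebra.lift_ι_apply, hg]
      show ext ε Ψ ((b i : H ε 1) : F k (Fin n)) = _
      rw [ext_v, hΨb]
      rfl) f
  have h3 : ∀ v : H ε 1, FreeAlgebra.lift k g (Ψ v) = v := by
    have : (FreeAlgebra.lift k g).toLinearMap.comp Ψ = (H ε 1).subtype := b.ext fun i => by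
      show FreeAlgebra.lift k g (Ψ (b i)) = ((b i : H ε 1) : F k (Fin n))
      rw [hΨb, FreeAlgebra.lift_ι_apply]
    exact fun v => LinearMap.congr_fun this v
  have h2 : ∀ f, FreeAlgebra.lift k g (ext ε Ψ f) = f := fun f =>
    hom_eq (φ := (FreeAlgebra.lift k g).comp (ext ε Ψ)) (ψ := AlgHom.id k _) (fun x => by
      have e : ext ε Ψ (FreeAlgebra.ι k x) = algebraMap k _ (ε (FreeAlgebra.ι k x))
        + Ψ ⟨cx ε x, cx_mem_H ε x⟩ := FreeAlgebra.lift_ι_apply _ _
      rw [AlgHom.comp_apply, e, map_add, AlgHom.commutes, h3]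
      show _ + cx ε x = FreeAlgebra.ι k x
      rw [cx]
      abel) f
  exact ⟨fun x y hxy => by rw [← h1 x, ← h1 y, hxy], fun y => ⟨_, h2 y⟩⟩

/-- retracts of rank at most two given by retractions of degree at most three are free -/
theorem cubicN (n : ℕ) : ∀ (π : F k (Fin n) →ₐ[k] F k (Fin n)), (∀ f, π (π f) = π f) →
    ∀ (ε : F k (Fin n) →ₐ[k] k), (∀ f, ε (π f) = ε f) →
    (∀ i, π (FreeAlgebra.ι k i) ∈ Dg ε 3) → Rk2 π ε →
    ∃ m : ℕ, Nonempty (π.range ≃ₐ[k] FreeAlgebra k (Fin m)) := by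
  induction n with
  | zero =>
    intro π _ ε _ _ _
    refine ⟨0, ⟨?_⟩⟩
    have h1 : π.range = ⊤ := by
      rw [AlgHom.range_eq_top]
      exact fun f => ⟨f, hom_eq (φ := π) (ψ := AlgHom.id k _) (fun x => x.elim0) f⟩
    rw [h1]
    exact Subalgebra.topEquiv
  | succ n ih =>
    intro π hπ ε hε hdeg hR
    have hdegv : ∀ v : H ε 1, π (v : F k (Fin (n + 1))) ∈ Dg ε 3 := by
      have : V ε ≤ (Dg ε 3).comap π.toLinearMap := by
        refine (V_le_span ε).trans (Submodule.span_le.2 ?_)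
        rintro _ ⟨x, rfl⟩
        show π (cx ε x) ∈ Dg ε 3
        rw [cx, map_sub, AlgHom.commutes]
        exact sub_mem (hdeg x) (const_mem_Dg ε _ 3)
      exact fun v => this ⟨v.2.2, ε_H ε v.2⟩
    obtain ⟨L, q, c, hw⟩ := exists_parts π ε hε hdegv
    obtain ⟨v, hv0, hqv, hcv⟩ := key π hπ ε hε L q c hw
    have hπv : π (v : F k (Fin (n + 1))) = (L v : F k (Fin (n + 1))) := by
      rw [hw, hqv, hcv, add_zero, add_zero]
    obtain ⟨w, hw0, hπw⟩ : ∃ w : H ε 1, w ≠ 0 ∧ (π (w : F k (Fin (n + 1))) = 0 ∨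
        π (w : F k (Fin (n + 1))) = w) := by
      by_cases hLv : L v = 0
      · exact ⟨v, hv0, Or.inl (by rw [hπv, hLv]; rfl)⟩
      · exact ⟨L v, hLv, Or.inr (by rw [← hπv, hπ])⟩
    obtain ⟨b0, _⟩ := exists_basis ε
    haveI : Module.Finite k (H ε 1) := Module.Finite.of_basis b0
    obtain ⟨b, hb⟩ := basis_cons (k := k) (n := n)
      (by rw [Module.finrank_eq_card_basis b0, Fintype.card_fin]) w hw0
    set σ : F k (Fin (n + 1)) ≃ₐ[k] F k (Fin (n + 1)) :=
      AlgEquiv.ofBijective _ (gen_of_basis' ε b) with hσ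
    have hσι : ∀ i, σ (FreeAlgebra.ι k i) = ((b i : H ε 1) : F k (Fin (n + 1))) := fun i =>
      FreeAlgebra.lift_ι_apply _ _
    have hσb : ∀ i, σ.symm ((b i : H ε 1) : F k (Fin (n + 1))) = FreeAlgebra.ι k i := fun i => by
      rw [← hσι, σ.symm_apply_apply]
    set π' : F k (Fin (n + 1)) →ₐ[k] F k (Fin (n + 1)) :=
      (σ.symm.toAlgHom.comp π).comp σ.toAlgHom with hπ'
    have hπ'a : ∀ f, π' f = σ.symm (π (σ f)) := fun f => rfl
    have hσπ : ∀ f, σ (π' f) = π (σ f) := fun f => σ.apply_symm_apply _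
    have hidem : ∀ f, π' (π' f) = π' f := fun f => σ.injective (by rw [hσπ, hσπ, hπ])
    set ε' : F k (Fin (n + 1)) →ₐ[k] k := ε.comp σ.toAlgHom with hε'
    have hε'a : ∀ f, ε' f = ε (σ f) := fun f => rfl
    have hε's : ∀ f, ε' (σ.symm.toAlgHom f) = ε f := fun f => by
      show ε (σ (σ.symm f)) = ε f
      rw [σ.apply_symm_apply]
    have hε'π : ∀ f, ε' (π' f) = ε' f := fun f => by rw [hε'a, hσπ, hε, hε'a]
    have hε'ι : ∀ i, ε' (FreeAlgebra.ι k i) = 0 := fun i => by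
      rw [hε'a, hσι]
      exact ε_H ε (b i).2
    have hs1 : ∀ v : H ε 1, σ.symm (v : F k (Fin (n + 1))) ∈ Dg ε' 1 := by
      intro v
      have h1 := congrArg (fun w : H ε 1 => (w : F k (Fin (n + 1)))) (b.sum_repr v)
      simp only [Submodule.coe_sum, Submodule.coe_smul] at h1
      rw [← h1, map_sum]
      refine sum_mem fun i _ => ?_
      rw [map_smul, hσb]
      exact Submodule.smul_mem _ _ (ι_mem_Dg ε' i)
    have hdeg' : ∀ i, π' (FreeAlgebra.ι k i) ∈ Dg ε' 3 := by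
      intro i
      rw [hπ'a, hσι]
      refine map_Dg ε ε' σ.symm.toAlgHom (fun x => ?_) 3 _ (hdegv (b i))
      have h1 : (FreeAlgebra.ι k x : F k (Fin (n + 1)))
          = cx ε x + algebraMap k _ (ε (FreeAlgebra.ι k x)) := by rw [cx, sub_add_cancel]
      rw [h1, map_add, AlgHom.commutes]
      exact add_mem (hs1 ⟨cx ε x, cx_mem_H ε x⟩) (const_mem_Dg ε' _ 1)
    have hR' : Rk2 π' ε' := by
      obtain ⟨a, a', haa⟩ := hR
      refine ⟨σ.symm a, σ.symm a', fun f => ?_⟩
      obtain ⟨s, t, hst⟩ := haa (σ f)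
      refine ⟨s, t, ?_⟩
      have h1 := map_I ε ε' σ.symm.toAlgHom hε's 2 _ hst
      rw [map_sub, map_sub, map_sub, map_smul, map_smul, AlgHom.commutes] at h1
      exact h1
    have hmain : ∃ m : ℕ, Nonempty (π'.range ≃ₐ[k] FreeAlgebra k (Fin m)) := by
      rcases hπw with h | h
      · refine killed π' hidem ε' hε'π hε'ι ?_ hdeg' hR' ih
        rw [hπ'a, hσι, hb, h, map_zero]
      · refine fixed π' hidem ε' hε'π hε'ι ?_ hR'
        rw [hπ'a, hσι, hb, h, ← hb, hσb]
    obtain ⟨m, ⟨e⟩⟩ := hmain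
    refine ⟨m, ⟨AlgEquiv.trans ?_ e⟩⟩
    have h1 : π'.range.map σ.toAlgHom = π.range := by
      ext f
      constructor
      · rintro ⟨_, ⟨a, rfl⟩, rfl⟩
        exact ⟨σ a, (hσπ a).symm⟩
      · rintro ⟨a, rfl⟩
        refine ⟨_, ⟨σ.symm a, rfl⟩, ?_⟩
        refine (hσπ _).trans ?_
        rw [AlgEquiv.apply_symm_apply]
        rfl
    rw [← h1]
    exact (Subalgebra.equivMapOfInjective _ σ.toAlgHom σ.injective).symm

end Rfa
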