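import Pool.Agent.Lib.Rfa.CubicI

/-!
The theorem on retractions of degree at most three, for an abstract free algebra.
-/

namespace Rfa

variable {k : Type*} [Field k]

/-- in rank at most two every retract has rank at most two -/
lemma rk2_of_le {n : ℕ} (hn : n ≤ 2) (π : F k (Fin n) →ₐ[k] F k (Fin n))
    (ε : F k (Fin n) →ₐ[k] k) (hε : ∀ f, ε (π f) = ε f) : Rk2 π ε := by
  have key : ∀ f : F k (Fin n), f - algebraMap k _ (ε f) - ∑ x, (lam ε x f) • cx ε x ∈ I ε 2 := by
    intro f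
    have h1 := lin_mem ε f
    have h2 : ∑ x, algebraMap k (F k (Fin n)) (lam ε x f) * cx ε x
        = ∑ x, (lam ε x f) • cx ε x :=
      Finset.sum_congr rfl fun x _ => (Algebra.smul_def _ _).symm
    rw [h2] at h1
    have h3 : f - algebraMap k _ (ε f) - ∑ x, (lam ε x f) • cx ε x
        = f - (algebraMap k _ (ε f) + ∑ x, (lam ε x f) • cx ε x) := by abel
    rw [h3]
    exact h1
  interval_cases n
  · refine ⟨0, 0, fun f => ⟨0, 0, ?_⟩⟩
    have h1 := key (π f)
    rw [hε] at h1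
    simpa using h1
  · refine ⟨cx ε 0, 0, fun f => ⟨lam ε 0 (π f), 0, ?_⟩⟩
    have h1 := key (π f)
    rw [hε] at h1
    simpa using h1
  · refine ⟨cx ε 0, cx ε 1, fun f => ⟨lam ε 0 (π f), lam ε 1 (π f), ?_⟩⟩
    have h1 := key (π f)
    rw [hε, Fin.sum_univ_two] at h1
    rw [sub_sub]
    exact h1

/-- in rank three a retraction of degree at most three has rank at most two or is the identity -/
lemma rk2_or_id (π : F k (Fin 3) →ₐ[k] F k (Fin 3)) (hπ : ∀ f, π (π f) = π f)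
    (ε : F k (Fin 3) →ₐ[k] k) (hε : ∀ f, ε (π f) = ε f)
    (hdeg : ∀ i, π (FreeAlgebra.ι k i) ∈ Dg ε 3) : Rk2 π ε ∨ ∀ f, π f = f := by
  have hdegv : ∀ v : H ε 1, π (v : F k (Fin 3)) ∈ Dg ε 3 := by
    have : V ε ≤ (Dg ε 3).comap π.toLinearMap := by
      refine (V_le_span ε).trans (Submodule.span_le.2 ?_)
      rintro _ ⟨x, rfl⟩
      show π (cx ε x) ∈ Dg ε 3
      rw [cx, map_sub, AlgHom.commutes]
      exact sub_mem (hdeg x) (const_mem_Dg ε _ 3)
    exact fun v => this ⟨v.2.2, ε_H ε v.2⟩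
  obtain ⟨L, q, c, hw⟩ := exists_parts π ε hε hdegv
  have hLL : ∀ v, L (L v) = L v := fun v => (rel12 π hπ ε hε L q c hw v).1
  have hLI : ∀ v : H ε 1, π (v : F k (Fin 3)) - (L v : F k (Fin 3)) ∈ I ε 2 := fun v => by
    have : π (v : F k (Fin 3)) - (L v : F k (Fin 3)) = (q v : F k (Fin 3)) + (c v : F k (Fin 3)) := by
      rw [hw]; abel
    rw [this]
    exact add_mem (q v).2.1 (H_le_I ε (by norm_num) (c v).2)
  by_cases hL : ∀ v, L v = 0 → v = 0
  · right
    have hL1 : ∀ v, L v = v := fun v => by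
      have h1 : L (L v - v) = 0 := by rw [map_sub, hLL, sub_self]
      exact sub_eq_zero.1 (hL _ h1)
    have hinj := inj_of_near ε π hε (fun x => by
      have h1 := hLI ⟨cx ε x, cx_mem_H ε x⟩
      rw [hL1] at h1
      have h2 : π (cx ε x) - cx ε x ∈ I ε 2 := h1
      rw [cx, map_sub, AlgHom.commutes, sub_sub_sub_cancel_right] at h2
      exact h2)
    exact fun f => hinj (hπ f)
  · left
    obtain ⟨w, hLw, hw0⟩ : ∃ w, L w = 0 ∧ w ≠ 0 := by
      by_contra h
      apply hL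
      intro v hv
      by_contra hne
      exact h ⟨v, hv, hne⟩
    obtain ⟨b0, _⟩ := exists_basis ε
    haveI : Module.Finite k (H ε 1) := Module.Finite.of_basis b0
    obtain ⟨b, hb⟩ : ∃ b : Module.Basis (Fin 3) k (H ε 1), b 0 = w := basis_cons (k := k) (n := 2)
      (by rw [Module.finrank_eq_card_basis b0, Fintype.card_fin]) w hw0
    refine ⟨π (b 1 : F k (Fin 3)), π (b 2 : F k (Fin 3)), fun f => ?_⟩
    -- the linear part of `f`
    set v : H ε 1 := ∑ x, (lam ε x f) • (⟨cx ε x, cx_mem_H ε x⟩ : H ε 1) with hv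
    have hvF : (v : F k (Fin 3)) = ∑ x, algebraMap k (F k (Fin 3)) (lam ε x f) * cx ε x := by
      rw [hv]
      simp only [Submodule.coe_sum, Submodule.coe_smul]
      exact Finset.sum_congr rfl fun x _ => Algebra.smul_def _ _
    have h1 := map_I ε ε π hε 2 _ (lin_mem ε f)
    rw [← hvF, map_sub, map_add, AlgHom.commutes] at h1
    refine ⟨b.repr v 1, b.repr v 2, ?_⟩
    have h2 : π (v : F k (Fin 3)) = b.repr v 0 • π (b 0 : F k (Fin 3))
        + b.repr v 1 • π (b 1 : F k (Fin 3)) + b.repr v 2 • π (b 2 : F k (Fin 3)) := by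
      have h3 := b.sum_repr v
      rw [Fin.sum_univ_three] at h3
      have h4 : (v : F k (Fin 3)) = b.repr v 0 • (b 0 : F k (Fin 3))
        + b.repr v 1 • (b 1 : F k (Fin 3)) + b.repr v 2 • (b 2 : F k (Fin 3)) :=
        congrArg (fun w : H ε 1 => (w : F k (Fin 3))) h3.symm
      rw [h4, map_add, map_add, map_smul, map_smul, map_smul]
    have h4 : π (b 0 : F k (Fin 3)) ∈ I ε 2 := by
      have := hLI (b 0)
      have hz : ((0 : H ε 1) : F k (Fin 3)) = 0 := rfl
      rw [hb, hLw, hz, sub_zero] at this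
      rw [hb]
      exact this
    have h5 : π f - algebraMap k _ (ε f) - b.repr v 1 • π (b 1 : F k (Fin 3))
        - b.repr v 2 • π (b 2 : F k (Fin 3))
        = (π f - (algebraMap k _ (ε f) + π (v : F k (Fin 3))))
          + b.repr v 0 • π (b 0 : F k (Fin 3)) := by
      rw [h2]; abel
    rw [h5]
    exact add_mem h1 (Submodule.smul_mem _ _ h4)

/-- the retract is spanned modulo the square of an augmentation ideal by `1` and two elements -/
def RankLETwo {k F : Type*} [Field k] [Ring F] [Algebra k F] (R : Subalgebra k F) : Prop :=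
  ∃ (ε : R →ₐ[k] k) (a b : R), ∀ f : R, ∃ r s t : k,
    f - algebraMap k R r - s • a - t • b ∈
      Submodule.span k {h : R | ∃ y z : R, ε y = 0 ∧ ε z = 0 ∧ h = y * z}

/-- transport of the rank condition -/
lemma rk2_of_rank {F' : Type*} [Ring F'] [Algebra k F'] {n : ℕ}
    (σ : F k (Fin n) ≃ₐ[k] F') (π : F' →ₐ[k] F') (hπ : ∀ f, π (π f) = π f)
    (hR : RankLETwo π.range) :
    ∃ ε : F k (Fin n) →ₐ[k] k, (∀ f, ε (σ.symm (π (σ f))) = ε f) ∧
      Rk2 ((σ.symm.toAlgHom.comp π).comp σ.toAlgHom) ε := by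
  obtain ⟨e, a, b, hab⟩ := hR
  set ρ : F' →ₐ[k] π.range := π.rangeRestrict with hρ
  have hρr : ∀ r : π.range, ρ (r : F') = r := by
    rintro ⟨_, f, rfl⟩
    exact Subtype.ext (hπ f)
  set ε : F k (Fin n) →ₐ[k] k := (e.comp ρ).comp σ.toAlgHom with hε
  have hεa : ∀ f, ε f = e (ρ (σ f)) := fun f => rfl
  have hεs : ∀ r : π.range, ε (σ.symm (r : F')) = e r := fun r => by
    rw [hεa, AlgEquiv.apply_symm_apply, hρr]
  have hεπ : ∀ f, ε (σ.symm (π (σ f))) = ε f := fun f => by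
    have := hεs (ρ (σ f))
    rw [hεa f, ← this]
    rfl
  refine ⟨ε, hεπ, σ.symm (a : F') - algebraMap k _ (e a), σ.symm (b : F') - algebraMap k _ (e b),
    fun f => ?_⟩
  obtain ⟨r, s, t, hrst⟩ := hab (ρ (σ f))
  refine ⟨s, t, ?_⟩
  have hsub : ∀ h : π.range, h ∈ Submodule.span k
      {h : π.range | ∃ y z : π.range, e y = 0 ∧ e z = 0 ∧ h = y * z} →
      σ.symm (h : F') ∈ I ε 2 := by
    intro h hh
    induction hh using Submodule.span_induction with
    | mem x hx =>
      obtain ⟨y, z, hy, hz, rfl⟩ := hx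
      have h1 : σ.symm ((y * z : π.range) : F') = σ.symm (y : F') * σ.symm (z : F') := by
        rw [← map_mul]; rfl
      rw [h1]
      exact I_mul ε 1 1 _ ((I_one ε _).2 (by rw [hεs, hy])) _ ((I_one ε _).2 (by rw [hεs, hz]))
    | zero =>
      have : σ.symm ((0 : π.range) : F') = 0 := map_zero _
      rw [this]
      exact zero_mem _
    | add x y _ _ hx hy =>
      have : σ.symm ((x + y : π.range) : F') = σ.symm (x : F') + σ.symm (y : F') :=
        map_add σ.symm _ _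
      rw [this]
      exact add_mem hx hy
    | smul c x _ hx =>
      have : σ.symm ((c • x : π.range) : F') = c • σ.symm (x : F') := map_smul σ.symm _ _
      rw [this]
      exact Submodule.smul_mem _ _ hx
  have h1 := hsub _ hrst
  have h2 : σ.symm ((ρ (σ f) - algebraMap k π.range r - s • a - t • b : π.range) : F')
      = σ.symm (π (σ f)) - algebraMap k _ r - s • σ.symm (a : F') - t • σ.symm (b : F') := by
    have e1 : ((ρ (σ f) - algebraMap k π.range r - s • a - t • b : π.range) : F')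
        = π (σ f) - algebraMap k F' r - s • (a : F') - t • (b : F') := rfl
    rw [e1, map_sub, map_sub, map_sub, map_smul, map_smul, AlgEquiv.commutes]
  rw [h2] at h1
  have h3 : ε f = r + s * e a + t * e b := by
    have h4 := h1.1
    rw [map_sub, map_sub, map_sub, map_smul, map_smul, hεs, hεs, hεπ, AlgHom.commutes] at h4
    have h5 : ε f - r - s * e a - t * e b = 0 := h4
    linear_combination h5
  have h6 : ((σ.symm.toAlgHom.comp π).comp σ.toAlgHom) f - algebraMap k _ (ε f)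
      - s • (σ.symm (a : F') - algebraMap k _ (e a)) - t • (σ.symm (b : F') - algebraMap k _ (e b))
      = σ.symm (π (σ f)) - algebraMap k _ r - s • σ.symm (a : F') - t • σ.symm (b : F') := by
    have e1 : ∀ c d : k, c • algebraMap k (F k (Fin n)) d = algebraMap k _ (c * d) :=
      fun c d => by rw [Algebra.smul_def, map_mul]
    have e2 : ((σ.symm.toAlgHom.comp π).comp σ.toAlgHom) f = σ.symm (π (σ f)) := rfl
    rw [h3, e2, smul_sub, smul_sub, e1, e1, map_add, map_add]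
    abel
  rw [h6]
  exact h1

theorem cubicF {F' : Type*} [Ring F'] [Algebra k F'] {n : ℕ} (g : Fin n → F')
    (hg : Function.Bijective (FreeAlgebra.lift k g)) (π : F' →ₐ[k] F') (hπ : ∀ f, π (π f) = π f)
    (hdeg : ∀ i, π (g i) ∈ Submodule.span k {f | ∃ l : List (Fin n), l.length ≤ 3 ∧ (l.map g).prod = f})
    (hR : n ≤ 3 ∨ RankLETwo π.range) :
    ∃ m : ℕ, Nonempty (π.range ≃ₐ[k] FreeAlgebra k (Fin m)) := by
  classical
  set σ : FreeAlgebra k (Fin n) ≃ₐ[k] F' := AlgEquiv.ofBijective _ hg with hσ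
  have hσι : ∀ z, σ (FreeAlgebra.ι k z) = g z := fun z => by
    show FreeAlgebra.lift k g (FreeAlgebra.ι k z) = g z
    simp
  have hσι' : ∀ z, σ.symm (g z) = FreeAlgebra.ι k z := fun z => by
    rw [← hσι, σ.symm_apply_apply]
  set π' : FreeAlgebra k (Fin n) →ₐ[k] FreeAlgebra k (Fin n) :=
    (σ.symm.toAlgHom.comp π).comp σ.toAlgHom with hπ'
  have hπ'σ : ∀ f, π' f = σ.symm (π (σ f)) := fun f => rfl
  have hσπ : ∀ f, σ (π' f) = π (σ f) := fun f => σ.apply_symm_apply _
  have hidem : ∀ f, π' (π' f) = π' f := fun f => σ.injective (by rw [hσπ, hσπ, hπ])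
  have hdeg' : ∀ (ε : FreeAlgebra k (Fin n) →ₐ[k] k) (i : Fin n),
      π' (FreeAlgebra.ι k i) ∈ Dg ε 3 := by
    intro ε i
    refine Wd_le_Dg ε 3 ?_
    rw [hπ'σ, hσι]
    have h1 := Wd_map σ.symm.toAlgHom g {j | j ≤ 3} (f := π (g i)) (hdeg i)
    have h2 : (fun x => σ.symm.toAlgHom (g x)) = FreeAlgebra.ι k := funext hσι'
    rw [h2] at h1
    exact h1
  have h3 : π'.range.map σ.toAlgHom = π.range := by
    ext f
    constructor
    · rintro ⟨_, ⟨a, rfl⟩, rfl⟩
      exact ⟨σ a, (hσπ a).symm⟩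
    · rintro ⟨a, rfl⟩
      refine ⟨_, ⟨σ.symm a, rfl⟩, ?_⟩
      refine (hσπ _).trans ?_
      rw [AlgEquiv.apply_symm_apply]
      rfl
  have e1 : π'.range ≃ₐ[k] π.range := by
    rw [← h3]
    exact Subalgebra.equivMapOfInjective _ σ.toAlgHom σ.injective
  suffices h : ∃ m : ℕ, Nonempty (π'.range ≃ₐ[k] FreeAlgebra k (Fin m)) by
    obtain ⟨m, ⟨e⟩⟩ := h
    exact ⟨m, ⟨e1.symm.trans e⟩⟩
  rcases hR with hn | hR
  · obtain ⟨ε, hε⟩ := exists_aug π' hidem
    rcases Nat.lt_or_ge n 3 with hn' | hn'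
    · exact cubicN n π' hidem ε hε (hdeg' ε) (rk2_of_le (by omega) π' ε hε)
    · obtain rfl : n = 3 := le_antisymm hn hn'
      rcases rk2_or_id π' hidem ε hε (hdeg' ε) with h | h
      · exact cubicN 3 π' hidem ε hε (hdeg' ε) h
      · refine ⟨3, ⟨?_⟩⟩
        have h1 : π'.range = ⊤ := by
          rw [AlgHom.range_eq_top]
          exact fun f => ⟨f, h f⟩
        rw [h1]
        exact Subalgebra.topEquiv
  · obtain ⟨ε, hε, h⟩ := rk2_of_rank σ π hπ hR
    exact cubicN n π' hidem ε hε (hdeg' ε) h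

/-- a retraction of degree at most three kills or fixes a centred linear form -/
lemma fixkill {X : Type*} [DecidableEq X] [Fintype X] [Nonempty X] (π : F k X →ₐ[k] F k X)
    (hπ : ∀ f, π (π f) = π f) (ε : F k X →ₐ[k] k) (hε : ∀ f, ε (π f) = ε f)
    (hdeg : ∀ i, π (FreeAlgebra.ι k i) ∈ Dg ε 3) :
    ∃ w : H ε 1, w ≠ 0 ∧ (π (w : F k X) = 0 ∨ π (w : F k X) = w) := by
  have hdegv : ∀ v : H ε 1, π (v : F k X) ∈ Dg ε 3 := by
    have : V ε ≤ (Dg ε 3).comap π.toLinearMap := by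
      refine (V_le_span ε).trans (Submodule.span_le.2 ?_)
      rintro _ ⟨x, rfl⟩
      show π (cx ε x) ∈ Dg ε 3
      rw [cx, map_sub, AlgHom.commutes]
      exact sub_mem (hdeg x) (const_mem_Dg ε _ 3)
    exact fun v => this ⟨v.2.2, ε_H ε v.2⟩
  obtain ⟨L, q, c, hw⟩ := exists_parts π ε hε hdegv
  obtain ⟨v, hv0, hqv, hcv⟩ := key π hπ ε hε L q c hw
  have hπv : π (v : F k X) = (L v : F k X) := by
    rw [hw, hqv, hcv, add_zero, add_zero]
  by_cases hLv : L v = 0
  · exact ⟨v, hv0, Or.inl (by rw [hπv, hLv]; rfl)⟩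
  · exact ⟨L v, hLv, Or.inr (by rw [← hπv, hπ])⟩

theorem fixkillF {F' : Type*} [Ring F'] [Algebra k F'] {n : ℕ} (g : Fin n → F')
    (hg : Function.Bijective (FreeAlgebra.lift k g)) (π : F' →ₐ[k] F') (hπ : ∀ f, π (π f) = π f)
    (hdeg : ∀ i, π (g i) ∈ Submodule.span k {f | ∃ l : List (Fin n), l.length ≤ 3 ∧ (l.map g).prod = f})
    (hn : 0 < n) : ∃ v ∈ Submodule.span k {f | ∃ l : List (Fin n), l.length ≤ 1 ∧ (l.map g).prod = f},
      v ∉ (⊥ : Subalgebra k F') ∧ (π v = 0 ∨ π v = v) := by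
  classical
  haveI : Nonempty (Fin n) := ⟨⟨0, hn⟩⟩
  set σ : FreeAlgebra k (Fin n) ≃ₐ[k] F' := AlgEquiv.ofBijective _ hg with hσ
  have hσι : ∀ z, σ (FreeAlgebra.ι k z) = g z := fun z => by
    show FreeAlgebra.lift k g (FreeAlgebra.ι k z) = g z
    simp
  have hσι' : ∀ z, σ.symm (g z) = FreeAlgebra.ι k z := fun z => by
    rw [← hσι, σ.symm_apply_apply]
  set π' : FreeAlgebra k (Fin n) →ₐ[k] FreeAlgebra k (Fin n) :=
    (σ.symm.toAlgHom.comp π).comp σ.toAlgHom with hπ'
  have hπ'σ : ∀ f, π' f = σ.symm (π (σ f)) := fun f => rfl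
  have hσπ : ∀ f, σ (π' f) = π (σ f) := fun f => σ.apply_symm_apply _
  have hidem : ∀ f, π' (π' f) = π' f := fun f => σ.injective (by rw [hσπ, hσπ, hπ])
  obtain ⟨ε, hε⟩ := exists_aug π' hidem
  obtain ⟨w, hw0, hw⟩ := fixkill π' hidem ε hε (fun i => by
    refine Wd_le_Dg ε 3 ?_
    rw [hπ'σ, hσι]
    have h1 := Wd_map σ.symm.toAlgHom g {j | j ≤ 3} (f := π (g i)) (hdeg i)
    have h2 : (fun x => σ.symm.toAlgHom (g x)) = FreeAlgebra.ι k := funext hσι'
    rw [h2] at h1
    exact h1)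
  refine ⟨σ (w : F k (Fin n)), ?_, ?_, ?_⟩
  · have h1 : (w : F k (Fin n)) ∈ Submodule.span k (Set.range (cx ε)) :=
      V_le_span ε ⟨w.2.2, ε_H ε w.2⟩
    have h2 : Submodule.span k (Set.range (cx ε)) ≤ (Submodule.span k
        {f | ∃ l : List (Fin n), l.length ≤ 1 ∧ (l.map g).prod = f}).comap
          σ.toAlgHom.toLinearMap := by
      rw [Submodule.span_le]
      rintro _ ⟨x, rfl⟩
      show σ (cx ε x) ∈ Submodule.span k _
      rw [cx, map_sub, hσι, AlgEquiv.commutes]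
      refine sub_mem (Submodule.subset_span ⟨[x], by simp, by simp⟩) ?_
      rw [Algebra.algebraMap_eq_smul_one]
      exact Submodule.smul_mem _ _ (Submodule.subset_span ⟨[], by simp, by simp⟩)
    exact h2 h1
  · intro hbot
    obtain ⟨c, hc⟩ := Algebra.mem_bot.1 hbot
    have h1 : (w : F k (Fin n)) = algebraMap k _ c := σ.injective (by
      rw [← hc, AlgEquiv.commutes])
    have h2 : c = 0 := by
      have := ε_H ε w.2
      rw [h1, AlgHom.commutes] at this
      simpa using this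
    exact hw0 (Subtype.ext (by rw [h1, h2, map_zero]; rfl))
  · rcases hw with h | h
    · left
      rw [← hσπ, h, map_zero]
    · right
      rw [← hσπ, h]

end Rfa
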