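import Pool.Agent.Lib.Rfa.CubicJ

/-!
Retracts of rank at most two which contain a nonconstant polynomial in a primitive element.
-/

namespace Rfa

variable {k : Type*} [Field k]

/-- a retract of rank at most two which contains a linear form is free -/
theorem fixedW {n : ℕ} (π : F k (Fin (n + 1)) →ₐ[k] F k (Fin (n + 1))) (hπ : ∀ f, π (π f) = π f)
    (ε : F k (Fin (n + 1)) →ₐ[k] k) (hε : ∀ f, ε (π f) = ε f) (w : H ε 1) (hw0 : w ≠ 0)
    (hπw : π (w : F k (Fin (n + 1))) = w) (hR : Rk2 π ε) :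
    ∃ m : ℕ, Nonempty (π.range ≃ₐ[k] FreeAlgebra k (Fin m)) := by
  obtain ⟨b0, _⟩ := exists_basis ε
  haveI : Module.Finite k (H ε 1) := Module.Finite.of_basis b0
  obtain ⟨b, hb⟩ := basis_cons (k := k) (n := n)
    (by rw [Module.finrank_eq_card_basis b0, Fintype.card_fin]) w hw0
  set σ : F k (Fin (n + 1)) ≃ₐ[k] F k (Fin (n + 1)) :=
    AlgEquiv.ofBijective _ (gen_of_basis' ε b) with hσ
  have hσι : ∀ i, σ (FreeAlgebra.ι k i) = ((b i : H ε 1) : F k (Fin (n + 1))) := fun i =>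
    FreeAlgebra.lift_ι_apply _ _
  have hσb : ∀ i, σ.symm ((b i : H ε 1) : F k (Fin (n + 1))) = FreeAlgebra.ι k i := fun i => by
    rw [← hσι, σ.symm_apply_apply]
  set π' : F k (Fin (n + 1)) →ₐ[k] F k (Fin (n + 1)) :=
    (σ.symm.toAlgHom.comp π).comp σ.toAlgHom with hπ'
  have hπ'a : ∀ f, π' f = σ.symm (π (σ f)) := fun f => rfl
  have hσπ : ∀ f, σ (π' f) = π (σ f) := fun f => σ.apply_symm_apply _
  have hidem : ∀ f, π' (π' f) = π' f := fun f => σ.injective (by rw [hσπ, hσπ, hπ])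
  set ε' : F k (Fin (n + 1)) →ₐ[k] k := ε.comp σ.toAlgHom with hε'
  have hε'a : ∀ f, ε' f = ε (σ f) := fun f => rfl
  have hε's : ∀ f, ε' (σ.symm.toAlgHom f) = ε f := fun f => by
    show ε (σ (σ.symm f)) = ε f
    rw [σ.apply_symm_apply]
  have hε'π : ∀ f, ε' (π' f) = ε' f := fun f => by rw [hε'a, hσπ, hε, hε'a]
  have hε'ι : ∀ i, ε' (FreeAlgebra.ι k i) = 0 := fun i => by
    rw [hε'a, hσι]
    exact ε_H ε (b i).2
  have hR' : Rk2 π' ε' := by
    obtain ⟨a, a', haa⟩ := hR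
    refine ⟨σ.symm a, σ.symm a', fun f => ?_⟩
    obtain ⟨s, t, hst⟩ := haa (σ f)
    refine ⟨s, t, ?_⟩
    have h1 := map_I ε ε' σ.symm.toAlgHom hε's 2 _ hst
    rw [map_sub, map_sub, map_sub, map_smul, map_smul, AlgHom.commutes] at h1
    exact h1
  have hmain : ∃ m : ℕ, Nonempty (π'.range ≃ₐ[k] FreeAlgebra k (Fin m)) := by
    refine fixed π' hidem ε' hε'π hε'ι ?_ hR'
    rw [hπ'a, hσι, hb, hπw, ← hb, hσb]
  obtain ⟨m, ⟨e⟩⟩ := hmain
  refine ⟨m, ⟨AlgEquiv.trans ?_ e⟩⟩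
  have h1 : π'.range.map σ.toAlgHom = π.range := by
    ext f
    constructor
    · rintro ⟨_, ⟨a, rfl⟩, rfl⟩
      exact ⟨σ a, (hσπ a).symm⟩
    · rintro ⟨a, rfl⟩
      refine ⟨_, ⟨σ.symm a, rfl⟩, ?_⟩
      refine (hσπ _).trans ?_
      rw [AlgEquiv.apply_symm_apply]
      rfl
  rw [← h1]
  exact (Subalgebra.equivMapOfInjective _ σ.toAlgHom σ.injective).symm

open Polynomial in
/-- a retract of rank at most two which contains a nonconstant polynomial in a member of a free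
generating family is free -/
theorem primF {F' : Type*} [Ring F'] [Algebra k F'] {n : ℕ} (g : Fin n → F')
    (hg : Function.Bijective (FreeAlgebra.lift k g)) (π : F' →ₐ[k] F') (hπ : ∀ f, π (π f) = π f)
    (hR : RankLETwo π.range) (i : Fin n) (p : k[X]) (hp : 0 < p.natDegree)
    (hpR : aeval (g i) p ∈ π.range) :
    ∃ m : ℕ, Nonempty (π.range ≃ₐ[k] FreeAlgebra k (Fin m)) := by
  cases n with
  | zero => exact i.elim0
  | succ n =>
    set σ : FreeAlgebra k (Fin (n + 1)) ≃ₐ[k] F' := AlgEquiv.ofBijective _ hg with hσ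
    have hσι : ∀ z, σ (FreeAlgebra.ι k z) = g z := fun z => by
      show FreeAlgebra.lift k g (FreeAlgebra.ι k z) = g z
      simp
    set π' : FreeAlgebra k (Fin (n + 1)) →ₐ[k] FreeAlgebra k (Fin (n + 1)) :=
      (σ.symm.toAlgHom.comp π).comp σ.toAlgHom with hπ'
    have hπ'σ : ∀ f, π' f = σ.symm (π (σ f)) := fun f => rfl
    have hσπ : ∀ f, σ (π' f) = π (σ f) := fun f => σ.apply_symm_apply _
    have hidem : ∀ f, π' (π' f) = π' f := fun f => σ.injective (by rw [hσπ, hσπ, hπ])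
    obtain ⟨ε, hε, hR'⟩ := rk2_of_rank σ π hπ hR
    -- the variable is fixed
    have hfix : π' (aeval (FreeAlgebra.ι k i) p) = aeval (FreeAlgebra.ι k i) p := by
      apply σ.injective
      rw [hσπ]
      have h1 : σ (aeval (FreeAlgebra.ι k i) p) = aeval (g i) p := by
        rw [← hσι]
        exact (Polynomial.aeval_algHom_apply σ.toAlgHom (FreeAlgebra.ι k i) p).symm
      rw [h1]
      obtain ⟨f, hf⟩ := hpR
      rw [← hf]
      exact hπ f
    have hi : π' (FreeAlgebra.ι k i) = FreeAlgebra.ι k i := by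
      set τ := Prt.toW k i with hτ
      have hτz : τ.symm Prt.z = FreeAlgebra.ι k i := by
        rw [AlgEquiv.symm_apply_eq]
        exact (Prt.toW_ι k i).symm
      set ρ : Prt.W k (Fin n) →ₐ[k] Prt.W k (Fin n) :=
        (τ.toAlgHom.comp π').comp τ.symm.toAlgHom with hρ
      have hρa : ∀ f, ρ f = τ (π' (τ.symm f)) := fun f => rfl
      have h2 := Prt.pi_z ρ (fun f => by
        rw [hρa, hρa, AlgEquiv.symm_apply_apply, hidem]) hp (by
        rw [hρa]
        have h3 : τ.symm (Prt.zin p) = aeval (FreeAlgebra.ι k i) p := by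
          rw [← hτz]
          exact (Polynomial.aeval_algHom_apply τ.symm.toAlgHom Prt.z p).symm
        rw [h3, hfix, ← h3, AlgEquiv.apply_symm_apply])
      rw [hρa, hτz] at h2
      apply τ.injective
      rw [h2]
      exact (Prt.toW_ι k i).symm
    have h3 : π'.range.map σ.toAlgHom = π.range := by
      ext f
      constructor
      · rintro ⟨_, ⟨a, rfl⟩, rfl⟩
        exact ⟨σ a, (hσπ a).symm⟩
      · rintro ⟨a, rfl⟩
        refine ⟨_, ⟨σ.symm a, rfl⟩, ?_⟩
        refine (hσπ _).trans ?_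
        rw [AlgEquiv.apply_symm_apply]
        rfl
    have e1 : π'.range ≃ₐ[k] π.range := by
      rw [← h3]
      exact Subalgebra.equivMapOfInjective _ σ.toAlgHom σ.injective
    obtain ⟨m, ⟨e⟩⟩ := fixedW π' hidem ε hε ⟨cx ε i, cx_mem_H ε i⟩ (fun h => by
      have h4 : cx ε i = 0 := congrArg (fun w : H ε 1 => (w : F k (Fin (n + 1)))) h
      have h5 := lam_cx ε i i
      rw [h4, if_pos rfl] at h5
      simp [lam, D_zero] at h5) (by
      show π' (cx ε i) = cx ε i
      rw [cx, map_sub, hi, AlgHom.commutes]) hR'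
    exact ⟨m, ⟨e1.symm.trans e⟩⟩

end Rfa
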