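import Pool.Agent.Lib.Rfa.CubicK

/-!
Retracts of rank at most two given by retractions of degree at most three: any set of generators.
-/

namespace Rfa

variable {k : Type*} [Field k] {X : Type*} [DecidableEq X]

section Fg

variable (π : F k X →ₐ[k] F k X) (ε : F k X →ₐ[k] k) (a b : F k X) (ha : ε a = 0) (hb : ε b = 0)
  (hab : ∀ f, ∃ s t : k, π f - algebraMap k (F k X) (ε f) - s • a - t • b ∈ I ε 2)
  (hε : ∀ f, ε (π f) = ε f)

/-- the words of length `j` in two elements -/
def W2 (k : Type*) [Field k] {X : Type*} (a b : F k X) : ℕ → Submodule k (F k X)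
  | 0 => Submodule.span k {1}
  | j + 1 => W2 k a b j * Submodule.span k {a, b}

omit [DecidableEq X] in
lemma W2_fg (j : ℕ) : (W2 k a b j).FG := by
  induction j with
  | zero => exact Submodule.fg_span (Set.finite_singleton _)
  | succ j ih => exact ih.mul (Submodule.fg_span (Set.toFinite _))

include ha hb in
lemma W2_le (j : ℕ) : W2 k a b j ≤ I ε j := by
  induction j with
  | zero => exact fun f _ => mem_I_zero ε f
  | succ j ih =>
    refine Submodule.mul_le.2 fun f hf g hg => ?_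
    have hg1 : g ∈ I ε 1 := by
      refine (Submodule.span_le (p := I ε 1)).2 ?_ hg
      rintro x (rfl | rfl)
      · exact (I_one ε _).2 ha
      · exact (I_one ε _).2 hb
    exact I_mul ε j 1 f (ih hf) g hg1

include ha hb hab hε in
/-- the lowest component of a value -/
lemma low_W2 (j : ℕ) : ∀ f ∈ I ε j, π f ∈ W2 k a b j ⊔ I ε (j + 1) := by
  induction j with
  | zero =>
    intro f _
    refine Submodule.mem_sup.2 ⟨algebraMap k _ (ε f), ?_, π f - algebraMap k _ (ε f), ?_, by abel⟩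
    · rw [Algebra.algebraMap_eq_smul_one]
      exact Submodule.smul_mem _ _ (Submodule.subset_span rfl)
    · refine (I_one ε _).2 ?_
      rw [map_sub, hε, AlgHom.commutes]
      exact sub_self _
  | succ j ih =>
    intro f hf
    obtain ⟨t, ht⟩ := recon' ε f
    have h1 := (ht t (Finset.Subset.refl _)).2
    rw [hf.1, map_zero, zero_add] at h1
    have h2 := congrArg π h1
    rw [map_sum] at h2
    rw [h2]
    refine sum_mem fun x _ => ?_
    rw [map_mul]
    obtain ⟨w, hw, i, hi, hwi⟩ := Submodule.mem_sup.1 (ih _ (hf.2 x))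
    obtain ⟨s, t, hst⟩ := hab (cx ε x)
    rw [ε_cx, map_zero, sub_zero] at hst
    set r := π (cx ε x) - s • a - t • b with hr
    have hp : π (cx ε x) = (s • a + t • b) + r := by rw [hr]; abel
    have hsp : s • a + t • b ∈ Submodule.span k {a, b} :=
      add_mem (Submodule.smul_mem _ _ (Submodule.subset_span (Or.inl rfl)))
        (Submodule.smul_mem _ _ (Submodule.subset_span (Or.inr rfl)))
    have hcx : π (cx ε x) ∈ I ε 1 := (I_one ε _).2 (by rw [hε, ε_cx])
    have e : π (D ε x f) * π (cx ε x) = w * (s • a + t • b) + (w * r + i * π (cx ε x)) := by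
      rw [← hwi, add_mul, hp]
      noncomm_ring
    rw [e]
    refine Submodule.mem_sup.2 ⟨_, Submodule.mul_mem_mul hw hsp, _, add_mem ?_ ?_, rfl⟩
    · have := I_mul ε j 2 w (W2_le ε a b ha hb j hw) r hst
      exact this
    · have := I_mul ε (j + 1) 1 i hi _ hcx
      exact this

include ha hb hab hε in
/-- the elements of bounded degree of the retract form a space of finite dimension -/
lemma fg_Dg (hπ : ∀ f, π (π f) = π f) (d : ℕ) :
    (Subalgebra.toSubmodule π.range ⊓ Dg ε d).FG := by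
  have key : ∀ j ≤ d + 1, (Subalgebra.toSubmodule π.range ⊓ Dg ε d ⊓ I ε (d + 1 - j)).FG := by
    intro j
    induction j with
    | zero =>
      intro _
      have : Subalgebra.toSubmodule π.range ⊓ Dg ε d ⊓ I ε (d + 1 - 0) = ⊥ := by
        rw [eq_bot_iff]
        rintro f ⟨⟨_, h1⟩, h2⟩
        exact (Submodule.mem_bot k).2 (eq_zero_of_I_Dg ε d f h1 h2)
      rw [this]
      exact Submodule.fg_bot
    | succ j ih =>
      intro hj
      have ih' := ih (by omega)
      obtain ⟨i, hi⟩ : ∃ i, d + 1 - (j + 1) = i := ⟨_, rfl⟩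
      have hi' : d + 1 - j = i + 1 := by omega
      rw [hi'] at ih'
      rw [hi]
      refine Submodule.fg_of_fg_map_of_fg_inf_ker (I ε (i + 1)).mkQ ?_ ?_
      · refine ((W2_fg (k := k) a b i).map (I ε (i + 1)).mkQ).of_le ?_
        rintro _ ⟨f, ⟨⟨⟨g, hg⟩, _⟩, h2⟩, rfl⟩
        have h3 : π f = f := by rw [← hg]; exact hπ g
        have h4 := low_W2 π ε a b ha hb hab hε i f h2
        rw [h3] at h4
        obtain ⟨w, hw, r, hr, hwr⟩ := Submodule.mem_sup.1 h4
        refine ⟨w, hw, ?_⟩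
        rw [← hwr, map_add]
        have : (I ε (i + 1)).mkQ r = 0 := (Submodule.Quotient.mk_eq_zero _).2 hr
        rw [this, add_zero]
      · rw [Submodule.ker_mkQ]
        refine ih'.of_le ?_
        rintro f ⟨⟨h1, _⟩, h2⟩
        exact ⟨h1, h2⟩
  have := key (d + 1) le_rfl
  rw [Nat.sub_self] at this
  refine this.of_le ?_
  intro f hf
  exact ⟨hf, mem_I_zero ε f⟩

end Fg

/-- the centred variables form a basis of the centred linear forms -/
lemma exists_basisV (ε : F k X →ₐ[k] k) :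
    ∃ b : Module.Basis X k (V ε), ∀ x, ((b x : V ε) : F k X) = cx ε x := by
  have hli : LinearIndependent k (fun x => (⟨cx ε x, cx_mem_V ε x⟩ : V ε)) := by
    rw [linearIndependent_iff']
    intro s g hg x hx
    have h1 : ∑ y ∈ s, g y • cx ε y = 0 := by
      have := congrArg (fun v : V ε => (v : F k X)) hg
      simpa using this
    have h2 := congrArg (fun f => ε (D ε x f)) h1
    simp only [D_sum, D_smul, map_sum, map_smul, D_zero, map_zero] at h2
    have h3 : ∀ y, ε (D ε x (cx ε y)) = if y = x then 1 else 0 := fun y => lam_cx ε x y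
    simp only [h3] at h2
    simpa [hx] using h2
  have hsp : ⊤ ≤ Submodule.span k (Set.range (fun x => (⟨cx ε x, cx_mem_V ε x⟩ : V ε))) := by
    rintro v -
    have h1 := V_le_span ε v.2
    have h2 : Submodule.span k (Set.range (cx ε)) = (Submodule.span k
        (Set.range (fun x => (⟨cx ε x, cx_mem_V ε x⟩ : V ε)))).map (V ε).subtype := by
      rw [Submodule.map_span, ← Set.range_comp]
      rfl
    rw [h2] at h1
    obtain ⟨w, hw, hwv⟩ := h1
    have : w = v := Subtype.ext hwv
    rwa [← this]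
  exact ⟨Module.Basis.mk hli hsp, fun x => by rw [Module.Basis.mk_apply]⟩

/-- a basis of the centred linear forms is a free generating family -/
lemma gen_of_basisV (ε : F k X →ₐ[k] k) {T : Type*} (b : Module.Basis T k (V ε)) :
    Function.Bijective (FreeAlgebra.lift k (fun i => ((b i : V ε) : F k X))) := by
  obtain ⟨b0, hb0⟩ := exists_basisV ε
  have hb0' : ∀ x, b0 x = ⟨cx ε x, cx_mem_V ε x⟩ := fun x => Subtype.ext (hb0 x)
  set Ψ : V ε →ₗ[k] F k T := b.constr k (fun i => FreeAlgebra.ι k i) with hΨ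
  have hΨb : ∀ i, Ψ (b i) = FreeAlgebra.ι k i := fun i => by rw [hΨ, Module.Basis.constr_basis]
  set E : F k X →ₐ[k] F k T := FreeAlgebra.lift k (fun x =>
    algebraMap k _ (ε (FreeAlgebra.ι k x)) + Ψ ⟨cx ε x, cx_mem_V ε x⟩) with hE
  have hEι : ∀ x, E (FreeAlgebra.ι k x) = algebraMap k _ (ε (FreeAlgebra.ι k x))
    + Ψ ⟨cx ε x, cx_mem_V ε x⟩ := fun x => FreeAlgebra.lift_ι_apply _ _
  have hEv : ∀ v : V ε, E (v : F k X) = Ψ v := by
    have : E.toLinearMap.comp (V ε).subtype = Ψ := b0.ext fun x => by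
      show E ((b0 x : V ε) : F k X) = Ψ (b0 x)
      rw [hb0']
      have e1 : E (cx ε x) = E (FreeAlgebra.ι k x)
        - E (algebraMap k _ (ε (FreeAlgebra.ι k x))) := map_sub _ _ _
      show E (cx ε x) = _
      rw [e1, hEι, AlgHom.commutes, add_sub_cancel_left]
    exact fun v => LinearMap.congr_fun this v
  set g : T → F k X := fun i => ((b i : V ε) : F k X) with hg
  have h1 : ∀ f, E (FreeAlgebra.lift k g f) = f := fun f =>
    hom_eq (φ := E.comp (FreeAlgebra.lift k g)) (ψ := AlgHom.id k _) (fun i => by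
      rw [AlgHom.comp_apply, FreeAlgebra.lift_ι_apply, hg]
      show E ((b i : V ε) : F k X) = _
      rw [hEv, hΨb]
      rfl) f
  have h3 : ∀ v : V ε, FreeAlgebra.lift k g (Ψ v) = v := by
    have : (FreeAlgebra.lift k g).toLinearMap.comp Ψ = (V ε).subtype := b.ext fun i => by
      show FreeAlgebra.lift k g (Ψ (b i)) = ((b i : V ε) : F k X)
      rw [hΨb, FreeAlgebra.lift_ι_apply]
    exact fun v => LinearMap.congr_fun this v
  have h2 : ∀ f, FreeAlgebra.lift k g (E f) = f := fun f =>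
    hom_eq (φ := (FreeAlgebra.lift k g).comp E) (ψ := AlgHom.id k _) (fun x => by
      rw [AlgHom.comp_apply, hEι, map_add, AlgHom.commutes, h3]
      show _ + cx ε x = FreeAlgebra.ι k x
      rw [cx]
      abel) f
  exact ⟨fun x y hxy => by rw [← h1 x, ← h1 y, hxy], fun y => ⟨_, h2 y⟩⟩

/-- a basis adapted to a linear map of finite rank -/
lemma lin_split' {V W : Type*} [AddCommGroup V] [Module k V] [AddCommGroup W] [Module k W]
    (c : V →ₗ[k] W) (hc : (LinearMap.range c).FG) : ∃ (J : Set V) (m : ℕ)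
      (b : Module.Basis (J ⊕ Fin m) k V), ∀ i, c (b (Sum.inl i)) = 0 := by
  obtain ⟨C, hC⟩ := Submodule.exists_isCompl (LinearMap.ker c)
  haveI : Module.Finite k (LinearMap.range c) := Module.Finite.iff_fg.2 hc
  haveI : Module.Finite k C := by
    refine Module.Finite.of_injective (c.rangeRestrict.comp C.subtype) ?_
    rw [← LinearMap.ker_eq_bot, LinearMap.ker_eq_bot']
    intro m hm
    have h3 : (m : V) ∈ LinearMap.ker c ⊓ C := ⟨congrArg Subtype.val hm, m.2⟩
    rw [hC.inf_eq_bot] at h3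
    exact Subtype.ext ((Submodule.mem_bot k).1 h3)
  have bK := Module.Basis.ofVectorSpace k (LinearMap.ker c)
  have bC := Module.finBasis k C
  set J : Set V := Subtype.val '' (Module.Basis.ofVectorSpaceIndex k (LinearMap.ker c)) with hJ
  have eJ : Module.Basis.ofVectorSpaceIndex k (LinearMap.ker c) ≃ J :=
    Equiv.Set.image _ _ Subtype.val_injective
  refine ⟨J, _, ((bK.prod bC).map (Submodule.prodEquivOfIsCompl _ C hC)).reindex
    (eJ.sumCongr (Equiv.refl _)), fun i => ?_⟩
  have h1 : (((bK.prod bC).map (Submodule.prodEquivOfIsCompl _ C hC)).reindex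
    (eJ.sumCongr (Equiv.refl _))) (Sum.inl i) = (bK (eJ.symm i) : V) := by
    rw [Module.Basis.reindex_apply, Module.Basis.map_apply, Module.Basis.prod_apply]
    simp
  rw [h1]
  exact (bK _).2

/-- retractions of degree at most three with image of rank at most two, any set of generators -/
theorem cubicX (π : F k X →ₐ[k] F k X) (hπ : ∀ f, π (π f) = π f) (ε : F k X →ₐ[k] k)
    (hε : ∀ f, ε (π f) = ε f) (hdeg : ∀ x, π (FreeAlgebra.ι k x) ∈ Dg ε 3) (hR : Rk2 π ε) :
    ∃ m : ℕ, Nonempty (π.range ≃ₐ[k] FreeAlgebra k (Fin m)) := by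
  obtain ⟨a, b, hab⟩ := hR
  have hfg : (Subalgebra.toSubmodule π.range ⊓ Dg ε 3).FG := by
    refine fg_Dg π ε (a - algebraMap k _ (ε a)) (b - algebraMap k _ (ε b))
      (by rw [map_sub, AlgHom.commutes]; exact sub_self _)
      (by rw [map_sub, AlgHom.commutes]; exact sub_self _) (fun f => ?_) hε hπ 3
    obtain ⟨s, t, hst⟩ := hab f
    refine ⟨s, t, ?_⟩
    have h1 : s * ε a + t * ε b = 0 := by
      have h2 := hst.1
      rw [map_sub, map_sub, map_sub, map_smul, map_smul, hε, AlgHom.commutes] at h2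
      have h3 : ε f - ε f - s * ε a - t * ε b = 0 := h2
      linear_combination -h3
    have h4 : π f - algebraMap k _ (ε f) - s • (a - algebraMap k _ (ε a))
        - t • (b - algebraMap k _ (ε b))
        = (π f - algebraMap k _ (ε f) - s • a - t • b)
          + algebraMap k _ (s * ε a + t * ε b) := by
      rw [smul_sub, smul_sub, Algebra.smul_def s (algebraMap k (F k X) (ε a)),
        Algebra.smul_def t (algebraMap k (F k X) (ε b)), map_add, map_mul, map_mul]
      abel
    rw [h4, h1, map_zero, add_zero]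
    exact hst
  have hdegv : ∀ v : V ε, π (v : F k X) ∈ Dg ε 3 := by
    have : V ε ≤ (Dg ε 3).comap π.toLinearMap := by
      refine (V_le_span ε).trans (Submodule.span_le.2 ?_)
      rintro _ ⟨x, rfl⟩
      show π (cx ε x) ∈ Dg ε 3
      rw [cx, map_sub, AlgHom.commutes]
      exact sub_mem (hdeg x) (const_mem_Dg ε _ 3)
    exact fun v => this v.2
  obtain ⟨J, m, e, he⟩ := lin_split' (π.toLinearMap.comp (V ε).subtype) (hfg.of_le (by
    rintro _ ⟨v, rfl⟩
    exact ⟨⟨(v : F k X), rfl⟩, hdegv v⟩))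
  have he' : ∀ j, π ((e (Sum.inl j) : V ε) : F k X) = 0 := he
  classical
  set σ : F k (J ⊕ Fin m) ≃ₐ[k] F k X := AlgEquiv.ofBijective _ (gen_of_basisV ε e) with hσ
  have hσι : ∀ z, σ (FreeAlgebra.ι k z) = ((e z : V ε) : F k X) := fun z =>
    FreeAlgebra.lift_ι_apply _ _
  have hσe : ∀ z, σ.symm ((e z : V ε) : F k X) = FreeAlgebra.ι k z := fun z => by
    rw [← hσι, σ.symm_apply_apply]
  set κ : F k (J ⊕ Fin m) →ₐ[k] F k (Fin m) :=
    FreeAlgebra.lift k (Sum.elim (fun _ => 0) (FreeAlgebra.ι k)) with hκ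
  set inc' : F k (Fin m) →ₐ[k] F k (J ⊕ Fin m) :=
    FreeAlgebra.lift k (fun i => FreeAlgebra.ι k (Sum.inr i)) with hinc
  have hκl : ∀ j, κ (FreeAlgebra.ι k (Sum.inl j)) = 0 := fun j => by simp [hκ]
  have hκr : ∀ i, κ (FreeAlgebra.ι k (Sum.inr i)) = FreeAlgebra.ι k i := fun i => by simp [hκ]
  have hii : ∀ i, inc' (FreeAlgebra.ι k i) = FreeAlgebra.ι k (Sum.inr i) := fun i => by
    simp [hinc]
  set ψ : F k X →ₐ[k] F k (Fin m) := κ.comp σ.symm.toAlgHom with hψ
  set φ : F k (Fin m) →ₐ[k] F k X := σ.toAlgHom.comp inc' with hφ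
  have hψσ : ∀ f, ψ (σ f) = κ f := fun f => by
    show κ (σ.symm (σ f)) = κ f
    rw [σ.symm_apply_apply]
  have hA : ∀ f, π (φ (ψ f)) = π f := by
    have h1 : ∀ g, π (φ (κ g)) = π (σ g) := fun g =>
      hom_eq (φ := (π.comp φ).comp κ) (ψ := π.comp σ.toAlgHom) (fun z => by
        rcases z with j | i
        · rw [AlgHom.comp_apply, hκl, map_zero]
          show 0 = π (σ (FreeAlgebra.ι k (Sum.inl j)))
          rw [hσι, he']
        · rw [AlgHom.comp_apply, hκr]
          show π (σ (inc' (FreeAlgebra.ι k i))) = π (σ (FreeAlgebra.ι k (Sum.inr i)))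
          rw [hii]) g
    intro f
    have h2 := h1 (σ.symm f)
    rw [σ.apply_symm_apply] at h2
    exact h2
  set ε' : F k (Fin m) →ₐ[k] k := ε.comp φ with hε'
  have hB : ∀ f, ε' (ψ f) = ε f := by
    have h1 : ∀ g, ε (φ (κ g)) = ε (σ g) := fun g =>
      hom_eq (φ := (ε.comp φ).comp κ) (ψ := ε.comp σ.toAlgHom) (fun z => by
        rcases z with j | i
        · rw [AlgHom.comp_apply, hκl, map_zero]
          show 0 = ε (σ (FreeAlgebra.ι k (Sum.inl j)))
          rw [hσι]
          exact (e (Sum.inl j)).2.2.symm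
        · rw [AlgHom.comp_apply, hκr]
          show ε (σ (inc' (FreeAlgebra.ι k i))) = ε (σ (FreeAlgebra.ι k (Sum.inr i)))
          rw [hii]) g
    intro f
    have h2 := h1 (σ.symm f)
    rw [σ.apply_symm_apply] at h2
    exact h2
  have hψ1 : ∀ v : V ε, ψ (v : F k X) ∈ Dg ε' 1 := by
    have h1 : (⊤ : Submodule k (V ε)) ≤ (Dg ε' 1).comap (ψ.toLinearMap.comp (V ε).subtype) := by
      rw [← e.span_eq, Submodule.span_le]
      rintro _ ⟨z, rfl⟩
      show ψ ((e z : V ε) : F k X) ∈ Dg ε' 1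
      rw [← hσι, hψσ]
      rcases z with j | i
      · rw [hκl]; exact zero_mem _
      · rw [hκr]; exact ι_mem_Dg _ _
    exact fun v => h1 trivial
  have hψι : ∀ x, ψ (FreeAlgebra.ι k x) ∈ Dg ε' 1 := fun x => by
    have h1 : (FreeAlgebra.ι k x : F k X)
        = cx ε x + algebraMap k _ (ε (FreeAlgebra.ι k x)) := by rw [cx, sub_add_cancel]
    rw [h1, map_add, AlgHom.commutes]
    exact add_mem (hψ1 ⟨cx ε x, cx_mem_V ε x⟩) (const_mem_Dg ε' _ 1)
  set π' : F k (Fin m) →ₐ[k] F k (Fin m) := (ψ.comp π).comp φ with hπ'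
  have hπ'a : ∀ f, π' f = ψ (π (φ f)) := fun f => rfl
  obtain ⟨M, ⟨E⟩⟩ := cubicN m π' (fun f => by rw [hπ'a, hπ'a, hA, hπ]) ε'
    (fun f => by
      rw [hπ'a, hB, hε]
      rfl)
    (fun i => by
      rw [hπ'a]
      refine map_Dg ε ε' ψ hψι 3 _ ?_
      show π (σ (inc' (FreeAlgebra.ι k i))) ∈ Dg ε 3
      rw [hii, hσι]
      exact hdegv _)
    (by
      refine ⟨ψ a, ψ b, fun f => ?_⟩
      obtain ⟨s, t, hst⟩ := hab (φ f)
      refine ⟨s, t, ?_⟩
      have h1 := map_I ε ε' ψ hB 2 _ hst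
      rw [map_sub, map_sub, map_sub, map_smul, map_smul, AlgHom.commutes] at h1
      exact h1)
  refine ⟨M, ⟨AlgEquiv.trans ?_ E⟩⟩
  set θ : π.range →ₐ[k] π'.range := (ψ.comp π.range.val).codRestrict π'.range (by
    rintro ⟨_, f, rfl⟩
    exact ⟨ψ f, by
      show π' (ψ f) = ψ (π f)
      rw [hπ'a, hA]⟩) with hθ
  have hθa : ∀ f, ((θ f : π'.range) : F k (Fin m)) = ψ (f : F k X) := fun f => rfl
  have hfix : ∀ f : π.range, π (φ (ψ (f : F k X))) = f := by
    rintro ⟨_, f, rfl⟩
    rw [hA]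
    exact hπ f
  refine AlgEquiv.ofBijective θ ⟨fun f g hfg => ?_, ?_⟩
  · apply Subtype.ext
    rw [← hfix f, ← hfix g, ← hθa, ← hθa, hfg]
  · rintro ⟨_, f, rfl⟩
    exact ⟨⟨π (φ f), _, rfl⟩, Subtype.ext (by rw [hθa]; rfl)⟩

end Rfa
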