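import Pool.Agent.Lib.Rfa.CubicL

/-!
Transport to an abstract free algebra, any set of generators.
-/

namespace Rfa

variable {k : Type*} [Field k]

/-- transport of the rank condition -/
lemma rk2_of_rankX {F' : Type*} [Ring F'] [Algebra k F'] {X : Type*} [DecidableEq X]
    (σ : F k X ≃ₐ[k] F') (π : F' →ₐ[k] F') (hπ : ∀ f, π (π f) = π f)
    (hR : RankLETwo π.range) :
    ∃ ε : F k X →ₐ[k] k, (∀ f, ε (σ.symm (π (σ f))) = ε f) ∧
      Rk2 ((σ.symm.toAlgHom.comp π).comp σ.toAlgHom) ε := by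
  obtain ⟨e, a, b, hab⟩ := hR
  set ρ : F' →ₐ[k] π.range := π.rangeRestrict with hρ
  have hρr : ∀ r : π.range, ρ (r : F') = r := by
    rintro ⟨_, f, rfl⟩
    exact Subtype.ext (hπ f)
  set ε : F k X →ₐ[k] k := (e.comp ρ).comp σ.toAlgHom with hε
  have hεa : ∀ f, ε f = e (ρ (σ f)) := fun f => rfl
  have hεs : ∀ r : π.range, ε (σ.symm (r : F')) = e r := fun r => by
    rw [hεa, AlgEquiv.apply_symm_apply, hρr]
  have hεπ : ∀ f, ε (σ.symm (π (σ f))) = ε f := fun f => by
    have := hεs (ρ (σ f))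
    rw [hεa f, ← this]
    rfl
  refine ⟨ε, hεπ, σ.symm (a : F') - algebraMap k _ (e a), σ.symm (b : F') - algebraMap k _ (e b),
    fun f => ?_⟩
  obtain ⟨r, s, t, hrst⟩ := hab (ρ (σ f))
  refine ⟨s, t, ?_⟩
  have hsub : ∀ h : π.range, h ∈ Submodule.span k
      {h : π.range | ∃ y z : π.range, e y = 0 ∧ e z = 0 ∧ h = y * z} →
      σ.symm (h : F') ∈ I ε 2 := by
    intro h hh
    induction hh using Submodule.span_induction with
    | mem x hx =>
      obtain ⟨y, z, hy, hz, rfl⟩ := hx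
      have h1 : σ.symm ((y * z : π.range) : F') = σ.symm (y : F') * σ.symm (z : F') := by
        rw [← map_mul]; rfl
      rw [h1]
      exact I_mul ε 1 1 _ ((I_one ε _).2 (by rw [hεs, hy])) _ ((I_one ε _).2 (by rw [hεs, hz]))
    | zero =>
      have : σ.symm ((0 : π.range) : F') = 0 := map_zero _
      rw [this]
      exact zero_mem _
    | add x y _ _ hx hy =>
      have : σ.symm ((x + y : π.range) : F') = σ.symm (x : F') + σ.symm (y : F') :=
        map_add σ.symm _ _
      rw [this]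
      exact add_mem hx hy
    | smul c x _ hx =>
      have : σ.symm ((c • x : π.range) : F') = c • σ.symm (x : F') := map_smul σ.symm _ _
      rw [this]
      exact Submodule.smul_mem _ _ hx
  have h1 := hsub _ hrst
  have h2 : σ.symm ((ρ (σ f) - algebraMap k π.range r - s • a - t • b : π.range) : F')
      = σ.symm (π (σ f)) - algebraMap k _ r - s • σ.symm (a : F') - t • σ.symm (b : F') := by
    have e1 : ((ρ (σ f) - algebraMap k π.range r - s • a - t • b : π.range) : F')
        = π (σ f) - algebraMap k F' r - s • (a : F') - t • (b : F') := rfl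
    rw [e1, map_sub, map_sub, map_sub, map_smul, map_smul, AlgEquiv.commutes]
  rw [h2] at h1
  have h3 : ε f = r + s * e a + t * e b := by
    have h4 := h1.1
    rw [map_sub, map_sub, map_sub, map_smul, map_smul, hεs, hεs, hεπ, AlgHom.commutes] at h4
    have h5 : ε f - r - s * e a - t * e b = 0 := h4
    linear_combination h5
  have h6 : ((σ.symm.toAlgHom.comp π).comp σ.toAlgHom) f - algebraMap k _ (ε f)
      - s • (σ.symm (a : F') - algebraMap k _ (e a)) - t • (σ.symm (b : F') - algebraMap k _ (e b))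
      = σ.symm (π (σ f)) - algebraMap k _ r - s • σ.symm (a : F') - t • σ.symm (b : F') := by
    have e1 : ∀ c d : k, c • algebraMap k (F k X) d = algebraMap k _ (c * d) :=
      fun c d => by rw [Algebra.smul_def, map_mul]
    have e2 : ((σ.symm.toAlgHom.comp π).comp σ.toAlgHom) f = σ.symm (π (σ f)) := rfl
    rw [h3, e2, smul_sub, smul_sub, e1, e1, map_add, map_add]
    abel
  rw [h6]
  exact h1

theorem cubicFX {F' : Type*} [Ring F'] [Algebra k F'] {X : Type*} (g : X → F')
    (hg : Function.Bijective (FreeAlgebra.lift k g)) (π : F' →ₐ[k] F') (hπ : ∀ f, π (π f) = π f)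
    (hdeg : ∀ i, π (g i) ∈ Submodule.span k {f | ∃ l : List X, l.length ≤ 3 ∧ (l.map g).prod = f})
    (hR : RankLETwo π.range) :
    ∃ m : ℕ, Nonempty (π.range ≃ₐ[k] FreeAlgebra k (Fin m)) := by
  classical
  set σ : FreeAlgebra k X ≃ₐ[k] F' := AlgEquiv.ofBijective _ hg with hσ
  have hσι : ∀ z, σ (FreeAlgebra.ι k z) = g z := fun z => by
    show FreeAlgebra.lift k g (FreeAlgebra.ι k z) = g z
    simp
  have hσι' : ∀ z, σ.symm (g z) = FreeAlgebra.ι k z := fun z => by
    rw [← hσι, σ.symm_apply_apply]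
  set π' : FreeAlgebra k X →ₐ[k] FreeAlgebra k X :=
    (σ.symm.toAlgHom.comp π).comp σ.toAlgHom with hπ'
  have hπ'σ : ∀ f, π' f = σ.symm (π (σ f)) := fun f => rfl
  have hσπ : ∀ f, σ (π' f) = π (σ f) := fun f => σ.apply_symm_apply _
  have hidem : ∀ f, π' (π' f) = π' f := fun f => σ.injective (by rw [hσπ, hσπ, hπ])
  have hdeg' : ∀ (ε : FreeAlgebra k X →ₐ[k] k) (i : X),
      π' (FreeAlgebra.ι k i) ∈ Dg ε 3 := by
    intro ε i
    refine Wd_le_Dg ε 3 ?_
    rw [hπ'σ, hσι]
    have h1 := Wd_map σ.symm.toAlgHom g {j | j ≤ 3} (f := π (g i)) (hdeg i)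
    have h2 : (fun x => σ.symm.toAlgHom (g x)) = FreeAlgebra.ι k := funext hσι'
    rw [h2] at h1
    exact h1
  have h3 : π'.range.map σ.toAlgHom = π.range := by
    ext f
    constructor
    · rintro ⟨_, ⟨a, rfl⟩, rfl⟩
      exact ⟨σ a, (hσπ a).symm⟩
    · rintro ⟨a, rfl⟩
      refine ⟨_, ⟨σ.symm a, rfl⟩, ?_⟩
      refine (hσπ _).trans ?_
      rw [AlgEquiv.apply_symm_apply]
      rfl
  have e1 : π'.range ≃ₐ[k] π.range := by
    rw [← h3]
    exact Subalgebra.equivMapOfInjective _ σ.toAlgHom σ.injective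
  obtain ⟨ε, hε, h⟩ := rk2_of_rankX σ π hπ hR
  obtain ⟨m, ⟨e⟩⟩ := cubicX π' hidem ε hε (hdeg' ε) h
  exact ⟨m, ⟨e1.symm.trans e⟩⟩

end Rfa
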