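import Pool.Agent.Lib.Rfa.RankOne

/-!
Retractions of free algebras of rank two, and retractions which preserve a flag of free factors.
-/

namespace Rfa

variable {k : Type*} [Field k]

/-- the linear part of a retraction is idempotent -/
lemma lin_idem {X : Type*} [Fintype X] [DecidableEq X] (π : F k X →ₐ[k] F k X)
    (hπ : ∀ f, π (π f) = π f) (ε : F k X →ₐ[k] k) (hε : ∀ f, ε (π f) = ε f) (j x : X) :
    lam ε x (π (FreeAlgebra.ι k j))
      = ∑ i, lam ε x (π (FreeAlgebra.ι k i)) * lam ε i (π (FreeAlgebra.ι k j)) := by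
  have h1 := (isDer_comp ε ε π hε (isDer_lam ε x)).ext
    (isDer_sum (fun i => isDer_smul (lam ε x (π (FreeAlgebra.ι k i))) (isDer_lam ε i)))
    (fun y => by simp [lam_ι]) (π (FreeAlgebra.ι k j))
  rw [hπ] at h1
  exact h1

/-- if the linear part of a retraction is the identity, then so is the retraction -/
lemma eq_id_of_lin {X : Type*} [Fintype X] [DecidableEq X] (π : F k X →ₐ[k] F k X)
    (hπ : ∀ f, π (π f) = π f) (ε : F k X →ₐ[k] k) (hε : ∀ f, ε (π f) = ε f)
    (hL : ∀ j x, lam ε x (π (FreeAlgebra.ι k j)) = if j = x then 1 else 0) (f : F k X) :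
    π f = f := by
  refine inj_of_near ε π hε (fun x => ?_) (hπ f)
  rw [mem_I_two]
  refine ⟨by rw [map_sub, hε, sub_self], fun y => ?_⟩
  rw [lam_sub, hL, lam_ι, sub_self]

/-- the image of a retraction of the free algebra of rank two is free -/
theorem two (π : F k (Fin 2) →ₐ[k] F k (Fin 2)) (hπ : ∀ f, π (π f) = π f) : FreeImg π 2 := by
  obtain ⟨ε, hε⟩ := exists_aug π hπ
  have hLL := lin_idem π hπ ε hε
  set L : Fin 2 → Fin 2 → k := fun j x => lam ε x (π (FreeAlgebra.ι k j)) with hL
  have hLL' : ∀ j x, L j x = L 0 x * L j 0 + L 1 x * L j 1 := fun j x => by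
    have := hLL j x
    rw [Fin.sum_univ_two] at this
    exact this
  have haa := hLL' 0 0
  have hbb := hLL' 0 1
  have hcc := hLL' 1 0
  have hdd := hLL' 1 1
  have hcase : L 0 0 * L 1 1 = L 0 1 * L 1 0 ∨
      (L 0 0 = 1 ∧ L 0 1 = 0 ∧ L 1 0 = 0 ∧ L 1 1 = 1) := by
    by_cases hs : L 0 0 + L 1 1 = 1
    · left
      have h1 : L 1 1 = 1 - L 0 0 := by rw [← hs]; ring
      rw [h1]
      linear_combination haa
    · have hs' : L 0 0 + L 1 1 - 1 ≠ 0 := fun h => hs (sub_eq_zero.1 h)
      have hb : L 0 1 = 0 := by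
        have : L 0 1 * (L 0 0 + L 1 1 - 1) = 0 := by linear_combination -hbb
        exact (mul_eq_zero.1 this).resolve_right hs'
      have hc : L 1 0 = 0 := by
        have : L 1 0 * (L 0 0 + L 1 1 - 1) = 0 := by linear_combination -hcc
        exact (mul_eq_zero.1 this).resolve_right hs'
      rw [hb, hc] at haa hdd
      by_cases ha : L 0 0 = 0
      · left
        rw [ha, hb]
        ring
      · by_cases hd : L 1 1 = 0
        · left
          rw [hd, hb]
          ring
        · right
          refine ⟨?_, hb, hc, ?_⟩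
          · have : L 0 0 * (L 0 0 - 1) = 0 := by linear_combination -haa
            exact sub_eq_zero.1 ((mul_eq_zero.1 this).resolve_left ha)
          · have : L 1 1 * (L 1 1 - 1) = 0 := by linear_combination -hdd
            exact sub_eq_zero.1 ((mul_eq_zero.1 this).resolve_left hd)
  rcases hcase with hdet | ⟨h00, h01, h10, h11⟩
  · -- rank at most one
    obtain ⟨ϕ, v, hv⟩ : ∃ ϕ v : Fin 2 → k, ∀ j x, L j x = ϕ j * v x := by
      by_cases ha : L 0 0 = 0
      · rw [ha, zero_mul] at hdet
        rcases mul_eq_zero.1 hdet.symm with hb | hc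
        · refine ⟨![0, 1], ![L 1 0, L 1 1], fun j x => ?_⟩
          fin_cases j <;> fin_cases x <;> simp [ha, hb]
        · refine ⟨![L 0 1, L 1 1], ![0, 1], fun j x => ?_⟩
          fin_cases j <;> fin_cases x <;> simp [ha, hc]
      · refine ⟨![1, L 1 0 / L 0 0], ![L 0 0, L 0 1], fun j x => ?_⟩
        fin_cases j <;> fin_cases x <;> simp
        · field_simp
        · field_simp
          linear_combination hdet
    exact rankOne π hπ ε hε ϕ v hv 2 (by norm_num)
  · -- the identity
    have hid := eq_id_of_lin π hπ ε hε (fun j x => by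
      show L j x = _
      fin_cases j <;> fin_cases x <;> simp [h00, h01, h10, h11])
    refine ⟨2, le_rfl, AlgHom.id k _, fun a b h => h, ?_⟩
    have : π = AlgHom.id k _ := AlgHom.ext hid
    rw [this]

/-- the subalgebra of the variables with index at most `max i 1` -/
def T (k : Type*) [Field k] (n i : ℕ) : Subalgebra k (F k (Fin n)) :=
  Algebra.adjoin k {f | ∃ j : Fin n, (j : ℕ) ≤ max i 1 ∧ f = FreeAlgebra.ι k j}

/-- the main theorem in coordinates -/
theorem flag (n : ℕ) : ∀ π : F k (Fin n) →ₐ[k] F k (Fin n), (∀ f, π (π f) = π f) →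
    (∀ i : Fin n, π (FreeAlgebra.ι k i) ∈ T k n i) → FreeImg π n := by
  induction n with
  | zero =>
    intro π hπ _
    obtain ⟨ε, hε⟩ := exists_aug π hπ
    refine freeImg_of_const π ε (fun f hf => ?_) 0
    rw [eq_const ε (f := f) (fun x => x.elim0), hf, map_zero, map_zero]
  | succ n ih =>
    intro π hπ hT
    rcases Nat.lt_or_ge n 2 with hn | hn
    · interval_cases n
      · obtain ⟨ε, hε⟩ := exists_aug π hπ
        have hsub : Subsingleton (Fin (0 + 1)) := inferInstanceAs (Subsingleton (Fin 1))
        refine rankOne π hπ ε hε (fun _ => lam ε 0 (π (FreeAlgebra.ι k 0))) (fun _ => 1)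
          (fun j x => ?_) 1 le_rfl
        obtain rfl : j = 0 := Subsingleton.elim _ _
        obtain rfl : x = 0 := Subsingleton.elim _ _
        rw [mul_one]
      · exact two π hπ
    · set κ : F k (Fin (n + 1)) →ₐ[k] F k (Fin n) :=
        sn (fun j => AlgHom.id k (F k (Fin n)) (FreeAlgebra.ι k j)) 0 with hκ
      have hκinc : ∀ g, κ (inc n g) = g := fun g => sn_inc (AlgHom.id k (F k (Fin n))) 0 g
      set π' : F k (Fin n) →ₐ[k] F k (Fin n) := (κ.comp π).comp (inc n) with hπ'
      have hTinc : ∀ i : Fin n, T k (n + 1) i ≤ (inc (k := k) n).range := by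
        intro i
        refine Algebra.adjoin_le ?_
        rintro f ⟨j, hj, rfl⟩
        have hj' : (j : ℕ) < n := by
          have := i.isLt
          have h2 : max (i : ℕ) 1 < n := by
            rw [max_lt_iff]
            omega
          omega
        exact ⟨FreeAlgebra.ι k ⟨j, hj'⟩, inc_ι n _⟩
      have hcomm : ∀ f, inc n (π' f) = π (inc n f) := by
        intro f
        refine hom_eq (φ := (inc n).comp π') (ψ := π.comp (inc n)) (fun x => ?_) f
        have h1 := hTinc x (by simpa using hT (Fin.castSucc x))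
        obtain ⟨g, hg⟩ := h1
        have hg' : inc n g = π (FreeAlgebra.ι k (Fin.castSucc x)) := hg
        simp only [hπ', AlgHom.comp_apply, inc_ι]
        rw [← hg', hκinc]
      refine step π hπ π' hcomm n (ih π' (fun f => ?_) (fun i => ?_))
      · exact inc_inj n (by rw [hcomm, hcomm, hπ])
      · have h1 : π (FreeAlgebra.ι k (Fin.castSucc i)) ∈ T k (n + 1) i := by
          simpa using hT (Fin.castSucc i)
        have h2 : T k (n + 1) i ≤ (T k n i).comap κ := by
          refine Algebra.adjoin_le ?_
          rintro f ⟨j, hj, rfl⟩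
          show κ (FreeAlgebra.ι k j) ∈ T k n i
          have hj' : (j : ℕ) < n := by
            have := i.isLt
            have h2 : max (i : ℕ) 1 < n := by
              rw [max_lt_iff]
              omega
            omega
          have h3 : κ (FreeAlgebra.ι k j) = FreeAlgebra.ι k ⟨j, hj'⟩ := by
            exact sn_castSucc (fun j => AlgHom.id k (F k (Fin n)) (FreeAlgebra.ι k j)) 0
              ⟨(j : ℕ), hj'⟩
          rw [h3]
          exact Algebra.subset_adjoin ⟨⟨j, hj'⟩, hj, rfl⟩
        have h3 := h2 h1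
        simpa [hπ'] using h3

end Rfa
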