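import Pool.Agent.Lib.Rfa.Window

/-!
Homogeneous elements of a free algebra with respect to an augmentation.
-/

namespace Rfa

variable {k : Type*} [Field k] {X : Type*} [DecidableEq X]

/-- homogeneous elements of degree `j` in the centred variables -/
def H (ε : F k X →ₐ[k] k) (j : ℕ) : Submodule k (F k X) := I ε j ⊓ Dg ε j

lemma D_mem_H (ε : F k X →ₐ[k] k) {j : ℕ} {f : F k X} (h : f ∈ H ε (j + 1)) (x : X) :
    D ε x f ∈ H ε j := ⟨h.1.2 x, h.2 x⟩

lemma ε_H (ε : F k X →ₐ[k] k) {j : ℕ} {f : F k X} (h : f ∈ H ε (j + 1)) : ε f = 0 := h.1.1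

lemma H_zero (ε : F k X →ₐ[k] k) {f : F k X} (h : f ∈ H ε 0) :
    ∃ c : k, algebraMap k (F k X) c = f := (mem_Dg_zero ε f).1 h.2

lemma const_mem_H (ε : F k X →ₐ[k] k) (c : k) : algebraMap k (F k X) c ∈ H ε 0 :=
  ⟨mem_I_zero _ _, const_mem_Dg ε c 0⟩

lemma H_mul (ε : F k X →ₐ[k] k) {i j : ℕ} {f g : F k X} (hf : f ∈ H ε i) (hg : g ∈ H ε j) :
    f * g ∈ H ε (i + j) := ⟨I_mul ε i j f hf.1 g hg.1, Dg_mul ε i j f hf.2 g hg.2⟩

lemma H_mul' (ε : F k X →ₐ[k] k) {i j l : ℕ} {f g : F k X} (hf : f ∈ H ε i) (hg : g ∈ H ε j)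
    (h : i + j = l) : f * g ∈ H ε l := h ▸ H_mul ε hf hg

lemma mem_H_succ (ε : F k X →ₐ[k] k) {j : ℕ} {f : F k X} (h0 : ε f = 0)
    (h : ∀ x, D ε x f ∈ H ε j) : f ∈ H ε (j + 1) :=
  ⟨⟨h0, fun x => (h x).1⟩, fun x => (h x).2⟩

lemma cx_mem_H (ε : F k X →ₐ[k] k) (x : X) : cx ε x ∈ H ε 1 :=
  ⟨cx_mem ε x, (cx_mem_V ε x).1⟩

/-- right independence: a relation between linearly independent elements with homogeneous right
coefficients of the same degree is trivial -/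
lemma rind (ε : F k X →ₐ[k] k) {T : Type*} [Fintype T] (a : T → F k X)
    (ha : LinearIndependent k a) (j : ℕ) : ∀ f : T → F k X, (∀ i, f i ∈ H ε j) →
    ∑ i, a i * f i = 0 → ∀ i, f i = 0 := by
  induction j with
  | zero =>
    intro f hf h
    choose c hc using fun i => H_zero ε (hf i)
    have h1 : ∑ i, c i • a i = 0 := by
      rw [← h]
      refine Finset.sum_congr rfl fun i _ => ?_
      rw [← hc i, ← Algebra.commutes, Algebra.smul_def]
    have h2 := Fintype.linearIndependent_iff.1 ha c h1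
    intro i
    rw [← hc i, h2 i, map_zero]
  | succ j ih =>
    intro f hf h i
    refine eq_zero_of_D ε (fun x => ?_) (ε_H ε (hf i))
    refine ih (fun i => D ε x (f i)) (fun i => D_mem_H ε (hf i) x) ?_ i
    have h1 := congrArg (D ε x) h
    rw [D_sum, D_zero] at h1
    rw [← h1]
    refine Finset.sum_congr rfl fun i _ => ?_
    rw [D_mul, ε_H ε (hf i), map_zero, mul_zero, add_zero]

/-- division -/
lemma divh (ε : F k X →ₐ[k] k) (d i : ℕ) : ∀ f g : F k X, f ∈ H ε i → g ∈ H ε (i + d) → f ≠ 0 →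
    ∀ a b : F k X, a * f = b * g → ∃ r ∈ H ε d, a = b * r := by
  induction i with
  | zero =>
    intro f g hf hg hf0 a b h
    obtain ⟨c, rfl⟩ := H_zero ε hf
    have hc : c ≠ 0 := fun h => hf0 (by rw [h, map_zero])
    rw [Nat.zero_add] at hg
    refine ⟨g * algebraMap k _ c⁻¹, ?_, ?_⟩
    · rw [← Algebra.commutes, ← Algebra.smul_def]
      exact Submodule.smul_mem _ _ hg
    · rw [← mul_assoc, ← h, mul_assoc, ← map_mul, mul_inv_cancel₀ hc, map_one, mul_one]
  | succ i ih =>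
    intro f g hf hg hf0 a b h
    obtain ⟨x, hx⟩ : ∃ x, D ε x f ≠ 0 := by
      by_contra hcon
      push Not at hcon
      exact hf0 (eq_zero_of_D ε hcon (ε_H ε hf))
    have hg' : g ∈ H ε (i + d + 1) := by
      have : i + 1 + d = i + d + 1 := by ring
      rwa [this] at hg
    refine ih (D ε x f) (D ε x g) (D_mem_H ε hf x) (D_mem_H ε hg' x) hx a b ?_
    have h1 := congrArg (D ε x) h
    rwa [D_mul, D_mul, ε_H ε hf, ε_H ε hg', map_zero, mul_zero, mul_zero, add_zero, add_zero]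
      at h1

lemma low (ε : F k X →ₐ[k] k) {a : ℕ} {f r : F k X} (hf : f ∈ H ε a) (hr : r ∈ I ε (a + 1))
    (h : f + r = 0) : f = 0 :=
  eq_zero_of_I_Dg ε a f hf.2 (by
    rw [eq_neg_of_add_eq_zero_left h]
    exact neg_mem hr)

lemma H_le_I (ε : F k X →ₐ[k] k) {i j : ℕ} (h : i ≤ j) {f : F k X} (hf : f ∈ H ε j) :
    f ∈ I ε i := I_anti' ε h hf.1

lemma H_le_Dg (ε : F k X →ₐ[k] k) {i j : ℕ} (h : j ≤ i) {f : F k X} (hf : f ∈ H ε j) :
    f ∈ Dg ε i := Dg_mono' ε h hf.2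

/-- an element of degree less than `n` and order at least `n` vanishes -/
lemma zero_of (ε : F k X →ₐ[k] k) {n : ℕ} {f : F k X} (h1 : f ∈ I ε (n + 1)) (h2 : f ∈ Dg ε n) :
    f = 0 := eq_zero_of_I_Dg ε n f h2 h1

/-- splitting a sum of homogeneous elements of degrees two to five -/
lemma split4 (ε : F k X →ₐ[k] k) {f2 f3 f4 f5 : F k X} (h2 : f2 ∈ H ε 2) (h3 : f3 ∈ H ε 3)
    (h4 : f4 ∈ H ε 4) (h5 : f5 ∈ H ε 5) (h : f2 + f3 + f4 + f5 = 0) :
    f2 = 0 ∧ f3 = 0 ∧ f4 = 0 ∧ f5 = 0 := by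
  have e2 : f2 = 0 := low ε h2 (r := f3 + f4 + f5)
    (add_mem (add_mem (H_le_I ε (by norm_num) h3) (H_le_I ε (by norm_num) h4))
      (H_le_I ε (by norm_num) h5)) (by rw [← h]; abel)
  rw [e2, zero_add] at h
  have e3 : f3 = 0 := low ε h3 (r := f4 + f5)
    (add_mem (H_le_I ε (by norm_num) h4) (H_le_I ε (by norm_num) h5)) (by rw [← h]; abel)
  rw [e3, zero_add] at h
  have e4 : f4 = 0 := low ε h4 (r := f5) (H_le_I ε (by norm_num) h5) h
  rw [e4, zero_add] at h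
  exact ⟨e2, e3, e4, h⟩

/-- decomposition into homogeneous components -/
lemma decomp [Fintype X] (ε : F k X →ₐ[k] k) (n : ℕ) : ∀ f ∈ Dg ε n, ∃ h : ℕ → F k X,
    (∀ j, h j ∈ H ε j) ∧ f = ∑ j ∈ Finset.range (n + 1), h j := by
  induction n with
  | zero =>
    intro f hf
    refine ⟨fun j => if j = 0 then f else 0, fun j => ?_, by simp⟩
    by_cases hj : j = 0
    · subst hj
      show (if (0 : ℕ) = 0 then f else 0) ∈ H ε 0
      rw [if_pos rfl]
      exact ⟨mem_I_zero _ _, hf⟩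
    · simp [hj]
  | succ n ih =>
    intro f hf
    choose hh hh1 hh2 using fun x => ih (D ε x f) (hf x)
    refine ⟨fun j => match j with
      | 0 => algebraMap k _ (ε f)
      | j + 1 => ∑ x, hh x j * cx ε x, fun j => ?_, ?_⟩
    · cases j with
      | zero => exact const_mem_H ε _
      | succ j => exact sum_mem fun x _ => H_mul ε (hh1 x j) (cx_mem_H ε x)
    · rw [Finset.sum_range_succ', Finset.sum_comm]
      nth_rw 1 [recon ε f]
      rw [add_comm]
      congr 1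
      refine Finset.sum_congr rfl fun x _ => ?_
      rw [← Finset.sum_mul, ← hh2 x]

/-- elements of degree at most three without constant term -/
lemma decomp3 [Fintype X] (ε : F k X →ₐ[k] k) (f : F k X) (hf : f ∈ Dg ε 3) (h0 : ε f = 0) :
    ∃ f1 ∈ H ε 1, ∃ f2 ∈ H ε 2, ∃ f3 ∈ H ε 3, f = f1 + f2 + f3 := by
  obtain ⟨h, h1, h2⟩ := decomp ε 3 f hf
  simp only [Finset.sum_range_succ, Finset.range_zero, Finset.sum_empty, zero_add] at h2
  obtain ⟨c, hc⟩ := H_zero ε (h1 0)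
  have h3 : c = 0 := by
    have := congrArg ε h2
    rw [h0, map_add, map_add, map_add, ε_H ε (h1 1), ε_H ε (h1 2), ε_H ε (h1 3), ← hc,
      AlgHom.commutes] at this
    simpa using this.symm
  rw [← hc, h3, map_zero, zero_add] at h2
  exact ⟨_, h1 1, _, h1 2, _, h1 3, h2⟩

end Rfa
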