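import Pool.Agent.Lib.Rfa.Relative

/-!
The relative theorem for an arbitrary free generating family, and the case of at most two
exceptional generators.
-/

namespace Rfa

variable {k : Type*} [Field k]

lemma adjoin_image {F' X : Type*} [Ring F'] [Algebra k F'] (g : X → F') (A : Set X) :
    Algebra.adjoin k (g '' A) = (ad k A).map (FreeAlgebra.lift k g) := by
  rw [AlgHom.map_adjoin, Set.image_image]
  congr 1
  exact Set.image_congr fun x _ => by simp

/-- with at most two exceptional generators the image of their subalgebra is free -/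
theorem base {X₀ X₁ : Type*} [Finite X₀] (hcard : Nat.card X₀ ≤ 2)
    (π : F k (X₀ ⊕ X₁) →ₐ[k] F k (X₀ ⊕ X₁)) (hπ : ∀ f, π (π f) = π f)
    (h0 : ∀ i, π (FreeAlgebra.ι k (Sum.inl i)) ∈ ad k (Set.range (Sum.inl : X₀ → X₀ ⊕ X₁))) :
    ∃ m ≤ 2, ∃ φ₀ : F k (Fin m) →ₐ[k] F k (X₀ ⊕ X₁), Function.Injective φ₀ ∧
      φ₀.range = (ad k (Set.range (Sum.inl : X₀ → X₀ ⊕ X₁))).map π := by
  classical
  set n := Nat.card X₀ with hn
  have e : X₀ ≃ Fin n := Finite.equivFin X₀
  set incl : F k (Fin n) →ₐ[k] F k (X₀ ⊕ X₁) := vmap k (fun i => Sum.inl (e.symm i)) with hincl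
  set κ : F k (X₀ ⊕ X₁) →ₐ[k] F k (Fin n) :=
    FreeAlgebra.lift k (Sum.elim (fun i => FreeAlgebra.ι k (e i)) (fun _ => 0)) with hκ
  have hκincl : ∀ f, κ (incl f) = f := fun f =>
    hom_eq (φ := κ.comp incl) (ψ := AlgHom.id k _) (fun i => by simp [hκ, hincl]) f
  have hinclinj : Function.Injective incl := fun a b h => by
    rw [← hκincl a, ← hκincl b, h]
  have hinclκ : ∀ f ∈ ad k (Set.range (Sum.inl : X₀ → X₀ ⊕ X₁)), incl (κ f) = f := by
    have : ad k (Set.range (Sum.inl : X₀ → X₀ ⊕ X₁)) ≤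
        AlgHom.equalizer (incl.comp κ) (AlgHom.id k _) := by
      refine Algebra.adjoin_le ?_
      rintro _ ⟨z, ⟨i, rfl⟩, rfl⟩
      show incl (κ _) = _
      simp [hκ, hincl]
    exact fun f hf => this hf
  have hinclad : ∀ f, incl f ∈ ad k (Set.range (Sum.inl : X₀ → X₀ ⊕ X₁)) := fun f =>
    map_mem incl _ (fun i => by rw [hincl, vmap_ι]; exact ι_mem_ad ⟨_, rfl⟩) f
  have hπad : ∀ f ∈ ad k (Set.range (Sum.inl : X₀ → X₀ ⊕ X₁)),
      π f ∈ ad k (Set.range (Sum.inl : X₀ → X₀ ⊕ X₁)) := by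
    have : ad k (Set.range (Sum.inl : X₀ → X₀ ⊕ X₁)) ≤
        (ad k (Set.range (Sum.inl : X₀ → X₀ ⊕ X₁))).comap π := by
      refine Algebra.adjoin_le ?_
      rintro _ ⟨z, ⟨i, rfl⟩, rfl⟩
      exact h0 i
    exact fun f hf => this hf
  set π₀ : F k (Fin n) →ₐ[k] F k (Fin n) := (κ.comp π).comp incl with hπ₀
  have hcomm : ∀ f, incl (π₀ f) = π (incl f) := fun f => hinclκ _ (hπad _ (hinclad f))
  obtain ⟨m, hm, φ, hφinj, hφ⟩ := flag n π₀ (fun f => hinclinj (by rw [hcomm, hcomm, hπ]))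
    (fun i => by
      have : T k n i = ⊤ := by
        rw [T, ← FreeAlgebra.adjoin_range_ι]
        congr 1
        ext f
        constructor
        · rintro ⟨j, _, rfl⟩
          exact ⟨j, rfl⟩
        · rintro ⟨j, rfl⟩
          exact ⟨j, by omega, rfl⟩
      rw [this]
      exact Algebra.mem_top)
  refine ⟨m, hm.trans hcard, incl.comp φ, hinclinj.comp hφinj, ?_⟩
  apply le_antisymm
  · rintro _ ⟨f, rfl⟩
    have h1 : φ f ∈ π₀.range := by rw [← hφ]; exact ⟨f, rfl⟩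
    obtain ⟨a, ha⟩ := h1
    have ha' : π₀ a = φ f := ha
    refine ⟨incl a, hinclad a, ?_⟩
    show π (incl a) = incl (φ f)
    rw [← hcomm, ha']
  · rintro _ ⟨f, hf, rfl⟩
    have h1 : π₀ (κ f) ∈ φ.range := by rw [hφ]; exact ⟨_, rfl⟩
    obtain ⟨a, ha⟩ := h1
    have ha' : φ a = π₀ (κ f) := ha
    refine ⟨a, ?_⟩
    show incl (φ a) = π f
    rw [ha', hcomm, hinclκ f hf]

section Transport

variable {F' : Type*} [Ring F'] [Algebra k F'] {X₀ X₁ : Type*} (g : X₀ ⊕ X₁ → F')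
  (hg1 : Function.Injective (FreeAlgebra.lift k g)) (hg2 : (FreeAlgebra.lift k g).range = ⊤)

/-- the isomorphism given by a free generating family -/
noncomputable def gEquiv : F k (X₀ ⊕ X₁) ≃ₐ[k] F' :=
  AlgEquiv.ofBijective (FreeAlgebra.lift k g) ⟨hg1, (AlgHom.range_eq_top _).1 hg2⟩

lemma gEquiv_ι (z : X₀ ⊕ X₁) : gEquiv g hg1 hg2 (FreeAlgebra.ι k z) = g z := by
  show FreeAlgebra.lift k g (FreeAlgebra.ι k z) = g z
  simp

/-- the transported endomorphism -/
noncomputable def tr (π : F' →ₐ[k] F') : F k (X₀ ⊕ X₁) →ₐ[k] F k (X₀ ⊕ X₁) :=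
  ((gEquiv g hg1 hg2).symm.toAlgHom.comp π).comp (gEquiv g hg1 hg2).toAlgHom

lemma σ_tr (π : F' →ₐ[k] F') (f : F k (X₀ ⊕ X₁)) :
    gEquiv g hg1 hg2 (tr g hg1 hg2 π f) = π (gEquiv g hg1 hg2 f) :=
  (gEquiv g hg1 hg2).apply_symm_apply _

include hg1 in
lemma mem_ad_of (A : Set (X₀ ⊕ X₁)) (f : F k (X₀ ⊕ X₁))
    (hf : FreeAlgebra.lift k g f ∈ Algebra.adjoin k (g '' A)) : f ∈ ad k A := by
  rw [adjoin_image] at hf
  obtain ⟨a, ha, ha'⟩ := hf
  have : a = f := hg1 ha'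
  rw [← this]
  exact ha

lemma map_tr (π : F' →ₐ[k] F') (A : Set (X₀ ⊕ X₁)) :
    ((ad k A).map (tr g hg1 hg2 π)).map (gEquiv g hg1 hg2).toAlgHom
      = (Algebra.adjoin k (g '' A)).map π := by
  rw [adjoin_image, Subalgebra.map_map, Subalgebra.map_map]
  congr 1
  exact AlgHom.ext fun f => σ_tr g hg1 hg2 π f

lemma range_tr (π : F' →ₐ[k] F') :
    (tr g hg1 hg2 π).range.map (gEquiv g hg1 hg2).toAlgHom = π.range := by
  ext f
  constructor
  · rintro ⟨_, ⟨a, rfl⟩, rfl⟩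
    exact ⟨gEquiv g hg1 hg2 a, (σ_tr g hg1 hg2 π a).symm⟩
  · rintro ⟨a, rfl⟩
    refine ⟨_, ⟨(gEquiv g hg1 hg2).symm a, rfl⟩, ?_⟩
    refine (σ_tr g hg1 hg2 π _).trans ?_
    rw [AlgEquiv.apply_symm_apply]
    rfl

include hg1 hg2 in
/-- the relative theorem for a free generating family -/
theorem relativeF [LinearOrder X₁] [WellFoundedLT X₁]
    (π : F' →ₐ[k] F') (hπ : ∀ f, π (π f) = π f)
    (h₀ : ∀ i, π (g (Sum.inl i)) ∈ Algebra.adjoin k (g '' Set.range Sum.inl))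
    (h₁ : ∀ x, π (g (Sum.inr x)) ∈
      Algebra.adjoin k (g '' (Set.range Sum.inl ∪ Sum.inr '' Set.Iic x)))
    {B : Type*} (b : B → F') (hb1 : Function.Injective (FreeAlgebra.lift k b))
    (hb2 : (FreeAlgebra.lift k b).range = (Algebra.adjoin k (g '' Set.range Sum.inl)).map π) :
    ∃ Y : Set X₁,
      Function.Injective (FreeAlgebra.lift k (Sum.elim b (fun y : Y => π (g (Sum.inr (y : X₁))))))
      ∧ (FreeAlgebra.lift k (Sum.elim b (fun y : Y => π (g (Sum.inr (y : X₁)))))).range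
        = π.range := by
  set σ := gEquiv g hg1 hg2 with hσ
  set π' := tr g hg1 hg2 π with hπ'
  have hσπ : ∀ f, σ (π' f) = π (σ f) := σ_tr g hg1 hg2 π
  obtain ⟨Y, φ, h1, h2, h3, h4⟩ := relative π' (fun f => σ.injective (by rw [hσπ, hσπ, hπ]))
    (fun i => mem_ad_of g hg1 _ _ (by
      have : FreeAlgebra.lift k g (π' (FreeAlgebra.ι k (Sum.inl i))) = π (g (Sum.inl i)) :=
        (hσπ _).trans (by rw [hσ, gEquiv_ι])
      rw [this]
      exact h₀ i))
    (fun x => mem_ad_of g hg1 _ _ (by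
      have : FreeAlgebra.lift k g (π' (FreeAlgebra.ι k (Sum.inr x))) = π (g (Sum.inr x)) :=
        (hσπ _).trans (by rw [hσ, gEquiv_ι])
      rw [this]
      exact h₁ x))
    (σ.symm.toAlgHom.comp (FreeAlgebra.lift k b)) (σ.symm.injective.comp hb1) (by
      have h5 := map_tr g hg1 hg2 π (Set.range Sum.inl)
      rw [← hb2] at h5
      ext f
      constructor
      · rintro ⟨a, rfl⟩
        have h6 : FreeAlgebra.lift k b a ∈ (FreeAlgebra.lift k b).range := ⟨a, rfl⟩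
        rw [← h5] at h6
        obtain ⟨c, hc, hc'⟩ := h6
        have h7 : σ.symm (FreeAlgebra.lift k b a) = c := by
          rw [← hc']
          exact σ.symm_apply_apply c
        show σ.symm (FreeAlgebra.lift k b a) ∈ _
        rw [h7]
        exact hc
      · intro hf
        have h6 : σ f ∈ (FreeAlgebra.lift k b).range := by
          rw [← h5]
          exact ⟨f, hf, rfl⟩
        obtain ⟨a, ha⟩ := h6
        refine ⟨a, ?_⟩
        show σ.symm (FreeAlgebra.lift k b a) = f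
        have ha' : FreeAlgebra.lift k b a = σ f := ha
        rw [ha', σ.symm_apply_apply])
  have h5 : FreeAlgebra.lift k (Sum.elim b (fun y : Y => π (g (Sum.inr (y : X₁)))))
      = σ.toAlgHom.comp φ := by
    apply FreeAlgebra.hom_ext
    funext z
    rcases z with b' | y
    · simp only [Function.comp_apply, FreeAlgebra.lift_ι_apply, Sum.elim_inl]
      show b b' = σ (φ (FreeAlgebra.ι k (Sum.inl b')))
      rw [h3]
      show b b' = σ (σ.symm (FreeAlgebra.lift k b (FreeAlgebra.ι k b')))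
      rw [σ.apply_symm_apply, FreeAlgebra.lift_ι_apply]
    · simp only [Function.comp_apply, FreeAlgebra.lift_ι_apply, Sum.elim_inr]
      show π (g (Sum.inr (y : X₁))) = σ (φ (FreeAlgebra.ι k (Sum.inr y)))
      rw [h4, hσπ, hσ, gEquiv_ι]
  refine ⟨Y, ?_, ?_⟩
  · rw [h5]
    exact σ.injective.comp h1
  · rw [h5, AlgHom.range_comp, h2]
    exact range_tr g hg1 hg2 π

include hg1 hg2 in
/-- the case of at most two exceptional generators -/
theorem baseF [Finite X₀] (hcard : Nat.card X₀ ≤ 2) (π : F' →ₐ[k] F') (hπ : ∀ f, π (π f) = π f)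
    (h₀ : ∀ i, π (g (Sum.inl i)) ∈ Algebra.adjoin k (g '' Set.range Sum.inl)) :
    ∃ m ≤ 2, ∃ b : Fin m → F', Function.Injective (FreeAlgebra.lift k b) ∧
      (FreeAlgebra.lift k b).range = (Algebra.adjoin k (g '' Set.range Sum.inl)).map π := by
  set σ := gEquiv g hg1 hg2 with hσ
  set π' := tr g hg1 hg2 π with hπ'
  have hσπ : ∀ f, σ (π' f) = π (σ f) := σ_tr g hg1 hg2 π
  obtain ⟨m, hm, φ₀, h1, h2⟩ := base hcard π' (fun f => σ.injective (by rw [hσπ, hσπ, hπ]))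
    (fun i => mem_ad_of g hg1 _ _ (by
      have : FreeAlgebra.lift k g (π' (FreeAlgebra.ι k (Sum.inl i))) = π (g (Sum.inl i)) :=
        (hσπ _).trans (by rw [hσ, gEquiv_ι])
      rw [this]
      exact h₀ i))
  have h5 : FreeAlgebra.lift k (fun i => σ (φ₀ (FreeAlgebra.ι k i))) = σ.toAlgHom.comp φ₀ := by
    apply FreeAlgebra.hom_ext
    funext z
    simp only [Function.comp_apply, FreeAlgebra.lift_ι_apply]
    rfl
  refine ⟨m, hm, fun i => σ (φ₀ (FreeAlgebra.ι k i)), ?_, ?_⟩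
  · rw [h5]
    exact σ.injective.comp h1
  · rw [h5, AlgHom.range_comp, h2]
    exact map_tr g hg1 hg2 π _

end Transport

end Rfa
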