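import Pool.Agent.Lib.Rfa.Step

/-!
A retraction of a free algebra of finite rank whose linear part has rank at most one has a free
image: the image embeds into the polynomial ring in one variable, and by the Euclidean algorithm
with respect to degree it is generated by one element.
-/

namespace Rfa

variable {k : Type*} [Field k] {X : Type*} [Fintype X] [DecidableEq X]

/-- division with respect to degree -/
lemma division (ε : F k X →ₐ[k] k) (p : ℕ) : ∀ u v : F k X, u ∈ Dg ε p → (p = 0 → u ≠ 0) →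
    (∀ q, p = q + 1 → u ∉ Dg ε q) → ∀ (n : ℕ) (a b : F k X), a ∈ Dg ε (n + 1) →
    b ∈ Dg ε (n + 1) → a * u - b * v ∈ Dg ε (n + p) → ∃ c, a - b * c ∈ Dg ε n := by
  induction p with
  | zero =>
    intro u v hu h0 _ n a b ha hb h
    obtain ⟨c0, rfl⟩ := (mem_Dg_zero ε u).1 hu
    have hc0 : c0 ≠ 0 := fun h => h0 rfl (by rw [h, map_zero])
    refine ⟨v * algebraMap k _ c0⁻¹, ?_⟩
    have h1 := smul_mem_Dg ε h c0⁻¹
    have h2 : (a * algebraMap k (F k X) c0 - b * v) * algebraMap k (F k X) c0⁻¹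
        = a - b * (v * algebraMap k (F k X) c0⁻¹) := by
      rw [sub_mul, mul_assoc, ← map_mul, mul_inv_cancel₀ hc0, map_one, mul_one, mul_assoc]
    rw [← h2]
    exact h1
  | succ p ih =>
    intro u v hu _ h1 n a b ha hb h
    have hu' := h1 p rfl
    obtain ⟨x, hx0, hx1⟩ : ∃ x, (p = 0 → D ε x u ≠ 0) ∧
        (∀ q, p = q + 1 → D ε x u ∉ Dg ε q) := by
      cases p with
      | zero =>
        by_contra hcon
        apply hu'
        have h2 : ∀ x, D ε x u = 0 := by
          intro x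
          by_contra hne
          exact hcon ⟨x, fun _ => hne, fun q hq => by omega⟩
        exact (mem_Dg_zero ε u).2 ⟨_, (eq_const ε h2).symm⟩
      | succ q =>
        by_contra hcon
        apply hu'
        intro x
        by_contra hne
        exact hcon ⟨x, by omega, fun q' hq' => by
          obtain rfl : q = q' := by omega
          exact hne⟩
    refine ih (D ε x u) (D ε x v) (hu x) hx0 hx1 n a b ha hb ?_
    have h2 := (mem_Dg_succ ε (n + p) _).1 h x
    rw [D_sub, D_mul, D_mul] at h2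
    have h3 : a * D ε x u - b * D ε x v = (a * D ε x u + D ε x a * algebraMap k (F k X) (ε u)
        - (b * D ε x v + D ε x b * algebraMap k (F k X) (ε v)))
        - (D ε x a * algebraMap k (F k X) (ε u) - D ε x b * algebraMap k (F k X) (ε v)) := by
      abel
    rw [h3]
    refine sub_mem h2 (sub_mem ?_ ?_)
    · exact smul_mem_Dg ε (Dg_mono' ε (Nat.le_add_right n p) (ha x)) _
    · exact smul_mem_Dg ε (Dg_mono' ε (Nat.le_add_right n p) (hb x)) _

/-- the right ideal generated by `a` and `b` is principal -/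
def GcdOK (a b : F k X) : Prop := ∃ d a' b' g h, a = d * a' ∧ b = d * b' ∧ d = a * g + b * h

omit [Fintype X] [DecidableEq X] in
lemma GcdOK.symm {a b : F k X} (h : GcdOK a b) : GcdOK b a := by
  obtain ⟨d, a', b', g, h, e1, e2, e3⟩ := h
  exact ⟨d, b', a', h, g, e2, e1, by rw [add_comm]; exact e3⟩

omit [Fintype X] [DecidableEq X] in
lemma gcdOK_const (c : k) (b : F k X) : GcdOK (algebraMap k _ c) b := by
  by_cases hc : c = 0
  · exact ⟨b, 0, 1, 0, 1, by simp [hc], by simp, by simp⟩
  · refine ⟨algebraMap k _ c, 1, algebraMap k _ c⁻¹ * b, 1, 0, by simp, ?_, by simp⟩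
    rw [← mul_assoc, ← map_mul, mul_inv_cancel₀ hc, map_one, one_mul]

lemma euclid_half (ε : F k X →ₐ[k] k) (N : ℕ)
    (IH : ∀ (p q : ℕ) (a b u v : F k X), p + q ≤ N → a ∈ Dg ε p → b ∈ Dg ε q → u ≠ 0 → v ≠ 0 →
      a * u = b * v → GcdOK a b)
    (p q : ℕ) (a b u v : F k X) (hpq : p + q ≤ N + 1) (hqp : q ≤ p) (ha : a ∈ Dg ε p)
    (hb : b ∈ Dg ε q) (hu : u ≠ 0) (h : a * u = b * v) : GcdOK a b := by
  cases p with
  | zero =>
    obtain ⟨c, rfl⟩ := (mem_Dg_zero ε a).1 ha
    exact gcdOK_const c b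
  | succ p =>
    obtain ⟨r, hr, hrmin⟩ : ∃ r, u ∈ Dg ε r ∧ ∀ q, r = q + 1 → u ∉ Dg ε q := by
      classical
      have hex := exists_Dg ε u
      exact ⟨Nat.find hex, Nat.find_spec hex, fun q hq => Nat.find_min hex (by omega)⟩
    obtain ⟨c, hc⟩ := division ε r u v hr (fun _ => hu) hrmin p a b ha (Dg_mono' ε hqp hb)
      (by rw [h, sub_self]; exact zero_mem _)
    by_cases hv2 : v - c * u = 0
    · have h1 : (a - b * c) * u = 0 := by
        rw [sub_mul, h, mul_assoc, ← mul_sub, hv2, mul_zero]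
      have h2 : a = b * c := sub_eq_zero.1 ((mul_eq_zero.1 h1).resolve_right hu)
      exact ⟨b, c, 1, 0, 1, h2, (mul_one _).symm, by simp⟩
    · obtain ⟨d, a', b', g, hh, e1, e2, e3⟩ := IH p q (a - b * c) b u (v - c * u) (by omega) hc hb
        hu hv2 (by rw [sub_mul, h, mul_sub, mul_assoc])
      refine ⟨d, a' + b' * c, b', g, hh - c * g, ?_, e2, ?_⟩
      · rw [mul_add, ← e1, ← mul_assoc, ← e2]
        abel
      · calc d = (a - b * c) * g + b * hh := e3
          _ = a * g + b * (hh - c * g) := by noncomm_ring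

lemma euclid (ε : F k X →ₐ[k] k) (N : ℕ) : ∀ (p q : ℕ) (a b u v : F k X), p + q ≤ N →
    a ∈ Dg ε p → b ∈ Dg ε q → u ≠ 0 → v ≠ 0 → a * u = b * v → GcdOK a b := by
  induction N with
  | zero =>
    intro p q a b u v hpq ha hb hu hv h
    obtain rfl : p = 0 := by omega
    obtain ⟨c, rfl⟩ := (mem_Dg_zero ε a).1 ha
    exact gcdOK_const c b
  | succ N ih =>
    intro p q a b u v hpq ha hb hu hv h
    rcases le_total q p with hqp | hqp
    · exact euclid_half ε N ih p q a b u v hpq hqp ha hb hu h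
    · exact (euclid_half ε N ih q p b a v u (by omega) hqp hb ha hv h.symm).symm

/-- the free algebra of rank zero -/
lemma freeImg_of_const (π : F k X →ₐ[k] F k X) (ε : F k X →ₐ[k] k)
    (h : ∀ f, ε f = 0 → π f = 0) (N : ℕ) : FreeImg π N := by
  have h0 : ∀ f, π f = algebraMap k _ (ε f) := fun f => by
    have := h (f - algebraMap k _ (ε f)) (by simp)
    rw [map_sub, AlgHom.commutes, sub_eq_zero] at this
    exact this
  have hg : ∀ (η : F k (Fin 0) →ₐ[k] k) (g : F k (Fin 0)), g = algebraMap k _ (η g) := fun η g =>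
    eq_const η (fun x => x.elim0)
  set φ : F k (Fin 0) →ₐ[k] F k X := FreeAlgebra.lift k (fun x : Fin 0 => x.elim0) with hφ
  set η : F k (Fin 0) →ₐ[k] k := FreeAlgebra.lift k (fun x : Fin 0 => x.elim0) with hη
  refine ⟨0, Nat.zero_le _, φ, ?_, ?_⟩
  · rw [injective_iff_map_eq_zero]
    intro g hgz
    rw [hg η g, AlgHom.commutes] at hgz
    have h1 := congrArg ε hgz
    rw [AlgHom.commutes, map_zero] at h1
    have h2 : η g = 0 := by simpa using h1
    rw [hg η g, h2, map_zero]
  · apply le_antisymm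
    · rintro _ ⟨g, rfl⟩
      refine ⟨algebraMap k _ (η g), ?_⟩
      show π (algebraMap k _ (η g)) = φ g
      rw [AlgHom.commutes]
      conv_rhs => rw [hg η g]
      rw [AlgHom.commutes]
    · rintro _ ⟨f, rfl⟩
      refine ⟨algebraMap k _ (ε f), ?_⟩
      show φ (algebraMap k _ (ε f)) = π f
      rw [AlgHom.commutes, h0]

/-- if the linear part of the retraction has rank at most one, then its image is free -/
theorem rankOne (π : F k X →ₐ[k] F k X) (hπ : ∀ f, π (π f) = π f) (ε : F k X →ₐ[k] k)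
    (hε : ∀ f, ε (π f) = ε f) (ϕ v : X → k)
    (hL : ∀ j x, lam ε x (π (FreeAlgebra.ι k j)) = ϕ j * v x) (N : ℕ) (hN : 1 ≤ N) :
    FreeImg π N := by
  set ρ : F k X →ₐ[k] Polynomial k := FreeAlgebra.lift k
    (fun j => Polynomial.C (ε (FreeAlgebra.ι k j)) + Polynomial.C (ϕ j) * Polynomial.X) with hρdef
  set V : F k X := ∑ x, algebraMap k (F k X) (v x) * cx ε x with hV
  have hεV : ε V = 0 := by simp [hV, ε_cx]
  set e : F k X →ₐ[k] F k X := (Polynomial.aeval V).comp ρ with he
  have heι : ∀ j, e (FreeAlgebra.ι k j) = algebraMap k _ (ε (FreeAlgebra.ι k j))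
      + algebraMap k _ (ϕ j) * V := fun j => by simp [he, hρdef]
  have hεe : ∀ f, ε (e f) = ε f := fun f => hom_eq (φ := ε.comp e) (ψ := ε) (fun j => by
    rw [AlgHom.comp_apply, heι]; simp [hεV]) f
  have hnear : ∀ j, π (FreeAlgebra.ι k j) - e (FreeAlgebra.ι k j) ∈ I ε (1 + 1) := by
    intro j
    have h1 := lin_mem ε (π (FreeAlgebra.ι k j))
    have h2 : ∑ x, algebraMap k (F k X) (lam ε x (π (FreeAlgebra.ι k j))) * cx ε x
        = algebraMap k _ (ϕ j) * V := by
      rw [hV, Finset.mul_sum]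
      refine Finset.sum_congr rfl fun x _ => ?_
      rw [hL, map_mul, mul_assoc]
    rw [h2, hε] at h1
    rw [heι]
    exact h1
  have hρ : ∀ f, ρ (π f) = 0 → π f = 0 := by
    intro f hf
    refine eq_zero_of_I ε fun m => ?_
    induction m with
    | zero => exact mem_I_zero _ _
    | succ m ih =>
      have h1 := sub_mem_I ε ε π e hε hεe 1 hnear m (π f) ih
      have h2 : e (π f) = 0 := by rw [he, AlgHom.comp_apply, hf, map_zero]
      rwa [h2, hπ, sub_zero] at h1
  have hcomm : ∀ f g, π f * π g = π g * π f := by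
    intro f g
    have h1 : π (f * g - g * f) = 0 := hρ _ (by
      rw [map_sub π, map_mul π, map_mul π, map_sub ρ, map_mul ρ, map_mul ρ, mul_comm, sub_self])
    rw [map_sub, map_mul, map_mul, sub_eq_zero] at h1
    exact h1
  by_cases hm : ∀ f, ε f = 0 → π f = 0
  · exact freeImg_of_const π ε hm N
  have hP : ∃ n, ∃ f, ε f = 0 ∧ π f ≠ 0 ∧ (ρ (π f)).natDegree = n := by
    by_contra hcon
    apply hm
    intro f hf
    by_contra hne
    exact hcon ⟨_, f, hf, hne, rfl⟩
  obtain ⟨f0, hf0, hf1, hmin⟩ : ∃ f0, ε f0 = 0 ∧ π f0 ≠ 0 ∧ ∀ f, ε f = 0 → π f ≠ 0 →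
      (ρ (π f0)).natDegree ≤ (ρ (π f)).natDegree := by
    classical
    obtain ⟨f0, h1, h2, h3⟩ := Nat.find_spec hP
    exact ⟨f0, h1, h2, fun f h4 h5 => by rw [h3]; exact Nat.find_min' hP ⟨f, h4, h5, rfl⟩⟩
  set w := π f0 with hw
  have hπw : π w = w := hπ _
  have hεw : ε w = 0 := by rw [hw, hε, hf0]
  have hconst : ∀ f, (ρ (π f)).natDegree = 0 → π f = algebraMap k _ (ε f) := by
    intro f hf
    obtain ⟨c, hc⟩ := Polynomial.natDegree_eq_zero.1 hf
    have h1 : π (f - algebraMap k _ c) = 0 := hρ _ (by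
      rw [map_sub π, AlgHom.commutes, map_sub ρ, ← hc, AlgHom.commutes]
      exact sub_self _)
    rw [map_sub, AlgHom.commutes, sub_eq_zero] at h1
    have h2 : ε f = c := by rw [← hε, h1, AlgHom.commutes]; rfl
    rw [h1, h2]
  have hρne : ∀ f, π f ≠ 0 → ρ (π f) ≠ 0 := fun f h1 h2 => h1 (hρ f h2)
  have hdeg : 1 ≤ (ρ w).natDegree := by
    by_contra hcon
    have h1 : (ρ (π f0)).natDegree = 0 := by rw [← hw]; omega
    have h2 := hconst f0 h1
    rw [hf0, map_zero] at h2
    exact hf1 h2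
  have hdiv : ∀ r, ε r = 0 → ∃ s, π r = w * π s := by
    intro r hr
    by_cases hr0 : π r = 0
    · exact ⟨0, by rw [hr0, map_zero, mul_zero]⟩
    obtain ⟨p, hp⟩ := exists_Dg ε w
    obtain ⟨q, hq⟩ := exists_Dg ε (π r)
    obtain ⟨d, a', b', g, h, e1, e2, e3⟩ := euclid ε (p + q) p q w (π r) (π r) w le_rfl hp hq hr0
      hf1 (hcomm f0 r)
    have h1 : w = π d * π a' := by rw [← map_mul, ← e1, hπw]
    have h2 : π r = π d * π b' := by rw [← map_mul, ← e2, hπ]
    have h3 : ε d = 0 := by rw [e3, map_add, map_mul, map_mul, hεw, hε, hr]; ring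
    have h4 : π d ≠ 0 := fun h => hf1 (by rw [h1, h, zero_mul])
    have h5 : π a' ≠ 0 := fun h => hf1 (by rw [h1, h, mul_zero])
    have h6 := hmin d h3 h4
    have h7 : (ρ w).natDegree = (ρ (π d)).natDegree + (ρ (π a')).natDegree := by
      rw [← Polynomial.natDegree_mul (hρne d h4) (hρne a' h5), ← map_mul ρ, ← h1]
    have h8 := hconst a' (by omega)
    have h9 : ε a' ≠ 0 := fun h => h5 (by rw [h8, h, map_zero])
    refine ⟨algebraMap k _ (ε a')⁻¹ * b', ?_⟩
    rw [map_mul, AlgHom.commutes, ← mul_assoc, h2]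
    congr 1
    rw [h1, h8, mul_assoc, ← map_mul, mul_inv_cancel₀ h9, map_one, mul_one]
  set φ : F k (Fin 1) →ₐ[k] F k X := FreeAlgebra.lift k (fun _ => w) with hφ
  have hφι : ∀ i, φ (FreeAlgebra.ι k i) = w := fun i => by simp [hφ]
  have hrange : ∀ n : ℕ, ∀ r, (ρ (π r)).natDegree ≤ n → π r ∈ φ.range := by
    intro n
    induction n with
    | zero =>
      intro r hr
      rw [hconst r (by omega)]
      exact φ.range.algebraMap_mem _
    | succ n ih =>
      intro r hr
      obtain ⟨s, hs⟩ := hdiv (r - algebraMap k _ (ε r)) (by simp)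
      have h1 : π r = algebraMap k _ (ε r) + w * π s := by
        rw [← hs, map_sub, AlgHom.commutes]
        abel
      have hwm : w ∈ φ.range := ⟨FreeAlgebra.ι k 0, hφι 0⟩
      by_cases hs0 : π s = 0
      · rw [h1, hs0, mul_zero, add_zero]
        exact φ.range.algebraMap_mem _
      · have h2 : (ρ (π r)).natDegree = (ρ w).natDegree + (ρ (π s)).natDegree := by
          rw [← Polynomial.natDegree_mul (hρne f0 hf1) (hρne s hs0), ← map_mul ρ, ← hs, map_sub π,
            AlgHom.commutes, map_sub ρ, AlgHom.commutes]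
          exact (Polynomial.natDegree_sub_C).symm
        rw [h1]
        exact φ.range.add_mem (φ.range.algebraMap_mem _)
          (φ.range.mul_mem hwm (ih s (by omega)))
  refine ⟨1, hN, φ, ?_, ?_⟩
  · have hεG : (ε.comp φ) (FreeAlgebra.ι k 0) = 0 := by rw [AlgHom.comp_apply, hφι, hεw]
    have hcx : φ (cx (ε.comp φ) 0) = w := by
      rw [cx, hεG, map_zero, sub_zero, hφι]
    have hker : ∀ m : ℕ, ∀ f, φ f = 0 → f ∈ I (ε.comp φ) m := by
      intro m
      induction m with
      | zero => exact fun f _ => mem_I_zero _ _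
      | succ m ih =>
        intro f hf
        have h1 : (ε.comp φ) f = 0 := by rw [AlgHom.comp_apply, hf, map_zero]
        refine ⟨h1, fun x => ?_⟩
        obtain rfl : x = 0 := Subsingleton.elim _ _
        refine ih _ ?_
        have h2 := congrArg φ (recon (ε.comp φ) f)
        rw [Fin.sum_univ_one, h1, map_zero, zero_add, map_mul, hcx, hf] at h2
        exact (mul_eq_zero.1 h2.symm).resolve_right hf1
    rw [injective_iff_map_eq_zero]
    exact fun f hf => eq_zero_of_I _ fun m => hker m f hf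
  · apply le_antisymm
    · rintro _ ⟨f, rfl⟩
      refine map_mem φ π.range (fun i => ?_) f
      rw [hφι]
      exact ⟨f0, rfl⟩
    · rintro _ ⟨f, rfl⟩
      exact hrange _ f le_rfl

end Rfa
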