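import Pool.Agent.Lib.Rfa.Tri

/-!
The relative theorem: a retraction of a free algebra which preserves a free factor and is triangular
with respect to a well-ordering of the remaining variables.
-/

namespace Rfa

variable {k : Type*} [Field k]

/-- the subalgebra generated by a set of variables -/
noncomputable abbrev ad (k : Type*) [Field k] {X : Type*} (A : Set X) : Subalgebra k (F k X) :=
  Algebra.adjoin k (FreeAlgebra.ι k '' A)

lemma ad_mono {X : Type*} {A B : Set X} (h : A ⊆ B) : ad k A ≤ ad k B :=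
  Algebra.adjoin_mono (Set.image_mono h)

lemma ι_mem_ad {X : Type*} {A : Set X} {a : X} (ha : a ∈ A) : FreeAlgebra.ι k a ∈ ad k A :=
  Algebra.subset_adjoin ⟨a, ha, rfl⟩

/-- the homomorphism of free algebras induced by a map of variables -/
noncomputable def vmap (k : Type*) [Field k] {B Z : Type*} (e : B → Z) : F k B →ₐ[k] F k Z :=
  FreeAlgebra.lift k (fun b => FreeAlgebra.ι k (e b))

@[simp] lemma vmap_ι {B Z : Type*} (e : B → Z) (b : B) :
    vmap k e (FreeAlgebra.ι k b) = FreeAlgebra.ι k (e b) := by simp [vmap]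

lemma vmap_mem {B Z : Type*} (e : B → Z) (g : F k B) : vmap k e g ∈ ad k (Set.range e) :=
  map_mem (vmap k e) _ (fun x => by rw [vmap_ι]; exact ι_mem_ad ⟨x, rfl⟩) g

/-- the relative theorem -/
theorem relative {X₀ X₁ : Type*} [LinearOrder X₁] [WellFoundedLT X₁]
    (π : F k (X₀ ⊕ X₁) →ₐ[k] F k (X₀ ⊕ X₁)) (hπ : ∀ f, π (π f) = π f)
    (h0 : ∀ i, π (FreeAlgebra.ι k (Sum.inl i)) ∈ ad k (Set.range (Sum.inl : X₀ → X₀ ⊕ X₁)))
    (h1 : ∀ x, π (FreeAlgebra.ι k (Sum.inr x)) ∈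
      ad k (Set.range (Sum.inl : X₀ → X₀ ⊕ X₁) ∪ Sum.inr '' Set.Iic x))
    {B : Type*} (φ₀ : F k B →ₐ[k] F k (X₀ ⊕ X₁)) (hinj : Function.Injective φ₀)
    (hrange : φ₀.range = (ad k (Set.range (Sum.inl : X₀ → X₀ ⊕ X₁))).map π) :
    ∃ (Y : Set X₁) (φ : F k (B ⊕ Y) →ₐ[k] F k (X₀ ⊕ X₁)), Function.Injective φ ∧
      φ.range = π.range ∧ (∀ b, φ (FreeAlgebra.ι k (Sum.inl b)) = φ₀ (FreeAlgebra.ι k b)) ∧
      ∀ y : Y, φ (FreeAlgebra.ι k (Sum.inr y)) = π (FreeAlgebra.ι k (Sum.inr y.1)) := by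
  classical
  obtain ⟨ε, hε⟩ := exists_aug π hπ
  set Y : Set X₁ := {x | lam ε (Sum.inr x) (π (FreeAlgebra.ι k (Sum.inr x))) ≠ 0} with hY
  -- the filtration of the big algebra
  set A : X₁ → Set (X₀ ⊕ X₁) := fun x => Set.range Sum.inl ∪ Sum.inr '' Set.Iic x with hA
  set A' : X₁ → Set (X₀ ⊕ X₁) := fun x => Set.range Sum.inl ∪ Sum.inr '' Set.Iio x with hA'
  have hAA' : ∀ x y, y < x → A y ⊆ A' x := by
    rintro x y hxy z (hz | ⟨w, hw, rfl⟩)
    · exact Or.inl hz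
    · exact Or.inr ⟨w, lt_of_le_of_lt hw hxy, rfl⟩
  have hx' : ∀ x, Sum.inr x ∉ A' x := by
    rintro x (⟨i, hi⟩ | ⟨w, hw, hwx⟩)
    · exact absurd hi (by simp)
    · obtain rfl : w = x := Sum.inr_injective hwx
      exact lt_irrefl _ hw
  have h0A : ∀ x, ad k (Set.range (Sum.inl : X₀ → X₀ ⊕ X₁)) ≤ ad k (A' x) := fun x =>
    ad_mono (fun z hz => Or.inl hz)
  have hc : ∀ x, x ∈ Y → lam ε (Sum.inr x) (π (FreeAlgebra.ι k (Sum.inr x))) = 1 := by
    intro x hx
    set c := lam ε (Sum.inr x) (π (FreeAlgebra.ι k (Sum.inr x))) with hcdef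
    have hder : ∀ f ∈ ad k (A x), lam ε (Sum.inr x) (π f) = c * lam ε (Sum.inr x) f := by
      intro f hf
      refine (isDer_comp ε ε π hε (isDer_lam ε (Sum.inr x))).eqOn
        (isDer_smul c (isDer_lam ε (Sum.inr x))) ?_ hf
      rintro _ ⟨z, (⟨i, rfl⟩ | ⟨y, hy, rfl⟩), rfl⟩
      · rw [lam_ι, if_neg (by simp), mul_zero]
        exact lam_zero_of_mem ε (hx' x) (h0A x (h0 i))
      · rcases eq_or_lt_of_le (show y ≤ x from hy) with rfl | hlt
        · rw [lam_ι, if_pos rfl, mul_one]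
        · rw [lam_ι, if_neg (by simpa using hlt.ne), mul_zero]
          exact lam_zero_of_mem ε (hx' x) (ad_mono (hAA' x y hlt) (h1 y))
    have h2 := hder _ (h1 x)
    rw [hπ, ← hcdef] at h2
    have h3 : c * (c - 1) = 0 := by linear_combination -h2
    exact sub_eq_zero.1 ((mul_eq_zero.1 h3).resolve_left hx)
  have hlow : ∀ x, x ∉ Y → π (FreeAlgebra.ι k (Sum.inr x)) ∈ ad k (A' x) := by
    intro x hx
    have hx0 : lam ε (Sum.inr x) (π (FreeAlgebra.ι k (Sum.inr x))) = 0 := by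
      by_contra h
      exact hx h
    refine w_mem' π hπ ε hε (A' x) (Sum.inr x) (hx' x) ?_ ?_ hx0
    · rintro _ (⟨i, rfl⟩ | ⟨y, hy, rfl⟩)
      · exact h0A x (h0 i)
      · exact ad_mono (hAA' x y hy) (h1 y)
    · refine ad_mono ?_ (h1 x)
      rintro z (hz | ⟨w, hw, rfl⟩)
      · exact Or.inr (Or.inl hz)
      · rcases eq_or_lt_of_le (show w ≤ x from hw) with rfl | hlt
        · exact Or.inl rfl
        · exact Or.inr (Or.inr ⟨w, hlt, rfl⟩)
  -- the candidate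
  set φ : F k (B ⊕ Y) →ₐ[k] F k (X₀ ⊕ X₁) := FreeAlgebra.lift k
    (Sum.elim (fun b => φ₀ (FreeAlgebra.ι k b)) (fun y => π (FreeAlgebra.ι k (Sum.inr y.1))))
    with hφ
  have hφl : ∀ b, φ (FreeAlgebra.ι k (Sum.inl b)) = φ₀ (FreeAlgebra.ι k b) := fun b => by
    simp [hφ]
  have hφr : ∀ y : Y, φ (FreeAlgebra.ι k (Sum.inr y)) = π (FreeAlgebra.ι k (Sum.inr y.1)) :=
    fun y => by simp [hφ]
  refine ⟨Y, φ, ?_, ?_, hφl, hφr⟩
  all_goals
    set T : X₁ → Set (B ⊕ Y) := fun x => Set.range Sum.inl ∪ Sum.inr '' {y : Y | y.1 ≤ x} with hT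
    set T' : X₁ → Set (B ⊕ Y) := fun x => Set.range Sum.inl ∪ Sum.inr '' {y : Y | y.1 < x} with hT'
    have hφinc : ∀ g : F k B, φ (vmap k Sum.inl g) = φ₀ g := fun g =>
      hom_eq (φ := φ.comp (vmap k Sum.inl)) (ψ := φ₀) (fun b => by simp [hφl]) g
    have hg0 : ∀ i, ∃ g, φ₀ g = π (FreeAlgebra.ι k (Sum.inl i)) := by
      intro i
      have : π (FreeAlgebra.ι k (Sum.inl i)) ∈ φ₀.range := by
        rw [hrange]
        exact ⟨_, ι_mem_ad ⟨i, rfl⟩, rfl⟩
      exact this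
    have hTT' : ∀ x y, y < x → T y ⊆ T' x := by
      rintro x y hxy z (hz | ⟨w, hw, rfl⟩)
      · exact Or.inl hz
      · exact Or.inr ⟨w, lt_of_le_of_lt hw hxy, rfl⟩
    have hT'T : ∀ x, T' x ⊆ T x := by
      rintro x z (hz | ⟨w, hw, rfl⟩)
      · exact Or.inl hz
      · exact Or.inr ⟨w, le_of_lt hw, rfl⟩
    have hincT' : ∀ x (g : F k B), vmap k Sum.inl g ∈ ad k (T' x) := fun x g =>
      ad_mono (fun z hz => Or.inl hz) (vmap_mem _ g)
    have haux : ∀ x, (∀ y, y < x → ∃ g ∈ ad k (T y), φ g = π (FreeAlgebra.ι k (Sum.inr y))) →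
        x ∉ Y → ∃ g ∈ ad k (T' x), φ g = π (FreeAlgebra.ι k (Sum.inr x)) := by
      intro x IH hx
      have hle : ad k (A' x) ≤ ((ad k (T' x)).map φ).comap π := by
        refine Algebra.adjoin_le ?_
        rintro _ ⟨z, (⟨i, rfl⟩ | ⟨y, hy, rfl⟩), rfl⟩
        · obtain ⟨g, hg⟩ := hg0 i
          exact ⟨vmap k Sum.inl g, hincT' x g, (hφinc g).trans hg⟩
        · obtain ⟨g, hg, hg'⟩ := IH y hy
          exact ⟨g, ad_mono (hTT' x y hy) hg, hg'⟩
      obtain ⟨g, hg, hg'⟩ := hle (hlow x hx)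
      exact ⟨g, hg, hg'.trans (hπ _)⟩
    have hgen : ∀ x, ∃ g ∈ ad k (T x), φ g = π (FreeAlgebra.ι k (Sum.inr x)) := by
      intro x
      induction x using WellFoundedLT.induction with
      | ind x IH =>
        by_cases hx : x ∈ Y
        · exact ⟨FreeAlgebra.ι k (Sum.inr ⟨x, hx⟩),
            ι_mem_ad (Or.inr ⟨⟨x, hx⟩, le_refl x, rfl⟩), hφr ⟨x, hx⟩⟩
        · obtain ⟨g, hg, hg'⟩ := haux x IH hx
          exact ⟨g, ad_mono (hT'T x) hg, hg'⟩
    have hlt : ∀ x, x ∉ Y → ∃ g ∈ ad k (T' x), φ g = π (FreeAlgebra.ι k (Sum.inr x)) :=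
      fun x hx => haux x (fun y _ => hgen y) hx
    choose g0 hg0 using hg0
    choose g1 hg1 hg1' using hlt
    set τ : F k (X₀ ⊕ X₁) →ₐ[k] F k (B ⊕ Y) := FreeAlgebra.lift k
      (Sum.elim (fun i => vmap k Sum.inl (g0 i))
        (fun x => if h : x ∈ Y then FreeAlgebra.ι k (Sum.inr ⟨x, h⟩) else g1 x h)) with hτ
    have hτl : ∀ i, τ (FreeAlgebra.ι k (Sum.inl i)) = vmap k Sum.inl (g0 i) := fun i => by
      simp [hτ]
    have hτY : ∀ y : Y, τ (FreeAlgebra.ι k (Sum.inr y.1)) = FreeAlgebra.ι k (Sum.inr y) :=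
      fun y => by simp [hτ]
    have hτN : ∀ x (h : x ∉ Y), τ (FreeAlgebra.ι k (Sum.inr x)) = g1 x h := fun x h => by
      simp [hτ, h]
    have hφτ : ∀ f, φ (τ f) = π f := fun f => hom_eq (φ := φ.comp τ) (ψ := π) (fun z => by
      rcases z with i | x
      · rw [AlgHom.comp_apply, hτl, hφinc, hg0]
      · by_cases hx : x ∈ Y
        · rw [AlgHom.comp_apply, hτY ⟨x, hx⟩, hφr]
        · rw [AlgHom.comp_apply, hτN x hx, hg1']) f
  · -- injectivity
    have hτT : ∀ x, ∀ f ∈ ad k (A x), τ f ∈ ad k (T x) := by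
      intro x
      have : ad k (A x) ≤ (ad k (T x)).comap τ := by
        refine Algebra.adjoin_le ?_
        rintro _ ⟨z, (⟨i, rfl⟩ | ⟨y, hy, rfl⟩), rfl⟩
        · show τ (FreeAlgebra.ι k (Sum.inl i)) ∈ ad k (T x)
          rw [hτl]
          exact ad_mono (hT'T x) (hincT' x _)
        · show τ (FreeAlgebra.ι k (Sum.inr y)) ∈ ad k (T x)
          by_cases hyY : y ∈ Y
          · rw [hτY ⟨y, hyY⟩]
            exact ι_mem_ad (Or.inr ⟨⟨y, hyY⟩, hy, rfl⟩)
          · rw [hτN y hyY]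
            refine ad_mono ?_ (hg1 y hyY)
            rintro z (hz | ⟨w, hw, rfl⟩)
            · exact Or.inl hz
            · exact Or.inr ⟨w, (le_of_lt hw).trans hy, rfl⟩
      exact fun f hf => this hf
    have hετ : ∀ f, (ε.comp φ) (τ f) = ε f := fun f => by rw [AlgHom.comp_apply, hφτ, hε]
    have hTy : ∀ (y : Y) (x : X₁), x < y.1 → (Sum.inr y : B ⊕ Y) ∉ T x := by
      rintro y x hxy (⟨b, hb⟩ | ⟨w, hw, hwy⟩)
      · exact absurd hb (by simp)
      · obtain rfl : w = y := Sum.inr_injective hwy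
        exact absurd hw (not_le.2 hxy)
    have hr : ∀ y : Y, ∀ f ∈ ad k (A y.1),
        lam (ε.comp φ) (Sum.inr y) (τ f) = lam ε (Sum.inr y.1) f := by
      intro y f hf
      refine (isDer_comp ε (ε.comp φ) τ hετ (isDer_lam (ε.comp φ) (Sum.inr y))).eqOn
        (isDer_lam ε (Sum.inr y.1)) ?_ hf
      rintro _ ⟨z, (⟨i, rfl⟩ | ⟨x, hx, rfl⟩), rfl⟩
      · rw [lam_ι, if_neg (by simp), hτl]
        refine lam_zero_of_mem (ε.comp φ) (A := Set.range Sum.inl) (by simp) (vmap_mem _ _)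
      · rcases eq_or_lt_of_le (show x ≤ y.1 from hx) with h | hlt'
        · rw [h, hτY y, lam_ι, lam_ι, if_pos rfl, if_pos rfl]
        · rw [lam_ι, if_neg (by simpa using hlt'.ne)]
          exact lam_zero_of_mem (ε.comp φ) (hTy y x hlt')
            (hτT x _ (ι_mem_ad (Or.inr ⟨x, le_refl x, rfl⟩)))
    have hθl : ∀ b, (τ.comp φ) (FreeAlgebra.ι k (Sum.inl b)) = FreeAlgebra.ι k (Sum.inl b) := by
      intro b
      rw [AlgHom.comp_apply, hφl]
      have h2 : φ₀ (FreeAlgebra.ι k b) ∈ (ad k (Set.range (Sum.inl : X₀ → X₀ ⊕ X₁))).map π := by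
        rw [← hrange]
        exact ⟨_, rfl⟩
      obtain ⟨a, ha, ha'⟩ := h2
      have ha'' : π a = φ₀ (FreeAlgebra.ι k b) := ha'
      have hle : ad k (Set.range (Sum.inl : X₀ → X₀ ⊕ X₁)) ≤
          (ad k (Set.range (Sum.inl : X₀ → X₀ ⊕ X₁))).comap π := by
        refine Algebra.adjoin_le ?_
        rintro _ ⟨z, ⟨i, rfl⟩, rfl⟩
        exact h0 i
      have h3 : φ₀ (FreeAlgebra.ι k b) ∈ ad k (Set.range (Sum.inl : X₀ → X₀ ⊕ X₁)) := by
        rw [← ha'']
        exact hle ha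
      have hle2 : ad k (Set.range (Sum.inl : X₀ → X₀ ⊕ X₁)) ≤
          (vmap k (Sum.inl : B → B ⊕ Y)).range.comap τ := by
        refine Algebra.adjoin_le ?_
        rintro _ ⟨z, ⟨i, rfl⟩, rfl⟩
        exact ⟨g0 i, (hτl i).symm⟩
      obtain ⟨g, hg⟩ := hle2 h3
      have hg' : vmap k Sum.inl g = τ (φ₀ (FreeAlgebra.ι k b)) := hg
      have h4 : φ₀ g = φ₀ (FreeAlgebra.ι k b) := by
        rw [← hφinc, hg', hφτ, ← ha'', hπ]
      rw [← hg', hinj h4, vmap_ι]
    have hinjθ : Function.Injective (τ.comp φ) := by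
      refine inj_of_tri (ε.comp φ) (τ.comp φ) (fun f => hετ (φ f))
        (Sum.elim (fun _ => (⊥ : WithBot X₁)) (fun y => ((y.1 : X₁) : WithBot X₁))) ?_ ?_
      · rintro (b | y)
        · rw [hθl, lam_ι, if_pos rfl]
        · rw [AlgHom.comp_apply, hφr, hr y _ (h1 y.1)]
          exact hc y.1 y.2
      · rintro (b | y) z hz
        · left
          rw [hθl, lam_ι] at hz
          by_contra h
          exact hz (if_neg (Ne.symm h))
        · rcases z with b | y'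
          · right
            exact WithBot.bot_lt_coe _
          · rw [AlgHom.comp_apply, hφr] at hz
            have hle : y'.1 ≤ y.1 := by
              by_contra hcon
              exact hz (lam_zero_of_mem (ε.comp φ) (hTy y' y.1 (not_le.1 hcon))
                (hτT y.1 _ (h1 y.1)))
            rcases eq_or_lt_of_le hle with h | h
            · left
              rw [Subtype.ext h]
            · right
              exact WithBot.coe_lt_coe.2 h
    intro a b hab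
    exact hinjθ (by rw [AlgHom.comp_apply, AlgHom.comp_apply, hab])
  · -- the image
    apply le_antisymm
    · rintro _ ⟨f, rfl⟩
      refine map_mem φ π.range (fun z => ?_) f
      rcases z with b | y
      · rw [hφl]
        have h2 : φ₀ (FreeAlgebra.ι k b) ∈ (ad k (Set.range (Sum.inl : X₀ → X₀ ⊕ X₁))).map π := by
          rw [← hrange]
          exact ⟨_, rfl⟩
        obtain ⟨a, _, ha'⟩ := h2
        exact ⟨a, ha'⟩
      · rw [hφr]
        exact ⟨_, rfl⟩
    · rintro _ ⟨f, rfl⟩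
      exact ⟨τ f, hφτ f⟩

end Rfa
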