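import Pool.Agent.Lib.Rfa.Basic

/-!
Adding one variable: a retraction of the free algebra of rank `n + 1` which preserves the
subalgebra of the first `n` variables has a free image if its restriction has one.
-/

namespace Rfa

variable {k : Type*} [Field k] {X : Type*} [Fintype X] [DecidableEq X]

/-- the linear coefficient of the variable `x` -/
noncomputable def lam (ε : F k X →ₐ[k] k) (x : X) (f : F k X) : k := ε (D ε x f)

/-- a derivation with values in `k` -/
structure IsDer (ε : F k X →ₐ[k] k) (δ : F k X → k) : Prop where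
  add : ∀ f g, δ (f + g) = δ f + δ g
  mul : ∀ f g, δ (f * g) = ε f * δ g + δ f * ε g
  alg : ∀ c, δ (algebraMap k _ c) = 0

omit [Fintype X] [DecidableEq X] in
lemma IsDer.ext {ε : F k X →ₐ[k] k} {δ1 δ2 : F k X → k} (h1 : IsDer ε δ1) (h2 : IsDer ε δ2)
    (h : ∀ x, δ1 (FreeAlgebra.ι k x) = δ2 (FreeAlgebra.ι k x)) (f : F k X) : δ1 f = δ2 f := by
  induction f using FreeAlgebra.induction with
  | grade0 r => rw [h1.alg, h2.alg]
  | grade1 y => exact h y
  | mul a b ha hb => rw [h1.mul, h2.mul, ha, hb]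
  | add a b ha hb => rw [h1.add, h2.add, ha, hb]

omit [Fintype X] in
lemma isDer_lam (ε : F k X →ₐ[k] k) (x : X) : IsDer ε (lam ε x) where
  add f g := by simp [lam, D_add]
  mul f g := by simp [lam, D_mul]
  alg c := by simp [lam, D_algebraMap]

omit [Fintype X] [DecidableEq X] in
lemma isDer_comp {Y : Type*} (ε : F k X →ₐ[k] k) (ε' : F k Y →ₐ[k] k) (φ : F k X →ₐ[k] F k Y)
    (hφ : ∀ f, ε' (φ f) = ε f) {δ : F k Y → k} (h : IsDer ε' δ) : IsDer ε (fun f => δ (φ f)) where
  add f g := by rw [map_add, h.add]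
  mul f g := by rw [map_mul, h.mul, hφ, hφ]
  alg c := by rw [AlgHom.commutes, h.alg]

omit [Fintype X] [DecidableEq X] in
lemma isDer_smul {ε : F k X →ₐ[k] k} {δ : F k X → k} (c : k) (h : IsDer ε δ) :
    IsDer ε (fun f => c * δ f) where
  add f g := by rw [h.add]; ring
  mul f g := by rw [h.mul]; ring
  alg d := by rw [h.alg, mul_zero]

omit [Fintype X] [DecidableEq X] in
lemma isDer_sum {ε : F k X →ₐ[k] k} {T : Type*} [Fintype T] {δ : T → F k X → k}
    (h : ∀ i, IsDer ε (δ i)) : IsDer ε (fun f => ∑ i, δ i f) where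
  add f g := by rw [← Finset.sum_add_distrib]; exact Finset.sum_congr rfl fun i _ => (h i).add f g
  mul f g := by
    rw [Finset.mul_sum, Finset.sum_mul, ← Finset.sum_add_distrib]
    exact Finset.sum_congr rfl fun i _ => (h i).mul f g
  alg d := Finset.sum_eq_zero fun i _ => (h i).alg d

omit [Fintype X] in
lemma lam_ι (ε : F k X →ₐ[k] k) (x y : X) :
    lam ε x (FreeAlgebra.ι k y) = if y = x then 1 else 0 := by
  rw [lam, D_ι]
  split_ifs <;> simp

omit [Fintype X] in
lemma lam_sub (ε : F k X →ₐ[k] k) (x : X) (f g : F k X) :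
    lam ε x (f - g) = lam ε x f - lam ε x g := by simp [lam, D_sub]

omit [Fintype X] in
lemma lam_cx (ε : F k X →ₐ[k] k) (x y : X) :
    lam ε x (cx ε y) = if y = x then 1 else 0 := by
  rw [cx, lam_sub, lam_ι, (isDer_lam ε x).alg, sub_zero]

omit [Fintype X] in
lemma mem_I_two (ε : F k X →ₐ[k] k) (f : F k X) :
    f ∈ I ε 2 ↔ ε f = 0 ∧ ∀ x, lam ε x f = 0 := by
  rw [mem_I_succ]
  simp only [I_one, lam]

/-- an element differs from its linear part by an element of the square of the ideal -/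
lemma lin_mem (ε : F k X →ₐ[k] k) (f : F k X) :
    f - (algebraMap k (F k X) (ε f) + ∑ x, algebraMap k (F k X) (lam ε x f) * cx ε x)
      ∈ I ε 2 := by
  rw [mem_I_two]
  refine ⟨by simp [ε_cx], fun x => ?_⟩
  have h1 : lam ε x (∑ y, algebraMap k (F k X) (lam ε y f) * cx ε y) = lam ε x f := by
    rw [lam]
    have h2 : D ε x (∑ y, algebraMap k (F k X) (lam ε y f) * cx ε y)
        = ∑ y, D ε x (algebraMap k (F k X) (lam ε y f) * cx ε y) := by
      simp [D, map_sum, Matrix.sum_apply]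
    rw [h2, map_sum]
    have h3 : ∀ y, ε (D ε x (algebraMap k (F k X) (lam ε y f) * cx ε y))
        = lam ε y f * if y = x then 1 else 0 := fun y => by
      have := (isDer_lam ε x).mul (algebraMap k (F k X) (lam ε y f)) (cx ε y)
      rw [lam_cx, (isDer_lam ε x).alg, zero_mul, add_zero, AlgHom.commutes] at this
      exact this
    simp only [h3]
    simp
  rw [lam_sub, (isDer_lam ε x).add, (isDer_lam ε x).alg, h1, zero_add, sub_self]

omit [Fintype X] [DecidableEq X] in
lemma map_mem {A : Type*} [Semiring A] [Algebra k A] (φ : F k X →ₐ[k] A) (S : Subalgebra k A)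
    (h : ∀ x, φ (FreeAlgebra.ι k x) ∈ S) (f : F k X) : φ f ∈ S := by
  induction f using FreeAlgebra.induction with
  | grade0 r => rw [AlgHom.commutes]; exact S.algebraMap_mem r
  | grade1 y => exact h y
  | mul a b ha hb => rw [map_mul]; exact S.mul_mem ha hb
  | add a b ha hb => rw [map_add]; exact S.add_mem ha hb

omit [Fintype X] [DecidableEq X] in
lemma hom_eq {A : Type*} [Semiring A] [Algebra k A] {φ ψ : F k X →ₐ[k] A}
    (h : ∀ x, φ (FreeAlgebra.ι k x) = ψ (FreeAlgebra.ι k x)) (f : F k X) : φ f = ψ f := by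
  have : φ = ψ := FreeAlgebra.hom_ext (by funext x; exact h x)
  rw [this]

omit [Fintype X] in
/-- an endomorphism which is the identity up to order two is injective -/
lemma inj_of_near (ε : F k X →ₐ[k] k) (ψ : F k X →ₐ[k] F k X) (hψ : ∀ f, ε (ψ f) = ε f)
    (h : ∀ x, ψ (FreeAlgebra.ι k x) - FreeAlgebra.ι k x ∈ I ε 2) : Function.Injective ψ := by
  rw [injective_iff_map_eq_zero]
  intro f hf
  refine eq_zero_of_I ε fun m => ?_
  induction m with
  | zero => exact mem_I_zero _ _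
  | succ m ih =>
    have := sub_mem_I ε ε ψ (AlgHom.id k _) hψ (fun _ => rfl) 1 h m f ih
    rw [hf, zero_sub, neg_mem_iff] at this
    exact this

/-- the inclusion of the first `n` variables -/
noncomputable def inc (n : ℕ) : F k (Fin n) →ₐ[k] F k (Fin (n + 1)) :=
  FreeAlgebra.lift k (fun j => FreeAlgebra.ι k (Fin.castSucc j))

@[simp] lemma inc_ι (n : ℕ) (j : Fin n) :
    inc n (FreeAlgebra.ι k j) = FreeAlgebra.ι k (Fin.castSucc j) := by simp [inc]

/-- the homomorphism with given values on the first `n` variables and the last one -/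
noncomputable def sn {A : Type*} [Semiring A] [Algebra k A] {n : ℕ} (f : Fin n → A) (a : A) :
    F k (Fin (n + 1)) →ₐ[k] A := FreeAlgebra.lift k (Fin.snoc (α := fun _ => A) f a)

@[simp] lemma sn_castSucc {A : Type*} [Semiring A] [Algebra k A] {n : ℕ} (f : Fin n → A) (a : A)
    (j : Fin n) : (sn f a : F k (Fin (n + 1)) →ₐ[k] A) (FreeAlgebra.ι k (Fin.castSucc j)) = f j := by
  simp [sn]

@[simp] lemma sn_last {A : Type*} [Semiring A] [Algebra k A] {n : ℕ} (f : Fin n → A) (a : A) :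
    (sn f a : F k (Fin (n + 1)) →ₐ[k] A) (FreeAlgebra.ι k (Fin.last n)) = a := by
  simp [sn]

lemma sn_inc {A : Type*} [Semiring A] [Algebra k A] {n : ℕ} (φ : F k (Fin n) →ₐ[k] A) (a : A)
    (g : F k (Fin n)) : sn (fun j => φ (FreeAlgebra.ι k j)) a (inc n g) = φ g := by
  have := hom_eq (φ := (sn (fun j => φ (FreeAlgebra.ι k j)) a).comp (inc n)) (ψ := φ)
    (fun x => by simp) g
  simpa using this

lemma hom_eq' {A : Type*} [Semiring A] [Algebra k A] {n : ℕ} {φ ψ : F k (Fin (n + 1)) →ₐ[k] A}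
    (h1 : ∀ j : Fin n, φ (FreeAlgebra.ι k (Fin.castSucc j)) = ψ (FreeAlgebra.ι k (Fin.castSucc j)))
    (h2 : φ (FreeAlgebra.ι k (Fin.last n)) = ψ (FreeAlgebra.ι k (Fin.last n)))
    (f : F k (Fin (n + 1))) : φ f = ψ f := by
  refine hom_eq (fun x => ?_) f
  refine Fin.lastCases h2 h1 x

lemma map_mem' {A : Type*} [Semiring A] [Algebra k A] {n : ℕ} (φ : F k (Fin (n + 1)) →ₐ[k] A)
    (S : Subalgebra k A) (h1 : ∀ j : Fin n, φ (FreeAlgebra.ι k (Fin.castSucc j)) ∈ S)
    (h2 : φ (FreeAlgebra.ι k (Fin.last n)) ∈ S) (f : F k (Fin (n + 1))) : φ f ∈ S := by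
  refine map_mem φ S (fun x => ?_) f
  exact Fin.lastCases (motive := fun x => φ (FreeAlgebra.ι k x) ∈ S) h2 h1 x

lemma inc_inj (n : ℕ) : Function.Injective (inc (k := k) n) := by
  intro f g h
  have h1 := sn_inc (AlgHom.id k (F k (Fin n))) 0 f
  have h2 := sn_inc (AlgHom.id k (F k (Fin n))) 0 g
  rw [h] at h1
  rw [h1] at h2
  simpa using h2

lemma lam_last_inc (n : ℕ) (ε : F k (Fin (n + 1)) →ₐ[k] k) (g : F k (Fin n)) :
    lam ε (Fin.last n) (inc n g) = 0 := by
  have h := isDer_comp (ε.comp (inc n)) ε (inc n) (fun f => rfl) (isDer_lam ε (Fin.last n))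
  have h0 : IsDer (ε.comp (inc n)) (fun _ => (0 : k)) :=
    ⟨fun _ _ => by simp, fun _ _ => by simp, fun _ => rfl⟩
  refine h.ext h0 (fun x => ?_) g
  rw [inc_ι, lam_ι, if_neg (Fin.castSucc_lt_last x).ne]

/-- if the linear part of the last variable vanishes, then its image is in the subalgebra of the
others -/
lemma w_mem {n : ℕ} (π : F k (Fin (n + 1)) →ₐ[k] F k (Fin (n + 1))) (hπ : ∀ f, π (π f) = π f)
    (h : ∀ j : Fin n, π (FreeAlgebra.ι k (Fin.castSucc j)) ∈ (inc (k := k) n).range)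
    (ε : F k (Fin (n + 1)) →ₐ[k] k) (hε : ∀ f, ε (π f) = ε f)
    (hc : lam ε (Fin.last n) (π (FreeAlgebra.ι k (Fin.last n))) = 0) :
    π (FreeAlgebra.ι k (Fin.last n)) ∈ (inc (k := k) n).range := by
  set w := π (FreeAlgebra.ι k (Fin.last n)) with hw
  set S := (inc (k := k) n).range with hS
  have hιS : ∀ j : Fin n, FreeAlgebra.ι k (Fin.castSucc j) ∈ S := fun j =>
    ⟨FreeAlgebra.ι k j, inc_ι n j⟩
  have hincS : ∀ g ∈ S, π g ∈ S := by
    rintro g ⟨g, rfl⟩
    exact map_mem (π.comp (inc n)) S (fun x => by simpa using h x) g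
  set y := algebraMap k (F k (Fin (n + 1))) (ε w)
    + ∑ j : Fin n, algebraMap k (F k (Fin (n + 1))) (lam ε (Fin.castSucc j) w)
      * cx ε (Fin.castSucc j) with hy
  have hyS : y ∈ S := by
    refine S.add_mem (S.algebraMap_mem _) (S.sum_mem fun j _ => S.mul_mem (S.algebraMap_mem _) ?_)
    exact S.sub_mem (hιS j) (S.algebraMap_mem _)
  have hwy : w - y ∈ I ε 2 := by
    have := lin_mem ε w
    rw [Fin.sum_univ_castSucc, hc, map_zero, zero_mul, add_zero] at this
    exact this
  have hw2 : π w = w := hπ _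
  have hw0 : w - π y ∈ I ε 2 := by
    have := map_I ε ε π hε 2 _ hwy
    rwa [map_sub, hw2] at this
  have hseq : ∀ s : ℕ, ∃ a ∈ S, w - a ∈ I ε (s + 2) := by
    intro s
    induction s with
    | zero => exact ⟨π y, hincS y hyS, hw0⟩
    | succ s ih =>
      obtain ⟨a, haS, ha⟩ := ih
      set ψ : F k (Fin (n + 1)) →ₐ[k] F k (Fin (n + 1)) :=
        sn (fun j => π (FreeAlgebra.ι k (Fin.castSucc j))) a with hψ
      have hψS : ∀ f, ψ f ∈ S := map_mem' ψ S (fun j => by rw [hψ, sn_castSucc]; exact h j)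
        (by rw [hψ, sn_last]; exact haS)
      have hεa : ε a = ε w := by
        have := (I_one ε (w - a)).1 (I_anti' ε (by omega) ha)
        rw [map_sub, sub_eq_zero] at this
        exact this.symm
      have hψε : ∀ f, ε (ψ f) = ε f := fun f => hom_eq' (φ := ε.comp ψ) (ψ := ε)
        (fun j => by simp [hψ, hε]) (by simp [hψ, hεa, hw, hε]) f
      refine ⟨π y + ψ (w - π y), S.add_mem (hincS y hyS) (hψS _), ?_⟩
      have h1 : w - (π y + ψ (w - π y)) = π (w - π y) - ψ (w - π y) := by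
        rw [map_sub π, hw2, hπ]
        abel
      rw [h1]
      have h2 := sub_mem_I ε ε π ψ hε hψε (s + 1) (fun x => by
        refine Fin.lastCases ?_ (fun j => ?_) x
        · rw [hψ, sn_last]
          exact ha
        · rw [hψ, sn_castSucc, sub_self]
          exact zero_mem _) 2 _ hw0
      rwa [show 2 + (s + 1) = s + 1 + 2 by ring] at h2
  set κ : F k (Fin (n + 1)) →ₐ[k] F k (Fin (n + 1)) :=
    sn (fun j => inc n (FreeAlgebra.ι k j))
      (algebraMap k _ (ε (FreeAlgebra.ι k (Fin.last n)))) with hκ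
  have hκS : ∀ f, κ f ∈ S := map_mem' κ S (fun j => by rw [hκ, sn_castSucc]; exact ⟨_, rfl⟩)
    (by rw [hκ, sn_last]; exact S.algebraMap_mem _)
  have hκfix : ∀ g ∈ S, κ g = g := by
    rintro g ⟨g, rfl⟩
    exact sn_inc (inc n) _ g
  have hκε : ∀ f, ε (κ f) = ε f := fun f => hom_eq' (φ := ε.comp κ) (ψ := ε)
    (fun j => by simp [hκ]) (by simp [hκ]) f
  have hfin : w - κ w = 0 := by
    refine eq_zero_of_I ε fun m => ?_
    obtain ⟨a, haS, ha⟩ := hseq m
    have h1 : w - κ w = (w - a) - κ (w - a) := by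
      rw [map_sub κ, hκfix a haS]
      abel
    rw [h1]
    refine I_anti' ε (show m ≤ m + 2 by omega) ?_
    exact sub_mem ha (map_I ε ε κ hκε _ _ ha)
  rw [sub_eq_zero.1 hfin]
  exact hκS w

/-- an endomorphism which fixes the first `m` variables and whose value on the last one has linear
coefficient one there is injective -/
lemma inj_of_lin {m : ℕ} (θ : F k (Fin (m + 1)) →ₐ[k] F k (Fin (m + 1)))
    (ε : F k (Fin (m + 1)) →ₐ[k] k) (hε : ∀ f, ε (θ f) = ε f)
    (h1 : ∀ j : Fin m, θ (FreeAlgebra.ι k (Fin.castSucc j)) = FreeAlgebra.ι k (Fin.castSucc j))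
    (h2 : lam ε (Fin.last m) (θ (FreeAlgebra.ι k (Fin.last m))) = 1) :
    Function.Injective θ := by
  set L := ∑ j : Fin m, algebraMap k (F k (Fin (m + 1)))
    (lam ε (Fin.castSucc j) (θ (FreeAlgebra.ι k (Fin.last m)))) * cx ε (Fin.castSucc j) with hL
  have hLinc : L ∈ (inc (k := k) m).range := by
    refine Subalgebra.sum_mem _ fun j _ => Subalgebra.mul_mem _ (Subalgebra.algebraMap_mem _ _) ?_
    exact Subalgebra.sub_mem _ ⟨FreeAlgebra.ι k j, inc_ι m j⟩ (Subalgebra.algebraMap_mem _ _)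
  obtain ⟨L', hL'⟩ := hLinc
  have hεL : ε L = 0 := by simp [hL, ε_cx]
  have hfix : ∀ (φ : F k (Fin (m + 1)) →ₐ[k] F k (Fin (m + 1))),
      (∀ j : Fin m, φ (FreeAlgebra.ι k (Fin.castSucc j)) = FreeAlgebra.ι k (Fin.castSucc j)) →
      φ L = L := by
    intro φ hφ
    rw [← hL']
    exact hom_eq (φ := φ.comp (inc m)) (ψ := inc m) (fun x => by simp [hφ]) L'
  set θ1 : F k (Fin (m + 1)) →ₐ[k] F k (Fin (m + 1)) :=
    sn (fun j => FreeAlgebra.ι k (Fin.castSucc j)) (FreeAlgebra.ι k (Fin.last m) + L) with hθ1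
  set θ2 : F k (Fin (m + 1)) →ₐ[k] F k (Fin (m + 1)) :=
    sn (fun j => FreeAlgebra.ι k (Fin.castSucc j)) (FreeAlgebra.ι k (Fin.last m) - L) with hθ2
  have h21 : ∀ f, θ2 (θ1 f) = f := by
    intro f
    have := hom_eq' (φ := θ2.comp θ1) (ψ := AlgHom.id k _) (fun j => by simp [hθ1, hθ2]) (by
      have h3 : θ2 L = L := hfix θ2 (fun j => by simp [hθ2])
      simp only [AlgHom.comp_apply, AlgHom.id_apply]
      rw [hθ1, sn_last, map_add, h3, hθ2, sn_last]
      abel) f
    simpa using this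
  have hnear : Function.Injective (θ.comp θ2) := by
    refine inj_of_near ε (θ.comp θ2) (fun f => ?_) (fun x => ?_)
    · rw [AlgHom.comp_apply, hε]
      exact hom_eq' (φ := ε.comp θ2) (ψ := ε) (fun j => by simp [hθ2]) (by simp [hθ2, hεL]) f
    · refine Fin.lastCases ?_ (fun j => ?_) x
      · rw [AlgHom.comp_apply, hθ2, sn_last, map_sub, hfix θ h1]
        have h3 := lin_mem ε (θ (FreeAlgebra.ι k (Fin.last m)))
        rw [Fin.sum_univ_castSucc, h2, map_one, one_mul, ← hL, hε, cx] at h3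
        convert h3 using 1
        abel
      · rw [AlgHom.comp_apply, hθ2, sn_castSucc, h1, sub_self]
        exact zero_mem _
  rw [injective_iff_map_eq_zero]
  intro g hg
  have h3 : θ.comp θ2 (θ1 g) = 0 := by
    rw [AlgHom.comp_apply, h21, hg]
  have h4 : θ1 g = 0 := (injective_iff_map_eq_zero _).1 hnear _ h3
  rw [← h21 g, h4, map_zero]

/-- the image of `π` is free on at most `N` generators -/
def FreeImg {X : Type*} (π : F k X →ₐ[k] F k X) (N : ℕ) : Prop :=
  ∃ m ≤ N, ∃ φ : F k (Fin m) →ₐ[k] F k X, Function.Injective φ ∧ φ.range = π.range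

omit [Fintype X] [DecidableEq X] in
lemma exists_aug (π : F k X →ₐ[k] F k X) (hπ : ∀ f, π (π f) = π f) :
    ∃ ε : F k X →ₐ[k] k, ∀ f, ε (π f) = ε f :=
  ⟨(FreeAlgebra.lift k (fun _ => 0)).comp π, fun f => by simp [hπ]⟩

/-- the induction step -/
theorem step {n : ℕ} (π : F k (Fin (n + 1)) →ₐ[k] F k (Fin (n + 1))) (hπ : ∀ f, π (π f) = π f)
    (π' : F k (Fin n) →ₐ[k] F k (Fin n)) (h : ∀ f, inc n (π' f) = π (inc n f)) (N : ℕ)
    (hfree : FreeImg π' N) : FreeImg π (N + 1) := by
  obtain ⟨ε, hε⟩ := exists_aug π hπ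
  obtain ⟨m, hm, φ', hφ'inj, hφ'⟩ := hfree
  have hπ' : ∀ f, π' (π' f) = π' f := fun f => inc_inj n (by rw [h, h, hπ])
  set w := π (FreeAlgebra.ι k (Fin.last n)) with hw
  have hιr : ∀ j : Fin n, π (FreeAlgebra.ι k (Fin.castSucc j)) = inc n (π' (FreeAlgebra.ι k j)) :=
    fun j => by rw [h, inc_ι]
  have hder : ∀ f, lam ε (Fin.last n) (π f) = lam ε (Fin.last n) w * lam ε (Fin.last n) f := by
    intro f
    refine (isDer_comp ε ε π hε (isDer_lam ε (Fin.last n))).ext
      (isDer_smul (lam ε (Fin.last n) w) (isDer_lam ε (Fin.last n))) (fun x => ?_) f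
    refine Fin.lastCases ?_ (fun j => ?_) x
    · rw [lam_ι, if_pos rfl, mul_one, hw]
    · rw [lam_ι, if_neg (Fin.castSucc_lt_last j).ne, mul_zero, hιr, lam_last_inc]
  have hc : lam ε (Fin.last n) w = lam ε (Fin.last n) w * lam ε (Fin.last n) w := by
    have := hder w
    rwa [hw, hπ, ← hw] at this
  by_cases hc0 : lam ε (Fin.last n) w = 0
  · -- the image of the last variable is in the subalgebra of the others
    obtain ⟨w', hw'⟩ := w_mem π hπ (fun j => by rw [hιr]; exact ⟨_, rfl⟩) ε hε hc0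
    refine ⟨m, by omega, (inc n).comp φ', (inc_inj n).comp hφ'inj, ?_⟩
    apply le_antisymm
    · rintro _ ⟨g, rfl⟩
      have h1 : φ' g ∈ π'.range := by rw [← hφ']; exact ⟨g, rfl⟩
      obtain ⟨a, ha⟩ := h1
      refine ⟨inc n a, ?_⟩
      show π (inc n a) = inc n (φ' g)
      rw [← h]
      exact congrArg _ ha
    · rintro _ ⟨f, rfl⟩
      have h1 : π f ∈ (inc (k := k) n).range := map_mem' π (inc (k := k) n).range
        (fun j => by rw [hιr]; exact ⟨_, rfl⟩) ⟨w', hw'⟩ f
      obtain ⟨g, hg⟩ := h1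
      have h2 : π f = inc n (π' g) := by
        rw [h]
        exact (hπ f).symm.trans (congrArg π hg.symm)
      have h3 : π' g ∈ φ'.range := by rw [hφ']; exact ⟨g, rfl⟩
      obtain ⟨b, hb⟩ := h3
      refine ⟨b, ?_⟩
      show inc n (φ' b) = π f
      rw [h2]
      exact congrArg _ hb
  · have hc1 : lam ε (Fin.last n) w = 1 := by
      have : lam ε (Fin.last n) w * (lam ε (Fin.last n) w - 1) = 0 := by
        rw [mul_sub, mul_one, ← hc, sub_self]
      rcases mul_eq_zero.1 this with h1 | h1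
      · exact absurd h1 hc0
      · exact sub_eq_zero.1 h1
    have hex : ∀ j : Fin n, ∃ g, φ' g = π' (FreeAlgebra.ι k j) := fun j => by
      have h3 : π' (FreeAlgebra.ι k j) ∈ φ'.range := by rw [hφ']; exact ⟨_, rfl⟩
      exact h3
    choose gg hgg using hex
    set jj : F k (Fin n) →ₐ[k] F k (Fin m) := FreeAlgebra.lift k gg with hjj
    have hφj : ∀ f, φ' (jj f) = π' f := fun f => hom_eq (φ := φ'.comp jj) (ψ := π')
      (fun x => by simp [hjj, hgg]) f
    have hjφ : ∀ g, jj (φ' g) = g := fun g => hφ'inj (by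
      rw [hφj]
      have h1 : φ' g ∈ π'.range := by rw [← hφ']; exact ⟨g, rfl⟩
      obtain ⟨a, ha⟩ := h1
      have ha' : π' a = φ' g := ha
      rw [← ha', hπ'])
    set φ : F k (Fin (m + 1)) →ₐ[k] F k (Fin (n + 1)) :=
      sn (fun i => ((inc n).comp φ') (FreeAlgebra.ι k i)) w with hφ
    have hφinc : ∀ g, φ (inc m g) = inc n (φ' g) := fun g => sn_inc ((inc n).comp φ') w g
    have hφlast : φ (FreeAlgebra.ι k (Fin.last m)) = w := by rw [hφ, sn_last]
    refine ⟨m + 1, by omega, φ, ?_, ?_⟩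
    · set τ : F k (Fin (n + 1)) →ₐ[k] F k (Fin (m + 1)) :=
        sn (fun j => ((inc m).comp jj) (FreeAlgebra.ι k j))
          (FreeAlgebra.ι k (Fin.last m)) with hτ
      have hτinc : ∀ g, τ (inc n g) = inc m (jj g) := fun g => sn_inc ((inc m).comp jj) _ g
      have hτlast : τ (FreeAlgebra.ι k (Fin.last n)) = FreeAlgebra.ι k (Fin.last m) := by
        rw [hτ, sn_last]
      have hετ : ∀ f, (ε.comp φ) (τ f) = ε f := fun f =>
        hom_eq' (φ := (ε.comp φ).comp τ) (ψ := ε) (fun j => by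
          rw [AlgHom.comp_apply, ← inc_ι, hτinc, AlgHom.comp_apply, hφinc, hφj, h, hε]) (by
          rw [AlgHom.comp_apply, hτlast, AlgHom.comp_apply, hφlast, hw, hε]) f
      have hinj : Function.Injective (τ.comp φ) := by
        refine inj_of_lin (τ.comp φ) (ε.comp φ) (fun f => ?_) (fun j => ?_) ?_
        · exact hετ (φ f)
        · rw [AlgHom.comp_apply, ← inc_ι, hφinc, hτinc, hjφ]
        · rw [AlgHom.comp_apply, hφlast, ← hc1]
          refine (isDer_comp ε (ε.comp φ) τ hετ (isDer_lam (ε.comp φ) (Fin.last m))).ext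
            (isDer_lam ε (Fin.last n)) (fun x => ?_) w
          refine Fin.lastCases ?_ (fun j => ?_) x
          · rw [hτlast, lam_ι, lam_ι, if_pos rfl, if_pos rfl]
          · rw [← inc_ι, hτinc, lam_last_inc, lam_last_inc]
      intro a b hab
      exact hinj (by rw [AlgHom.comp_apply, AlgHom.comp_apply, hab])
    · apply le_antisymm
      · rintro _ ⟨f, rfl⟩
        refine map_mem' φ _ (fun i => ?_) ?_ f
        · rw [← inc_ι, hφinc]
          have h1 : φ' (FreeAlgebra.ι k i) ∈ π'.range := by rw [← hφ']; exact ⟨_, rfl⟩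
          obtain ⟨a, ha⟩ := h1
          refine ⟨inc n a, ?_⟩
          show π (inc n a) = inc n (φ' (FreeAlgebra.ι k i))
          rw [← h]
          exact congrArg _ ha
        · rw [hφlast]
          exact ⟨_, rfl⟩
      · rintro _ ⟨f, rfl⟩
        refine map_mem' π _ (fun j => ?_) ?_ f
        · rw [hιr, ← hφj, ← hφinc]
          exact ⟨_, rfl⟩
        · exact ⟨FreeAlgebra.ι k (Fin.last m), hφlast⟩

end Rfa
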