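import Pool.Agent.Lib.Rfa.Three

/-!
The rank three theorem as the base of a well-ordered triangular retraction.
-/

namespace Rfa

variable {k : Type*} [Field k]

/-- passing from the restriction to the image of a free factor -/
theorem base_of {n : ℕ} {X₁ : Type*} (π : F k (Fin n ⊕ X₁) →ₐ[k] F k (Fin n ⊕ X₁))
    (h0 : ∀ i, π (FreeAlgebra.ι k (Sum.inl i)) ∈ ad k (Set.range (Sum.inl : Fin n → Fin n ⊕ X₁)))
    (H : ∀ π₀ : F k (Fin n) →ₐ[k] F k (Fin n),
      (∀ f, vmap k Sum.inl (π₀ f) = π (vmap k (Sum.inl : Fin n → Fin n ⊕ X₁) f)) →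
      ∃ m ≤ 3, Nonempty (π₀.range ≃ₐ[k] FreeAlgebra k (Fin m))) :
    ∃ m ≤ 3, ∃ φ₀ : F k (Fin m) →ₐ[k] F k (Fin n ⊕ X₁), Function.Injective φ₀ ∧
      φ₀.range = (ad k (Set.range (Sum.inl : Fin n → Fin n ⊕ X₁))).map π := by
  classical
  set incl : F k (Fin n) →ₐ[k] F k (Fin n ⊕ X₁) := vmap k Sum.inl with hincl
  set κ : F k (Fin n ⊕ X₁) →ₐ[k] F k (Fin n) :=
    FreeAlgebra.lift k (Sum.elim (fun i => FreeAlgebra.ι k i) (fun _ => 0)) with hκ
  have hκincl : ∀ f, κ (incl f) = f := fun f =>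
    hom_eq (φ := κ.comp incl) (ψ := AlgHom.id k _) (fun i => by simp [hκ, hincl]) f
  have hinclinj : Function.Injective incl := fun a b h => by
    rw [← hκincl a, ← hκincl b, h]
  have hinclκ : ∀ f ∈ ad k (Set.range (Sum.inl : Fin n → Fin n ⊕ X₁)), incl (κ f) = f := by
    have : ad k (Set.range (Sum.inl : Fin n → Fin n ⊕ X₁)) ≤
        AlgHom.equalizer (incl.comp κ) (AlgHom.id k _) := by
      refine Algebra.adjoin_le ?_
      rintro _ ⟨z, ⟨i, rfl⟩, rfl⟩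
      show incl (κ _) = _
      simp [hκ, hincl]
    exact fun f hf => this hf
  have hinclad : ∀ f, incl f ∈ ad k (Set.range (Sum.inl : Fin n → Fin n ⊕ X₁)) := fun f =>
    map_mem incl _ (fun i => by rw [hincl, vmap_ι]; exact ι_mem_ad ⟨_, rfl⟩) f
  have hπad : ∀ f ∈ ad k (Set.range (Sum.inl : Fin n → Fin n ⊕ X₁)),
      π f ∈ ad k (Set.range (Sum.inl : Fin n → Fin n ⊕ X₁)) := by
    have : ad k (Set.range (Sum.inl : Fin n → Fin n ⊕ X₁)) ≤
        (ad k (Set.range (Sum.inl : Fin n → Fin n ⊕ X₁))).comap π := by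
      refine Algebra.adjoin_le ?_
      rintro _ ⟨z, ⟨i, rfl⟩, rfl⟩
      exact h0 i
    exact fun f hf => this hf
  set π₀ : F k (Fin n) →ₐ[k] F k (Fin n) := (κ.comp π).comp incl with hπ₀
  have hcomm : ∀ f, incl (π₀ f) = π (incl f) := fun f => hinclκ _ (hπad _ (hinclad f))
  obtain ⟨m, hm, ⟨e⟩⟩ := H π₀ hcomm
  set φ : F k (Fin m) →ₐ[k] F k (Fin n) := π₀.range.val.comp e.symm.toAlgHom with hφdef
  have hφinj : Function.Injective φ := Subtype.val_injective.comp e.symm.injective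
  have hφ : φ.range = π₀.range := by
    apply le_antisymm
    · rintro _ ⟨f, rfl⟩
      exact (e.symm f).2
    · intro f hf
      refine ⟨e ⟨f, hf⟩, ?_⟩
      show ((e.symm (e ⟨f, hf⟩) : π₀.range) : F k (Fin n)) = f
      rw [e.symm_apply_apply]
  refine ⟨m, hm, incl.comp φ, hinclinj.comp hφinj, ?_⟩
  apply le_antisymm
  · rintro _ ⟨f, rfl⟩
    have h1 : φ f ∈ π₀.range := by rw [← hφ]; exact ⟨f, rfl⟩
    obtain ⟨a, ha⟩ := h1
    have ha' : π₀ a = φ f := ha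
    refine ⟨incl a, hinclad a, ?_⟩
    show π (incl a) = incl (φ f)
    rw [← hcomm, ha']
  · rintro _ ⟨f, hf, rfl⟩
    have h1 : π₀ (κ f) ∈ φ.range := by rw [hφ]; exact ⟨_, rfl⟩
    obtain ⟨a, ha⟩ := h1
    have ha' : φ a = π₀ (κ f) := ha
    refine ⟨a, ?_⟩
    show incl (φ a) = π f
    rw [ha', hcomm, hinclκ f hf]

lemma adjoin_lt_one : (FreeAlgebra.ι k '' {i : Fin 3 | (i : ℕ) < 1})
    = {(FreeAlgebra.ι k 0 : FreeAlgebra k (Fin 3))} := by
  ext f
  constructor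
  · rintro ⟨i, hi, rfl⟩
    have : i = 0 := Fin.ext (by simpa using hi)
    rw [this]
    rfl
  · rintro rfl
    exact ⟨0, by simp, rfl⟩

lemma adjoin_lt_two : (FreeAlgebra.ι k '' {i : Fin 3 | (i : ℕ) < 2})
    = {(FreeAlgebra.ι k 0 : FreeAlgebra k (Fin 3)), FreeAlgebra.ι k 1} := by
  ext f
  constructor
  · rintro ⟨i, hi, rfl⟩
    fin_cases i
    · exact Or.inl rfl
    · exact Or.inr rfl
    · exact absurd hi (by simp)
  · rintro (rfl | rfl)
    · exact ⟨0, by simp, rfl⟩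
    · exact ⟨1, by simp, rfl⟩

/-- the main theorem with three exceptional generators -/
theorem threeF {F' : Type*} [Ring F'] [Algebra k F'] {X₁ : Type*} [LinearOrder X₁]
    [WellFoundedLT X₁] (g : Fin 3 ⊕ X₁ → F')
    (hg1 : Function.Injective (FreeAlgebra.lift k g)) (hg2 : (FreeAlgebra.lift k g).range = ⊤)
    (π : F' →ₐ[k] F') (hπ : ∀ f, π (π f) = π f) (j : ℕ) (hj₁ : 1 ≤ j) (hj₂ : j ≤ 2)
    (hj : ∀ i : Fin 3, (i : ℕ) < j → π (g (Sum.inl i)) ∈
      Algebra.adjoin k (g '' (Sum.inl '' {i : Fin 3 | (i : ℕ) < j})))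
    (h₀ : ∀ i, π (g (Sum.inl i)) ∈ Algebra.adjoin k (g '' Set.range Sum.inl))
    (h₁ : ∀ x, π (g (Sum.inr x)) ∈
      Algebra.adjoin k (g '' (Set.range Sum.inl ∪ Sum.inr '' Set.Iic x))) :
    ∃ m ≤ 3, ∃ (b : Fin m → F') (Y : Set X₁),
      Function.Injective (FreeAlgebra.lift k (Sum.elim b (fun y : Y => π (g (Sum.inr (y : X₁))))))
      ∧ (FreeAlgebra.lift k (Sum.elim b (fun y : Y => π (g (Sum.inr (y : X₁)))))).range
        = π.range := by
  set σ := gEquiv g hg1 hg2 with hσ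
  set π' := tr g hg1 hg2 π with hπ'
  have hσπ : ∀ f, σ (π' f) = π (σ f) := σ_tr g hg1 hg2 π
  have hidem : ∀ f, π' (π' f) = π' f := fun f => σ.injective (by rw [hσπ, hσπ, hπ])
  have hmem : ∀ (z : Fin 3 ⊕ X₁) (A : Set (Fin 3 ⊕ X₁)), π (g z) ∈ Algebra.adjoin k (g '' A) →
      π' (FreeAlgebra.ι k z) ∈ ad k A := by
    intro z A hz
    refine mem_ad_of g hg1 _ _ ?_
    have : FreeAlgebra.lift k g (π' (FreeAlgebra.ι k z)) = π (g z) :=
      (hσπ _).trans (by rw [hσ, gEquiv_ι])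
    rw [this]
    exact hz
  obtain ⟨m, hm, φ₀, h1, h2⟩ := base_of π' (fun i => hmem _ _ (h₀ i)) (fun π₀ hπ₀ => by
    have hinclinj : Function.Injective (vmap k (Sum.inl : Fin 3 → Fin 3 ⊕ X₁)) := by
      have : ∀ f, FreeAlgebra.lift k (Sum.elim (fun i => (FreeAlgebra.ι k i : F k (Fin 3)))
          (fun _ => 0)) (vmap k (Sum.inl : Fin 3 → Fin 3 ⊕ X₁) f) = f := fun f =>
        hom_eq (φ := (FreeAlgebra.lift k (Sum.elim (fun i => (FreeAlgebra.ι k i : F k (Fin 3)))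
          (fun _ => 0))).comp (vmap k (Sum.inl : Fin 3 → Fin 3 ⊕ X₁)))
          (ψ := AlgHom.id k _) (fun i => by simp) f
      intro a b hab
      rw [← this a, ← this b, hab]
    have hid : ∀ f, π₀ (π₀ f) = π₀ f := fun f => hinclinj (by rw [hπ₀, hπ₀, hidem])
    have hj' : ∀ i : Fin 3, (i : ℕ) < j → π₀ (FreeAlgebra.ι k i) ∈
        Algebra.adjoin k (FreeAlgebra.ι k '' {i : Fin 3 | (i : ℕ) < j}) := by
      intro i hi
      have h3 := hmem _ _ (hj i hi)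
      have h4 : vmap k (Sum.inl : Fin 3 → Fin 3 ⊕ X₁) (π₀ (FreeAlgebra.ι k i)) ∈
          (Algebra.adjoin k (FreeAlgebra.ι k '' {i : Fin 3 | (i : ℕ) < j})).map
            (vmap k (Sum.inl : Fin 3 → Fin 3 ⊕ X₁)) := by
        rw [hπ₀, vmap_ι, AlgHom.map_adjoin]
        convert h3 using 2
        rw [Set.image_image, Set.image_image]
        exact Set.image_congr fun x _ => by simp
      obtain ⟨a, ha, ha'⟩ := h4
      rw [← hinclinj ha']
      exact ha
    refine three π₀ hid ?_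
    have hj12 : j = 1 ∨ j = 2 := by omega
    rcases hj12 with rfl | rfl
    · left
      have h3 := hj' 0 (by norm_num)
      rwa [adjoin_lt_one] at h3
    · right
      have h3 := hj' 0 (by norm_num)
      have h4 := hj' 1 (by norm_num)
      rw [adjoin_lt_two] at h3 h4
      exact ⟨h3, h4⟩)
  have h5 : FreeAlgebra.lift k (fun i => σ (φ₀ (FreeAlgebra.ι k i))) = σ.toAlgHom.comp φ₀ := by
    apply FreeAlgebra.hom_ext
    funext z
    simp only [Function.comp_apply, FreeAlgebra.lift_ι_apply]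
    rfl
  obtain ⟨Y, hY⟩ := relativeF g hg1 hg2 π hπ h₀ h₁ (fun i => σ (φ₀ (FreeAlgebra.ι k i)))
    (by rw [h5]; exact σ.injective.comp h1)
    (by rw [h5, AlgHom.range_comp, h2]; exact map_tr g hg1 hg2 π _)
  exact ⟨m, hm, _, Y, hY⟩

end Rfa
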