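import Pool.Agent.Lib.Rfa.Flag

/-!
Triangular retractions of free algebras of any rank.
-/

namespace Rfa

variable {k : Type*} [Field k] {X : Type*} [DecidableEq X]

lemma D_sum (ε : F k X →ₐ[k] k) (x : X) {T : Type*} (t : Finset T) (f : T → F k X) :
    D ε x (∑ i ∈ t, f i) = ∑ i ∈ t, D ε x (f i) := by
  simp [D, map_sum, Matrix.sum_apply]

/-- the linear part of an element, for arbitrary rank -/
lemma lin_mem' (ε : F k X →ₐ[k] k) (f : F k X) : ∃ s : Finset X, ∀ t, s ⊆ t →
    (∀ x ∉ t, lam ε x f = 0) ∧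
    f - (algebraMap k (F k X) (ε f) + ∑ x ∈ t, algebraMap k (F k X) (lam ε x f) * cx ε x)
      ∈ I ε 2 := by
  obtain ⟨s, hs⟩ := recon' ε f
  refine ⟨s, fun t ht => ?_⟩
  obtain ⟨h1, h2⟩ := hs t ht
  refine ⟨fun x hx => by rw [lam, h1 x hx, map_zero], ?_⟩
  have h3 : f - (algebraMap k (F k X) (ε f) + ∑ x ∈ t, algebraMap k (F k X) (lam ε x f) * cx ε x)
      = ∑ x ∈ t, (D ε x f - algebraMap k (F k X) (lam ε x f)) * cx ε x := by
    have h4 : ∑ x ∈ t, (D ε x f - algebraMap k (F k X) (lam ε x f)) * cx ε x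
        = ∑ x ∈ t, D ε x f * cx ε x - ∑ x ∈ t, algebraMap k (F k X) (lam ε x f) * cx ε x := by
      rw [← Finset.sum_sub_distrib]
      exact Finset.sum_congr rfl fun x _ => by rw [sub_mul]
    rw [h4]
    have h5 : ∑ x ∈ t, D ε x f * cx ε x = f - algebraMap k (F k X) (ε f) := by
      rw [eq_sub_iff_add_eq, add_comm]; exact h2.symm
    rw [h5]
    abel
  rw [h3]
  refine sum_mem fun x _ => ?_
  exact I_mul ε 1 1 _ ((I_one ε _).2 (by simp [lam])) _ (cx_mem ε x)

/-- the chain rule -/
lemma chain {Z : Type*} [DecidableEq Z] (ε : F k X →ₐ[k] k) (ε' : F k Z →ₐ[k] k)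
    (θ : F k X →ₐ[k] F k Z) (hθ : ∀ f, ε' (θ f) = ε f) (z : Z) (f : F k X) (t : Finset X)
    (ht : ∀ x ∉ t, D ε x f = 0) :
    D ε' z (θ f) = ∑ x ∈ t, θ (D ε x f) * D ε' z (θ (FreeAlgebra.ι k x)) := by
  obtain ⟨s, hs⟩ := recon' ε f
  have h1 := (hs (s ∪ t) Finset.subset_union_left).2
  have h2 := congrArg (fun g => D ε' z (θ g)) h1
  simp only [map_add, map_sum, map_mul, D_add, D_sum, AlgHom.commutes, D_algebraMap, zero_add]
    at h2
  rw [h2]
  symm
  rw [Finset.sum_subset (Finset.subset_union_right (s₁ := s) (s₂ := t)) (fun x _ hx => by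
    rw [ht x hx, map_zero, zero_mul])]
  refine Finset.sum_congr rfl fun x _ => ?_
  rw [D_mul, hθ, ε_cx, map_zero, mul_zero, add_zero]
  congr 1
  simp [cx, D_sub, D_algebraMap]

/-- an endomorphism with unitriangular linear part is injective -/
lemma inj_of_tri {O : Type*} [LinearOrder O] (ε : F k X →ₐ[k] k) (θ : F k X →ₐ[k] F k X)
    (hθ : ∀ f, ε (θ f) = ε f) (r : X → O) (h1 : ∀ x, lam ε x (θ (FreeAlgebra.ι k x)) = 1)
    (h2 : ∀ z x, lam ε x (θ (FreeAlgebra.ι k z)) ≠ 0 → x = z ∨ r x < r z) :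
    Function.Injective θ := by
  have key : ∀ m : ℕ, ∀ g, g ∈ I ε m → θ g ∈ I ε (m + 1) → g ∈ I ε (m + 1) := by
    intro m
    induction m with
    | zero =>
      intro g _ hg
      have := (I_one ε _).1 hg
      rw [hθ] at this
      exact (I_one ε _).2 this
    | succ m ih =>
      intro g hg hθg
      obtain ⟨t, ht⟩ := recon' ε g
      have ht0 := (ht t (Finset.Subset.refl _)).1
      have hS : ∀ x, ∑ z ∈ t, D ε z g *
          algebraMap k (F k X) (lam ε x (θ (FreeAlgebra.ι k z))) ∈ I ε (m + 1) := by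
        intro x
        refine ih _ (sum_mem fun z _ => smul_mem_I ε (hg.2 z) _) ?_
        have h3 : θ (∑ z ∈ t, D ε z g * algebraMap k (F k X) (lam ε x (θ (FreeAlgebra.ι k z))))
            = D ε x (θ g) - ∑ z ∈ t, θ (D ε z g) * (D ε x (θ (FreeAlgebra.ι k z))
              - algebraMap k (F k X) (lam ε x (θ (FreeAlgebra.ι k z)))) := by
          rw [chain ε ε θ hθ x g t ht0, ← Finset.sum_sub_distrib, map_sum]
          refine Finset.sum_congr rfl fun z _ => ?_
          rw [map_mul, AlgHom.commutes]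
          noncomm_ring
        rw [h3]
        refine sub_mem (hθg.2 x) (sum_mem fun z _ => ?_)
        exact I_mul ε m 1 _ (map_I ε ε θ hθ m _ (hg.2 z)) _ ((I_one ε _).2 (by simp [lam]))
      refine ⟨hg.1, ?_⟩
      by_contra hcon
      classical
      have hbad : (t.filter (fun x => D ε x g ∉ I ε (m + 1))).Nonempty := by
        by_contra hempty
        apply hcon
        intro x
        by_contra hx
        apply hempty
        refine ⟨x, Finset.mem_filter.2 ⟨?_, hx⟩⟩
        by_contra hxt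
        apply hx
        rw [ht0 x hxt]
        exact zero_mem _
      obtain ⟨x, hx, hmax⟩ := Finset.exists_max_image _ r hbad
      obtain ⟨hxt, hx⟩ := Finset.mem_filter.1 hx
      apply hx
      have h3 := hS x
      rw [← Finset.add_sum_erase _ _ hxt, h1, map_one, mul_one] at h3
      refine (Submodule.add_mem_iff_left _ (sum_mem fun z hz => ?_)).1 h3
      obtain ⟨hzx, hzt⟩ := Finset.mem_erase.1 hz
      by_cases h0 : lam ε x (θ (FreeAlgebra.ι k z)) = 0
      · rw [h0, map_zero, mul_zero]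
        exact zero_mem _
      · rcases h2 z x h0 with h4 | h4
        · exact absurd h4.symm hzx
        · refine smul_mem_I ε ?_ _
          by_contra h5
          exact absurd (hmax z (Finset.mem_filter.2 ⟨hzt, h5⟩)) (not_le.2 h4)
  rw [injective_iff_map_eq_zero]
  intro g hg
  refine eq_zero_of_I ε fun m => ?_
  induction m with
  | zero => exact mem_I_zero _ _
  | succ m ih => exact key m g ih (by rw [hg]; exact zero_mem _)

omit [DecidableEq X] in
/-- derivations which agree on a set agree on the subalgebra it generates -/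
lemma IsDer.eqOn {ε : F k X →ₐ[k] k} {δ1 δ2 : F k X → k} (h1 : IsDer ε δ1) (h2 : IsDer ε δ2)
    {s : Set (F k X)} (h : ∀ a ∈ s, δ1 a = δ2 a) {f : F k X} (hf : f ∈ Algebra.adjoin k s) :
    δ1 f = δ2 f := by
  induction hf using Algebra.adjoin_induction with
  | mem a ha => exact h a ha
  | algebraMap r => rw [h1.alg, h2.alg]
  | add a b _ _ ha hb => rw [h1.add, h2.add, ha, hb]
  | mul a b _ _ ha hb => rw [h1.mul, h2.mul, ha, hb]

omit [DecidableEq X] in
lemma isDer_zero (ε : F k X →ₐ[k] k) : IsDer ε (fun _ => (0 : k)) :=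
  ⟨fun _ _ => by simp, fun _ _ => by simp, fun _ => rfl⟩

lemma lam_zero_of_mem (ε : F k X →ₐ[k] k) {A : Set X} {x : X} (hx : x ∉ A) {f : F k X}
    (hf : f ∈ Algebra.adjoin k (FreeAlgebra.ι k '' A)) : lam ε x f = 0 := by
  refine (isDer_lam ε x).eqOn (isDer_zero ε) ?_ hf
  rintro _ ⟨a, ha, rfl⟩
  rw [lam_ι, if_neg]
  rintro rfl
  exact hx ha

/-- if the linear coefficient of the variable `b` in its image vanishes, then this image is in
the subalgebra of the others -/
lemma w_mem' (π : F k X →ₐ[k] F k X) (hπ : ∀ f, π (π f) = π f) (ε : F k X →ₐ[k] k)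
    (hε : ∀ f, ε (π f) = ε f) (A : Set X) (b : X) (hb : b ∉ A)
    (hA : ∀ a ∈ A, π (FreeAlgebra.ι k a) ∈ Algebra.adjoin k (FreeAlgebra.ι k '' A))
    (hw : π (FreeAlgebra.ι k b) ∈ Algebra.adjoin k (FreeAlgebra.ι k '' (insert b A)))
    (hc : lam ε b (π (FreeAlgebra.ι k b)) = 0) :
    π (FreeAlgebra.ι k b) ∈ Algebra.adjoin k (FreeAlgebra.ι k '' A) := by
  set w := π (FreeAlgebra.ι k b) with hwdef
  set S := Algebra.adjoin k (FreeAlgebra.ι k '' A) with hS
  set S' := Algebra.adjoin k (FreeAlgebra.ι k '' (insert b A)) with hS'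
  have hιS : ∀ a ∈ A, FreeAlgebra.ι k a ∈ S := fun a ha => Algebra.subset_adjoin ⟨a, ha, rfl⟩
  have hSS' : S ≤ S' := Algebra.adjoin_mono (Set.image_mono (Set.subset_insert b A))
  have hincS : ∀ g ∈ S, π g ∈ S := by
    have : S ≤ S.comap π := by
      refine Algebra.adjoin_le ?_
      rintro _ ⟨a, ha, rfl⟩
      exact hA a ha
    exact fun g hg => this hg
  obtain ⟨t, ht⟩ := lin_mem' ε w
  obtain ⟨ht1, ht2⟩ := ht t (Finset.Subset.refl _)
  set y := algebraMap k (F k X) (ε w)
    + ∑ x ∈ t, algebraMap k (F k X) (lam ε x w) * cx ε x with hy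
  have hyS : y ∈ S := by
    refine S.add_mem (S.algebraMap_mem _) (S.sum_mem fun x _ => ?_)
    by_cases hxA : x ∈ A
    · exact S.mul_mem (S.algebraMap_mem _) (S.sub_mem (hιS x hxA) (S.algebraMap_mem _))
    · have h0 : lam ε x w = 0 := by
        by_cases hxb : x = b
        · rw [hxb]; exact hc
        · refine lam_zero_of_mem ε (A := insert b A) ?_ hw
          rintro (h | h)
          · exact hxb h
          · exact hxA h
      rw [h0, map_zero, zero_mul]
      exact S.zero_mem
  have hw2 : π w = w := hπ _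
  have hw0 : w - π y ∈ I ε 2 := by
    have := map_I ε ε π hε 2 _ ht2
    rwa [map_sub, hw2] at this
  have hseq : ∀ s : ℕ, ∃ a ∈ S, w - a ∈ I ε (s + 2) := by
    intro s
    induction s with
    | zero => exact ⟨π y, hincS y hyS, hw0⟩
    | succ s ih =>
      obtain ⟨a, haS, ha⟩ := ih
      set ψ : F k X →ₐ[k] F k X :=
        FreeAlgebra.lift k (Function.update (fun x => π (FreeAlgebra.ι k x)) b a) with hψ
      have hψb : ψ (FreeAlgebra.ι k b) = a := by simp [hψ]
      have hψx : ∀ x, x ≠ b → ψ (FreeAlgebra.ι k x) = π (FreeAlgebra.ι k x) := fun x hx => by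
        simp [hψ, Function.update_of_ne hx]
      have hψS : ∀ f ∈ S', ψ f ∈ S := by
        have : S' ≤ S.comap ψ := by
          refine Algebra.adjoin_le ?_
          rintro _ ⟨x, hx, rfl⟩
          show ψ (FreeAlgebra.ι k x) ∈ S
          rcases hx with rfl | hx
          · rw [hψb]; exact haS
          · have hxb : x ≠ b := fun h => hb (h ▸ hx)
            rw [hψx x hxb]
            exact hA x hx
        exact fun f hf => this hf
      have hεa : ε a = ε w := by
        have := (I_one ε (w - a)).1 (I_anti' ε (by omega) ha)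
        rw [map_sub, sub_eq_zero] at this
        exact this.symm
      have hψε : ∀ f, ε (ψ f) = ε f := fun f => hom_eq (φ := ε.comp ψ) (ψ := ε)
        (fun x => by
          by_cases hxb : x = b
          · rw [hxb, AlgHom.comp_apply, hψb, hεa, hwdef, hε]
          · rw [AlgHom.comp_apply, hψx x hxb, hε]) f
      refine ⟨π y + ψ (w - π y), S.add_mem (hincS y hyS)
        (hψS _ (S'.sub_mem hw (hSS' (hincS y hyS)))), ?_⟩
      have h1 : w - (π y + ψ (w - π y)) = π (w - π y) - ψ (w - π y) := by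
        rw [map_sub π, hw2, hπ]
        abel
      rw [h1]
      have h2 := sub_mem_I ε ε π ψ hε hψε (s + 1) (fun x => by
        by_cases hxb : x = b
        · rw [hxb, hψb]
          exact ha
        · rw [hψx x hxb, sub_self]
          exact zero_mem _) 2 _ hw0
      rwa [show 2 + (s + 1) = s + 1 + 2 by ring] at h2
  set κ : F k X →ₐ[k] F k X := FreeAlgebra.lift k
    (Function.update (FreeAlgebra.ι k) b (algebraMap k _ (ε (FreeAlgebra.ι k b)))) with hκ
  have hκb : κ (FreeAlgebra.ι k b) = algebraMap k _ (ε (FreeAlgebra.ι k b)) := by simp [hκ]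
  have hκx : ∀ x, x ≠ b → κ (FreeAlgebra.ι k x) = FreeAlgebra.ι k x := fun x hx => by
    simp [hκ, Function.update_of_ne hx]
  have hκS : κ w ∈ S := by
    have : S' ≤ S.comap κ := by
      refine Algebra.adjoin_le ?_
      rintro _ ⟨x, hx, rfl⟩
      show κ (FreeAlgebra.ι k x) ∈ S
      rcases hx with rfl | hx
      · rw [hκb]; exact S.algebraMap_mem _
      · have hxb : x ≠ b := fun h => hb (h ▸ hx)
        rw [hκx x hxb]
        exact hιS x hx
    exact this hw
  have hκfix : ∀ g ∈ S, κ g = g := by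
    have : S ≤ AlgHom.equalizer κ (AlgHom.id k _) := by
      refine Algebra.adjoin_le ?_
      rintro _ ⟨x, hx, rfl⟩
      have hxb : x ≠ b := fun h => hb (h ▸ hx)
      exact hκx x hxb
    exact fun g hg => this hg
  have hκε : ∀ f, ε (κ f) = ε f := fun f => hom_eq (φ := ε.comp κ) (ψ := ε)
    (fun x => by
      by_cases hxb : x = b
      · rw [hxb, AlgHom.comp_apply, hκb, AlgHom.commutes]; rfl
      · rw [AlgHom.comp_apply, hκx x hxb]) f
  have hfin : w - κ w = 0 := by
    refine eq_zero_of_I ε fun m => ?_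
    obtain ⟨a, haS, ha⟩ := hseq m
    have h1 : w - κ w = (w - a) - κ (w - a) := by
      rw [map_sub κ, hκfix a haS]
      abel
    rw [h1]
    refine I_anti' ε (show m ≤ m + 2 by omega) ?_
    exact sub_mem ha (map_I ε ε κ hκε _ _ ha)
  rw [sub_eq_zero.1 hfin]
  exact hκS

end Rfa
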