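import Pool.Agent.Lib.Rfa.Tri

/-!
Retractions of a free algebra whose values on the kernel of the linear part are concentrated in a
short range of degrees.
-/

namespace Rfa

variable {k : Type*} [Field k] {X : Type*} [DecidableEq X]

/-- the centred linear forms -/
def V (ε : F k X →ₐ[k] k) : Submodule k (F k X) := Dg ε 1 ⊓ LinearMap.ker ε.toLinearMap

lemma mem_V (ε : F k X →ₐ[k] k) (f : F k X) : f ∈ V ε ↔ f ∈ Dg ε 1 ∧ ε f = 0 := Iff.rfl

lemma ι_mem_Dg (ε : F k X →ₐ[k] k) (x : X) : FreeAlgebra.ι k x ∈ Dg ε 1 := by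
  intro y
  rw [D_ι]
  split_ifs
  · exact (mem_Dg_zero ε _).2 ⟨1, map_one _⟩
  · exact zero_mem _

lemma const_mem_Dg (ε : F k X →ₐ[k] k) (c : k) (n : ℕ) : algebraMap k (F k X) c ∈ Dg ε n :=
  Dg_mono' ε (Nat.zero_le n) ((mem_Dg_zero ε _).2 ⟨c, rfl⟩)

lemma cx_mem_V (ε : F k X →ₐ[k] k) (x : X) : cx ε x ∈ V ε :=
  ⟨sub_mem (ι_mem_Dg ε x) (const_mem_Dg ε _ 1), ε_cx ε x⟩

/-- a linear form is a combination of the centred variables -/
lemma V_le_span (ε : F k X →ₐ[k] k) : V ε ≤ Submodule.span k (Set.range (cx ε)) := by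
  intro f hf
  obtain ⟨t, ht⟩ := recon' ε f
  have h1 := (ht t (Finset.Subset.refl _)).2
  have hf2 : ε f = 0 := hf.2
  rw [hf2, map_zero, zero_add] at h1
  rw [h1]
  refine sum_mem fun x _ => ?_
  obtain ⟨c, hc⟩ := (mem_Dg_zero ε _).1 (hf.1 x)
  rw [← hc, ← Algebra.smul_def]
  exact Submodule.smul_mem _ _ (Submodule.subset_span ⟨x, rfl⟩)

/-- homomorphisms of degree one preserve the filtration by degree -/
lemma map_Dg {Z : Type*} [DecidableEq Z] (ε : F k X →ₐ[k] k) (ε' : F k Z →ₐ[k] k)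
    (φ : F k X →ₐ[k] F k Z) (hφ : ∀ x, φ (FreeAlgebra.ι k x) ∈ Dg ε' 1) (m : ℕ) :
    ∀ f ∈ Dg ε m, φ f ∈ Dg ε' m := by
  induction m with
  | zero =>
    intro f hf
    obtain ⟨c, rfl⟩ := (mem_Dg_zero ε f).1 hf
    rw [AlgHom.commutes]
    exact const_mem_Dg ε' c 0
  | succ m ih =>
    intro f hf
    obtain ⟨t, ht⟩ := recon' ε f
    have h1 := (ht t (Finset.Subset.refl _)).2
    have h2 := congrArg φ h1
    rw [map_add, AlgHom.commutes, map_sum] at h2
    rw [h2]
    refine add_mem (const_mem_Dg ε' _ _) (sum_mem fun x _ => ?_)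
    rw [map_mul]
    refine Dg_mul ε' m 1 _ (ih _ (hf x)) _ ?_
    rw [cx, map_sub, AlgHom.commutes]
    exact sub_mem (hφ x) (const_mem_Dg ε' _ 1)

/-- the isomorphism of free algebras induced by a bijection of variables -/
noncomputable def vmapE (k : Type*) [Field k] {B Z : Type*} (e : B ≃ Z) : F k B ≃ₐ[k] F k Z :=
  AlgEquiv.ofAlgHom (FreeAlgebra.lift k (fun b => FreeAlgebra.ι k (e b)))
    (FreeAlgebra.lift k (fun b => FreeAlgebra.ι k (e.symm b)))
    (by apply FreeAlgebra.hom_ext; funext b; simp)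
    (by apply FreeAlgebra.hom_ext; funext b; simp)

/-- the criterion -/
theorem window (π : F k X →ₐ[k] F k X) (hπ : ∀ f, π (π f) = π f) (ε : F k X →ₐ[k] k)
    (hε : ∀ f, ε (π f) = ε f) (m : ℕ) (hm : 2 ≤ m) (ℓ : X → F k X) (hℓ : ∀ x, ℓ x ∈ V ε)
    (hnear : ∀ x, π (cx ε x) - ℓ x ∈ I ε m)
    (hwin : ∀ y ∈ V ε, π y ∈ I ε 2 →
      y ∈ Submodule.span k {z | ∃ a, π z ∈ I ε a ∧ π z ∈ Dg ε (a + m - 2)}) :
    ∃ (B : Set (F k X)) (φ : F k B →ₐ[k] F k X), Function.Injective φ ∧ φ.range = π.range := by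
  obtain ⟨s, rfl⟩ : ∃ s, m = s + 1 := ⟨m - 1, by omega⟩
  set L : F k X →ₐ[k] F k X := FreeAlgebra.lift k
    (fun x => algebraMap k _ (ε (FreeAlgebra.ι k x)) + ℓ x) with hL
  have hLι : ∀ x, L (FreeAlgebra.ι k x) = algebraMap k _ (ε (FreeAlgebra.ι k x)) + ℓ x :=
    fun x => by simp [hL]
  have hLcx : ∀ x, L (cx ε x) = ℓ x := fun x => by
    rw [cx, map_sub, hLι, AlgHom.commutes]; abel
  have hεL : ∀ f, ε (L f) = ε f := fun f => hom_eq (φ := ε.comp L) (ψ := ε) (fun x => by
    have h0 : ε (ℓ x) = 0 := (hℓ x).2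
    rw [AlgHom.comp_apply, hLι, map_add, h0, add_zero, AlgHom.commutes]; rfl) f
  have hLDg : ∀ n, ∀ f ∈ Dg ε n, L f ∈ Dg ε n := map_Dg ε ε L (fun x => by
    rw [hLι]
    exact add_mem (const_mem_Dg ε _ 1) (hℓ x).1)
  have hLV : ∀ f ∈ V ε, L f ∈ V ε := fun f hf => ⟨hLDg 1 f hf.1, by
    show ε (L f) = 0
    rw [hεL]; exact hf.2⟩
  have hnear' : ∀ x, π (FreeAlgebra.ι k x) - L (FreeAlgebra.ι k x) ∈ I ε (s + 1) := fun x => by
    have h1 : π (FreeAlgebra.ι k x) - L (FreeAlgebra.ι k x) = π (cx ε x) - ℓ x := by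
      rw [hLι, cx, map_sub, AlgHom.commutes]; abel
    rw [h1]
    exact hnear x
  have hsub : ∀ n, ∀ f ∈ I ε n, π f - L f ∈ I ε (n + s) := sub_mem_I ε ε π L hε hεL s hnear'
  have hs1 : 1 ≤ s := by omega
  -- the linear part is idempotent
  have hVI : ∀ f ∈ V ε, f ∈ I ε 2 → f = 0 := fun f hf h => eq_zero_of_I_Dg ε 1 f hf.1 h
  have hVI1 : ∀ f ∈ V ε, f ∈ I ε 1 := fun f hf => (I_one ε f).2 hf.2
  have hπL : ∀ f ∈ V ε, π f - L f ∈ I ε 2 := fun f hf =>
    I_anti' ε (by omega) (hsub 1 f (hVI1 f hf))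
  have hLL : ∀ f ∈ V ε, L (L f) = L f := by
    intro f hf
    have h1 := hπL f hf
    have h2 := map_I ε ε π hε 2 _ h1
    rw [map_sub, hπ] at h2
    have h3 := hπL (L f) (hLV f hf)
    have h4 : L (L f) - L f ∈ I ε 2 := by
      have : L (L f) - L f = (π f - L f) - (π f - π (L f)) - (π (L f) - L (L f)) := by abel
      rw [this]
      exact sub_mem (sub_mem h1 h2) h3
    exact sub_eq_zero.1 (hVI _ (sub_mem (hLV _ (hLV f hf)) (hLV f hf)) h4)
  -- the crucial step
  have hcr : ∀ z, (∃ a, π z ∈ I ε a ∧ π z ∈ Dg ε (a + (s + 1) - 2)) → ∃ g, π z = π (L g) := by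
    rintro z ⟨a, h1, h2⟩
    refine ⟨π z, ?_⟩
    have h3 := hsub a (π z) h1
    rw [hπ] at h3
    have h4 : π z - L (π z) = 0 := by
      refine eq_zero_of_I_Dg ε (a + (s + 1) - 2) _ (sub_mem h2 (hLDg _ _ h2)) ?_
      exact I_anti' ε (by omega) h3
    rw [← sub_eq_zero.1 h4, hπ]
  have hcr' : ∀ z ∈ Submodule.span k {z | ∃ a, π z ∈ I ε a ∧ π z ∈ Dg ε (a + (s + 1) - 2)},
      ∃ g, π z = π (L g) := by
    intro z hz
    have : Submodule.span k {z | ∃ a, π z ∈ I ε a ∧ π z ∈ Dg ε (a + (s + 1) - 2)} ≤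
        (LinearMap.range (π.toLinearMap.comp L.toLinearMap)).comap π.toLinearMap := by
      refine Submodule.span_le.2 ?_
      intro w hw
      obtain ⟨g, hg⟩ := hcr w hw
      exact ⟨g, hg.symm⟩
    obtain ⟨g, hg⟩ := this hz
    exact ⟨g, hg.symm⟩
  have hgen : ∀ x, ∃ g, π (FreeAlgebra.ι k x) = π (L g) := by
    intro x
    have hy : cx ε x - L (cx ε x) ∈ V ε := sub_mem (cx_mem_V ε x) (hLV _ (cx_mem_V ε x))
    have h1 : π (cx ε x - L (cx ε x)) ∈ I ε 2 := by
      have h2 := hπL _ hy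
      rwa [map_sub L, hLL _ (cx_mem_V ε x), sub_self, sub_zero] at h2
    obtain ⟨g, hg⟩ := hcr' _ (hwin _ hy h1)
    refine ⟨g + cx ε x + algebraMap k _ (ε (FreeAlgebra.ι k x)), ?_⟩
    have h3 : FreeAlgebra.ι k x = (cx ε x - L (cx ε x)) + L (cx ε x)
        + algebraMap k _ (ε (FreeAlgebra.ι k x)) := by
      rw [sub_add_cancel]
      simp [cx]
    conv_lhs => rw [h3]
    rw [map_add π, map_add π, hg, map_add L, map_add L, map_add π, map_add π, AlgHom.commutes L]
  -- a basis of the image of the linear part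
  set V1 : Submodule k (F k X) := (V ε).map L.toLinearMap with hV1
  have hV1V : V1 ≤ V ε := by
    rintro _ ⟨f, hf, rfl⟩
    exact hLV f hf
  have hLV1 : ∀ f ∈ V1, L f = f := by
    rintro _ ⟨f, hf, rfl⟩
    exact hLL f hf
  classical
  set bs := Module.Basis.ofVectorSpace k V1 with hbs
  set B' := Module.Basis.ofVectorSpaceIndex k V1 with hB'
  -- the homomorphisms
  set j : F k B' →ₐ[k] F k X := FreeAlgebra.lift k (fun b => ((bs b : V1) : F k X)) with hj
  have hjι : ∀ b, j (FreeAlgebra.ι k b) = ((bs b : V1) : F k X) := fun b => by simp [hj]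
  set Q : V1 →ₗ[k] F k B' := bs.constr k (fun b => FreeAlgebra.ι k b) with hQ
  have hQb : ∀ b, Q (bs b) = FreeAlgebra.ι k b := fun b => by rw [hQ, Module.Basis.constr_basis]
  have hLmem : ∀ f (hf : f ∈ V ε), L f ∈ V1 := fun f hf => ⟨f, hf, rfl⟩
  set q : F k X →ₐ[k] F k B' := FreeAlgebra.lift k
    (fun x => algebraMap k _ (ε (FreeAlgebra.ι k x)) + Q ⟨L (cx ε x), hLmem _ (cx_mem_V ε x)⟩)
    with hq
  have hqcx : ∀ x, q (cx ε x) = Q ⟨L (cx ε x), hLmem _ (cx_mem_V ε x)⟩ := fun x => by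
    have h1 : q (cx ε x) = q (FreeAlgebra.ι k x) - q (algebraMap k _ (ε (FreeAlgebra.ι k x))) :=
      map_sub q _ _
    have h2 : q (FreeAlgebra.ι k x) = algebraMap k _ (ε (FreeAlgebra.ι k x))
        + Q ⟨L (cx ε x), hLmem _ (cx_mem_V ε x)⟩ := FreeAlgebra.lift_ι_apply _ _
    rw [h1, h2, AlgHom.commutes]
    abel
  set εB : F k B' →ₐ[k] k := FreeAlgebra.lift k (fun _ => 0) with hεB
  have hεBQ : ∀ v, εB (Q v) = 0 := by
    intro v
    have : εB.toLinearMap.comp Q = 0 := bs.ext fun b => by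
      show εB (Q (bs b)) = 0
      rw [hQb]; simp [hεB]
    exact LinearMap.congr_fun this v
  have hεq : ∀ f, εB (q f) = ε f := fun f => hom_eq (φ := εB.comp q) (ψ := ε) (fun x => by
    rw [AlgHom.comp_apply, hq, FreeAlgebra.lift_ι_apply, map_add, hεBQ, add_zero,
      AlgHom.commutes]
    rfl) f
  have hqV : ∀ f (hf : f ∈ V ε), q f = Q ⟨L f, hLmem f hf⟩ := by
    intro f hf
    have h1 := V_le_span ε hf
    have key : ∀ f ∈ Submodule.span k (Set.range (cx ε)), ∀ hf : f ∈ V ε,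
        q f = Q ⟨L f, hLmem f hf⟩ := by
      intro f hf
      induction hf using Submodule.span_induction with
      | mem w hw =>
        obtain ⟨x, rfl⟩ := hw
        intro _
        exact hqcx x
      | zero =>
        intro hf
        rw [map_zero]
        have : (⟨L 0, hLmem 0 hf⟩ : V1) = 0 := Subtype.ext (by simp)
        rw [this, map_zero]
      | add a b ha hb iha ihb =>
        intro hf
        have haV : a ∈ V ε := by
          have : Submodule.span k (Set.range (cx ε)) ≤ V ε := Submodule.span_le.2 (by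
            rintro _ ⟨x, rfl⟩; exact cx_mem_V ε x)
          exact this ha
        have hbV : b ∈ V ε := by
          have : Submodule.span k (Set.range (cx ε)) ≤ V ε := Submodule.span_le.2 (by
            rintro _ ⟨x, rfl⟩; exact cx_mem_V ε x)
          exact this hb
        rw [map_add q, iha haV, ihb hbV, ← map_add Q]
        congr 1
        exact Subtype.ext (by simp)
      | smul c a ha iha =>
        intro hf
        have haV : a ∈ V ε := by
          have : Submodule.span k (Set.range (cx ε)) ≤ V ε := Submodule.span_le.2 (by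
            rintro _ ⟨x, rfl⟩; exact cx_mem_V ε x)
          exact this ha
        rw [map_smul q, iha haV, ← map_smul Q]
        congr 1
        exact Subtype.ext (by simp)
    exact key f h1 hf
  have hqb : ∀ b, q ((bs b : V1) : F k X) = FreeAlgebra.ι k b := by
    intro b
    rw [hqV _ (hV1V (bs b).2), ← hQb b]
    congr 1
    exact Subtype.ext (hLV1 _ (bs b).2)
  set φ : F k B' →ₐ[k] F k X := π.comp j with hφ
  have hφinj : Function.Injective φ := by
    have h1 : Function.Injective (q.comp φ) := by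
      refine inj_of_near εB (q.comp φ) (fun f => ?_) (fun b => ?_)
      · rw [AlgHom.comp_apply, hεq]
        refine hom_eq (φ := ε.comp φ) (ψ := εB) (fun b => ?_) f
        have h0 : ε ((bs b : V1) : F k X) = 0 := (hV1V (bs b).2).2
        rw [AlgHom.comp_apply, hφ, AlgHom.comp_apply, hε, hjι, h0]
        simp [hεB]
      · have h2 : (q.comp φ) (FreeAlgebra.ι k b) - FreeAlgebra.ι k b
            = q (π ((bs b : V1) : F k X) - ((bs b : V1) : F k X)) := by
          rw [map_sub, hqb, AlgHom.comp_apply, hφ, AlgHom.comp_apply, hjι]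
        rw [h2]
        refine map_I ε εB q hεq 2 _ ?_
        have h3 := hπL _ (hV1V (bs b).2)
        rwa [hLV1 _ (bs b).2] at h3
    intro a b hab
    exact h1 (congrArg q hab)
  have hLj : ∀ g, L g ∈ j.range := by
    intro g
    refine map_mem L j.range (fun x => ?_) g
    rw [hLι]
    refine j.range.add_mem (j.range.algebraMap_mem _) ?_
    rw [← hLcx]
    have h1 : L (cx ε x) ∈ V1 := hLmem _ (cx_mem_V ε x)
    have h2 : ∀ v : V1, (v : F k X) ∈ Subalgebra.toSubmodule j.range := by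
      intro v
      have : (⊤ : Submodule k V1) ≤ (Subalgebra.toSubmodule j.range).comap V1.subtype := by
        rw [← bs.span_eq]
        refine Submodule.span_le.2 ?_
        rintro _ ⟨b, rfl⟩
        exact ⟨FreeAlgebra.ι k b, hjι b⟩
      exact this Submodule.mem_top
    exact h2 ⟨_, h1⟩
  have hφr : φ.range = π.range := by
    apply le_antisymm
    · rintro _ ⟨g, rfl⟩
      exact ⟨j g, rfl⟩
    · rintro _ ⟨f, rfl⟩
      refine map_mem π φ.range (fun x => ?_) f
      obtain ⟨g, hg⟩ := hgen x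
      obtain ⟨c, hc⟩ := hLj g
      rw [hg]
      refine ⟨c, ?_⟩
      show π (j c) = π (L g)
      exact congrArg π hc
  -- the index set as a set of elements of the algebra
  set B : Set (F k X) := (fun b : B' => ((b : V1) : F k X)) '' Set.univ with hBdef
  have hinjB : Function.Injective (fun b : B' => ((b : V1) : F k X)) :=
    Subtype.val_injective.comp Subtype.val_injective
  have eB : B' ≃ B := (Equiv.Set.univ B').symm.trans (Equiv.Set.image _ Set.univ hinjB)
  refine ⟨B, φ.comp (vmapE k eB.symm).toAlgHom, ?_, ?_⟩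
  · exact hφinj.comp (vmapE k eB.symm).injective
  · rw [← hφr]
    apply le_antisymm
    · rintro _ ⟨g, rfl⟩
      exact ⟨_, rfl⟩
    · rintro _ ⟨g, rfl⟩
      refine ⟨(vmapE k eB.symm).symm g, ?_⟩
      show φ ((vmapE k eB.symm) ((vmapE k eB.symm).symm g)) = φ g
      rw [AlgEquiv.apply_symm_apply]

end Rfa
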